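import Pool.Agent.Work.MP_bc729a_al.LA.ArL

/-! # Module ArC (M): which dimensions are excluded

In each part suppose the contrary. By `exists_choose_dvd` (contrapositive), for every listed pair `(r, e)` with `n / e ≥ 1`:
`n / e + 1 = a * r ^ t` with `0 < a < r` (note `2 j ≤ n / e` gives `2 (e j) ≤ n`).
`ar_two`, pairs `(3, 2)`, `(7, 3)`: `n / 2 + 1 = a 3^s`, `a ∈ {1, 2}`, `n / 3 + 1 = b 7^t`, `b ≤ 6`. `n` is `2 a 3^s - 2` or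
`2 a 3^s - 1`. `s = 0`: `n ≤ 3`. `s ≥ 1`: `n / 3 + 1 = 2 a 3^(s-1) = b 7^t`; `7` does not divide the left side, so `t = 0`, and
`2 a 3^(s-1) ≤ 6`, so `s = 1` or (`s = 2`, `a = 1`): `n ∈ {4, 5, 10, 11, 16, 17}`.
`ar_three`, pairs `(2, 2)`, `(5, 4)`: `n / 2 + 1 = 2^s`, `n / 4 + 1 = b 5^t`, `b ≤ 4`: `n ∈ {2^(s+1) - 2, 2^(s+1) - 1}`, `s ≥ 2` (as
`n ≥ 4`), `n / 4 + 1 = 2^(s-1)`, so `t = 0`, `2^(s-1) ≤ 4`: `s = 2, 3`: `n ∈ {6, 7, 14, 15}`.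
`ar_five`, pairs `(2, 2)`, `(3, 2)`: `2^s = a 3^t`, so `t = 0`, `n / 2 + 1 ≤ 2`, `n ≤ 3`.
`ar_seven`, pairs `(2, 2)`, `(3, 3)`, `(5, 4)`: as `ar_three`, and for `n = 14`: `14 / 3 + 1 = 5` is not `a 3^t` with `a < 3` (or directly
`j = 2`: `3 ∣ C(4, 2)`). Conclusion `n ∈ {6, 7, 15}`. -/

namespace Pool.Agent.Work.MP_bc729a_al.LA



universe u v

private theorem arC_key {n r e : ℕ} (hr : r.Prime) (he : 0 < e) (hne : e ≤ n)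
    (h : ¬ ∃ j, 0 < j ∧ 2 * (e * j) ≤ n ∧ r ∣ (n / e).choose j) :
    ∃ a t, 0 < a ∧ a < r ∧ n / e + 1 = a * r ^ t := by
  by_contra hcon
  push Not at hcon
  obtain ⟨j, hj0, hj2, hj⟩ := exists_choose_dvd hr (Nat.div_pos hne he)
    (fun a t h1 h2 => hcon a t h1 h2)
  refine h ⟨j, hj0, ?_, hj⟩
  calc 2 * (e * j) = e * (2 * j) := by ring
    _ ≤ e * (n / e) := Nat.mul_le_mul_left _ hj2
    _ ≤ n := Nat.mul_div_le _ _

theorem ar_two {n : ℕ} (hn : 3 ≤ n) (h3 : n ≠ 3) (h4 : n ≠ 4) (h5 : n ≠ 5) (h10 : n ≠ 10)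
    (h11 : n ≠ 11) (h16 : n ≠ 16) (h17 : n ≠ 17) :
    ∃ r e j, ((r = 3 ∧ e = 2) ∨ (r = 7 ∧ e = 3)) ∧ 0 < j ∧ 2 * (e * j) ≤ n ∧
      r ∣ (n / e).choose j := by
  by_contra hcon
  have k1 : ¬ ∃ j, 0 < j ∧ 2 * (2 * j) ≤ n ∧ 3 ∣ (n / 2).choose j := by
    rintro ⟨j, h⟩
    exact hcon ⟨3, 2, j, Or.inl ⟨rfl, rfl⟩, h⟩
  have k2 : ¬ ∃ j, 0 < j ∧ 2 * (3 * j) ≤ n ∧ 7 ∣ (n / 3).choose j := by
    rintro ⟨j, h⟩
    exact hcon ⟨7, 3, j, Or.inr ⟨rfl, rfl⟩, h⟩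
  obtain ⟨a, s, ha0, ha, hs⟩ := arC_key Nat.prime_three (by norm_num) (by omega) k1
  obtain ⟨b, t, hb0, hb, ht⟩ := arC_key (by norm_num : Nat.Prime 7) (by norm_num) (by omega) k2
  rcases s with _ | k
  · rw [pow_zero, mul_one] at hs
    omega
  · have hm : a * 3 ^ (k + 1) = 3 * (a * 3 ^ k) := by ring
    rw [hm] at hs
    have hm0 : 0 < a * 3 ^ k := by positivity
    rcases t with _ | t
    · rw [pow_zero, mul_one] at ht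
      omega
    · have ht' : b * 7 ^ (t + 1) = 7 * (b * 7 ^ t) := by ring
      rw [ht'] at ht
      have h2 : 2 * (a * 3 ^ k) = 7 * (b * 7 ^ t) := by omega
      have h7 : 7 ∣ 2 * (a * 3 ^ k) := ⟨_, h2⟩
      have p7 : Nat.Prime 7 := by norm_num
      rcases (Nat.Prime.dvd_mul p7).1 h7 with h | h
      · exact absurd (Nat.le_of_dvd (by norm_num) h) (by norm_num)
      · rcases (Nat.Prime.dvd_mul p7).1 h with h | h
        · exact absurd (Nat.le_of_dvd ha0 h) (by omega)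
        · have := p7.dvd_of_dvd_pow h
          exact absurd (Nat.le_of_dvd (by norm_num) this) (by norm_num)

theorem ar_three {n : ℕ} (hn : 4 ≤ n) (h6 : n ≠ 6) (h7 : n ≠ 7) (h14 : n ≠ 14) (h15 : n ≠ 15) :
    ∃ r e j, ((r = 2 ∧ e = 2) ∨ (r = 5 ∧ e = 4)) ∧ 0 < j ∧ 2 * (e * j) ≤ n ∧
      r ∣ (n / e).choose j := by
  by_contra hcon
  have k1 : ¬ ∃ j, 0 < j ∧ 2 * (2 * j) ≤ n ∧ 2 ∣ (n / 2).choose j := by
    rintro ⟨j, h⟩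
    exact hcon ⟨2, 2, j, Or.inl ⟨rfl, rfl⟩, h⟩
  have k2 : ¬ ∃ j, 0 < j ∧ 2 * (4 * j) ≤ n ∧ 5 ∣ (n / 4).choose j := by
    rintro ⟨j, h⟩
    exact hcon ⟨5, 4, j, Or.inr ⟨rfl, rfl⟩, h⟩
  obtain ⟨a, s, ha0, ha, hs⟩ := arC_key Nat.prime_two (by norm_num) (by omega) k1
  obtain ⟨b, t, hb0, hb, ht⟩ := arC_key Nat.prime_five (by norm_num) (by omega) k2
  have ha1 : a = 1 := by omega
  rw [ha1, one_mul] at hs
  rcases s with _ | _ | k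
  · rw [pow_zero] at hs
    omega
  · rw [zero_add, pow_one] at hs
    omega
  · have hm : 2 ^ (k + 1 + 1) = 4 * 2 ^ k := by ring
    rw [hm] at hs
    have hm0 : 0 < 2 ^ k := by positivity
    rcases t with _ | t
    · rw [pow_zero, mul_one] at ht
      omega
    · have ht' : b * 5 ^ (t + 1) = 5 * (b * 5 ^ t) := by ring
      rw [ht'] at ht
      have h2 : 2 * 2 ^ k = 5 * (b * 5 ^ t) := by omega
      have h5 : 5 ∣ 2 * 2 ^ k := ⟨_, h2⟩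
      rcases (Nat.Prime.dvd_mul Nat.prime_five).1 h5 with h | h
      · exact absurd (Nat.le_of_dvd (by norm_num) h) (by norm_num)
      · have := Nat.prime_five.dvd_of_dvd_pow h
        exact absurd (Nat.le_of_dvd (by norm_num) this) (by norm_num)

theorem ar_five {n : ℕ} (hn : 4 ≤ n) :
    ∃ r e j, ((r = 2 ∧ e = 2) ∨ (r = 3 ∧ e = 2)) ∧ 0 < j ∧ 2 * (e * j) ≤ n ∧
      r ∣ (n / e).choose j := by
  by_contra hcon
  have k1 : ¬ ∃ j, 0 < j ∧ 2 * (2 * j) ≤ n ∧ 2 ∣ (n / 2).choose j := by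
    rintro ⟨j, h⟩
    exact hcon ⟨2, 2, j, Or.inl ⟨rfl, rfl⟩, h⟩
  have k2 : ¬ ∃ j, 0 < j ∧ 2 * (2 * j) ≤ n ∧ 3 ∣ (n / 2).choose j := by
    rintro ⟨j, h⟩
    exact hcon ⟨3, 2, j, Or.inr ⟨rfl, rfl⟩, h⟩
  obtain ⟨a, s, ha0, ha, hs⟩ := arC_key Nat.prime_two (by norm_num) (by omega) k1
  obtain ⟨b, t, hb0, hb, ht⟩ := arC_key Nat.prime_three (by norm_num) (by omega) k2
  have ha1 : a = 1 := by omega
  rw [ha1, one_mul] at hs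
  rcases t with _ | t
  · rw [pow_zero, mul_one] at ht
    omega
  · have ht' : b * 3 ^ (t + 1) = 3 * (b * 3 ^ t) := by ring
    rw [ht'] at ht
    have h3 : 3 ∣ 2 ^ s := ⟨_, hs.symm.trans ht⟩
    have := Nat.prime_three.dvd_of_dvd_pow h3
    exact absurd (Nat.le_of_dvd (by norm_num) this) (by norm_num)

theorem ar_seven {n : ℕ} (hn : 4 ≤ n) (h6 : n ≠ 6) (h7 : n ≠ 7) (h15 : n ≠ 15) :
    ∃ r e j, ((r = 2 ∧ e = 2) ∨ (r = 3 ∧ e = 3) ∨ (r = 5 ∧ e = 4)) ∧ 0 < j ∧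
      2 * (e * j) ≤ n ∧ r ∣ (n / e).choose j := by
  by_cases h14 : n = 14
  · refine ⟨3, 3, 2, Or.inr (Or.inl ⟨rfl, rfl⟩), by norm_num, by omega, ?_⟩
    rw [h14]
    decide
  · obtain ⟨r, e, j, h, h'⟩ := ar_three hn h6 h7 h14 h15
    refine ⟨r, e, j, ?_, h'⟩
    rcases h with h | h
    · exact Or.inl h
    · exact Or.inr (Or.inr h)

end Pool.Agent.Work.MP_bc729a_al.LA
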