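import Pool.Agent.Work.MP_bc729a_al.LA.BigDef

/-! # Module BigEx (S-M): the numerical data of the leftover cases for `q = 2`

Finite checks. `Big.dim`: `interval_cases d` and evaluate `gb q d 1` (`by decide`, `norm_num [gb]`, or `Nat.decEq` with `decide +kernel`;
`gb` is computable). `sv`: `s ^ v ∣ gb q es 1` forces `v ≤ 1` here, because `s ^ 2` does not divide it (`pow_dvd_pow`), and `s` is
not `1` modulo `r`. `dr`, `ds`: evaluate. Primality: `norm_num`. `decide +kernel` is allowed. -/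

namespace Pool.Agent.Work.MP_bc729a_al.LA



universe u v

private theorem bx_mk {q n k r er s es : ℕ} (hr : r.Prime) (hs : s.Prime) (hlr : q + 1 < r) (hls : q + 1 < s)
    (hdr : ∀ d ∈ Finset.range (n + 1), 0 < d → r ∣ gb q d 1 → d = er)
    (hds : ∀ d ∈ Finset.range (n + 1), 0 < d → s ∣ gb q d 1 → d = es)
    (hr2 : n < 2 * er) (hs2 : n < 2 * es) (hne : er ≠ es) (hsq : ¬ r ^ 2 ∣ gb q er 1)
    (hsq' : ¬ s ^ 2 ∣ gb q es 1) (hmod : ¬ s ≡ 1 [MOD r]) (h1 : r ∣ gb q n k) (h2 : s ∣ gb q n k) :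
    Data q n k r er s es where
  big := ⟨hr, hlr, fun d h0 hd h => hdr d (Finset.mem_range.2 (Nat.lt_succ_of_le hd)) h0 h, hr2⟩
  big' := ⟨hs, hls, fun d h0 hd h => hds d (Finset.mem_range.2 (Nat.lt_succ_of_le hd)) h0 h, hs2⟩
  ne := hne
  sq := hsq
  sv := by
    intro v hv hd
    rcases Nat.lt_or_ge v 2 with h | h
    · have hv1 : v = 1 := by omega
      rw [hv1, pow_one]
      exact hmod
    · exact absurd (dvd_trans (pow_dvd_pow s h) hd) hsq'
  dr := h1
  ds := h2

theorem data_2_4 : Data 2 4 2 5 4 7 3 := by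
  refine bx_mk (by norm_num) (by norm_num) (by norm_num) (by norm_num) ?_ ?_ (by norm_num) (by norm_num)
    (by norm_num) ?_ ?_ ?_ ?_ ?_ <;> decide +kernel

theorem data_2_10 : Data 2 10 4 17 8 73 9 := by
  refine bx_mk (by norm_num) (by norm_num) (by norm_num) (by norm_num) ?_ ?_ (by norm_num) (by norm_num)
    (by norm_num) ?_ ?_ ?_ ?_ ?_ <;> decide +kernel

theorem data_2_11 : Data 2 11 4 17 8 89 11 := by
  refine bx_mk (by norm_num) (by norm_num) (by norm_num) (by norm_num) ?_ ?_ (by norm_num) (by norm_num)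
    (by norm_num) ?_ ?_ ?_ ?_ ?_ <;> decide +kernel

theorem data_2_16 : Data 2 16 2 257 16 151 15 := by
  refine bx_mk (by norm_num) (by norm_num) (by norm_num) (by norm_num) ?_ ?_ (by norm_num) (by norm_num)
    (by norm_num) ?_ ?_ ?_ ?_ ?_ <;> decide +kernel

theorem data_2_17 : Data 2 17 3 257 16 151 15 := by
  refine bx_mk (by norm_num) (by norm_num) (by norm_num) (by norm_num) ?_ ?_ (by norm_num) (by norm_num)
    (by norm_num) ?_ ?_ ?_ ?_ ?_ <;> decide +kernel

end Pool.Agent.Work.MP_bc729a_al.LA
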