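import Pool.Agent.Work.MP_bc729a_al.LN.Final

/-! # Module Irr (S-M): the monomial group is irreducible for `q ≥ 3`; small groups are proper

PROOF of `irr`. Let `A ≠ ⊥`, `0 ≠ v ∈ A`. Choose `t ∈ F`, `t ≠ 0, 1` (`3 ≤ |F|`). For `i ≠ l` the matrix `D = diag(hd i l t)` (entry `t` in
place `i`, `t⁻¹` in place `l`, `1` elsewhere) is in `monoSL` (`exists_hd`), so `D w ∈ A` for `w ∈ A`, and
`D w - w = (t - 1) w_i e_i + (t⁻¹ - 1) w_l e_l ∈ A`. If `w ∈ A` has `w_i ≠ 0`, `w_l = 0` for some `i ≠ l`, then `e_i ∈ A`. If all coordinates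
of `v` are nonzero, take `w = D v - v` for some `i ≠ l`: `w_i ≠ 0`, and `w_m = 0` for a third index `m` (`n ≥ 3`). So some `e_i ∈ A`, and by
the monomial matrices (`exists_monoSL` with `τ i = j`) all `e_j ∈ A`, `A = ⊤`. (`Hm n F` is the image of `monoSL n F`; `mem_actSL`, `act_pr`.)
`Hm_ne_bot`: an element `m ∈ monoSL` with permutation `swap 0 1` maps `e_0` to a multiple of `e_1`, so it is not scalar and `pr m ≠ 1`
(`pr_eq_iff`).
`stab_ne_top`: choose `0 ≠ v ∈ U`, `w ∉ U`; there is `φ` with `φ w = 0`, `φ v = 1` (`graphT_sep`, `v ∉ pt w`), and `1 + w ⊗ φ` maps `v` to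
`v + w ∉ U`; so `act s U ≠ U`, while every element of `stab {U, W}` fixes `U` (`U ≤ W`, dimensions, `finrank_orderIso`).
`stab_ne_bot`: for `0 ≠ v ∈ U`, `φ ≠ 0` with `φ v = 0` (`exists_perp`), `1 + v ⊗ φ` fixes every subspace containing `v`, so its image is in
`stab {U, W}`; it is not `1` (`pr_eq_iff`: `1 + v ⊗ φ` is not scalar). -/

namespace Pool.Agent.Work.MP_bc729a_al.LA

open Pool.Agent.Work.MP_bc729a_al.LN

open Matrix

universe u v

variable {n : ℕ} {F : Type u} [Field F]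

private theorem irr_mul {A : Lat n F} (h : ∀ s ∈ Hm n F, act n F s A = A) {g : SLn n F}
    (hg : g ∈ monoSL n F) {w : Fin n → F} (hw : w ∈ A) : g.1 *ᵥ w ∈ A := by
  have h1 := h (pr n F g) ⟨g, hg, rfl⟩
  rw [act_pr] at h1
  rw [← h1, mem_actSL]
  exact ⟨w, hw, rfl⟩

private theorem irr_diff {A : Lat n F} (h : ∀ s ∈ Hm n F, act n F s A = A) {t : F} (ht : t ≠ 0)
    {i l : Fin n} (hil : i ≠ l) {w : Fin n → F} (hw : w ∈ A) :
    (fun k => if k = i then (t - 1) * w k else if k = l then (t⁻¹ - 1) * w k else 0) ∈ A := by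
  obtain ⟨g, hg, hgm⟩ := exists_hd hil ht
  have h1 := A.sub_mem (irr_mul h hgm hw) hw
  have h2 : g.1 *ᵥ w - w =
      fun k => if k = i then (t - 1) * w k else if k = l then (t⁻¹ - 1) * w k else 0 := by
    ext k
    rw [Pi.sub_apply, hg, Matrix.mulVec_diagonal]
    unfold hd
    by_cases hk : k = i
    · rw [if_pos hk, if_pos hk]
      ring
    · rw [if_neg hk, if_neg hk]
      by_cases hk' : k = l
      · rw [if_pos hk', if_pos hk']
        ring
      · rw [if_neg hk', if_neg hk']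
        ring
  rw [← h2]
  exact h1

private theorem irr_single {A : Lat n F} (h : ∀ s ∈ Hm n F, act n F s A = A) {t : F} (ht : t ≠ 0)
    (ht1 : t ≠ 1) {i l : Fin n} (hil : i ≠ l) {w : Fin n → F} (hw : w ∈ A) (hi : w i ≠ 0)
    (hl : w l = 0) : (Pi.single i (1 : F) : Fin n → F) ∈ A := by
  have h1 := irr_diff h ht hil hw
  have hc : (t - 1) * w i ≠ 0 := mul_ne_zero (sub_ne_zero.2 ht1) hi
  have h2 := A.smul_mem ((t - 1) * w i)⁻¹ h1
  have h3 : ((t - 1) * w i)⁻¹ •
      (fun k => if k = i then (t - 1) * w k else if k = l then (t⁻¹ - 1) * w k else 0) =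
      (Pi.single i (1 : F) : Fin n → F) := by
    ext k
    rw [Pi.smul_apply, smul_eq_mul]
    by_cases hk : k = i
    · subst hk
      rw [if_pos rfl, Pi.single_eq_same, inv_mul_cancel₀ hc]
    · rw [if_neg hk, Pi.single_eq_of_ne hk]
      by_cases hk' : k = l
      · rw [if_pos hk', hk', hl, mul_zero, mul_zero]
      · rw [if_neg hk', mul_zero]
  rw [← h3]
  exact h2

theorem irr [Finite F] (hF : 3 ≤ Nat.card F) (hn : 3 ≤ n) {A : Lat n F}
    (h : ∀ s ∈ Hm n F, act n F s A = A) : A = ⊥ ∨ A = ⊤ := by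
  classical
  by_cases hA : A = ⊥
  · exact Or.inl hA
  right
  obtain ⟨v, hv, hv0⟩ := Submodule.exists_mem_ne_zero_of_ne_bot hA
  obtain ⟨t, ht⟩ := exists_not_mem ({0, 1} : Finset F)
    (lt_of_le_of_lt Finset.card_le_two (by omega))
  simp only [Finset.mem_insert, Finset.mem_singleton, not_or] at ht
  obtain ⟨ht0, ht1⟩ := ht
  have key : ∃ i : Fin n, (Pi.single i (1 : F) : Fin n → F) ∈ A := by
    by_cases hz : ∃ l, v l = 0
    · obtain ⟨l, hl⟩ := hz
      obtain ⟨i, hi⟩ : ∃ i, v i ≠ 0 := by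
        by_contra hcon
        push Not at hcon
        exact hv0 (funext hcon)
      have hil : i ≠ l := by
        rintro rfl
        exact hi hl
      exact ⟨i, irr_single h ht0 ht1 hil hv hi hl⟩
    · push Not at hz
      have h01 : (⟨0, by omega⟩ : Fin n) ≠ ⟨1, by omega⟩ := by simp
      have h02 : (⟨0, by omega⟩ : Fin n) ≠ ⟨2, by omega⟩ := by simp
      have h12 : (⟨2, by omega⟩ : Fin n) ≠ ⟨1, by omega⟩ := by simp
      have hw := irr_diff h ht0 h01 hv
      refine ⟨⟨0, by omega⟩, irr_single h ht0 ht1 h02 hw ?_ ?_⟩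
      · rw [if_pos rfl]
        exact mul_ne_zero (sub_ne_zero.2 ht1) (hz _)
      · rw [if_neg h02.symm, if_neg h12]
  obtain ⟨i, hi⟩ := key
  have hall : ∀ j : Fin n, (Pi.single j (1 : F) : Fin n → F) ∈ A := by
    intro j
    obtain ⟨m, hm, d, hd, hent⟩ := exists_monoSL (Equiv.swap i j) (fun _ => (1 : F))
      (fun _ => one_ne_zero) i
    have h1 := irr_mul h hm hi
    have h2 : m.1 *ᵥ (Pi.single i (1 : F) : Fin n → F) = d • (Pi.single j (1 : F) : Fin n → F) := by
      ext k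
      rw [Matrix.mulVec_single_one, Matrix.col_apply, hent, Equiv.swap_apply_left, if_pos rfl,
        Pi.smul_apply, smul_eq_mul]
      by_cases hk : k = j
      · rw [if_pos hk, hk, Pi.single_eq_same, mul_one]
      · rw [if_neg hk, Pi.single_eq_of_ne hk, mul_zero]
    rw [h2] at h1
    have h3 := A.smul_mem d⁻¹ h1
    rwa [smul_smul, inv_mul_cancel₀ hd, one_smul] at h3
  rw [Submodule.eq_top_iff']
  intro w
  rw [← Finset.univ_sum_single w]
  refine A.sum_mem fun j _ => ?_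
  have h1 := A.smul_mem (w j) (hall j)
  rwa [← Pi.single_smul, smul_eq_mul, mul_one] at h1

theorem Hm_ne_bot (hn : 3 ≤ n) : Hm n F ≠ ⊥ := by
  intro h
  have h01 : (⟨0, by omega⟩ : Fin n) ≠ ⟨1, by omega⟩ := by simp
  obtain ⟨m, hm, d, hd, hent⟩ := exists_monoSL
    (Equiv.swap (⟨0, by omega⟩ : Fin n) ⟨1, by omega⟩) (fun _ => (1 : F))
    (fun _ => one_ne_zero) ⟨0, by omega⟩
  have h1 : pr n F m = pr n F 1 := by
    have : pr n F m ∈ Hm n F := ⟨m, hm, rfl⟩
    rw [h, Subgroup.mem_bot] at this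
    rw [this, map_one]
  obtain ⟨c, -, hc⟩ := pr_eq_iff.1 h1
  have h2 := congrFun (congrFun hc ⟨1, by omega⟩) ⟨0, by omega⟩
  rw [hent, Equiv.swap_apply_left, if_pos rfl, if_pos rfl, Matrix.smul_apply, sl_one,
    Matrix.one_apply_ne h01.symm, smul_zero] at h2
  exact hd h2

private theorem stab_fix {U W : Lat n F} (hUW : U ≤ W) {s : PSLn n F} (hs : s ∈ stab {U, W}) :
    act n F s U = U := by
  rw [mem_stab] at hs
  have h1 : act n F s U ∈ ({U, W} : Set (Lat n F)) := by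
    rw [← hs]
    exact ⟨U, Set.mem_insert _ _, rfl⟩
  rcases h1 with h1 | h1
  · exact h1
  · have h1' : act n F s U = W := h1
    have h2 : Module.finrank F W = Module.finrank F U := by
      rw [← h1', finrank_orderIso]
    have h3 : U = W := Submodule.eq_of_le_of_finrank_eq hUW h2.symm
    rw [h1', ← h3]

theorem stab_ne_top (hn : 2 ≤ n) {U W : Lat n F} (hUW : U ≤ W) (hU : U ≠ ⊥) (hU' : U ≠ ⊤) :
    stab {U, W} ≠ ⊤ := by
  intro h
  obtain ⟨v, hv, hv0⟩ := Submodule.exists_mem_ne_zero_of_ne_bot hU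
  obtain ⟨w, hw⟩ : ∃ w, w ∉ U := by
    by_contra hcon
    push Not at hcon
    exact hU' (Submodule.eq_top_iff'.2 hcon)
  have hvw : v ∉ pt w := by
    intro hvw
    obtain ⟨c, hc⟩ := Submodule.mem_span_singleton.1 hvw
    have hc0 : c ≠ 0 := by
      rintro rfl
      rw [zero_smul] at hc
      exact hv0 hc.symm
    apply hw
    have h1 := U.smul_mem c⁻¹ hv
    rwa [← hc, smul_smul, inv_mul_cancel₀ hc0, one_smul] at h1
  obtain ⟨φ, hφ1, hφ2⟩ := graphT_sep hvw
  have hφw : φ ⬝ᵥ w = 0 := hφ1 w (Submodule.mem_span_singleton_self w)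
  obtain ⟨g, hg⟩ := exists_XT hφw 1
  have h1 : act n F (pr n F g) U = U := stab_fix hUW (by rw [h]; exact Subgroup.mem_top _)
  rw [act_pr] at h1
  have h2 : g.1 *ᵥ v ∈ U := by
    rw [← h1, mem_actSL]
    exact ⟨v, hv, rfl⟩
  rw [hg, xt_mulVec, hφ2, one_mul, one_smul] at h2
  exact hw ((U.add_mem_iff_right hv).1 h2)

theorem stab_ne_bot (hn : 2 ≤ n) {U W : Lat n F} (hUW : U ≤ W) (hU : U ≠ ⊥) :
    stab {U, W} ≠ ⊥ := by
  intro h
  obtain ⟨v, hv, hv0⟩ := Submodule.exists_mem_ne_zero_of_ne_bot hU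
  obtain ⟨φ, hφ0, hφv⟩ := exists_perp hn v
  obtain ⟨g, hg⟩ := exists_XT hφv 1
  have hfix : ∀ V : Lat n F, v ∈ V → act n F (pr n F g) V = V := by
    intro V hV
    rw [act_pr]
    have hle : actSL n F g V ≤ V := by
      intro x hx
      obtain ⟨u, hu, rfl⟩ := mem_actSL.1 hx
      rw [hg, xt_mulVec]
      exact V.add_mem hu (V.smul_mem _ hV)
    exact Submodule.eq_of_le_of_finrank_eq hle (finrank_orderIso _ _)
  have h1 : pr n F g ∈ stab {U, W} := by
    rw [mem_stab, Set.image_pair, hfix U hv, hfix W (hUW hv)]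
  rw [h, Subgroup.mem_bot] at h1
  have h2 : pr n F g = pr n F 1 := by rw [h1, map_one]
  obtain ⟨c, -, hc⟩ := pr_eq_iff.1 h2
  have hmul : ∀ w : Fin n → F, w + (φ ⬝ᵥ w) • v = c • w := by
    intro w
    have h3 := xt_mulVec v φ 1 w
    rw [← hg, hc, one_mul, Matrix.smul_mulVec, sl_one, Matrix.one_mulVec] at h3
    exact h3.symm
  have hc1 : c = 1 := by
    have h3 := hmul v
    rw [hφv, zero_smul, add_zero] at h3
    by_contra hne
    have h4 : (c - 1) • v = 0 := by
      rw [sub_smul, ← h3, one_smul, sub_self]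
    rcases smul_eq_zero.1 h4 with h5 | h5
    · exact hne (sub_eq_zero.1 h5)
    · exact hv0 h5
  obtain ⟨w0, hw0⟩ := exists_dual hφ0
  have h3 := hmul w0
  rw [hw0, hc1, one_smul, one_smul] at h3
  exact hv0 (by simpa using h3)

end Pool.Agent.Work.MP_bc729a_al.LA
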