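import Pool.Agent.Work.MP_bc729a_al.LN.Final

/-! # Module Pow (S): automorphisms of odd order are collineations

`pow_of_indP`: `IndP (α ^ r) (σ ^ r)` by induction (`indP_mul`, `indP_one`), so `IndP 1 (σ ^ r)` and `uniq` gives `σ ^ r = 1`.
`exists_indP_pow`: `r + 1 = 2 k`, `(α ^ k) ^ 2 = α`; `fund` for `α ^ k` and `indP_mul`, `indP_sqD` as in `exists_indP` (LN/Final); then
`pow_of_indP`.
`polarity`: `indP_sqD` and `uniq` as in `invol_fix` (LN/Final). -/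

namespace Pool.Agent.Work.MP_bc729a_al.LA

open Pool.Agent.Work.MP_bc729a_al.LN

universe u v

open OrderDual

variable {n : ℕ} {F : Type u} [Field F]

private theorem indP_pow {α : MulAut (PSLn n F)} {σ : Lat n F ≃o Lat n F}
    (h : IndP α σ) (r : ℕ) : IndP (α ^ r) (σ ^ r) := by
  induction r with
  | zero =>
    rw [pow_zero, pow_zero]
    exact indP_one
  | succ r ih =>
    rw [pow_succ, pow_succ]
    exact indP_mul ih h

theorem pow_of_indP (hn : 2 ≤ n) {α : MulAut (PSLn n F)} {σ : Lat n F ≃o Lat n F}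
    (h : IndP α σ) {r : ℕ} (hα : α ^ r = 1) : σ ^ r = 1 := by
  have h1 : IndP (1 : MulAut (PSLn n F)) (σ ^ r) := by
    rw [← hα]
    exact indP_pow h r
  exact uniq (by omega) _ h1

theorem exists_indP_pow [Finite F] (hn : 3 ≤ n) {α : MulAut (PSLn n F)} {r : ℕ} (hr : Odd r)
    (hα : α ^ r = 1) : ∃ σ : Lat n F ≃o Lat n F, IndP α σ ∧ σ ^ r = 1 := by
  obtain ⟨k, hk⟩ : ∃ k, r + 1 = 2 * k := by
    obtain ⟨m, hm⟩ := hr
    exact ⟨m + 1, by omega⟩
  have h3 : (α ^ k) ^ 2 = α := by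
    rw [← pow_mul, mul_comm, ← hk, pow_succ, hα, one_mul]
  have key : ∃ σ : Lat n F ≃o Lat n F, IndP α σ := by
    rcases fund hn (α ^ k) with ⟨σ, hσ⟩ | ⟨τ, hτ⟩
    · refine ⟨σ * σ, ?_⟩
      rw [← h3, pow_two]
      exact indP_mul hσ hσ
    · refine ⟨sqD τ, ?_⟩
      rw [← h3]
      exact indP_sqD hτ
  obtain ⟨σ, hσ⟩ := key
  exact ⟨σ, hσ, pow_of_indP (by omega) hσ hα⟩

theorem polarity (hn : 2 ≤ n) {α : MulAut (PSLn n F)} {τ : Lat n F ≃o (Lat n F)ᵒᵈ}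
    (h : IndD α τ) (hα : α ^ 2 = 1) (U : Lat n F) : ofDual (τ (ofDual (τ U))) = U := by
  have h1 : IndP (1 : MulAut (PSLn n F)) (sqD τ) := by
    rw [← hα]
    exact indP_sqD h
  have h2 : sqD τ = 1 := uniq (by omega) _ h1
  exact DFunLike.congr_fun h2 U

end Pool.Agent.Work.MP_bc729a_al.LA
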