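import Pool.Agent.Work.MP_bc729a_al.LN.Invol
import Pool.Agent.Work.MP_bc729a_al.LN.OddG

/-! Definitions for `L_n(q)`, `q ≤ 7`: Gaussian binomials, the numerical conditions, minimal
invariant subspaces. Everything here is proved. -/

namespace Pool.Agent.Work.MP_bc729a_al.LA

open Pool.Agent.Work.MP_bc729a_al.LN

universe u

/-- Gaussian binomial coefficients -/
def gb (q : ℕ) : ℕ → ℕ → ℕ
  | _, 0 => 1
  | 0, _ + 1 => 0
  | n + 1, k + 1 => gb q n k + q ^ (k + 1) * gb q n (k + 1)

/-- `r` is a prime which does not divide `q`, and every minimal invariant subspace of a collineation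
of order `r` of a projective space over the field with `q` elements has dimension `1` or `e` -/
def Good (q r e : ℕ) : Prop :=
  r.Prime ∧ ¬ r ∣ q ∧ 0 < e ∧ q ^ e ≡ 1 [MOD r] ∧ (∀ k, 0 < k → k < e → r ∣ gb q e k) ∧
    ∀ d, 1 < d → d ≤ r → (∀ k, 0 < k → k < d → r ∣ gb q d k) → d = e

/-- `r` is a prime `> q + 1` and the only dimension `d ≤ n` for which `r` divides the number of points
is `e`, where `n < 2 e`; the number of points is not divisible by `r ^ 2` -/
structure Big (q n r e : ℕ) : Prop where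
  prime : r.Prime
  lt : q + 1 < r
  dim : ∀ d, 0 < d → d ≤ n → r ∣ gb q d 1 → d = e
  half : n < 2 * e

/-- collineations -/
abbrev Col (n : ℕ) (F : Type u) [Field F] := Lat n F ≃o Lat n F

variable {n : ℕ} {F : Type u} [Field F]

/-- `M` is a minimal `σ`-invariant subspace, of dimension `e` -/
structure IsMin (σ : Col n F) (e : ℕ) (M : Lat n F) : Prop where
  dim : Module.finrank F M = e
  inv : σ M = M
  min : ∀ X : Lat n F, X ≤ M → σ X = X → X = ⊥ ∨ X = M

theorem col_pow_fix {σ : Col n F} {U : Lat n F} (h : σ U = U) (k : ℕ) : (σ ^ k) U = U := by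
  induction k with
  | zero => rfl
  | succ k ih =>
    rw [pow_succ]
    change (σ ^ k) (σ U) = U
    rw [h, ih]

/-- a collineation of prime order `r` which acts on a set of subspaces, the number of which is not
divisible by `r`, fixes one of them -/
theorem exists_fix [Finite F] {r : ℕ} (hr : r.Prime) (σ : Col n F) (hσ : σ ^ r = 1)
    (P : Lat n F → Prop) (hP : ∀ U, P U → P (σ U))
    (h : ¬ r ∣ Nat.card {U : Lat n F // P U}) : ∃ U, P U ∧ σ U = U := by
  classical
  have : Fact r.Prime := ⟨hr⟩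
  have hfin : Finite (Lat n F) := lat_finite
  have := Fintype.ofFinite {U : Lat n F // P U}
  let f : Function.End {U : Lat n F // P U} := fun U => ⟨σ U.1, hP _ U.2⟩
  have hf : ∀ (k : ℕ) (U : {U : Lat n F // P U}), ((f ^ k) U).1 = (σ ^ k) U.1 := by
    intro k
    induction k with
    | zero => intro U; rfl
    | succ k ih =>
      intro U
      rw [pow_succ, pow_succ]
      change ((f ^ k) (f U)).1 = (σ ^ k) (σ U.1)
      rw [ih]
  have hf1 : f ^ r ^ 1 = 1 := by
    funext U
    apply Subtype.ext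
    rw [hf, pow_one, hσ]
    rfl
  have h1 := Equiv.Perm.card_fixedPoints_modEq (p := r) (n := 1) hf1
  rw [Nat.card_eq_fintype_card] at h
  have h2 : Fintype.card f.fixedPoints ≠ 0 := by
    intro h0
    rw [h0] at h1
    exact h ((Nat.modEq_zero_iff_dvd).1 h1)
  obtain ⟨⟨U, hU⟩⟩ := Fintype.card_pos_iff.1 (Nat.pos_of_ne_zero h2)
  exact ⟨U.1, U.2, congrArg Subtype.val hU⟩

/-- the smallest invariant subspace above `X` -/
theorem exists_span_orbit {r : ℕ} (σ : Col n F) (hσ : σ ^ r = 1) (hr : 0 < r) (X : Lat n F) :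
    σ (⨆ i : Fin r, (σ ^ (i : ℕ)) X) = ⨆ i : Fin r, (σ ^ (i : ℕ)) X := by
  have key : ∀ k : ℕ, (σ ^ k) X ≤ ⨆ i : Fin r, (σ ^ (i : ℕ)) X := by
    intro k
    have h1 : (σ ^ k) X = (σ ^ (k % r)) X := by
      have h2 : σ ^ k = σ ^ (k % r) := by
        conv_lhs => rw [← Nat.mod_add_div k r, pow_add, pow_mul, hσ, one_pow, mul_one]
      rw [h2]
    rw [h1]
    exact le_iSup (fun i : Fin r => (σ ^ (i : ℕ)) X) ⟨k % r, Nat.mod_lt _ hr⟩
  rw [OrderIso.map_iSup]
  apply le_antisymm
  · apply iSup_le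
    intro i
    have h1 : σ ((σ ^ (i : ℕ)) X) = (σ ^ ((i : ℕ) + 1)) X := by
      rw [pow_succ']
      rfl
    rw [h1]
    exact key _
  · apply iSup_le
    intro i
    have h1 : (σ ^ (i : ℕ)) X = σ ((σ ^ ((i : ℕ) + r - 1)) X) := by
      have h2 : σ ^ (i : ℕ) = σ * σ ^ ((i : ℕ) + r - 1) := by
        rw [← pow_succ', show (i : ℕ) + r - 1 + 1 = i + r by omega, pow_add, hσ, mul_one]
      conv_lhs => rw [h2]
      rfl
    rw [h1]
    have h3 : (σ ^ ((i : ℕ) + r - 1)) X = (σ ^ (((i : ℕ) + r - 1) % r)) X := by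
      have h2 : σ ^ ((i : ℕ) + r - 1) = σ ^ (((i : ℕ) + r - 1) % r) := by
        conv_lhs => rw [← Nat.mod_add_div ((i : ℕ) + r - 1) r, pow_add, pow_mul, hσ, one_pow,
          mul_one]
      rw [h2]
    rw [h3]
    exact le_iSup (fun i : Fin r => σ ((σ ^ (i : ℕ)) X)) ⟨_, Nat.mod_lt _ hr⟩

end Pool.Agent.Work.MP_bc729a_al.LA
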