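import Pool.Agent.Work.MP_bc729a_al.LN.GraphT
import Pool.Agent.Work.MP_bc729a_al.LN.XTchar
import Pool.Agent.Work.MP_bc729a_al.LA.Defs

/-! # Module Cen (M): the centres of full transvection groups form a subspace

PROOF. Let `A` be the set of vectors `v` with `v = 0` or `XP f ≤ R` for all flags `f` with `f.p = pt v`. Multiples: `pt (c v) = pt v`
for `c ≠ 0`. Sums: let `v, w ∈ A`, `v, w, v + w ≠ 0`. If `pt v = pt w` then `v + w` is a multiple of `v`. Otherwise there is `φ` with
`φ v = 0`, `φ w = 1` (`graphT_sep` with `W = pt v`), `g = 1 + v ⊗ φ ∈ XT (pt v) (hyp φ)` (`exists_XT`, `exists_flag`), `s = pr g ∈ R`, and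
`g w = w + v`. A flag `f` with `f.p = pt (v + w)` is `f'.map (act s)` with `f' = f.map (act s⁻¹)`, `f'.p = pt w`, so by `XP_map`
`XP f = conj s • XP f' ≤ R`. Invariance: for `s = pr g ∈ R` and `v ∈ A`, `g v ∈ A` by the same argument, so `act s A ≤ A`, and the same for
`s⁻¹`. -/

namespace Pool.Agent.Work.MP_bc729a_al.LA

open Pool.Agent.Work.MP_bc729a_al.LN
open Matrix

universe u v

variable {n : ℕ} {F : Type u} [Field F]

private theorem cen_pt_smul {c : F} (hc : c ≠ 0) (v : Fin n → F) : pt (c • v) = pt v :=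
  Submodule.span_singleton_smul_eq (isUnit_iff_ne_zero.2 hc) v

private theorem cen_move {R : Subgroup (PSLn n F)} {s : PSLn n F} (hs : s ∈ R) {p : Lat n F}
    (h : ∀ f : Flag n F, f.p = p → XP f ≤ R) (f : Flag n F) (hf : f.p = act n F s p) :
    XP f ≤ R := by
  have e1 : ∀ U : Lat n F, act n F s (act n F s⁻¹ U) = U := by
    intro U
    have : act n F s (act n F s⁻¹ U) = (act n F s * act n F s⁻¹) U := rfl
    rw [this, ← map_mul, mul_inv_cancel, map_one]
    rfl
  have e2 : ∀ U : Lat n F, act n F s⁻¹ (act n F s U) = U := by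
    intro U
    have : act n F s⁻¹ (act n F s U) = (act n F s⁻¹ * act n F s) U := rfl
    rw [this, ← map_mul, inv_mul_cancel, map_one]
    rfl
  have h1 : (f.map (act n F s⁻¹)).map (act n F s) = f :=
    Flag.ext' (e1 f.p) (e1 f.h)
  have h2 : (f.map (act n F s⁻¹)).p = p := by
    change act n F s⁻¹ f.p = p
    rw [hf, e2]
  rw [← h1, XP_map]
  rintro _ ⟨y, hy, rfl⟩
  change s * y * s⁻¹ ∈ R
  exact R.mul_mem (R.mul_mem hs (h _ h2 hy)) (R.inv_mem hs)

theorem exists_cen (R : Subgroup (PSLn n F)) : ∃ A : Lat n F,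
    (∀ v : Fin n → F, v ≠ 0 → (v ∈ A ↔ ∀ f : Flag n F, f.p = pt v → XP f ≤ R)) ∧
      ∀ s ∈ R, act n F s A = A := by
  have hmove : ∀ s ∈ R, ∀ v w : Fin n → F, pt w = act n F s (pt v) →
      (∀ f : Flag n F, f.p = pt v → XP f ≤ R) → ∀ f : Flag n F, f.p = pt w → XP f ≤ R :=
    fun s hs v w hvw h f hf => cen_move hs h f (hf.trans hvw)
  let A : Lat n F :=
    { carrier := {v | v = 0 ∨ ∀ f : Flag n F, f.p = pt v → XP f ≤ R}
      zero_mem' := Or.inl rfl
      add_mem' := by
        rintro v w hv hw
        by_cases hvw : v + w = 0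
        · exact Or.inl hvw
        by_cases hv0 : v = 0
        · rw [hv0, zero_add]
          exact hw
        by_cases hw0 : w = 0
        · rw [hw0, add_zero]
          exact hv
        have hv' := hv.resolve_left hv0
        have hw' := hw.resolve_left hw0
        refine Or.inr ?_
        by_cases hwv : w ∈ pt v
        · obtain ⟨c, rfl⟩ := Submodule.mem_span_singleton.1 hwv
          have hc : 1 + c ≠ 0 := by
            intro h0
            apply hvw
            have : v + c • v = (1 + c) • v := by rw [add_smul, one_smul]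
            rw [this, h0, zero_smul]
          have h1 : v + c • v = (1 + c) • v := by rw [add_smul, one_smul]
          rw [h1, cen_pt_smul hc]
          exact hv'
        · obtain ⟨φ, h1, h2⟩ := graphT_sep hwv
          have hφ0 : φ ≠ 0 := by
            rintro rfl
            rw [zero_dotProduct] at h2
            exact zero_ne_one h2
          have h3 : φ ⬝ᵥ v = 0 := h1 v (Submodule.mem_span_singleton_self v)
          obtain ⟨f, hfp, hfh⟩ := exists_flag hv0 hφ0 h3
          obtain ⟨g, hg⟩ := exists_XT h3 1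
          have hgX : g ∈ XT f.p f.h := by
            rw [hfp, hfh]
            exact (mem_XT_iff hv0 hφ0).2 ⟨1, hg⟩
          have hgR : pr n F g ∈ R := hv' f hfp ⟨g, hgX, rfl⟩
          refine hmove (pr n F g) hgR w (v + w) ?_ hw'
          rw [act_pr, actSL_pt, hg, xt_mulVec, one_mul, h2, one_smul, add_comm]
      smul_mem' := by
        rintro c v hv
        by_cases hc : c = 0
        · rw [hc, zero_smul]
          exact Or.inl rfl
        rcases hv with hv | hv
        · rw [hv, smul_zero]
          exact Or.inl rfl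
        · refine Or.inr ?_
          rw [cen_pt_smul hc]
          exact hv }
  have hle : ∀ s ∈ R, act n F s A ≤ A := by
    intro s hs
    obtain ⟨g, rfl⟩ := pr_surjective s
    intro v hv
    rw [act_pr] at hv
    obtain ⟨u, hu, rfl⟩ := mem_actSL.1 hv
    rcases hu with hu | hu
    · rw [hu, Matrix.mulVec_zero]
      exact Or.inl rfl
    · refine Or.inr (hmove (pr n F g) hs u _ ?_ hu)
      rw [act_pr, actSL_pt]
  refine ⟨A, fun v hv => ⟨fun h => h.resolve_left hv, fun h => Or.inr h⟩, fun s hs => ?_⟩
  refine le_antisymm (hle s hs) ?_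
  have h1 := (act n F s).monotone (hle s⁻¹ (R.inv_mem hs))
  have h2 : act n F s (act n F s⁻¹ A) = A := by
    have : act n F s (act n F s⁻¹ A) = (act n F s * act n F s⁻¹) A := rfl
    rw [this, ← map_mul, mul_inv_cancel, map_one]
    rfl
  rwa [h2] at h1

end Pool.Agent.Work.MP_bc729a_al.LA
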