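import Pool.Agent.Work.MP_bc729a_al.LA.TvGen
import Pool.Agent.Work.MP_bc729a_al.LA.Cen
import Pool.Agent.Work.MP_bc729a_al.LN.SylC

/-! # Module TopP (S-M): an irreducible subgroup of index prime to the characteristic is everything

PROOF. Let `U₀` be an atom. `XT U₀ U₀` (all transvections with centre `U₀`) is a `p`-group (`isPGroup_XT`), so its image `P₀` in `PSL_n` is
contained in a Sylow `p`-subgroup `Q`. As `p ∤ R.index`, `R` contains a Sylow `p`-subgroup `Q'` of `PSL_n` (a Sylow subgroup of `R`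
has the right order), `Q' = conj s • Q` (Sylow). So `conj s • P₀ ≤ R`. For a flag `f` with `f.p = act s U₀`: `f = f'.map (act s)`,
`f'.p = U₀`, `XT f'.p f'.h ≤ XT U₀ U₀` (`g v - v ∈ U₀`, and `g v = v` for `v ∈ U₀ ≤ f'.h`), so `XP f = conj s • XP f' ≤ R` (`XP_map`).
Hence the subspace `A` of `exists_cen` is not `⊥`, so `A = ⊤` by irreducibility, and `eq_top_of_XP`. -/

namespace Pool.Agent.Work.MP_bc729a_al.LA

open Pool.Agent.Work.MP_bc729a_al.LN
open Matrix

universe u v

variable {n : ℕ} {F : Type u} [Field F]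

theorem top_of_not_dvd [Finite F] (hn : 2 ≤ n) {p : ℕ} [Fact p.Prime] [CharP F p]
    {R : Subgroup (PSLn n F)} (hp : ¬ p ∣ R.index)
    (hirr : ∀ A : Lat n F, (∀ s ∈ R, act n F s A = A) → A = ⊥ ∨ A = ⊤) : R = ⊤ := by
  classical
  have hfin : Finite (PSLn n F) := Finite.of_surjective _ (pr_surjective (n := n) (F := F))
  have hn0 : 0 < n := by omega
  let v0 : Fin n → F := Pi.single ⟨0, hn0⟩ 1
  have hv0 : v0 ≠ 0 := by
    intro h0
    have := congrFun h0 ⟨0, hn0⟩
    simp only [v0, Pi.single_eq_same, Pi.zero_apply] at this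
    exact one_ne_zero this
  have hP0 : IsPGroup p ((XT (pt v0) (pt v0)).map (pr n F)) := (isPGroup_XT (p := p) (pt v0)).map _
  obtain ⟨Q, hQ⟩ := hP0.exists_le_sylow
  -- a Sylow subgroup inside `R`
  obtain ⟨Q1, hQ1⟩ : ∃ Q1 : Sylow p (PSLn n F), Q1.1 ≤ R := by
    obtain ⟨T⟩ : Nonempty (Sylow p R) := inferInstance
    have hT : Nat.card (T.1.map R.subtype) = p ^ (Nat.card (PSLn n F)).factorization p := by
      have h1 : Nat.card (T.1.map R.subtype) = Nat.card T :=
        Nat.card_congr (T.1.equivMapOfInjective R.subtype R.subtype_injective).symm.toEquiv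
      rw [h1, T.card_eq_multiplicity]
      have h2 : (Nat.card (PSLn n F)).factorization p = (Nat.card R).factorization p := by
        rw [← R.card_mul_index, Nat.factorization_mul Nat.card_pos.ne' R.index_ne_zero_of_finite,
          Finsupp.add_apply, Nat.factorization_eq_zero_of_not_dvd hp, add_zero]
      rw [h2]
    refine ⟨Sylow.ofCard (T.1.map R.subtype) hT, ?_⟩
    rintro _ ⟨y, -, rfl⟩
    exact y.2
  obtain ⟨s, hs⟩ := MulAction.exists_smul_eq (PSLn n F) Q Q1
  have hsR : ∀ y ∈ Q.1, s * y * s⁻¹ ∈ R := by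
    intro y hy
    apply hQ1
    rw [← hs]
    exact ⟨y, hy, rfl⟩
  obtain ⟨A, hA1, hA2⟩ := exists_cen R
  obtain ⟨g, rfl⟩ := pr_surjective s
  have hv1 : g.1 *ᵥ v0 ≠ 0 := by
    intro h0
    apply hv0
    have := congrArg (fun w => (g⁻¹).1 *ᵥ w) h0
    simpa only [Matrix.mulVec_mulVec, sl_inv_mul, Matrix.one_mulVec, Matrix.mulVec_zero] using this
  have e1 : ∀ U : Lat n F, act n F (pr n F g) (act n F (pr n F g)⁻¹ U) = U := by
    intro U
    have : act n F (pr n F g) (act n F (pr n F g)⁻¹ U) =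
      (act n F (pr n F g) * act n F (pr n F g)⁻¹) U := rfl
    rw [this, ← map_mul, mul_inv_cancel, map_one]
    rfl
  have e2 : ∀ U : Lat n F, act n F (pr n F g)⁻¹ (act n F (pr n F g) U) = U := by
    intro U
    have : act n F (pr n F g)⁻¹ (act n F (pr n F g) U) =
      (act n F (pr n F g)⁻¹ * act n F (pr n F g)) U := rfl
    rw [this, ← map_mul, inv_mul_cancel, map_one]
    rfl
  have hmem : g.1 *ᵥ v0 ∈ A := by
    rw [hA1 _ hv1]
    intro f hf
    have h1 : (f.map (act n F (pr n F g)⁻¹)).map (act n F (pr n F g)) = f :=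
      Flag.ext' (e1 f.p) (e1 f.h)
    have h2 : (f.map (act n F (pr n F g)⁻¹)).p = pt v0 := by
      change act n F (pr n F g)⁻¹ f.p = pt v0
      rw [hf, ← actSL_pt, ← act_pr, e2]
    rw [← h1, XP_map]
    rintro _ ⟨y, hy, rfl⟩
    change pr n F g * y * (pr n F g)⁻¹ ∈ R
    apply hsR
    apply hQ
    obtain ⟨x, hx, rfl⟩ := hy
    refine ⟨x, ⟨fun v => ?_, fun v hv => ?_⟩, rfl⟩
    · rw [← h2]
      exact hx.1 v
    · refine hx.2 v ?_
      rw [← h2] at hv
      exact (f.map (act n F (pr n F g)⁻¹)).le hv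
  have hAtop : A = ⊤ := by
    rcases hirr A hA2 with h | h
    · rw [h, Submodule.mem_bot] at hmem
      exact absurd hmem hv1
    · exact h
  refine eq_top_of_XP hn fun f => ?_
  obtain ⟨v, hv, hfv⟩ := atom_iff.1 f.hp
  refine (hA1 v hv).1 ?_ f hfv
  rw [hAtop]
  exact Submodule.mem_top

end Pool.Agent.Work.MP_bc729a_al.LA
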