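import Pool.Agent.Work.MP_bc729a_al.LA.Red
import Pool.Agent.Work.MP_bc729a_al.LA.Irr
import Pool.Agent.Work.MP_bc729a_al.LA.Pow
import Pool.Agent.Work.MP_bc729a_al.LA.TopP

/-! # Module F3 (S-M): overgroups of the monomial group: `n = 3` and even `q`

PROOF of `three`. Like `LN.final` (LN/Final): `H = Hm 3 F`, class invariant (`class_inv`), proper (`H_ne_top`), nontrivial
(`Hm_ne_bot`); `R`, `T` from `hX.main`. `R = Hm 3 F` as in the proof of `coatomH`, with `hP` in place of `P_all`. If `2 ∣ R.index`: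
`invol_fix` gives a contradiction. Otherwise `|T|` is odd, `TransFrm (indT T)` as in `LN.final`; there `stab_inj` is used for
`stab (σ '' stdF) = stab P ⇒ σ '' stdF = P`; here use that `R` is its own normaliser: `σ '' stdF = act b '' stdF` and `P = act a '' stdF`
(`stab_frm`), so `conj b • R = conj a • R`, `a⁻¹ b ∈ N(R) = R = stab stdF`, so `act b '' stdF = act a '' stdF`. Then `odd_not_trans`.
`evenq`. `H = Hm n F`, `R` from `hX.main`. If `2 ∤ R.index` then `R = ⊤` by `top_of_not_dvd` (`R` is irreducible since `H ≤ R` is: `irr`). So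
`2 ∣ R.index`, there is `α ∈ X`, `α ^ 2 = 1`, fixing no conjugate of `Hm n F`, contradiction to `invol_fix`. -/

namespace Pool.Agent.Work.MP_bc729a_al.LA

open Pool.Agent.Work.MP_bc729a_al.LN

universe u v

open scoped Pointwise

variable {n : ℕ} {F : Type u} [Field F]

theorem three [Finite F] {X : Subgroup (MulAut (PSLn 3 F))} (hX : Red (PSLn 3 F) X)
    (hP : PProp 3 F) (hF : 3 ≤ Nat.card F) (hodd : Odd (Nat.card F)) : False := by
  obtain ⟨R, T, -, hHR, hRt, hN, -, htr, hpr, hfix⟩ := hX.main (Hm 3 F) (H_ne_top le_rfl)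
    (Hm_ne_bot le_rfl) (fun α _ => class_inv le_rfl α)
  obtain rfl : R = Hm 3 F := by
    have h1 : monoSL 3 F ≤ R.comap (pr 3 F) := Subgroup.map_le_iff_le_comap.1 hHR
    rcases hP _ h1 with h | h
    · rw [Hm, ← h, Subgroup.map_comap_eq_self_of_surjective pr_surjective]
    · exfalso
      apply hRt
      rw [← Subgroup.map_comap_eq_self_of_surjective (pr_surjective (n := 3) (F := F)) R, h,
        Subgroup.map_top_of_surjective _ pr_surjective]
  by_cases h2 : 2 ∣ (Hm 3 F).index
  · obtain ⟨α, -, hα, hno⟩ := hfix 2 Nat.prime_two h2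
    obtain ⟨a, ha⟩ := invol_fix le_rfl hα
    exact hno a ha
  · have hT2 : ¬ 2 ∣ Nat.card T := fun h => h2 (hpr 2 Nat.prime_two h)
    have key : ∀ P, IsFrm P → ∃ σ ∈ indT T, (σ : Lat 3 F → Lat 3 F) '' stdF 3 F = P := by
      intro P hP
      obtain ⟨a, ha, hPa⟩ := stab_frm hP
      obtain ⟨t, ht, h3⟩ := htr a
      obtain ⟨σ, hσ⟩ := exists_indP le_rfl hT2 ht
      refine ⟨σ, ⟨t, ht, hσ⟩, ?_⟩
      obtain ⟨b, hb, hb'⟩ := stab_frm (frm_image σ (std_isFrm (n := 3) (F := F)))
      have h4 : MulAut.conj b • Hm 3 F = MulAut.conj a • Hm 3 F := by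
        rw [← hb', ← map_stab hσ, stab_std, h3]
      have h5 : a⁻¹ * b ∈ Hm 3 F := by
        rw [← hN]
        rw [Subgroup.mem_normalizer_iff]
        intro x
        have e1 : MulAut.conj (a⁻¹ * b) • Hm 3 F = Hm 3 F := by
          rw [map_mul, mul_smul, h4, map_inv, inv_smul_smul]
        constructor
        · intro hx
          have := Subgroup.smul_mem_pointwise_smul x (MulAut.conj (a⁻¹ * b)) (Hm 3 F) hx
          rw [e1] at this
          exact this
        · intro hx
          have e2 : MulAut.conj (a⁻¹ * b) • x ∈ MulAut.conj (a⁻¹ * b) • Hm 3 F := by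
            rw [e1]
            exact hx
          exact (Subgroup.smul_mem_pointwise_smul_iff).1 e2
      have h6 : act 3 F (a⁻¹ * b) '' stdF 3 F = stdF 3 F := by
        rw [Hm, ← stab_std] at h5
        exact mem_stab.1 h5
      have h7 : (act 3 F b : Lat 3 F → Lat 3 F) '' stdF 3 F =
          act 3 F a '' (act 3 F (a⁻¹ * b) '' stdF 3 F) := by
        rw [← Set.image_comp]
        have h8 : act 3 F b = act 3 F a * act 3 F (a⁻¹ * b) := by
          rw [← map_mul, mul_inv_cancel_left]
        rw [h8]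
        rfl
      rw [← hb, h7, h6, ha]
    have htrF : TransFrm (indT T) := by
      intro P P' hP hP'
      obtain ⟨σ, hσ, h3⟩ := key P hP
      obtain ⟨ρ, hρ, h4⟩ := key P' hP'
      refine ⟨ρ * σ⁻¹, (indT T).mul_mem hρ ((indT T).inv_mem hσ), ?_⟩
      rw [← h3, ← h4, ← Set.image_comp]
      congr 1
      funext U
      change ρ (σ.symm (σ U)) = ρ U
      rw [σ.symm_apply_apply]
    exact odd_not_trans hF hodd le_rfl htrF (odd_indT le_rfl hT2)

theorem evenq [Finite F] [CharP F 2] {X : Subgroup (MulAut (PSLn n F))}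
    (hX : Red (PSLn n F) X) (hn : 3 ≤ n) (hF : 3 ≤ Nat.card F) : False := by
  obtain ⟨R, T, -, hHR, hRt, hN, -, htr, hpr, hfix⟩ := hX.main (Hm n F) (H_ne_top hn)
    (Hm_ne_bot hn) (fun α _ => class_inv hn α)
  by_cases h2 : 2 ∣ R.index
  · obtain ⟨α, -, hα, hno⟩ := hfix 2 Nat.prime_two h2
    obtain ⟨a, ha⟩ := invol_fix hn hα
    exact hno a ha
  · apply hRt
    have : Fact (Nat.Prime 2) := ⟨Nat.prime_two⟩
    exact top_of_not_dvd (p := 2) (by omega) h2 fun A hA =>
      irr hF hn fun s hs => hA s (hHR hs)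

end Pool.Agent.Work.MP_bc729a_al.LA
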