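import Pool.Agent.Work.MP_bc729a_al.LA.BThm

/-! # Module B4 (M-L): the normaliser of a Sylow subgroup for `n = 4`, `r = q^2 + q + 1`

PROOF. `P = ⟨σ⟩`, `σ` of order `r`. Suppose `g` normalises `P` and does not centralise it: `g σ g⁻¹ = σ ^ m`, `m` not `1` modulo `r`. The
multiplicative order `o` of `m` modulo `r` divides `r - 1` and `orderOf g` (which divides `|T'|`), `o > 1`, so by `hT` `o = 2 ^ a` with
`a ≥ 1` (every prime divisor of `o` is `2`). Replace `g` by `g ^ (2 ^ (a-1) b)` where `b` is the odd part of `orderOf g`: then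
`g σ g⁻¹ = σ⁻¹` (`m ^ (2^(a-1))` has square `1` and is not `1`, so it is `-1` modulo `r`; odd powers of `-1`) and the order of `g` is a power
of `2`. Let `M = M_σ` (`exists_min`), a plane (`er = 3`). `M_(g σ g⁻¹) = g M` (`min_conj`) and `g σ g⁻¹ = σ⁻¹` has `M` (`min_inv`), so
`g M = M` (`min_unique`). The number of atoms `≤ M` is `gb q 3 1 = q^2 + q + 1 = r` (`card_points`), `σ` has no fixed atom there
(`min_no_atom`), so `⟨σ⟩` is transitive on them.
(1) `g` fixes an atom `x ≤ M`: its order is a power of `2` and the number of atoms `r` is odd (`Equiv.Perm.card_fixedPoints_modEq` with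
`p = 2`). (2) every atom `≤ M` is `σ^i x` and `g (σ^i x) = σ^(-i) x`. So `g (g y) = y` for all atoms `y ≤ M`, and `x` is the only atom
`≤ M` fixed by `g` (`σ^(2i) x = x` implies `r ∣ 2 i`, `r` odd). (3) For an atom `y ≤ M`, `y ≠ x`, the line `L = y ⊔ g y`
(`g y ≠ y`) satisfies `g L = L`; it has `q + 1` atoms (`card_line`), an even number, and `g` acts on them with square `1`, so the number of
fixed atoms on `L` is even (`exists_fix`-like parity: `card_fixedPoints_modEq` with `p = 2`); the only candidate is `x`, so `x` is not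
`≤ L`. (4) choose an atom `z ≤ M` not on `L` and `≠ x` (`r > q + 2`), `L' = z ⊔ g z`, `g L' = L'`, `L' ≠ L`. Both lines are in the plane
`M` of dimension `3`, so `L ⊓ L'` has dimension `1` (`finrank_sup_add_finrank_inf_eq`; `L ⊔ L' = M`), it is an atom fixed by `g`, so it
is `x ≤ L`, contradiction. -/

namespace Pool.Agent.Work.MP_bc729a_al.LA

open Pool.Agent.Work.MP_bc729a_al.LN

universe u v

variable {F : Type u} [Field F]

private theorem b4_fix [Finite F] {a : ℕ} (g : Col 4 F) (hg : g ^ 2 ^ a = 1)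
    (P : Lat 4 F → Prop) (hP : ∀ U, P U → P (g U))
    (h : Odd (Nat.card {U : Lat 4 F // P U})) : ∃ U, P U ∧ g U = U := by
  classical
  have : Fact (Nat.Prime 2) := ⟨Nat.prime_two⟩
  have hfin : Finite (Lat 4 F) := lat_finite
  have := Fintype.ofFinite {U : Lat 4 F // P U}
  let f : Function.End {U : Lat 4 F // P U} := fun U => ⟨g U.1, hP _ U.2⟩
  have hf : ∀ (k : ℕ) (U : {U : Lat 4 F // P U}), ((f ^ k) U).1 = (g ^ k) U.1 := by
    intro k
    induction k with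
    | zero => intro U; rfl
    | succ k ih =>
      intro U
      rw [pow_succ, pow_succ]
      change ((f ^ k) (f U)).1 = (g ^ k) (g U.1)
      rw [ih]
  have hf1 : f ^ 2 ^ a = 1 := by
    funext U
    apply Subtype.ext
    rw [hf, hg]
    rfl
  have h1 := Equiv.Perm.card_fixedPoints_modEq (p := 2) (n := a) hf1
  rw [Nat.card_eq_fintype_card] at h
  have h2 : Fintype.card f.fixedPoints ≠ 0 := by
    intro h0
    rw [h0] at h1
    have h3 := (Nat.modEq_zero_iff_dvd).1 h1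
    have h4 := Nat.not_even_iff_odd.2 h
    exact h4 (even_iff_two_dvd.2 h3)
  obtain ⟨⟨U, hU⟩⟩ := Fintype.card_pos_iff.1 (Nat.pos_of_ne_zero h2)
  exact ⟨U.1, U.2, congrArg Subtype.val hU⟩

private theorem b4_conj {Γ : Type v} [Group Γ] {s g : Γ} {m : ℕ} (hg : g * s * g⁻¹ = s ^ m)
    (j : ℕ) : g ^ j * s * (g ^ j)⁻¹ = s ^ (m ^ j) := by
  induction j with
  | zero => simp
  | succ j ih =>
    have h1 : g ^ (j + 1) * s * (g ^ (j + 1))⁻¹ = g ^ j * (g * s * g⁻¹) * (g ^ j)⁻¹ := by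
      rw [pow_succ, mul_inv_rev]
      group
    rw [h1, hg, ← conj_pow, ih, ← pow_mul, pow_succ]

private theorem b4_grp {Γ : Type v} [Group Γ] [Finite Γ] {r : ℕ} [hr : Fact r.Prime]
    (hT : ∀ l : ℕ, l.Prime → l ∣ r - 1 → l ∣ Nat.card Γ → l = 2) {s g : Γ} (hs : orderOf s = r)
    {m : ℕ} (hg : g * s * g⁻¹ = s ^ m) (hne : g * s ≠ s * g) :
    ∃ (t : Γ) (a : ℕ), t ^ 2 ^ a = 1 ∧ t * s * t⁻¹ = s⁻¹ := by
  have hr1 : 1 < r := hr.out.one_lt
  obtain ⟨u, hu⟩ : ∃ u : ZMod r, u = (m : ZMod r) := ⟨_, rfl⟩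
  have hone : ∀ j, s ^ (m ^ j) = s ↔ u ^ j = 1 := by
    intro j
    have h1 : s ^ (m ^ j) = s ^ 1 ↔ m ^ j ≡ 1 [MOD r] := by
      rw [pow_eq_pow_iff_modEq, hs]
    rw [pow_one] at h1
    rw [h1, ← ZMod.natCast_eq_natCast_iff, hu]
    push_cast
    rfl
  have hu0 : u ≠ 0 := by
    intro h0
    rw [hu, ZMod.natCast_eq_zero_iff] at h0
    have h1 : s ^ m = 1 := by
      rw [← orderOf_dvd_iff_pow_eq_one, hs]
      exact h0
    rw [h1] at hg
    have h2 : s = 1 := by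
      have h3 : g * s = g := by
        rw [mul_inv_eq_one] at hg
        exact hg
      exact mul_eq_left.1 h3
    rw [h2, orderOf_one] at hs
    omega
  have hu1 : u ≠ 1 := by
    intro h1
    have h2 := (hone 1).2 (by rw [pow_one]; exact h1)
    rw [pow_one] at h2
    rw [h2, mul_inv_eq_iff_eq_mul] at hg
    exact hne hg
  have ho1 : orderOf u ∣ r - 1 := orderOf_dvd_of_pow_eq_one (ZMod.pow_card_sub_one_eq_one hu0)
  have ho2 : orderOf u ∣ Nat.card Γ := by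
    refine orderOf_dvd_of_pow_eq_one ((hone _).1 ?_)
    rw [← b4_conj hg, pow_card_eq_one']
    simp
  have ho3 : orderOf u ≠ 1 := fun h => hu1 (orderOf_eq_one_iff.1 h)
  have ho4 : 0 < orderOf u := Nat.pos_of_dvd_of_pos ho1 (by omega)
  have hl := Nat.minFac_prime ho3
  have hl2 := hT _ hl ((Nat.minFac_dvd _).trans ho1) ((Nat.minFac_dvd _).trans ho2)
  have h2o : 2 ∣ orderOf u := by
    have h := Nat.minFac_dvd (orderOf u)
    rwa [hl2] at h
  obtain ⟨o', ho'⟩ := h2o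
  have hv1 : u ^ o' ≠ 1 := pow_ne_one_of_lt_orderOf (by omega) (by omega)
  have hv2 : u ^ o' * u ^ o' = 1 := by
    rw [← pow_add, ← two_mul, ← ho', pow_orderOf_eq_one]
  have hv : u ^ o' = -1 := (mul_self_eq_one_iff.1 hv2).resolve_left hv1
  obtain ⟨t₁, ht₁⟩ : ∃ t₁, t₁ = g ^ o' := ⟨_, rfl⟩
  have hc : t₁ * s * t₁⁻¹ = s⁻¹ := by
    rw [ht₁, b4_conj hg]
    refine eq_inv_of_mul_eq_one_left ?_
    rw [← pow_succ, ← orderOf_dvd_iff_pow_eq_one, hs, ← ZMod.natCast_eq_zero_iff]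
    push_cast
    rw [← hu, hv]
    ring
  obtain ⟨a, b, hb, hab⟩ := Nat.exists_eq_two_pow_mul_odd (orderOf_pos t₁).ne'
  refine ⟨t₁ ^ b, a, ?_, ?_⟩
  · rw [← pow_mul, mul_comm, ← hab, pow_orderOf_eq_one]
  · obtain ⟨c, rfl⟩ := hb
    have h1 : t₁ * s = s⁻¹ * t₁ := by
      rw [← hc]
      group
    have h1' : t₁ * s⁻¹ = s * t₁ := by
      rw [mul_inv_eq_iff_eq_mul, mul_assoc, h1, mul_inv_cancel_left]
    have h2 : Commute (t₁ ^ 2) s := by
      change t₁ ^ 2 * s = s * t₁ ^ 2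
      rw [pow_two, mul_assoc, h1, ← mul_assoc, h1', mul_assoc]
    have h3 : Commute ((t₁ ^ 2) ^ c) s⁻¹ := (h2.pow_left c).inv_right
    have h4 : t₁ ^ (2 * c + 1) = (t₁ ^ 2) ^ c * t₁ := by rw [pow_succ, pow_mul]
    rw [h4, mul_inv_rev]
    have h5 : (t₁ ^ 2) ^ c * t₁ * s * (t₁⁻¹ * ((t₁ ^ 2) ^ c)⁻¹) =
        (t₁ ^ 2) ^ c * (t₁ * s * t₁⁻¹) * ((t₁ ^ 2) ^ c)⁻¹ := by group
    rw [h5, hc, h3.eq, mul_inv_cancel_right]

private theorem b4_lat [Finite F] (hq : Odd (Nat.card F)) {r : ℕ} [hr' : Fact r.Prime]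
    (hr : r = Nat.card F ^ 2 + Nat.card F + 1) (h : Big (Nat.card F) 4 r 3) {σ g : Col 4 F}
    (hσ : orderOf σ = r) {a : ℕ} (hg : g ^ 2 ^ a = 1) (hc : g * σ * g⁻¹ = σ⁻¹) : False := by
  have hfin : Finite (Lat 4 F) := lat_finite
  have hq1 : 1 < Nat.card F := Finite.one_lt_card
  have hrodd : Odd r := by
    rw [hr]
    have h1 : Even (Nat.card F * (Nat.card F + 1)) := Nat.even_mul_succ_self _
    have h2 : Nat.card F ^ 2 + Nat.card F = Nat.card F * (Nat.card F + 1) := by ring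
    rw [h2]
    exact h1.add_one
  have hσr : σ ^ r = 1 := by rw [← hσ, pow_orderOf_eq_one]
  have hσ1 : σ ≠ 1 := by
    rintro rfl
    rw [orderOf_one] at hσ
    exact hr'.out.one_lt.ne hσ
  obtain ⟨M, hM⟩ := exists_min h hσr hσ1
  have hgM : g M = M := by
    have h1 := min_conj hM g
    rw [hc] at h1
    exact min_unique h.half h1 (min_inv hM)
  have hcard : Nat.card {p : Lat 4 F // IsAtom p ∧ p ≤ M} = r := by
    rw [card_points, hM.dim, hr]
    simp only [gb]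
    ring
  have hσA : ∀ (i : ℕ) {p : Lat 4 F}, IsAtom p ∧ p ≤ M →
      IsAtom ((σ ^ i) p) ∧ (σ ^ i) p ≤ M := by
    intro i p hp
    refine ⟨((σ ^ i).isAtom_iff p).2 hp.1, ?_⟩
    have h1 := (σ ^ i).monotone hp.2
    rwa [col_pow_fix hM.inv] at h1
  have hgA : ∀ {p : Lat 4 F}, IsAtom p ∧ p ≤ M → IsAtom (g p) ∧ g p ≤ M := by
    intro p hp
    refine ⟨(g.isAtom_iff p).2 hp.1, ?_⟩
    have h1 := g.monotone hp.2
    rwa [hgM] at h1
  obtain ⟨x, hx, hgx⟩ := b4_fix g hg (fun p => IsAtom p ∧ p ≤ M) (fun U hU => hgA hU)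
    (by rw [hcard]; exact hrodd)
  -- no power of `σ` prime to `r` fixes an atom
  have hnf : ∀ (j : ℕ) {p : Lat 4 F}, IsAtom p ∧ p ≤ M → Nat.Coprime j r →
      (σ ^ j) p = p → False := by
    intro j p hp hj hjp
    obtain ⟨c, hc'⟩ := exists_pow_eq_self_of_coprime (x := σ) (n := j) (by rw [hσ]; exact hj)
    have h1 := col_pow_fix hjp c
    rw [hc'] at h1
    exact min_no_atom (by norm_num) hM hp.1 hp.2 h1
  have hinj0 : ∀ i j : ℕ, i < j → j < r → (σ ^ i) x ≠ (σ ^ j) x := by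
    intro i j hij hjr heq
    have h1 : (σ ^ j) x = (σ ^ i) ((σ ^ (j - i)) x) := by
      have h2 : σ ^ j = σ ^ i * σ ^ (j - i) := by
        rw [← pow_add, Nat.add_sub_cancel' hij.le]
      rw [h2]
      rfl
    rw [h1] at heq
    have h3 := (σ ^ i).injective heq
    refine hnf (j - i) hx ?_ h3.symm
    refine ((Nat.Prime.coprime_iff_not_dvd hr'.out).2 ?_).symm
    exact Nat.not_dvd_of_pos_of_lt (by omega) (by omega)
  have htr : ∀ y : Lat 4 F, IsAtom y ∧ y ≤ M → ∃ i : ℕ, (σ ^ i) x = y := by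
    let φ : Fin r → {p : Lat 4 F // IsAtom p ∧ p ≤ M} := fun i => ⟨(σ ^ (i : ℕ)) x, hσA i hx⟩
    have hφ : Function.Bijective φ := by
      refine (Nat.bijective_iff_injective_and_card φ).2 ⟨?_, by rw [hcard, Nat.card_fin]⟩
      intro i j hij
      have hij' : (σ ^ (i : ℕ)) x = (σ ^ (j : ℕ)) x := congrArg Subtype.val hij
      rcases lt_trichotomy (i : ℕ) (j : ℕ) with h1 | h1 | h1
      · exact absurd hij' (hinj0 _ _ h1 j.2)
      · exact Fin.ext h1
      · exact absurd hij'.symm (hinj0 _ _ h1 i.2)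
    intro y hy
    obtain ⟨i, hi⟩ := hφ.2 ⟨y, hy⟩
    exact ⟨i, congrArg Subtype.val hi⟩
  have hgs : ∀ i : ℕ, g * σ ^ i = (σ ^ i)⁻¹ * g := by
    intro i
    rw [← inv_pow, ← hc, conj_pow]
    group
  have hgs' : ∀ i : ℕ, g * (σ ^ i)⁻¹ = σ ^ i * g := by
    intro i
    rw [mul_inv_eq_iff_eq_mul, mul_assoc, hgs, mul_inv_cancel_left]
  have e1 : ∀ i : ℕ, g ((σ ^ i) x) = ((σ ^ i)⁻¹ : Col 4 F) x := by
    intro i
    have h1 : (g * σ ^ i) x = ((σ ^ i)⁻¹ * g) x := by rw [hgs]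
    have h2 : ((σ ^ i)⁻¹ * g) x = ((σ ^ i)⁻¹ : Col 4 F) (g x) := rfl
    rw [h2, hgx] at h1
    exact h1
  have e2 : ∀ i : ℕ, g (((σ ^ i)⁻¹ : Col 4 F) x) = (σ ^ i) x := by
    intro i
    have h1 : (g * (σ ^ i)⁻¹) x = (σ ^ i * g) x := by rw [hgs']
    have h2 : (σ ^ i * g) x = (σ ^ i) (g x) := rfl
    rw [h2, hgx] at h1
    exact h1
  have hgg : ∀ y : Lat 4 F, IsAtom y ∧ y ≤ M → g (g y) = y := by
    intro y hy
    obtain ⟨i, rfl⟩ := htr y hy
    rw [e1, e2]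
  have huniq : ∀ y : Lat 4 F, IsAtom y ∧ y ≤ M → g y = y → y = x := by
    intro y hy hgy
    obtain ⟨i, rfl⟩ := htr y hy
    rw [e1] at hgy
    have h1 : (σ ^ (2 * i)) x = x := by
      have h2 : (σ ^ i) (((σ ^ i)⁻¹ : Col 4 F) x) = x := by
        have h3 : (σ ^ i * (σ ^ i)⁻¹) x = x := by
          rw [mul_inv_cancel]
          rfl
        exact h3
      rw [hgy] at h2
      rw [two_mul, pow_add]
      exact h2
    by_cases hri : r ∣ i
    · obtain ⟨c, rfl⟩ := hri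
      rw [pow_mul, hσr, one_pow]
      rfl
    · exfalso
      refine hnf (2 * i) hx ?_ h1
      refine Nat.Coprime.mul_left ?_ ?_
      · exact (Nat.coprime_two_left).2 hrodd
      · exact ((Nat.Prime.coprime_iff_not_dvd hr'.out).2 hri).symm
  have hxL : ∀ y : Lat 4 F, IsAtom y ∧ y ≤ M → y ≠ x → ¬ x ≤ y ⊔ g y := by
    intro y hy hyx hxL
    have hgy : y ≠ g y := fun h1 => hyx (huniq y hy h1.symm)
    have hgL : g (y ⊔ g y) = y ⊔ g y := by
      rw [OrderIso.map_sup, hgg y hy, sup_comm]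
    have hLM : y ⊔ g y ≤ M := sup_le hy.2 (hgA hy).2
    obtain ⟨U, hU, hgU⟩ := b4_fix g hg (fun U => IsAtom U ∧ U ≤ y ⊔ g y ∧ U ≠ x) (by
      rintro U ⟨h1, h2, h3⟩
      refine ⟨(g.isAtom_iff U).2 h1, ?_, ?_⟩
      · have h4 := g.monotone h2
        rwa [hgL] at h4
      · intro h4
        apply h3
        apply g.injective
        rw [h4, hgx]) (by
      have h1 : Nat.card {U : Lat 4 F // IsAtom U ∧ U ≤ y ⊔ g y ∧ U ≠ x} =
          ({z : Lat 4 F | IsAtom z ∧ z ≤ y ⊔ g y} \ {x}).ncard := by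
        rw [← Nat.card_coe_set_eq]
        refine Nat.card_congr (Equiv.subtypeEquivRight fun U => ?_)
        constructor
        · rintro ⟨h2, h3, h4⟩
          exact ⟨⟨h2, h3⟩, h4⟩
        · rintro ⟨⟨h2, h3⟩, h4⟩
          exact ⟨h2, h3, h4⟩
      have h2 : x ∈ {z : Lat 4 F | IsAtom z ∧ z ≤ y ⊔ g y} := ⟨hx.1, hxL⟩
      have h3 := Set.ncard_sdiff_singleton_add_one h2 (Set.toFinite _)
      rw [card_line hy.1 (hgA hy).1 hgy] at h3
      rw [h1, show ({z : Lat 4 F | IsAtom z ∧ z ≤ y ⊔ g y} \ {x}).ncard = Nat.card F by omega]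
      exact hq)
    exact hU.2.2 (huniq U ⟨hU.1, hU.2.1.trans hLM⟩ hgU)
  -- the two lines
  have hy : IsAtom (σ x) ∧ σ x ≤ M := by
    have h1 := hσA 1 hx
    rwa [pow_one] at h1
  obtain ⟨y, hydef⟩ : ∃ y, y = σ x := ⟨_, rfl⟩
  rw [← hydef] at hy
  have hyx : y ≠ x := by
    rw [hydef]
    exact min_no_atom (by norm_num) hM hx.1 hx.2
  have hygy : y ≠ g y := fun h1 => hyx (huniq y hy h1.symm)
  obtain ⟨z, hz, hzL, hzx⟩ : ∃ z, (IsAtom z ∧ z ≤ M) ∧ ¬ z ≤ y ⊔ g y ∧ z ≠ x := by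
    by_contra hcon
    push Not at hcon
    have h1 : {p : Lat 4 F | IsAtom p ∧ p ≤ M} ⊆
        insert x {z : Lat 4 F | IsAtom z ∧ z ≤ y ⊔ g y} := by
      intro p hp
      by_cases h2 : p ≤ y ⊔ g y
      · exact Set.mem_insert_of_mem _ ⟨hp.1, h2⟩
      · rw [hcon p hp h2]
        exact Set.mem_insert _ _
    have h2 := Set.ncard_le_ncard h1 (Set.toFinite _)
    have h3 := Set.ncard_insert_le x {z : Lat 4 F | IsAtom z ∧ z ≤ y ⊔ g y}
    rw [card_line hy.1 (hgA hy).1 hygy] at h3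
    have h4 : {p : Lat 4 F | IsAtom p ∧ p ≤ M}.ncard = r := by
      rw [← Nat.card_coe_set_eq]
      exact hcard
    rw [h4, hr] at h2
    nlinarith
  have hzgz : z ≠ g z := fun h1 => hzx (huniq z hz h1.symm)
  have hL2 : Module.finrank F (y ⊔ g y : Lat 4 F) = 2 := Invol_finrank_two hy.1 (hgA hy).1 hygy
  have hL2' : Module.finrank F (z ⊔ g z : Lat 4 F) = 2 := Invol_finrank_two hz.1 (hgA hz).1 hzgz
  have hle : (y ⊔ g y) ⊔ (z ⊔ g z) ≤ M :=
    sup_le (sup_le hy.2 (hgA hy).2) (sup_le hz.2 (hgA hz).2)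
  have h3 : Module.finrank F ((y ⊔ g y) ⊔ (z ⊔ g z) : Lat 4 F) ≤ 3 := by
    have h4 := Submodule.finrank_mono hle
    rwa [hM.dim] at h4
  have hlt : y ⊔ g y < (y ⊔ g y) ⊔ (z ⊔ g z) := by
    refine lt_of_le_of_ne le_sup_left ?_
    intro h4
    apply hzL
    rw [h4]
    exact le_sup_left.trans le_sup_right
  have h5 := Submodule.finrank_lt_finrank_of_lt hlt
  have h6 := Submodule.finrank_sup_add_finrank_inf_eq (y ⊔ g y) (z ⊔ g z)
  have h7 : Module.finrank F ((y ⊔ g y) ⊓ (z ⊔ g z) : Lat 4 F) = 1 := by omega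
  have h8 : IsAtom ((y ⊔ g y) ⊓ (z ⊔ g z) : Lat 4 F) := isAtom_iff_finrank.2 h7
  have h9 : g ((y ⊔ g y) ⊓ (z ⊔ g z)) = (y ⊔ g y) ⊓ (z ⊔ g z) := by
    rw [OrderIso.map_inf, OrderIso.map_sup, OrderIso.map_sup, hgg y hy, hgg z hz,
      sup_comm (g y), sup_comm (g z)]
  have h10 := huniq _ ⟨h8, inf_le_left.trans (sup_le hy.2 (hgA hy).2)⟩ h9
  apply hxL y hy hyx
  rw [← h10]
  exact inf_le_left

theorem normalizer_le_four [Finite F] (hq : Odd (Nat.card F)) {r : ℕ} [Fact r.Prime]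
    (hr : r = Nat.card F ^ 2 + Nat.card F + 1) (h : Big (Nat.card F) 4 r 3)
    (T' : Subgroup (Col 4 F)) (hT : ∀ l : ℕ, l.Prime → l ∣ r - 1 → l ∣ Nat.card T' → l = 2)
    (P : Sylow r T') (hP : Nat.card P = r) :
    Subgroup.normalizer (P : Set T') ≤ Subgroup.centralizer (P : Set T') := by
  classical
  have hfin : Finite (Lat 4 F) := lat_finite
  have hfin2 : Finite (Col 4 F) :=
    Finite.of_injective (fun σ : Col 4 F => (σ : Lat 4 F → Lat 4 F)) DFunLike.coe_injective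
  intro g hg
  rw [Subgroup.mem_centralizer_iff]
  by_contra hcon
  push Not at hcon
  obtain ⟨s, hs, hsg⟩ := hcon
  have hr1 : r.Prime := Fact.out
  have hsP : s ∈ (P : Subgroup T') := hs
  have hs1 : s ≠ 1 := by
    rintro rfl
    exact hsg (by rw [one_mul, mul_one])
  have hord : orderOf s = r := by
    have h1 : orderOf s ∣ r := by
      have h2 := Subgroup.orderOf_dvd_natCard (P : Subgroup T') hsP
      rwa [hP] at h2
    exact ((Nat.dvd_prime hr1).1 h1).resolve_left fun h2 => hs1 (orderOf_eq_one_iff.1 h2)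
  have hzP : Subgroup.zpowers s = (P : Subgroup T') := by
    refine Subgroup.eq_of_le_of_card_ge ((Subgroup.zpowers_le).2 hsP) ?_
    rw [Nat.card_zpowers, hord, hP]
  have hconj : g * s * g⁻¹ ∈ (P : Subgroup T') := (Subgroup.mem_normalizer_iff.1 hg s).1 hsP
  rw [← hzP] at hconj
  obtain ⟨m, hm⟩ : ∃ m : ℕ, g * s * g⁻¹ = s ^ m := by
    have h1 := mem_zpowers_iff_mem_range_orderOf.1 hconj
    obtain ⟨m, -, hm⟩ := Finset.mem_image.1 h1
    exact ⟨m, hm.symm⟩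
  obtain ⟨t, a, ht1, ht2⟩ := b4_grp hT hord hm fun h1 => hsg h1.symm
  refine b4_lat hq hr h (σ := (s : Col 4 F)) (g := (t : Col 4 F)) ?_ (a := a) ?_ ?_
  · rw [Subgroup.orderOf_coe, hord]
  · have h1 := congrArg Subtype.val ht1
    rwa [SubmonoidClass.coe_pow] at h1
  · exact congrArg Subtype.val ht2

end Pool.Agent.Work.MP_bc729a_al.LA
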