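import Pool.Agent.Work.MP_bc729a_al.LA.BigDef

/-! # Module BigEx3 (S-M): the numerical data of the leftover cases for `q = 3`

Finite checks, see BigEx. For `s = 11`: `gb 3 5 1 = 121`, so `v ≤ 2`, and `11 ≡ 4`, `121 ≡ 2` modulo `7`. In the other cases `v ≤ 1`.
`cop_*`: evaluate the greatest common divisor. For `n = 4` only odd primes are excluded: `3 ∤ 130`. -/

namespace Pool.Agent.Work.MP_bc729a_al.LA



universe u v

private theorem sv1 {s g r : ℕ} (h2 : ¬ s ^ 2 ∣ g) (h1 : ¬ s ≡ 1 [MOD r]) :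
    ∀ v, 0 < v → s ^ v ∣ g → ¬ s ^ v ≡ 1 [MOD r] := by
  intro v hv hd
  rcases Nat.lt_or_ge v 2 with h | h
  · have : v = 1 := by omega
    subst this
    rwa [pow_one]
  · exact absurd ((pow_dvd_pow s h).trans hd) h2

private theorem sv2 {s g r : ℕ} (h3 : ¬ s ^ 3 ∣ g) (h1 : ¬ s ≡ 1 [MOD r])
    (h2 : ¬ s ^ 2 ≡ 1 [MOD r]) : ∀ v, 0 < v → s ^ v ∣ g → ¬ s ^ v ≡ 1 [MOD r] := by
  intro v hv hd
  rcases Nat.lt_or_ge v 3 with h | h
  · have : v = 1 ∨ v = 2 := by omega
    rcases this with rfl | rfl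
    · rwa [pow_one]
    · exact h2
  · exact absurd ((pow_dvd_pow s h).trans hd) h3

theorem data_3_4 : Data 3 4 2 13 3 5 4 where
  big := ⟨by norm_num, by norm_num,
      fun d h0 hd => (by decide +kernel : ∀ d ≤ 4, 0 < d → 13 ∣ gb 3 d 1 → d = 3) d hd h0,
      by norm_num⟩
  big' := ⟨by norm_num, by norm_num,
      fun d h0 hd => (by decide +kernel : ∀ d ≤ 4, 0 < d → 5 ∣ gb 3 d 1 → d = 4) d hd h0,
      by norm_num⟩
  ne := by norm_num
  sq := by decide +kernel
  sv := sv1 (by decide +kernel) (by decide +kernel)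
  dr := by decide +kernel
  ds := by decide +kernel

theorem data_3_6 : Data 3 6 2 7 6 11 5 where
  big := ⟨by norm_num, by norm_num,
      fun d h0 hd => (by decide +kernel : ∀ d ≤ 6, 0 < d → 7 ∣ gb 3 d 1 → d = 6) d hd h0,
      by norm_num⟩
  big' := ⟨by norm_num, by norm_num,
      fun d h0 hd => (by decide +kernel : ∀ d ≤ 6, 0 < d → 11 ∣ gb 3 d 1 → d = 5) d hd h0,
      by norm_num⟩
  ne := by norm_num
  sq := by decide +kernel
  sv := sv2 (by decide +kernel) (by decide +kernel) (by decide +kernel)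
  dr := by decide +kernel
  ds := by decide +kernel

theorem cop_3_6 : Nat.Coprime (7 - 1) (gb 3 6 2) := by
  decide +kernel

theorem data_3_7 : Data 3 7 3 7 6 11 5 where
  big := ⟨by norm_num, by norm_num,
      fun d h0 hd => (by decide +kernel : ∀ d ≤ 7, 0 < d → 7 ∣ gb 3 d 1 → d = 6) d hd h0,
      by norm_num⟩
  big' := ⟨by norm_num, by norm_num,
      fun d h0 hd => (by decide +kernel : ∀ d ≤ 7, 0 < d → 11 ∣ gb 3 d 1 → d = 5) d hd h0,
      by norm_num⟩
  ne := by norm_num
  sq := by decide +kernel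
  sv := sv2 (by decide +kernel) (by decide +kernel) (by decide +kernel)
  dr := by decide +kernel
  ds := by decide +kernel

theorem cop_3_7 : Nat.Coprime (7 - 1) (gb 3 7 3) := by
  decide +kernel

theorem data_3_14 : Data 3 14 2 547 14 797161 13 where
  big := ⟨by norm_num, by norm_num,
      fun d h0 hd => (by decide +kernel : ∀ d ≤ 14, 0 < d → 547 ∣ gb 3 d 1 → d = 14) d hd h0,
      by norm_num⟩
  big' := ⟨by norm_num, by norm_num,
      fun d h0 hd => (by decide +kernel : ∀ d ≤ 14, 0 < d → 797161 ∣ gb 3 d 1 → d = 13) d hd h0,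
      by norm_num⟩
  ne := by norm_num
  sq := by decide +kernel
  sv := sv1 (by decide +kernel) (by decide +kernel)
  dr := by decide +kernel
  ds := by decide +kernel

theorem cop_3_14 : Nat.Coprime (547 - 1) (gb 3 14 2) := by
  decide +kernel

theorem data_3_15 : Data 3 15 2 4561 15 547 14 where
  big := ⟨by norm_num, by norm_num,
      fun d h0 hd => (by decide +kernel : ∀ d ≤ 15, 0 < d → 4561 ∣ gb 3 d 1 → d = 15) d hd h0,
      by norm_num⟩
  big' := ⟨by norm_num, by norm_num,
      fun d h0 hd => (by decide +kernel : ∀ d ≤ 15, 0 < d → 547 ∣ gb 3 d 1 → d = 14) d hd h0,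
      by norm_num⟩
  ne := by norm_num
  sq := by decide +kernel
  sv := sv1 (by decide +kernel) (by decide +kernel)
  dr := by decide +kernel
  ds := by decide +kernel

theorem cop_3_15 : Nat.Coprime (4561 - 1) (gb 3 15 2) := by
  decide +kernel

end Pool.Agent.Work.MP_bc729a_al.LA
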