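import Pool.Agent.Work.MP_bc729a_al.LA.CntI

/-! # Module Abs (M): absolute points of polarities

Write `τ V` for `ofDual (τ V)`; it reverses the order and `τ τ V = V`. `finrank_dual`: any order isomorphism from the lattice to its
dual: a maximal chain through `U` goes to a maximal chain (e.g. prove by induction on `finrank U`: `A ⋖ B` goes to `τ B ⋖ τ A` and covering
raises `finrank` by one; `τ ⊥ = ⊤`).
`exists_absolute`. PROOF. Let `u = finrank U`, `d = n - 2u ≥ 3`, `B = τ U` (`finrank B = n - u`, `U ≤ B`),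
`X = {V | U ≤ V ≤ B, finrank V = u + 1}`, `|X| = gb q d 1`. For `V ∈ X` also `U ≤ τ V ≤ B` and `finrank (τ V) = n - u - 1`. Let
`p = char F` (prime), `q = |F|` a power of `p`, and let `A` be the `X × X` matrix over `ZMod p` with `A V W = 1` if `W ≤ τ V` and `0`
otherwise; it is symmetric (`W ≤ τ V ↔ V ≤ τ W`). `(A * A) V W = #{Z ∈ X | Z ≤ τ V ⊓ τ W}`, and `U ≤ τ V ⊓ τ W = τ (V ⊔ W)` has
dimension `u + (d - 1)` if `V = W` and `u + (d - 2)` if `V ≠ W` (`finrank (V ⊔ W) = u + 2`), so the number is `gb q (d-1) 1` or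
`gb q (d-2) 1`, both `≡ 1` modulo `q` (`gb_modEq_one`, `d - 2 ≥ 1`), hence `A * A = J`, the all-ones matrix. Row sums of `A` are
`gb q (d-1) 1 ≡ 1`, so `A * J = J` and `A ^ m = J` for all `m ≥ 2`. `ZMod.trace_pow_card`: `trace (A ^ p) = (trace A) ^ p`. Since
`trace J = |X| = gb q d 1 ≡ 1`, `(trace A) ^ p = 1`, so `trace A ≠ 0`, and there is `V ∈ X` with `A V V ≠ 0`, i.e. `V ≤ τ V`.
`exists_isotropic`: induction on `k`, start with `U = ⊥`. -/

namespace Pool.Agent.Work.MP_bc729a_al.LA

open Pool.Agent.Work.MP_bc729a_al.LN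

universe u v

open OrderDual

variable {n : ℕ} {F : Type u} [Field F]

private theorem height_lat (U : Lat n F) : Order.height U = (Module.finrank F U : ℕ∞) := by
  have h1 : Module.length F U = Order.height U := Module.length_submodule
  rw [← h1, Module.length_eq_finrank]

private theorem coheight_lat (U : Lat n F) : Order.coheight U = (Module.finrank F ((Fin n → F) ⧸ U) : ℕ∞) := by
  have h1 : Module.length F ((Fin n → F) ⧸ U) = Order.coheight U := Module.length_quotient
  rw [← h1, Module.length_eq_finrank]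

theorem finrank_dual (τ : Lat n F ≃o (Lat n F)ᵒᵈ) (U : Lat n F) :
    Module.finrank F (ofDual (τ U) : Lat n F) + Module.finrank F U = n := by
  have h1 : Order.height (τ U) = Order.height U := Order.height_orderIso τ U
  have h2 : Order.height (τ U) = Order.coheight (ofDual (τ U)) := rfl
  rw [h2, coheight_lat, height_lat] at h1
  have h3 : Module.finrank F ((Fin n → F) ⧸ (ofDual (τ U) : Lat n F)) = Module.finrank F U := by
    exact_mod_cast h1
  have h4 := Submodule.finrank_quotient_add_finrank (ofDual (τ U) : Lat n F)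
  rw [h3, Module.finrank_fin_fun] at h4
  omega

private theorem dual_le {τ : Lat n F ≃o (Lat n F)ᵒᵈ} {U V : Lat n F} (h : U ≤ V) :
    ofDual (τ V) ≤ ofDual (τ U) := by
  have h1 : τ U ≤ τ V := τ.monotone h
  exact h1

private theorem dual_swap {τ : Lat n F ≃o (Lat n F)ᵒᵈ} (hτ : ∀ U, ofDual (τ (ofDual (τ U))) = U)
    {U V : Lat n F} (h : U ≤ ofDual (τ V)) : V ≤ ofDual (τ U) := by
  have h1 := dual_le (τ := τ) h
  rwa [hτ] at h1

/-- the number of the subspaces of dimension `u + 1` between `U` and `B` is `1` modulo `p` -/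
private theorem card_cast [Finite F] {p : ℕ} {k : ℕ} (hk : 0 < k) (hq : Nat.card F = p ^ k) {U B : Lat n F}
    (h : U ≤ B) (hd : Module.finrank F U + 1 ≤ Module.finrank F B) :
    ((Nat.card {V : Lat n F // U ≤ V ∧ V ≤ B ∧ Module.finrank F V = Module.finrank F U + 1} : ℕ) : ZMod p) = 1 := by
  rw [card_between h 1]
  have h1 : gb (Nat.card F) (Module.finrank F B - Module.finrank F U) 1 ≡ 1 [MOD Nat.card F] :=
    gb_modEq_one (by omega)
  have h2 : p ∣ Nat.card F := by
    rw [hq]
    exact dvd_pow_self p hk.ne'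
  have h3 := h1.of_dvd h2
  have h4 := (ZMod.natCast_eq_natCast_iff _ _ _).2 h3
  rw [h4, Nat.cast_one]

open Matrix in
theorem exists_absolute [Finite F] (τ : Lat n F ≃o (Lat n F)ᵒᵈ)
    (hτ : ∀ U, ofDual (τ (ofDual (τ U))) = U) {U : Lat n F} (hU : U ≤ ofDual (τ U))
    (hn : 2 * Module.finrank F U + 3 ≤ n) :
    ∃ V : Lat n F, U ≤ V ∧ Module.finrank F V = Module.finrank F U + 1 ∧ V ≤ ofDual (τ V) := by
  classical
  have := Fintype.ofFinite F
  obtain ⟨p, hp⟩ := CharP.exists F
  obtain ⟨k, hpp, hk⟩ := FiniteField.card F p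
  have : Fact p.Prime := ⟨hpp⟩
  have hq : Nat.card F = p ^ (k : ℕ) := by rw [Nat.card_eq_fintype_card, hk]
  have hk0 : 0 < (k : ℕ) := k.pos
  have hfin : Finite (Lat n F) := lat_finite
  let X := {V : Lat n F // U ≤ V ∧ V ≤ ofDual (τ U) ∧ Module.finrank F V = Module.finrank F U + 1}
  have : Fintype X := Fintype.ofFinite X
  have hdU := finrank_dual τ U
  let A : Matrix X X (ZMod p) := fun V W => if W.1 ≤ ofDual (τ V.1) then 1 else 0
  let J : Matrix X X (ZMod p) := fun _ _ => 1
  have hJ : J.trace = 1 := by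
    have h1 : J.trace = ((Nat.card X : ℕ) : ZMod p) := by
      rw [Matrix.trace, Nat.card_eq_fintype_card]
      simp [J]
    rw [h1]
    exact card_cast hk0 hq hU (by omega)
  have hcount : ∀ V : X, ∀ C : Lat n F, U ≤ C → C ≤ ofDual (τ U) → Module.finrank F U + 1 ≤ Module.finrank F C →
      ∑ Z : X, (if Z.1 ≤ C then (1 : ZMod p) else 0) = 1 := by
    intro V C h1 h2 h3
    rw [Finset.sum_boole, ← Fintype.card_subtype, ← Nat.card_eq_fintype_card]
    refine Eq.trans ?_ (card_cast (p := p) hk0 hq h1 h3)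
    congr 1
    apply Nat.card_congr
    exact
      { toFun := fun Z => ⟨Z.1.1, Z.1.2.1, Z.2, Z.1.2.2.2⟩
        invFun := fun Z => ⟨⟨Z.1, Z.2.1, Z.2.2.1.trans h2, Z.2.2.2⟩, Z.2.2.1⟩
        left_inv := fun Z => rfl
        right_inv := fun Z => rfl }
  have hAA : A * A = J := by
    ext V W
    rw [Matrix.mul_apply]
    have h1 : ∀ Z : X, A V Z * A Z W = if Z.1 ≤ ofDual (τ V.1) ⊓ ofDual (τ W.1) then (1 : ZMod p) else 0 := by
      intro Z
      by_cases h2 : Z.1 ≤ ofDual (τ V.1)
      · by_cases h3 : Z.1 ≤ ofDual (τ W.1)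
        · have h4 : W.1 ≤ ofDual (τ Z.1) := dual_swap hτ h3
          simp [A, h2, h3, h4]
        · have h4 : ¬ W.1 ≤ ofDual (τ Z.1) := fun h => h3 (dual_swap hτ h)
          simp [A, h2, h3, h4]
      · simp [A, h2]
    rw [Finset.sum_congr rfl fun Z _ => h1 Z]
    have hV : U ≤ ofDual (τ V.1) := dual_swap hτ V.2.2.1
    have hW : U ≤ ofDual (τ W.1) := dual_swap hτ W.2.2.1
    apply hcount V
    · exact le_inf hV hW
    · exact inf_le_left.trans (dual_le V.2.1)
    · have h2 : ofDual (τ V.1) ⊓ ofDual (τ W.1) = ofDual (τ (V.1 ⊔ W.1)) := by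
        apply le_antisymm
        · apply dual_swap hτ
          exact sup_le (dual_swap hτ inf_le_left) (dual_swap hτ inf_le_right)
        · exact le_inf (dual_le le_sup_left) (dual_le le_sup_right)
      rw [h2]
      have h3 := finrank_dual τ (V.1 ⊔ W.1)
      have h4 := Submodule.finrank_sup_add_finrank_inf_eq V.1 W.1
      have h5 : Module.finrank F U ≤ Module.finrank F (V.1 ⊓ W.1 : Lat n F) :=
        Submodule.finrank_mono (le_inf V.2.1 W.2.1)
      have h6 := V.2.2.2
      have h7 := W.2.2.2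
      omega
  have hAJ : A * J = J := by
    ext V W
    rw [Matrix.mul_apply]
    have h1 : ∀ Z : X, A V Z * J Z W = if Z.1 ≤ ofDual (τ V.1) then (1 : ZMod p) else 0 := by
      intro Z
      simp [A, J]
    rw [Finset.sum_congr rfl fun Z _ => h1 Z]
    have hV : U ≤ ofDual (τ V.1) := dual_swap hτ V.2.2.1
    apply hcount V _ hV (dual_le V.2.1)
    have h3 := finrank_dual τ V.1
    have h6 := V.2.2.2
    omega
  have hpow : ∀ m : ℕ, A ^ (m + 2) = J := by
    intro m
    induction m with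
    | zero => rw [zero_add, pow_two, hAA]
    | succ m ih => rw [show m + 1 + 2 = (m + 2) + 1 by ring, pow_succ', ih, hAJ]
  have htr := ZMod.trace_pow_card A
  obtain ⟨m, hm⟩ := Nat.exists_eq_add_of_le hpp.two_le
  have h1 : A ^ p = J := by
    have h5 : ∀ m', p = m' + 2 → A ^ p = J := fun m' hm' => (congrArg (fun x => A ^ x) hm').trans (hpow m')
    exact h5 m (by omega)
  rw [h1, hJ] at htr
  have h2 : A.trace ≠ 0 := by
    intro h0
    rw [h0, zero_pow hpp.ne_zero] at htr
    exact one_ne_zero htr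
  obtain ⟨V, -, hV⟩ := Finset.exists_ne_zero_of_sum_ne_zero h2
  refine ⟨V.1, V.2.1, V.2.2.2, ?_⟩
  by_contra hcon
  apply hV
  simp [A, hcon]

theorem exists_isotropic [Finite F] (τ : Lat n F ≃o (Lat n F)ᵒᵈ)
    (hτ : ∀ U, ofDual (τ (ofDual (τ U))) = U) (k : ℕ) (hk : 2 * k < n) :
    ∃ V : Lat n F, Module.finrank F V = k ∧ V ≤ ofDual (τ V) := by
  induction k with
  | zero => exact ⟨⊥, finrank_bot F (Fin n → F), bot_le⟩
  | succ k ih =>
    obtain ⟨U, hU1, hU2⟩ := ih (by omega)
    obtain ⟨V, -, h1, h2⟩ := exists_absolute τ hτ hU2 (by rw [hU1]; omega)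
    exact ⟨V, by rw [h1, hU1], h2⟩

end Pool.Agent.Work.MP_bc729a_al.LA
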