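import Pool.Agent.Work.MP_bc729a_al.LA.TvInv

/-! # Module InvSt (S): subspaces invariant under the stabiliser of a flag

`fix_of_XT`: `g v - v ∈ f.p` for all `v` and `g v = v` for `v ∈ f.h`; so `g U ≤ U` in both cases, and the same for `g⁻¹ ∈ XT`.
`mem_stab_pair`: if `U = W` clear; if `U < W` then `act s U ∈ {U, W}` has the dimension of `U` (`finrank_orderIso`), so it is `U`
(`Submodule.finrank_lt_finrank_of_lt`), and then `act s W = W`. Conversely clear.
`inv_stab`. For a flag `f` with (`f.p ≤ U` or `U ≤ f.h`) and (`f.p ≤ W` or `W ≤ f.h`) and `g ∈ XT f.p f.h`, `pr g ∈ stab {U, W}`, so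
`actSL g A = A`. If `A ≠ ⊥` take cases. (i) Some atom `a ≤ A` is not `≤ W`: `le_of_transvections` with `B = W`, `C = ⊤` (`W ≤ f.h`, also
`U ≤ f.h`): `A = ⊤`. (ii) `A ≤ W` and some atom `a ≤ A` is not `≤ U`: `B = U`, `C = W` (`f.p ≤ W`, `U ≤ f.h`): `W ≤ A`, so `A = W`.
(iii) `A ≤ U`: `B = ⊥`, `C = U` (`f.p ≤ U ≤ W`): `U ≤ A`, so `A = U`. (Atoms: `lat_atoms`.) -/

namespace Pool.Agent.Work.MP_bc729a_al.LA

open Pool.Agent.Work.MP_bc729a_al.LN

universe u v

variable {n : ℕ} {F : Type u} [Field F]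

private theorem finrank_oi (σ : Lat n F ≃o Lat n F) (U : Lat n F) :
    Module.finrank F (σ U) = Module.finrank F U := by
  have h1 : Module.length F (σ U) = Module.length F U := by
    rw [Module.length_submodule, Module.length_submodule, Order.height_orderIso]
  rw [Module.length_eq_finrank, Module.length_eq_finrank] at h1
  exact_mod_cast h1

private theorem fix_le {p h U : Lat n F} {g : SLn n F} (hg : g ∈ XT p h) (hU : p ≤ U ∨ U ≤ h) :
    actSL n F g U ≤ U := by
  intro v hv
  obtain ⟨u, hu, rfl⟩ := mem_actSL.1 hv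
  rcases hU with hU | hU
  · have h1 : g.1.mulVec u = (g.1.mulVec u - u) + u := by rw [sub_add_cancel]
    rw [h1]
    exact U.add_mem (hU (hg.1 u)) hu
  · rw [hg.2 u (hU hu)]
    exact hu

theorem fix_of_XT {p h U : Lat n F} {g : SLn n F} (hg : g ∈ XT p h) (hU : p ≤ U ∨ U ≤ h) :
    actSL n F g U = U := by
  refine le_antisymm (fix_le hg hU) ?_
  have h1 := (actSL n F g).monotone (fix_le ((XT p h).inv_mem hg) hU)
  have h2 : actSL n F g (actSL n F g⁻¹ U) = U := by
    have : actSL n F g (actSL n F g⁻¹ U) = (actSL n F g * actSL n F g⁻¹) U := rfl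
    rw [this, ← map_mul, mul_inv_cancel, map_one]
    rfl
  rwa [h2] at h1

theorem mem_stab_pair {U W : Lat n F} (hUW : U ≤ W) {s : PSLn n F} :
    s ∈ stab {U, W} ↔ act n F s U = U ∧ act n F s W = W := by
  constructor
  · intro h
    have h0 : (act n F s : Lat n F → Lat n F) '' {U, W} = {U, W} := h
    have hU : act n F s U ∈ ({U, W} : Set (Lat n F)) := by
      rw [← h0]
      exact ⟨U, Or.inl rfl, rfl⟩
    have hW : act n F s W ∈ ({U, W} : Set (Lat n F)) := by
      rw [← h0]
      exact ⟨W, Or.inr rfl, rfl⟩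
    constructor
    · rcases hU with hU | hU
      · exact hU
      · have hU' : act n F s U = W := hU
        have h1 := finrank_oi (act n F s) U
        rw [hU'] at h1
        rw [hU']
        exact (Submodule.eq_of_le_of_finrank_eq hUW h1.symm).symm
    · rcases hW with hW | hW
      · have h1 := finrank_oi (act n F s) W
        rw [hW] at h1
        rw [hW]
        exact Submodule.eq_of_le_of_finrank_eq hUW h1
      · exact hW
  · rintro ⟨h1, h2⟩
    change (act n F s : Lat n F → Lat n F) '' {U, W} = {U, W}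
    rw [Set.image_pair, h1, h2]

theorem inv_stab {U W A : Lat n F} (hUW : U ≤ W)
    (hA : ∀ s ∈ stab ({U, W} : Set (Lat n F)), act n F s A = A) :
    A = ⊥ ∨ A = U ∨ A = W ∨ A = ⊤ := by
  have key : ∀ f : Flag n F, (f.p ≤ U ∨ U ≤ f.h) → (f.p ≤ W ∨ W ≤ f.h) → ∀ g ∈ XT f.p f.h,
      actSL n F g A = A := by
    intro f h1 h2 g hg
    have h3 := hA (pr n F g) ((mem_stab_pair hUW).2 ⟨fix_of_XT hg h1, fix_of_XT hg h2⟩)
    exact h3
  have hle : ∀ X : Lat n F, (∀ a, IsAtom a → a ≤ A → a ≤ X) → A ≤ X := by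
    intro X hX
    rw [lat_atoms A]
    exact sSup_le fun a ha => hX a ha.1 ha.2
  by_cases c1 : ∀ a, IsAtom a → a ≤ A → a ≤ W
  · have hAW := hle W c1
    by_cases c2 : ∀ a, IsAtom a → a ≤ A → a ≤ U
    · have hAU := hle U c2
      by_cases c3 : ∀ a, IsAtom a → a ≤ A → a ≤ ⊥
      · exact Or.inl (le_bot_iff.1 (hle ⊥ c3))
      · push Not at c3
        obtain ⟨a, ha, haA, haB⟩ := c3
        refine Or.inr (Or.inl (le_antisymm hAU ?_))
        exact le_of_transvections bot_le ha (haA.trans hAU) haB haA fun f hpU _ g hg =>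
          key f (Or.inl hpU) (Or.inl (hpU.trans hUW)) g hg
    · push Not at c2
      obtain ⟨a, ha, haA, haB⟩ := c2
      refine Or.inr (Or.inr (Or.inl (le_antisymm hAW ?_)))
      exact le_of_transvections hUW ha (haA.trans hAW) haB haA fun f hpW hUf g hg =>
        key f (Or.inr hUf) (Or.inl hpW) g hg
  · push Not at c1
    obtain ⟨a, ha, haA, haB⟩ := c1
    refine Or.inr (Or.inr (Or.inr (top_le_iff.1 ?_)))
    exact le_of_transvections le_top ha le_top haB haA fun f _ hWf g hg =>
      key f (Or.inr (hUW.trans hWf)) (Or.inr hWf) g hg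

end Pool.Agent.Work.MP_bc729a_al.LA
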