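import Pool.Agent.Work.MP_bc729a_al.LA.TrK
import Pool.Agent.Work.MP_bc729a_al.LA.InvSt
import Pool.Agent.Work.MP_bc729a_al.LA.Abs
import Pool.Agent.Work.MP_bc729a_al.LN.Final

/-! # Module ClsF (S-M): classes of stabilisers of flags

PROOFS. `map_stab`, `map_stabD` (LN/Final): `(stab P).map α = stab (σ '' P)` or `= stab (τ '' P)`; `stab_act`:
`stab (act s '' P) = conj s • stab P`; `Set.image_pair`.
`class_flag`: `fund hn α`. If `α` is induced by `σ`: `σ U ≤ σ W`, dimensions as before (`finrank_orderIso`), `trans_chain` gives `s` with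
`act s U = σ U`, `act s W = σ W`. If `α` is induced by `τ`: the image is `{τ U, τ W} = {τ W, τ U}` with `τ W ≤ τ U`,
`finrank (τ W) = n - finrank W = finrank U` and `finrank (τ U) = finrank W` (`finrank_dual`).
`class_one`: the same with `σ U`.
`fix_conj`: `a` with `act a U₀ = U`, `act a W₀ = W` (`trans_chain`): `conj a • stab {U₀, W₀} = stab {U, W}`, and `σ` fixes `U, W`.
`fix_conjD`: put `W = τ U`; `finrank W = n - finrank U = finrank W₀`; `a` with `act a U₀ = U`, `act a W₀ = W`; `τ` maps the set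
`{U, W}` to `{W, τ W} = {W, U}`. -/

namespace Pool.Agent.Work.MP_bc729a_al.LA

open Pool.Agent.Work.MP_bc729a_al.LN

universe u v

open OrderDual
open scoped Pointwise

variable {n : ℕ} {F : Type u} [Field F]

theorem class_flag [Finite F] (hn : 3 ≤ n) {U W : Lat n F} (h : U ≤ W)
    (hW : Module.finrank F W + Module.finrank F U = n) (α : MulAut (PSLn n F)) :
    ∃ a : PSLn n F, (stab {U, W}).map α.toMonoidHom = MulAut.conj a • stab {U, W} := by
  rcases fund hn α with ⟨σ, hσ⟩ | ⟨τ, hτ⟩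
  · obtain ⟨s, h1, h2⟩ := trans_chain (by omega : 1 ≤ n) h (σ.monotone h)
      (finrank_orderIso σ U).symm (finrank_orderIso σ W).symm
    refine ⟨s, ?_⟩
    rw [map_stab hσ, ← stab_act, Set.image_pair, Set.image_pair, h1, h2]
  · have hd1 := finrank_dual τ U
    have hd2 := finrank_dual τ W
    have hle : (ofDual (τ W) : Lat n F) ≤ ofDual (τ U) := τ.monotone h
    obtain ⟨s, h1, h2⟩ := trans_chain (by omega : 1 ≤ n) h hle (by omega) (by omega)
    refine ⟨s, ?_⟩
    rw [map_stabD hτ, ← stab_act, Set.image_pair, Set.image_pair, h1, h2, Set.pair_comm]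

theorem class_one (hn : 1 ≤ n) {α : MulAut (PSLn n F)} {σ : Lat n F ≃o Lat n F}
    (hα : IndP α σ) (U : Lat n F) :
    ∃ a : PSLn n F, (stab {U}).map α.toMonoidHom = MulAut.conj a • stab {U} := by
  obtain ⟨s, hs⟩ := trans_one hn (finrank_orderIso σ U).symm
  refine ⟨s, ?_⟩
  rw [map_stab hα, ← stab_act, Set.image_singleton, Set.image_singleton, hs]

theorem fix_conj (hn : 1 ≤ n) {α : MulAut (PSLn n F)} {σ : Lat n F ≃o Lat n F}
    (hα : IndP α σ) {U W U₀ W₀ : Lat n F} (h : U ≤ W) (h₀ : U₀ ≤ W₀)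
    (hU : Module.finrank F U = Module.finrank F U₀)
    (hW : Module.finrank F W = Module.finrank F W₀) (hσU : σ U = U) (hσW : σ W = W) :
    ∃ a : PSLn n F, (MulAut.conj a • stab {U₀, W₀}).map α.toMonoidHom =
      MulAut.conj a • stab {U₀, W₀} := by
  obtain ⟨a, h1, h2⟩ := trans_chain hn h₀ h hU.symm hW.symm
  refine ⟨a, ?_⟩
  rw [← stab_act, Set.image_pair, h1, h2, map_stab hα, Set.image_pair, hσU, hσW]

theorem fix_conjD (hn : 1 ≤ n) {α : MulAut (PSLn n F)} {τ : Lat n F ≃o (Lat n F)ᵒᵈ}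
    (hα : IndD α τ) {U U₀ W₀ : Lat n F} (h : U ≤ ofDual (τ U)) (hτ : ofDual (τ (ofDual (τ U))) = U)
    (h₀ : U₀ ≤ W₀) (hU : Module.finrank F U = Module.finrank F U₀)
    (hW : Module.finrank F W₀ + Module.finrank F U₀ = n) :
    ∃ a : PSLn n F, (MulAut.conj a • stab {U₀, W₀}).map α.toMonoidHom =
      MulAut.conj a • stab {U₀, W₀} := by
  have hd := finrank_dual τ U
  obtain ⟨a, h1, h2⟩ := trans_chain hn h₀ h hU.symm (by omega)
  refine ⟨a, ?_⟩
  rw [← stab_act, Set.image_pair, h1, h2, map_stabD hα, Set.image_pair, hτ, Set.pair_comm]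

end Pool.Agent.Work.MP_bc729a_al.LA
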