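import Pool.Agent.Work.MP_bc729a_al.LA.Cnt

/-! # Module CntI (S-M): the number of subspaces in an interval

PROOF. `{U | A ≤ U ≤ B}` is in bijection with the submodules of `Q = B ⧸ A.submoduleOf B` (submodules of `B`: `Submodule.MapSubtype`
order isomorphism / `Submodule.mapSubtype...relIso`, submodules above `A`: `Submodule.comapMkQRelIso`), and
`finrank (image of U) = finrank U - finrank A`, `finrank Q = finrank B - finrank A` (`Submodule.finrank_quotient_add_finrank`,
`Submodule.finrank_map_subtype_eq` ...). Then `card_grass`.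
`card_points`: the case `B` and `A = ⊥`, `k = 1` (atoms have dimension `1`: `Invol_finrank_atom`, conversely a subspace of dimension
`1` is an atom). -/

namespace Pool.Agent.Work.MP_bc729a_al.LA

open Pool.Agent.Work.MP_bc729a_al.LN

universe u v

variable {n : ℕ} {F : Type u} [Field F]

theorem card_between [Finite F] {A B : Lat n F} (h : A ≤ B) (k : ℕ) :
    Nat.card {U : Lat n F // A ≤ U ∧ U ≤ B ∧ Module.finrank F U = Module.finrank F A + k} =
      gb (Nat.card F) (Module.finrank F B - Module.finrank F A) k := by
  have hA : Module.finrank F (A.submoduleOf B) = Module.finrank F A :=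
    (Submodule.submoduleOfEquivOfLe h).finrank_eq
  have hQ : Module.finrank F (B ⧸ A.submoduleOf B) = Module.finrank F B - Module.finrank F A := by
    have h1 := Submodule.finrank_quotient_add_finrank (A.submoduleOf B)
    omega
  have hcom : ∀ W : Submodule F (B ⧸ A.submoduleOf B),
      Module.finrank F (W.comap (A.submoduleOf B).mkQ) =
        Module.finrank F W + Module.finrank F A := by
    intro W
    have hle : A.submoduleOf B ≤ W.comap (A.submoduleOf B).mkQ := by
      intro x hx
      rw [Submodule.mem_comap, Submodule.mkQ_apply, (Submodule.Quotient.mk_eq_zero _).2 hx]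
      exact W.zero_mem
    have h1 := LinearMap.finrank_range_add_finrank_ker (K := F)
      (V := W.comap (A.submoduleOf B).mkQ) (V₂ := B ⧸ A.submoduleOf B)
      ((A.submoduleOf B).mkQ.domRestrict (W.comap (A.submoduleOf B).mkQ))
    have h2 : LinearMap.range ((A.submoduleOf B).mkQ.domRestrict
        (W.comap (A.submoduleOf B).mkQ)) = W := by
      rw [LinearMap.range_domRestrict, Submodule.map_comap_eq, Submodule.range_mkQ, top_inf_eq]
    have h3 : LinearMap.ker ((A.submoduleOf B).mkQ.domRestrict
        (W.comap (A.submoduleOf B).mkQ)) =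
        (A.submoduleOf B).submoduleOf (W.comap (A.submoduleOf B).mkQ) := by
      ext x
      rw [LinearMap.mem_ker, LinearMap.domRestrict_apply, Submodule.mkQ_apply,
        Submodule.Quotient.mk_eq_zero]
      rfl
    rw [h2, h3, (Submodule.submoduleOfEquivOfLe hle).finrank_eq, hA] at h1
    exact h1.symm
  haveI : Finite (B ⧸ A.submoduleOf B) := Finite.of_surjective _ (Submodule.mkQ_surjective _)
  rw [← hQ, ← card_grass F (B ⧸ A.submoduleOf B) k]
  symm
  have hAmap : ∀ W : Submodule F (B ⧸ A.submoduleOf B),
      A ≤ (W.comap (A.submoduleOf B).mkQ).map B.subtype := by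
    intro W x hx
    refine ⟨⟨x, h hx⟩, ?_, rfl⟩
    rw [SetLike.mem_coe, Submodule.mem_comap, Submodule.mkQ_apply,
      (Submodule.Quotient.mk_eq_zero _).2 (show (⟨x, h hx⟩ : B) ∈ A.submoduleOf B from hx)]
    exact W.zero_mem
  refine Nat.card_eq_of_bijective
    (fun W : {W : Submodule F (B ⧸ A.submoduleOf B) // Module.finrank F W = k} =>
      (⟨(W.1.comap (A.submoduleOf B).mkQ).map B.subtype, hAmap W.1,
        Submodule.map_subtype_le _ _, by
          rw [Submodule.finrank_map_subtype_eq, hcom W.1, W.2, add_comm]⟩ :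
        {U : Lat n F // A ≤ U ∧ U ≤ B ∧ Module.finrank F U = Module.finrank F A + k})) ⟨?_, ?_⟩
  · intro W W' hWW
    have h1 := congrArg Subtype.val hWW
    have h2 := Submodule.map_injective_of_injective B.injective_subtype h1
    exact Subtype.ext (Submodule.comap_injective_of_surjective (Submodule.mkQ_surjective _) h2)
  · rintro ⟨U, hU1, hU2, hU3⟩
    have h1 : A.submoduleOf B ≤ U.submoduleOf B := fun x hx => hU1 hx
    have h2 : ((U.submoduleOf B).map (A.submoduleOf B).mkQ).comap (A.submoduleOf B).mkQ =
        U.submoduleOf B := by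
      rw [Submodule.comap_map_mkQ, sup_eq_right.2 h1]
    have h3 : (((U.submoduleOf B).map (A.submoduleOf B).mkQ).comap
        (A.submoduleOf B).mkQ).map B.subtype = U := by
      rw [h2, Submodule.submoduleOf, Submodule.map_comap_subtype, inf_eq_right.2 hU2]
    have h4 : Module.finrank F ((U.submoduleOf B).map (A.submoduleOf B).mkQ) = k := by
      have h5 := hcom ((U.submoduleOf B).map (A.submoduleOf B).mkQ)
      rw [h2, (Submodule.submoduleOfEquivOfLe hU2).finrank_eq, hU3] at h5
      omega
    exact ⟨⟨_, h4⟩, Subtype.ext h3⟩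

theorem isAtom_iff_finrank {U : Lat n F} : IsAtom U ↔ Module.finrank F U = 1 :=
  isSimpleModule_iff_isAtom.symm.trans isSimpleModule_iff_finrank_eq_one

theorem card_points [Finite F] (B : Lat n F) :
    Nat.card {p : Lat n F // IsAtom p ∧ p ≤ B} = gb (Nat.card F) (Module.finrank F B) 1 := by
  have h1 := card_between (bot_le : (⊥ : Lat n F) ≤ B) 1
  rw [finrank_bot, Nat.sub_zero] at h1
  rw [← h1]
  refine Nat.card_congr (Equiv.subtypeEquivRight fun p => ?_)
  rw [isAtom_iff_finrank, zero_add]
  exact ⟨fun h => ⟨bot_le, h.2, h.1⟩, fun h => ⟨h.2.2, h.2.1⟩⟩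

end Pool.Agent.Work.MP_bc729a_al.LA
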