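import Pool.Agent.Work.MP_bc729a_al.LA.TrK
import Pool.Agent.Work.MP_bc729a_al.LA.InvSt
import Pool.Agent.Work.MP_bc729a_al.LA.CntI

/-! # Module Idx (S-M): the index of the stabiliser of a flag

PROOF. `PSL_n` acts (through `act`) on the set `Ω` of pairs `(U', W')`, `U' ≤ W'`, `finrank U' = finrank U`, `finrank W' = finrank W`,
transitively by `trans_chain`, and the stabiliser of `(U, W)` is `stab {U, W}` (`mem_stab_pair`). So the index is `|Ω|`
(`MulAction.index_stabilizer`), and `|Ω| = ∑_{U'} |{W' | U' ≤ W', finrank W' = finrank U' + (finrank W - finrank U)}|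
= gb q n (finrank U) * gb q (n - finrank U) (finrank W - finrank U)` (`card_between` with `[⊥, ⊤]` and `[U', ⊤]`).
`index_one` is the case `W = U` (`gb_zero`). -/

namespace Pool.Agent.Work.MP_bc729a_al.LA

open Pool.Agent.Work.MP_bc729a_al.LN

universe u v

variable {n : ℕ} {F : Type u} [Field F]

/-- the action on pairs of subspaces -/
@[reducible] private def Idx_act (n : ℕ) (F : Type u) [Field F] :
    MulAction (PSLn n F) (Lat n F × Lat n F) where
  smul s x := (act n F s x.1, act n F s x.2)
  one_smul x := by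
    change (act n F 1 x.1, act n F 1 x.2) = x
    rw [map_one]
    rfl
  mul_smul s t x := by
    change (act n F (s * t) x.1, act n F (s * t) x.2) = _
    rw [map_mul]
    rfl

private lemma Idx_finrank (s : PSLn n F) (U : Lat n F) :
    Module.finrank F (act n F s U) = Module.finrank F U := by
  obtain ⟨g, rfl⟩ := pr_surjective s
  exact LinearEquiv.finrank_map_eq (Matrix.SpecialLinearGroup.toLin' g) U

private lemma Idx_cardA [Finite F] (a : ℕ) :
    Nat.card {U : Lat n F // Module.finrank F U = a} = gb (Nat.card F) n a := by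
  have h := card_between (n := n) (F := F) (A := ⊥) (B := ⊤) bot_le a
  rw [finrank_bot, finrank_top, Module.finrank_fin_fun, Nat.sub_zero, Nat.zero_add] at h
  rw [← h]
  refine Nat.card_congr (Equiv.subtypeEquivRight fun U => ?_)
  exact ⟨fun h1 => ⟨bot_le, le_top, h1⟩, fun h1 => h1.2.2⟩

private lemma Idx_cardB [Finite F] {a b : ℕ} (hab : a ≤ b) (A : Lat n F)
    (hA : Module.finrank F A = a) :
    Nat.card {W : Lat n F // A ≤ W ∧ Module.finrank F W = b} =
      gb (Nat.card F) (n - a) (b - a) := by
  have h := card_between (n := n) (F := F) (A := A) (B := ⊤) le_top (b - a)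
  rw [finrank_top, Module.finrank_fin_fun, hA, Nat.add_sub_cancel' hab] at h
  rw [← h]
  refine Nat.card_congr (Equiv.subtypeEquivRight fun U => ?_)
  exact ⟨fun h1 => ⟨h1.1, le_top, h1.2⟩, fun h1 => ⟨h1.1, h1.2.2⟩⟩

theorem index_flag [Finite F] (hn : 1 ≤ n) {U W : Lat n F} (h : U ≤ W) :
    (stab {U, W}).index = gb (Nat.card F) n (Module.finrank F U) *
      gb (Nat.card F) (n - Module.finrank F U) (Module.finrank F W - Module.finrank F U) := by
  classical
  let _ := Idx_act n F
  have hfin : Finite (Lat n F) := lat_finite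
  have hst : stab {U, W} = MulAction.stabilizer (PSLn n F) (U, W) := by
    ext s
    rw [mem_stab_pair h, MulAction.mem_stabilizer_iff]
    change _ ↔ (act n F s U, act n F s W) = (U, W)
    rw [Prod.mk.injEq]
  have horb : MulAction.orbit (PSLn n F) (U, W) =
      {x : Lat n F × Lat n F | Module.finrank F x.1 = Module.finrank F U ∧
        (x.1 ≤ x.2 ∧ Module.finrank F x.2 = Module.finrank F W)} := by
    ext ⟨A, B⟩
    rw [MulAction.mem_orbit_iff]
    constructor
    · rintro ⟨s, hs⟩
      change (act n F s U, act n F s W) = (A, B) at hs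
      rw [Prod.mk.injEq] at hs
      obtain ⟨rfl, rfl⟩ := hs
      exact ⟨Idx_finrank s U, (act n F s).monotone h, Idx_finrank s W⟩
    · rintro ⟨h1, h2, h3⟩
      obtain ⟨s, hs, hs'⟩ := trans_chain hn h h2 h1.symm h3.symm
      refine ⟨s, ?_⟩
      change (act n F s U, act n F s W) = (A, B)
      rw [hs, hs']
  rw [hst, MulAction.index_stabilizer, horb, ← Nat.card_coe_set_eq]
  let e : {x : Lat n F × Lat n F | Module.finrank F x.1 = Module.finrank F U ∧
        (x.1 ≤ x.2 ∧ Module.finrank F x.2 = Module.finrank F W)} ≃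
      Σ A : {A : Lat n F // Module.finrank F A = Module.finrank F U},
        {B : Lat n F // A.1 ≤ B ∧ Module.finrank F B = Module.finrank F W} :=
    { toFun := fun x => ⟨⟨x.1.1, x.2.1⟩, ⟨x.1.2, x.2.2⟩⟩
      invFun := fun y => ⟨(y.1.1, y.2.1), y.1.2, y.2.2⟩
      left_inv := fun _ => rfl
      right_inv := fun _ => rfl }
  rw [Nat.card_congr e]
  have := Fintype.ofFinite {A : Lat n F // Module.finrank F A = Module.finrank F U}
  rw [Nat.card_sigma, Finset.sum_congr rfl fun A _ =>
    Idx_cardB (Submodule.finrank_mono h) A.1 A.2, Finset.sum_const, smul_eq_mul,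
    Finset.card_univ, ← Nat.card_eq_fintype_card, Idx_cardA]

theorem index_one [Finite F] (hn : 1 ≤ n) (U : Lat n F) :
    (stab {U}).index = gb (Nat.card F) n (Module.finrank F U) := by
  have h := index_flag hn (le_refl U)
  rwa [Set.pair_eq_singleton, Nat.sub_self, gb_zero, mul_one] at h

end Pool.Agent.Work.MP_bc729a_al.LA
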