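import Pool.Agent.Work.MP_bc729a_al.LN.Final

/-! # Module IndC (S-M): the group of collineations inducing elements of `T`

PROOF. Let `T₀ = {t ∈ T | ∃ σ, IndP t σ}`, a subgroup of `T` (`indP_one`, `indP_mul`, `indP_inv`). The map `indT T → T₀` sending `σ` to the
`t` with `IndP t σ` is a well-defined isomorphism: `t` is determined by `σ` (`IndP t σ`, `IndP t' σ` give
`act (t s) = act (t' s)`, `act_injective`), and `σ` by `t` (`IndP t σ`, `IndP t σ'` give `IndP 1 (σ⁻¹ * σ')`, `uniq`). So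
`|indT T| = |T₀|`. `card_indT`: `T₀ = T`. `card_indT_dvd`: `|T₀|` divides `|T|`. `dvd_two_mul`: if `t, t' ∈ T` are not in `T₀` then by `fund`
they are induced by correlations `τ, τ'` and `t * t'` is induced by the collineation `U ↦ ofDual (τ (ofDual (τ' U)))` (an order isomorphism
as in `sqD`), so `t * t' ∈ T₀`: index at most `2` (`Subgroup.index_eq_two_iff...` or: `t₁ ∉ T₀` fixed, every `t` is in `T₀` or in
`t₁⁻¹ T₀`), so `|T| ∈ {|T₀|, 2 |T₀|}`. -/

namespace Pool.Agent.Work.MP_bc729a_al.LA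

open Pool.Agent.Work.MP_bc729a_al.LN

universe u v

open OrderDual

variable {n : ℕ} {F : Type u} [Field F]

private def ind0 (T : Subgroup (MulAut (PSLn n F))) : Subgroup (MulAut (PSLn n F)) where
  carrier := {t | t ∈ T ∧ ∃ σ : Lat n F ≃o Lat n F, IndP t σ}
  one_mem' := ⟨T.one_mem, 1, indP_one⟩
  mul_mem' := by
    rintro a b ⟨ha, σ, hσ⟩ ⟨hb, ρ, hρ⟩
    exact ⟨T.mul_mem ha hb, σ * ρ, indP_mul hσ hρ⟩
  inv_mem' := by
    rintro a ⟨ha, σ, hσ⟩
    exact ⟨T.inv_mem ha, σ⁻¹, indP_inv hσ⟩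

private theorem mem_ind0 {T : Subgroup (MulAut (PSLn n F))} {t : MulAut (PSLn n F)} :
    t ∈ ind0 T ↔ t ∈ T ∧ ∃ σ : Lat n F ≃o Lat n F, IndP t σ := Iff.rfl

private theorem uniq_col (hn : 3 ≤ n) {t : MulAut (PSLn n F)} {σ σ' : Lat n F ≃o Lat n F}
    (h : IndP t σ) (h' : IndP t σ') : σ = σ' := by
  have h1 : IndP (1 : MulAut (PSLn n F)) (σ⁻¹ * σ') := by
    rw [← inv_mul_cancel t]
    exact indP_mul (indP_inv h) h'
  have h2 : σ⁻¹ * σ' = 1 := uniq (by omega) _ h1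
  exact (inv_mul_eq_one.1 h2)

private theorem uniq_aut {t t' : MulAut (PSLn n F)} {σ : Lat n F ≃o Lat n F}
    (h : IndP t σ) (h' : IndP t' σ) : t = t' := by
  refine MulEquiv.ext fun s => act_injective (OrderIso.ext (funext fun V => ?_))
  obtain ⟨U, rfl⟩ := σ.surjective V
  rw [← h s U, ← h' s U]

private theorem card_indT_eq (hn : 3 ≤ n) (T : Subgroup (MulAut (PSLn n F))) :
    Nat.card (indT T) = Nat.card (ind0 T) := by
  have hex : ∀ σ : indT T, ∃ t : MulAut (PSLn n F), t ∈ T ∧ IndP t σ.1 := fun σ => σ.2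
  choose f hf hf' using hex
  refine Nat.card_eq_of_bijective (fun σ : indT T => (⟨f σ, hf σ, σ.1, hf' σ⟩ : ind0 T)) ⟨?_, ?_⟩
  · intro σ ρ h
    have h1 : f σ = f ρ := congrArg Subtype.val h
    have h2 := hf' σ
    rw [h1] at h2
    exact Subtype.ext (uniq_col hn h2 (hf' ρ))
  · rintro ⟨t, ht, σ, hσ⟩
    refine ⟨⟨σ, t, ht, hσ⟩, Subtype.ext ?_⟩
    exact uniq_aut (hf' ⟨σ, t, ht, hσ⟩) hσ

private def compD (τ τ' : Lat n F ≃o (Lat n F)ᵒᵈ) : Lat n F ≃o Lat n F where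
  toFun U := ofDual (τ (ofDual (τ' U)))
  invFun U := τ'.symm (toDual (τ.symm (toDual U)))
  left_inv U := by simp
  right_inv U := by simp
  map_rel_iff' := by
    intro a b
    change ofDual (τ (ofDual (τ' a))) ≤ ofDual (τ (ofDual (τ' b))) ↔ a ≤ b
    rw [OrderDual.ofDual_le_ofDual, τ.le_iff_le, OrderDual.ofDual_le_ofDual, τ'.le_iff_le]

private theorem indP_compD {α β : MulAut (PSLn n F)} {τ τ' : Lat n F ≃o (Lat n F)ᵒᵈ}
    (h : IndD α τ) (h' : IndD β τ') : IndP (α * β) (compD τ τ') := by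
  intro s U
  change ofDual (τ (ofDual (τ' (act n F s U)))) = act n F (α (β s)) (ofDual (τ (ofDual (τ' U))))
  rw [h', h]

theorem card_indT [Finite F] (hn : 3 ≤ n) {T : Subgroup (MulAut (PSLn n F))}
    (hT : ∀ t ∈ T, ∃ σ : Lat n F ≃o Lat n F, IndP t σ) : Nat.card (indT T) = Nat.card T := by
  rw [card_indT_eq hn]
  have h : ind0 T = T := le_antisymm (fun t ht => (mem_ind0.1 ht).1) fun t ht =>
    mem_ind0.2 ⟨ht, hT t ht⟩
  rw [h]

theorem card_indT_dvd [Finite F] (hn : 3 ≤ n) (T : Subgroup (MulAut (PSLn n F))) :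
    Nat.card (indT T) ∣ Nat.card T := by
  rw [card_indT_eq hn]
  exact Subgroup.card_dvd_of_le fun t ht => (mem_ind0.1 ht).1

theorem dvd_two_mul [Finite F] (hn : 3 ≤ n) (T : Subgroup (MulAut (PSLn n F))) :
    Nat.card T ∣ 2 * Nat.card (indT T) := by
  by_cases hT : ∀ t ∈ T, ∃ σ : Lat n F ≃o Lat n F, IndP t σ
  · rw [card_indT hn hT]
    exact dvd_mul_left _ _
  · push Not at hT
    obtain ⟨t₁, ht₁, hno⟩ := hT
    have hle : ind0 T ≤ T := fun t ht => (mem_ind0.1 ht).1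
    have hn1 : t₁ ∉ ind0 T := fun h => by
      obtain ⟨σ, hσ⟩ := (mem_ind0.1 h).2
      exact hno σ hσ
    have hidx : ((ind0 T).subgroupOf T).index = 2 := by
      rw [Subgroup.index_eq_two_iff]
      refine ⟨⟨t₁, ht₁⟩, fun b => ?_⟩
      rw [Subgroup.mem_subgroupOf, Subgroup.mem_subgroupOf]
      change Xor (b.1 * t₁ ∈ ind0 T) (b.1 ∈ ind0 T)
      by_cases hb : b.1 ∈ ind0 T
      · exact Or.inr ⟨hb, fun h => hn1 (((ind0 T).mul_mem_cancel_left hb).1 h)⟩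
      · refine Or.inl ⟨mem_ind0.2 ⟨T.mul_mem b.2 ht₁, ?_⟩, hb⟩
        rcases fund hn b.1 with ⟨σ, hσ⟩ | ⟨τ, hτ⟩
        · exact absurd (mem_ind0.2 ⟨b.2, σ, hσ⟩) hb
        · rcases fund hn t₁ with ⟨σ, hσ⟩ | ⟨τ', hτ'⟩
          · exact absurd hσ (hno σ)
          · exact ⟨compD τ τ', indP_compD hτ hτ'⟩
    have h1 := Subgroup.card_mul_index ((ind0 T).subgroupOf T)
    rw [hidx, Nat.card_congr (Subgroup.subgroupOfEquivOfLe hle).toEquiv] at h1
    rw [card_indT_eq hn, ← h1, mul_comm]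

end Pool.Agent.Work.MP_bc729a_al.LA
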