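import Pool.Agent.Work.MP_bc729a_al.LA.Gb

/-! # Module GoodEx (S): the numerical conditions `Good q r e`

Finite checks (`gb` is computable; e.g. `by decide`, or `interval_cases` and `decide`/`norm_num [gb]`). For the last clause: for each
`d` with `1 < d ≤ r` and `d ≠ e` there is a `k`, `0 < k < d`, with `r ∤ gb q d k`: `k = 1` works except for `(2, 7)`, `d = 6`, where
`gb 2 6 1 = 63` but `gb 2 6 3 = 1395` is not divisible by `7`. -/

namespace Pool.Agent.Work.MP_bc729a_al.LA

open Pool.Agent.Work.MP_bc729a_al.LN

universe u v

theorem good_2_3 : Good 2 3 2 := by
  refine ⟨by norm_num, by decide, by decide, by decide, ?_, ?_⟩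
  · intro k hk hk'
    interval_cases k <;> decide +kernel
  · intro d hd hd' H
    interval_cases d <;> first
      | rfl
      | exact absurd (H 1 (by decide) (by decide)) (by decide +kernel)
      | exact absurd (H 3 (by decide) (by decide)) (by decide +kernel)

theorem good_2_7 : Good 2 7 3 := by
  refine ⟨by norm_num, by decide, by decide, by decide, ?_, ?_⟩
  · intro k hk hk'
    interval_cases k <;> decide +kernel
  · intro d hd hd' H
    interval_cases d <;> first
      | rfl
      | exact absurd (H 1 (by decide) (by decide)) (by decide +kernel)
      | exact absurd (H 3 (by decide) (by decide)) (by decide +kernel)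

theorem good_3_2 : Good 3 2 2 := by
  refine ⟨by norm_num, by decide, by decide, by decide, ?_, ?_⟩
  · intro k hk hk'
    interval_cases k <;> decide +kernel
  · intro d hd hd' H
    interval_cases d <;> first
      | rfl
      | exact absurd (H 1 (by decide) (by decide)) (by decide +kernel)
      | exact absurd (H 3 (by decide) (by decide)) (by decide +kernel)

theorem good_3_5 : Good 3 5 4 := by
  refine ⟨by norm_num, by decide, by decide, by decide, ?_, ?_⟩
  · intro k hk hk'
    interval_cases k <;> decide +kernel
  · intro d hd hd' H
    interval_cases d <;> first
      | rfl
      | exact absurd (H 1 (by decide) (by decide)) (by decide +kernel)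
      | exact absurd (H 3 (by decide) (by decide)) (by decide +kernel)

theorem good_5_2 : Good 5 2 2 := by
  refine ⟨by norm_num, by decide, by decide, by decide, ?_, ?_⟩
  · intro k hk hk'
    interval_cases k <;> decide +kernel
  · intro d hd hd' H
    interval_cases d <;> first
      | rfl
      | exact absurd (H 1 (by decide) (by decide)) (by decide +kernel)
      | exact absurd (H 3 (by decide) (by decide)) (by decide +kernel)

theorem good_5_3 : Good 5 3 2 := by
  refine ⟨by norm_num, by decide, by decide, by decide, ?_, ?_⟩
  · intro k hk hk'
    interval_cases k <;> decide +kernel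
  · intro d hd hd' H
    interval_cases d <;> first
      | rfl
      | exact absurd (H 1 (by decide) (by decide)) (by decide +kernel)
      | exact absurd (H 3 (by decide) (by decide)) (by decide +kernel)

theorem good_7_2 : Good 7 2 2 := by
  refine ⟨by norm_num, by decide, by decide, by decide, ?_, ?_⟩
  · intro k hk hk'
    interval_cases k <;> decide +kernel
  · intro d hd hd' H
    interval_cases d <;> first
      | rfl
      | exact absurd (H 1 (by decide) (by decide)) (by decide +kernel)
      | exact absurd (H 3 (by decide) (by decide)) (by decide +kernel)

theorem good_7_3 : Good 7 3 3 := by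
  refine ⟨by norm_num, by decide, by decide, by decide, ?_, ?_⟩
  · intro k hk hk'
    interval_cases k <;> decide +kernel
  · intro d hd hd' H
    interval_cases d <;> first
      | rfl
      | exact absurd (H 1 (by decide) (by decide)) (by decide +kernel)
      | exact absurd (H 3 (by decide) (by decide)) (by decide +kernel)

theorem good_7_5 : Good 7 5 4 := by
  refine ⟨by norm_num, by decide, by decide, by decide, ?_, ?_⟩
  · intro k hk hk'
    interval_cases k <;> decide +kernel
  · intro d hd hd' H
    interval_cases d <;> first
      | rfl
      | exact absurd (H 1 (by decide) (by decide)) (by decide +kernel)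
      | exact absurd (H 3 (by decide) (by decide)) (by decide +kernel)

end Pool.Agent.Work.MP_bc729a_al.LA
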