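import Pool.Agent.Work.MP_bc729a_al.LA.Inv
import Pool.Agent.Work.MP_bc729a_al.LA.GoodEx
import Pool.Agent.Work.MP_bc729a_al.LN.TypeP

/-! # Module LemH (M): a collineation of order `3` of `PG(3, 7)` fixes a line

PROOF. `Good 7 3 3` (`good_7_3`). `exists_step` for `[⊥, ⊤]`: an invariant `C ≠ ⊥` with `finrank C ∈ {1, 3}`. If it is `3`, `maschke` for
`⊥ ≤ C ≤ ⊤` gives an invariant complement of dimension `1`. So in any case there is an invariant atom `x`. `exists_step` for `[x, ⊤]`: an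
invariant `D > x` with `finrank D = 2` (done) or `finrank D = 4`, i.e. `D = ⊤`, and then `maschke` for `⊥ ≤ x ≤ ⊤` gives an
invariant `M` of dimension `3` with `x ⊓ M = ⊥`. If some atom `p ≤ M` is fixed then `x ⊔ p` is an invariant line, done. If some
`N ≤ M` of dimension `2` is fixed, done. So assume that `M` has no proper invariant subspace except `⊥`. Let `m ≤ M` be an atom and `y` an
atom `≤ x ⊔ m`, `y ≠ x, m` (a line has `8` atoms, `card_line`), `Y = y ⊔ σ y ⊔ σ (σ y)` (invariant as `σ ^ 3 = 1`), of dimension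
`≤ 3`. `Y ⊓ M` is invariant, so `⊥` or `M`. If it is `M` then `M ≤ Y`, so `Y = M` by dimensions, `y ≤ M`, and
`y ≤ (x ⊔ m) ⊓ M = m` (modular law, `x ⊓ M = ⊥`), `y = m`, contradiction. So `Y ⊓ M = ⊥`, and
`finrank Y ≤ 4 - 3 = 1`, `Y = y` is fixed; then `x ⊔ y = x ⊔ m` is invariant, and it is a line, done. -/

namespace Pool.Agent.Work.MP_bc729a_al.LA

open Pool.Agent.Work.MP_bc729a_al.LN

universe u v

variable {F : Type u} [Field F]

theorem exists_line_seven [Finite F] (hq : Nat.card F = 7) {σ : Col 4 F} (hσ : σ ^ 3 = 1) :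
    ∃ L : Lat 4 F, Module.finrank F L = 2 ∧ σ L = L := by
  classical
  have hg : Good (Nat.card F) 3 3 := by rw [hq]; exact good_7_3
  have h3p : Nat.Prime 3 := Nat.prime_three
  have h3q : ¬ 3 ∣ Nat.card F := by rw [hq]; norm_num
  have htop : σ ⊤ = ⊤ := map_top σ
  have hbot : σ ⊥ = ⊥ := map_bot σ
  have hft : Module.finrank F (⊤ : Lat 4 F) = 4 := by
    rw [finrank_top, Module.finrank_fin_fun]
  have hlt : (⊥ : Lat 4 F) < ⊤ := by
    rw [bot_lt_iff_ne_bot]
    intro h
    rw [h, finrank_bot] at hft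
    omega
  by_contra hcon
  push Not at hcon
  obtain ⟨x, hx1, hx⟩ : ∃ x : Lat 4 F, Module.finrank F x = 1 ∧ σ x = x := by
    obtain ⟨C, hC, _, _, h⟩ := exists_step hg hσ hbot htop hlt
    rw [finrank_bot, zero_add, zero_add] at h
    rcases h with h | h
    · exact ⟨C, h, hC⟩
    · obtain ⟨W, hW, h1, h2⟩ := maschke h3p h3q hσ bot_le le_top hbot hC htop
      refine ⟨W, ?_, hW⟩
      have h4 := Submodule.finrank_sup_add_finrank_inf_eq C W
      rw [h1, h2, hft, finrank_bot, h] at h4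
      omega
  have hxa : IsAtom x := isAtom_iff_finrank.2 hx1
  obtain ⟨M, hM, hxM, hxM'⟩ := maschke h3p h3q hσ bot_le le_top hbot hx htop
  have hM3 : Module.finrank F M = 3 := by
    have h4 := Submodule.finrank_sup_add_finrank_inf_eq x M
    rw [hxM, hxM', hft, finrank_bot, hx1] at h4
    omega
  -- no fixed atom different from `x`
  have hno : ∀ p : Lat 4 F, IsAtom p → σ p = p → p = x := by
    intro p hp hσp
    by_contra hne
    refine hcon (x ⊔ p) (Invol_finrank_two hxa hp (Ne.symm hne)) ?_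
    rw [map_sup, hx, hσp]
  have hxnM : ¬ x ≤ M := by
    intro h
    have : x = ⊥ := by rw [← hxM]; exact (inf_eq_left.2 h).symm
    exact hxa.1 this
  -- invariant subspaces of `M`
  have hMmin : ∀ N : Lat 4 F, N ≤ M → σ N = N → N = ⊥ ∨ N = M := by
    intro N hN hσN
    have hle := Submodule.finrank_mono hN
    rw [hM3] at hle
    have hcases : Module.finrank F N = 0 ∨ Module.finrank F N = 1 ∨ Module.finrank F N = 2 ∨
        Module.finrank F N = 3 := by omega
    rcases hcases with h | h | h | h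
    · exact Or.inl (Submodule.finrank_eq_zero.1 h)
    · have hNa : IsAtom N := isAtom_iff_finrank.2 h
      exact absurd (hno N hNa hσN ▸ hN) hxnM
    · exact absurd hσN (hcon N h)
    · exact Or.inr (Submodule.eq_of_le_of_finrank_eq hN (by rw [h, hM3]))
  have hMb : M ≠ ⊥ := by
    intro h
    rw [h, finrank_bot] at hM3
    omega
  obtain ⟨m, hm, hmM⟩ := (eq_bot_or_exists_atom_le M).resolve_left hMb
  have hxm : x ≠ m := fun h => hxnM (h ▸ hmM)
  obtain ⟨y, hy, hyx, hym⟩ : ∃ y : Lat 4 F, (IsAtom y ∧ y ≤ x ⊔ m) ∧ y ≠ x ∧ y ≠ m := by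
    by_contra hno2
    push Not at hno2
    have h1 := card_line hxa hm hxm
    have h2 : {z : Lat 4 F | IsAtom z ∧ z ≤ x ⊔ m} ⊆ {x, m} := by
      intro z hz
      by_cases hzx : z = x
      · exact Or.inl hzx
      · exact Or.inr (hno2 z hz hzx)
    have h3 := Set.ncard_le_ncard h2 (Set.toFinite _)
    have h4 := Set.ncard_insert_le x ({m} : Set (Lat 4 F))
    rw [Set.ncard_singleton] at h4
    rw [h1, hq] at h3
    omega
  have hσ3 : σ (σ (σ y)) = y := by
    have : (σ ^ 3) y = y := by rw [hσ]; rfl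
    exact this
  obtain ⟨Y, hYdef⟩ : ∃ Y : Lat 4 F, Y = y ⊔ σ y ⊔ σ (σ y) := ⟨_, rfl⟩
  have hY : σ Y = Y := by
    rw [hYdef, map_sup, map_sup, hσ3]
    rw [sup_comm, ← sup_assoc]
  have hyY : y ≤ Y := by
    rw [hYdef]
    exact le_sup_left.trans le_sup_left
  have hy1 : Module.finrank F y = 1 := isAtom_iff_finrank.1 hy.1
  have hY3 : Module.finrank F Y ≤ 3 := by
    have h1 := Submodule.finrank_add_le_finrank_add_finrank y (σ y)
    have h2 := Submodule.finrank_add_le_finrank_add_finrank (y ⊔ σ y) (σ (σ y))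
    rw [finrank_orderIso, hy1] at h1
    rw [finrank_orderIso, finrank_orderIso, hy1] at h2
    rw [← hYdef] at h2
    omega
  have hinv : σ (Y ⊓ M) = Y ⊓ M := by rw [map_inf, hY, hM]
  rcases hMmin (Y ⊓ M) inf_le_right hinv with h | h
  · have h4 := Submodule.finrank_sup_add_finrank_inf_eq Y M
    rw [h, finrank_bot, hM3] at h4
    have h5 : Module.finrank F (Y ⊔ M : Lat 4 F) ≤ 4 := by
      have := Submodule.finrank_le (Y ⊔ M : Lat 4 F)
      rwa [Module.finrank_fin_fun] at this
    have h6 : Module.finrank F Y ≤ 1 := by omega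
    have h7 : y = Y := Submodule.eq_of_le_of_finrank_le hyY (by rw [hy1]; exact h6)
    exact hyx (hno y hy.1 (by rw [h7]; exact hY))
  · have h5 : M ≤ Y := by rw [← h]; exact inf_le_left
    have h6 : M = Y := Submodule.eq_of_le_of_finrank_le h5 (by rw [hM3]; exact hY3)
    have h7 : y ≤ M := by rw [h6]; exact hyY
    have h8 : (m ⊔ x) ⊓ M = m ⊔ x ⊓ M := (sup_inf_assoc_of_le x hmM)
    have h9 : y ≤ m := by
      have h10 : y ≤ (m ⊔ x) ⊓ M := le_inf (by rw [sup_comm]; exact hy.2) h7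
      rw [h8, hxM, sup_bot_eq] at h10
      exact h10
    exact hym ((hm.le_iff.1 h9).resolve_left hy.1.1)

end Pool.Agent.Work.MP_bc729a_al.LA
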