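import Pool.Agent.Work.MP_bc729a_al.LN.XTchar

/-! # Module TvGen (S-M): `PSL_n` is generated by the groups `XP f`

PROOF. `X = R.comap (pr n F)` contains `XT f.p f.h` for all flags `f`, in particular all elementary transvections
`SpecialLinearGroup.transvection hij c` (`= 1 + c E_ij = 1 + (c e_i) ⊗ e_j`, centre `F e_i`, axis `hyp e_j`; `exists_flag`,
`mem_XT_iff`). `SpecialLinearGroup.diagonal_transvection_induction'` (Mathlib, `P g := g ∈ X`, `Fin n` nontrivial): it remains that
`diag2n hij c hc ∈ X`. It is a product of six elementary transvections, the identity `diag2_decompose` (Mathlib, `Fin 2`) in the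
coordinates `i, j`: `diag(c, c⁻¹) = x(c) y(-c⁻¹) x(c) x(-1) y(1) x(-1)`, `x(t) = 1 + t E_ij`, `y(t) = 1 + t E_ji`; check entrywise (or as
maps on the basis vectors). So `X = ⊤` and `R = ⊤` (`pr_surjective`). -/

namespace Pool.Agent.Work.MP_bc729a_al.LA

open Pool.Agent.Work.MP_bc729a_al.LN

universe u v

variable {n : ℕ} {F : Type u} [Field F]

open Matrix in
private theorem diag2n_prod {i j : Fin n} (hij : i ≠ j) (c : F) (hc : c ≠ 0) :
    SpecialLinearGroup.diag2n hij c hc = SpecialLinearGroup.transvection hij c *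
      SpecialLinearGroup.transvection hij.symm (- c⁻¹) *
      SpecialLinearGroup.transvection hij c *
      SpecialLinearGroup.transvection hij (-1) *
      SpecialLinearGroup.transvection hij.symm 1 *
      SpecialLinearGroup.transvection hij (-1) := by
  have hji := hij.symm
  apply Subtype.ext
  have e : ((SpecialLinearGroup.transvection hij c *
      SpecialLinearGroup.transvection hij.symm (- c⁻¹) *
      SpecialLinearGroup.transvection hij c *
      SpecialLinearGroup.transvection hij (-1) *
      SpecialLinearGroup.transvection hij.symm 1 *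
      SpecialLinearGroup.transvection hij (-1) : SpecialLinearGroup (Fin n) F) : Matrix (Fin n) (Fin n) F) =
      1 + single i i (c - 1) + single j j (c⁻¹ - 1) := by
    simp only [Matrix.SpecialLinearGroup.coe_mul, SpecialLinearGroup.transvection_coe, add_mul, mul_add, one_mul,
      mul_one, single_mul_single_same, single_mul_single_of_ne _ _ _ _ hij, single_mul_single_of_ne _ _ _ _ hji,
      zero_mul, mul_zero, add_zero, zero_add]
    ext k l
    obtain ⟨e, he⟩ : ∃ e : Fin n → Fin n → F, ∀ p q x, single p q x k l = x * e p q :=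
      ⟨fun p q => if p = k ∧ q = l then 1 else 0, fun p q x => by
        by_cases h : p = k ∧ q = l
        · rw [single_apply, if_pos h]; dsimp only; rw [if_pos h, mul_one]
        · rw [single_apply, if_neg h]; dsimp only; rw [if_neg h, mul_zero]⟩
    simp only [Matrix.add_apply, Matrix.neg_apply, he]
    field_simp
    ring
  refine Eq.trans ?_ e.symm
  rw [SpecialLinearGroup.diag2n_coe]
  ext k l
  simp only [Matrix.add_apply, single_apply, one_apply, diagonal_apply]
  by_cases h0 : k = l
  · subst h0
    by_cases h1 : k = i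
    · subst h1
      simp [hij, hij.symm]
    · by_cases h2 : k = j
      · subst h2
        simp [hij, hij.symm]
      · simp [h1, h2, Ne.symm h1, Ne.symm h2]
  · have h1 : ¬ (i = k ∧ i = l) := fun h => h0 (h.1.symm.trans h.2)
    have h2 : ¬ (j = k ∧ j = l) := fun h => h0 (h.1.symm.trans h.2)
    simp [h0, h1, h2]

theorem eq_top_of_XP (hn : 2 ≤ n) {R : Subgroup (PSLn n F)} (h : ∀ f : Flag n F, XP f ≤ R) :
    R = ⊤ := by
  have : Nontrivial (Fin n) := Fin.nontrivial_iff_two_le.2 hn
  have htr : ∀ (i j : Fin n) (hij : i ≠ j) (a : F),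
      pr n F (Matrix.SpecialLinearGroup.transvection hij a) ∈ R := by
    intro i j hij a
    have hv : (Pi.single i 1 : Fin n → F) ≠ 0 := by simp
    have hφ : (Pi.single j 1 : Fin n → F) ≠ 0 := by simp
    have hd : (Pi.single j 1 : Fin n → F) ⬝ᵥ (Pi.single i 1 : Fin n → F) = 0 := by
      rw [dotProduct_single, Pi.single_eq_of_ne hij, zero_mul]
    obtain ⟨f, hp, hh⟩ := exists_flag hv hφ hd
    apply h f
    refine ⟨_, ?_, rfl⟩
    change _ ∈ XT f.p f.h
    rw [hp, hh, mem_XT_iff hv hφ]
    refine ⟨a, ?_⟩
    rw [Matrix.SpecialLinearGroup.transvection_coe]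
    congr 1
    ext k l
    rw [Matrix.single_apply, Matrix.smul_apply, Matrix.vecMulVec_apply, Pi.single_apply, Pi.single_apply, smul_eq_mul]
    by_cases h1 : i = k
    · by_cases h2 : j = l
      · simp [h1, h2]
      · simp [h1, h2, Ne.symm h2]
    · simp [h1, Ne.symm h1]
  rw [eq_top_iff]
  intro x _
  obtain ⟨g, rfl⟩ := pr_surjective x
  refine Matrix.SpecialLinearGroup.diagonal_transvection_induction' (fun g => pr n F g ∈ R) g ?_ htr ?_
  · intro i j hij c hc

    rw [diag2n_prod hij c hc]
    simp only [map_mul]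
    exact R.mul_mem (R.mul_mem (R.mul_mem (R.mul_mem (R.mul_mem (htr _ _ _ _) (htr _ _ _ _)) (htr _ _ _ _))
      (htr _ _ _ _)) (htr _ _ _ _)) (htr _ _ _ _)
  · intro A B hA hB

    rw [map_mul]
    exact R.mul_mem hA hB

end Pool.Agent.Work.MP_bc729a_al.LA
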