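import Pool.Agent.Work.MP_bc729a_al.LA.InvSt
import Pool.Agent.Work.MP_bc729a_al.LA.TvGen
import Pool.Agent.Work.MP_bc729a_al.LA.Cen

/-! # Module Over (S-M): subgroups containing the stabiliser of a flag

PROOF of `over_flag`. Let `A` be as in `exists_cen`; `R ≤ stab {A}`. `U ≤ A`: for `0 ≠ v ∈ U` and a flag `f` with `f.p = pt v` all
elements of `XT f.p f.h` fix `U` and `W` (`fix_of_XT`, `f.p ≤ U ≤ W`), so `XP f ≤ stab {U, W} ≤ R`. By `inv_stab` (`stab {U, W} ≤ R`)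
`A ∈ {⊥, U, W, ⊤}`; `⊥ ≠ U ≤ A` excludes `⊥`; `A = ⊤` gives `R = ⊤` by `eq_top_of_XP` (the centre of a flag is some `pt v`, `v ≠ 0`,
`atom_iff`). So `A = U` or `A = W`.
`over_one`: `over_flag` with `W = U` (`{U, U} = {U}`). -/

namespace Pool.Agent.Work.MP_bc729a_al.LA

open Pool.Agent.Work.MP_bc729a_al.LN

universe u v

variable {n : ℕ} {F : Type u} [Field F]

theorem over_flag {U W : Lat n F} (hn : 2 ≤ n) (hUW : U ≤ W) (hU : U ≠ ⊥)
    {R : Subgroup (PSLn n F)} (hR : stab {U, W} ≤ R) (hRt : R ≠ ⊤) :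
    R ≤ stab {U} ∨ R ≤ stab {W} := by
  obtain ⟨A, hA1, hA2⟩ := exists_cen R
  have hUA : U ≤ A := by
    intro v hv
    by_cases hv0 : v = 0
    · rw [hv0]
      exact A.zero_mem
    refine (hA1 v hv0).2 fun f hf => ?_
    have hfU : f.p ≤ U := by
      rw [hf]
      exact (Submodule.span_singleton_le_iff_mem _ _).2 hv
    rintro _ ⟨g, hg, rfl⟩
    exact hR ((mem_stab_pair hUW).2
      ⟨fix_of_XT hg (Or.inl hfU), fix_of_XT hg (Or.inl (hfU.trans hUW))⟩)
  have hst : ∀ X : Lat n F, A = X → R ≤ stab {X} := by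
    rintro X rfl s hs
    change (act n F s : Lat n F → Lat n F) '' {A} = {A}
    rw [Set.image_singleton, hA2 s hs]
  rcases inv_stab hUW (fun s hs => hA2 s (hR hs)) with h | h | h | h
  · exact absurd (le_bot_iff.1 (h ▸ hUA)) hU
  · exact Or.inl (hst U h)
  · exact Or.inr (hst W h)
  · exfalso
    apply hRt
    refine eq_top_of_XP hn fun f => ?_
    obtain ⟨v, hv, hf⟩ := atom_iff.1 f.hp
    refine (hA1 v hv).1 ?_ f hf
    rw [h]
    exact Submodule.mem_top

theorem over_one {U : Lat n F} (hn : 2 ≤ n) (hU : U ≠ ⊥) {R : Subgroup (PSLn n F)}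
    (hR : stab {U} ≤ R) (hRt : R ≠ ⊤) : R = stab {U} := by
  refine le_antisymm ?_ hR
  have h := over_flag (W := U) hn le_rfl hU (R := R) (by rwa [Set.pair_eq_singleton]) hRt
  exact h.elim id id

end Pool.Agent.Work.MP_bc729a_al.LA
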