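import Pool.Agent.Work.MP_bc729a_al.Lift

/-! # Module TIdx (S): the index of `R` divides `|T|`

PROOF. `T` acts on the subgroups of `S` by `t • D = D.map t` (`MulAut.applyMulAction`/`Subgroup.pointwiseMulAction`, or define the
action by hand). The orbit of `R` is `{D | ∃ a, D = conj a • R}` by `h1`, `h2`. Its cardinality divides `|T|` (orbit-stabiliser), and by
the conjugation action of `S` it is the index of the normaliser of `R`, which is `R` (compare `EY.orbit_card` in ModY). -/

namespace Pool.Agent.Work.MP_bc729a_al.LA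



universe u v

open scoped Pointwise

private theorem smul_eq_map {S : Type v} [Group S] (t : MulAut S) (D : Subgroup S) :
    t • D = D.map t.toMonoidHom := rfl

private theorem conj_orbit_ncard {S : Type v} [Group S] {R : Subgroup S}
    (hN : Subgroup.normalizer (R : Set S) = R) :
    Set.ncard {D : Subgroup S | ∃ a : S, D = MulAut.conj a • R} = R.index := by
  letI : MulAction S (Subgroup S) := MulAction.compHom (Subgroup S) (MulAut.conj : S →* MulAut S)
  have hs : ∀ (a : S) (D : Subgroup S), a • D = MulAut.conj a • D := fun _ _ => rfl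
  have h1 := MulAction.index_stabilizer (G := S) (x := R)
  have h2 : MulAction.stabilizer S R = Subgroup.normalizer (R : Set S) := by
    ext a
    rw [MulAction.mem_stabilizer_iff, hs, smul_eq_map, Subgroup.mem_normalizer_iff_map_conj_eq]
    rfl
  rw [hN] at h2
  have h3 : MulAction.orbit S R = {D : Subgroup S | ∃ a : S, D = MulAut.conj a • R} := by
    ext D
    constructor
    · rintro ⟨a, ha⟩
      exact ⟨a, ha.symm⟩
    · rintro ⟨a, ha⟩
      exact ⟨a, ha.symm⟩
  rw [h2, h3] at h1
  exact h1.symm

theorem index_dvd_card {S : Type v} [Group S] [Finite S] {R : Subgroup S}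
    (hN : Subgroup.normalizer (R : Set S) = R) {T : Subgroup (MulAut S)}
    (h1 : ∀ t ∈ T, ∃ a : S, R.map t.toMonoidHom = MulAut.conj a • R)
    (h2 : ∀ a : S, ∃ t ∈ T, R.map t.toMonoidHom = MulAut.conj a • R) :
    R.index ∣ Nat.card T := by
  rw [← conj_orbit_ncard hN]
  have h3 : MulAction.orbit T R = {D : Subgroup S | ∃ a : S, D = MulAut.conj a • R} := by
    ext D
    constructor
    · rintro ⟨t, ht⟩
      obtain ⟨a, ha⟩ := h1 t.1 t.2
      exact ⟨a, by rw [← ha, ← ht]; rfl⟩
    · rintro ⟨a, ha⟩
      obtain ⟨t, ht, e⟩ := h2 a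
      exact ⟨⟨t, ht⟩, by rw [ha, ← e]; rfl⟩
  rw [← h3, ← MulAction.index_stabilizer]
  exact Subgroup.index_dvd_card _

end Pool.Agent.Work.MP_bc729a_al.LA
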