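import Pool.Agent.Work.MP_bc729a_al.LA.Red
import Pool.Agent.Work.MP_bc729a_al.LA.Over
import Pool.Agent.Work.MP_bc729a_al.LA.Idx
import Pool.Agent.Work.MP_bc729a_al.LA.ClsF
import Pool.Agent.Work.MP_bc729a_al.LA.Irr
import Pool.Agent.Work.MP_bc729a_al.LA.Pow
import Pool.Agent.Work.MP_bc729a_al.LA.TIdx
import Pool.Agent.Work.MP_bc729a_al.LA.IndC
import Pool.Agent.Work.MP_bc729a_al.LA.B4
import Pool.Agent.Work.MP_bc729a_al.LA.BigEx3
import Pool.Agent.Work.MP_bc729a_al.LA.BigEx7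
import Pool.Agent.Work.MP_bc729a_al.LA.LemH

/-! # Module F4 (M): `n = 4`, `q = 3, 5, 7`

PROOF. `U₀` of dimension `2`, `H = stab {U₀} = stab {U₀, U₀}`, class invariant under all automorphisms (`class_flag` with `W = U`,
`2 + 2 = 4`). `R`, `T` from `hX.main`; `R = H` (`over_one`), `R.index = gb q 4 2` (`index_one`), `= 130, 806, 2850` for `q = 3, 5, 7`.
`q = 7`: `3 ∣ 2850`, so there is `α` with `α ^ 3 = 1` fixing no conjugate of `H`; `exists_indP_pow`, `exists_line_seven`, `fix_conj`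
(with `W = U`): contradiction.
`q = 3, 5` (`four_B`): `R.index ∣ |T|` (`index_dvd_card`), `|T| ∣ 2 |indT T|` (`dvd_two_mul`); `r, s` are odd primes dividing `gb q 4 2`
(`Data.dr`, `Data.ds`), so `r, s ∣ |indT T|`. A prime `l ∣ |indT T|` divides `|T|` (`card_indT_dvd`), hence `R.index = gb q 4 2`. So
`hl` gives the hypothesis `hT` of `normalizer_le_four`; `card_sylow_eq`; then `noT` for `T' = indT T`.
`four_three`, `four_five`: `data_3_4`, `data_5_4`; `hl`: `l ∣ 12` and `l ∣ 130` imply `l = 2`; `l ∣ 30`, `l ∣ 806` imply `l = 2`. -/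

namespace Pool.Agent.Work.MP_bc729a_al.LA

open Pool.Agent.Work.MP_bc729a_al.LN

universe u v

open scoped Pointwise

variable {F : Type u} [Field F]

private lemma exists_two : ∃ U : Lat 4 F, Module.finrank F U = 2 := by
  have h : LinearIndependent F
      (fun i : Fin 2 => (Pi.basisFun F (Fin 4)) (Fin.castLE (by norm_num) i)) :=
    (Pi.basisFun F (Fin 4)).linearIndependent.comp _ (Fin.castLE_injective _)
  exact ⟨_, (finrank_span_eq_card h).trans (Fintype.card_fin 2)⟩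

private lemma setup [Finite F] {X : Subgroup (MulAut (PSLn 4 F))} (hX : Red (PSLn 4 F) X)
    {U : Lat 4 F} (hU : Module.finrank F U = 2) :
    ∃ T : Subgroup (MulAut (PSLn 4 F)), (stab {U}).index = gb (Nat.card F) 4 2 ∧
      (stab {U}).index ∣ Nat.card T ∧
      (∀ p : ℕ, p.Prime → p ∣ Nat.card T → p ∣ (stab {U}).index) ∧
      (∀ p : ℕ, p.Prime → p ∣ (stab {U}).index → ∃ α ∈ X, α ^ p = 1 ∧
        ∀ a : PSLn 4 F, (MulAut.conj a • stab {U, U}).map α.toMonoidHom ≠
          MulAut.conj a • stab {U, U}) := by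
  have hb : U ≠ ⊥ := by
    rintro rfl
    rw [finrank_bot] at hU
    exact absurd hU (by norm_num)
  have ht : U ≠ ⊤ := by
    rintro rfl
    rw [finrank_top, Module.finrank_fin_fun] at hU
    exact absurd hU (by norm_num)
  obtain ⟨R, T, hTX, hHR, hRt, hN, hc, hT, hp1, hp2⟩ := hX.main (stab {U, U})
    (stab_ne_top (by norm_num) le_rfl hb ht) (stab_ne_bot (by norm_num) le_rfl hb)
    (fun α _ => class_flag (by norm_num) le_rfl (by rw [hU]) α)
  have hR : R = stab {U} := by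
    apply over_one (by norm_num) hb _ hRt
    rwa [Set.pair_eq_singleton] at hHR
  subst hR
  refine ⟨T, ?_, index_dvd_card hN (fun t ht' => hc t (hTX ht')) hT, hp1, hp2⟩
  rw [index_one (by norm_num), hU]

theorem four_B [Finite F] {X : Subgroup (MulAut (PSLn 4 F))} (hX : Red (PSLn 4 F) X)
    (hq : Odd (Nat.card F)) {r s : ℕ} (hr : r = Nat.card F ^ 2 + Nat.card F + 1)
    (hr2 : r ≠ 2) (hs2 : s ≠ 2) (hD : Data (Nat.card F) 4 2 r 3 s 4)
    (hl : ∀ l : ℕ, l.Prime → l ∣ r - 1 → l ∣ gb (Nat.card F) 4 2 → l = 2) : False := by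
  obtain ⟨U, hU⟩ := exists_two (F := F)
  obtain ⟨T, hi, hd, hp1, -⟩ := setup hX hU
  have hdv : ∀ l : ℕ, l.Prime → l ≠ 2 → l ∣ gb (Nat.card F) 4 2 → l ∣ Nat.card (indT T) := by
    intro l hlp hl2 hlg
    have h1 : l ∣ 2 * Nat.card (indT T) :=
      ((hi ▸ hlg).trans hd).trans (dvd_two_mul (by norm_num) T)
    rcases (Nat.Prime.dvd_mul hlp).1 h1 with h | h
    · exact absurd ((Nat.prime_dvd_prime_iff_eq hlp Nat.prime_two).1 h) hl2
    · exact h
  have hrT := hdv r hD.big.prime hr2 hD.dr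
  have hsT := hdv s hD.big'.prime hs2 hD.ds
  have : Fact r.Prime := ⟨hD.big.prime⟩
  have hT : ∀ l : ℕ, l.Prime → l ∣ r - 1 → l ∣ Nat.card (indT T) → l = 2 := by
    intro l hlp hl1 hl2
    exact hl l hlp hl1 (hi ▸ hp1 l hlp (hl2.trans (card_indT_dvd (by norm_num) T)))
  exact noT (by norm_num) hD.big hD.big' hD.ne hD.sv (indT T) hrT hsT
    (fun P => normalizer_le_four hq hr hD.big (indT T) hT P
      (card_sylow_eq (by norm_num) hD.big hD.sq (indT T) hrT P))

private lemma eq_two {l a b : ℕ} (hl : l.Prime) (ha : l ∣ a) (hb : l ∣ b) (h : Nat.gcd a b = 2) :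
    l = 2 :=
  (Nat.prime_dvd_prime_iff_eq hl Nat.prime_two).1 (h ▸ Nat.dvd_gcd ha hb)

theorem four_three [Finite F] {X : Subgroup (MulAut (PSLn 4 F))} (hX : Red (PSLn 4 F) X)
    (hq : Nat.card F = 3) : False := by
  refine four_B hX (r := 13) (s := 5) ?_ ?_ (by norm_num) (by norm_num) ?_ ?_
  · rw [hq]; decide
  · rw [hq]; norm_num
  · rw [hq]; exact data_3_4
  · rw [hq]
    intro l hl h1 h2
    exact eq_two hl h1 h2 (by decide +kernel)

theorem four_five [Finite F] {X : Subgroup (MulAut (PSLn 4 F))} (hX : Red (PSLn 4 F) X)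
    (hq : Nat.card F = 5) : False := by
  refine four_B hX (r := 31) (s := 13) ?_ ?_ (by norm_num) (by norm_num) ?_ ?_
  · rw [hq]; decide
  · rw [hq]; norm_num
  · rw [hq]; exact data_5_4
  · rw [hq]
    intro l hl h1 h2
    exact eq_two hl h1 h2 (by decide +kernel)

theorem four_seven [Finite F] {X : Subgroup (MulAut (PSLn 4 F))} (hX : Red (PSLn 4 F) X)
    (hq : Nat.card F = 7) : False := by
  obtain ⟨U, hU⟩ := exists_two (F := F)
  obtain ⟨T, hi, -, -, hp2⟩ := setup hX hU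
  have h3 : 3 ∣ (stab {U}).index := by
    rw [hi, hq]
    decide +kernel
  obtain ⟨α, -, hα, hne⟩ := hp2 3 Nat.prime_three h3
  obtain ⟨σ, hσ, hσ3⟩ := exists_indP_pow (by norm_num) (by decide) hα
  obtain ⟨L, hL, hσL⟩ := exists_line_seven hq hσ3
  obtain ⟨a, ha⟩ := fix_conj (by norm_num) hσ (le_refl L) (le_refl U) (hL.trans hU.symm)
    (hL.trans hU.symm) hσL hσL
  exact hne a ha

end Pool.Agent.Work.MP_bc729a_al.LA
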