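import Pool.Agent.Work.MP_bc729a_al.Defs

/-! # Module Cop (S): normaliser and centraliser of a Sylow subgroup of prime order

PROOF. `P` is cyclic of order `r`, generated by `x`. Let `g` normalise `P`: `g x g⁻¹ = x ^ m`, `r ∤ m`. Then
`g ^ k x g ^ (-k) = x ^ (m ^ k)`; with `k = orderOf g`: `m ^ orderOf g ≡ 1`, and `m ^ (r - 1) ≡ 1` modulo `r` (Fermat), `orderOf g` and `r - 1`
are coprime, so `m ≡ 1` and `g` commutes with `x`. -/

namespace Pool.Agent.Work.MP_bc729a_al.LA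

universe u v

theorem normalizer_le_of_coprime {Γ : Type u} [Group Γ] [Finite Γ] {r : ℕ} [Fact r.Prime]
    (P : Sylow r Γ) (hP : Nat.card P = r) (hc : Nat.Coprime (r - 1) (Nat.card Γ)) :
    Subgroup.normalizer (P : Set Γ) ≤ Subgroup.centralizer (P : Set Γ) := by
  classical
  have hr : r.Prime := Fact.out
  have hcyc : IsCyclic P := isCyclic_of_prime_card hP
  obtain ⟨x, hx⟩ := IsCyclic.exists_generator (α := P)
  have hgx : orderOf (x : Γ) = r := by
    rw [Subgroup.orderOf_coe, orderOf_eq_card_of_forall_mem_zpowers hx]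
    exact hP
  have hpow : ∀ y : Γ, y ∈ (P : Set Γ) → ∃ m : ℕ, y = (x : Γ) ^ m := by
    intro y hy
    have h1 := hx ⟨y, hy⟩
    rw [← mem_powers_iff_mem_zpowers] at h1
    obtain ⟨m, hm⟩ := h1
    refine ⟨m, ?_⟩
    have := congrArg Subtype.val hm
    simpa using this.symm
  intro g hg
  have hg' : ∀ y : Γ, y ∈ (P : Set Γ) → g * y * g⁻¹ ∈ (P : Set Γ) := by
    intro y hy
    exact ((Subgroup.mem_normalizer_iff).1 hg y).1 hy
  obtain ⟨m, hm⟩ := hpow _ (hg' (x : Γ) x.2)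
  have hk : ∀ k : ℕ, g ^ k * (x : Γ) * (g ^ k)⁻¹ = (x : Γ) ^ (m ^ k) := by
    intro k
    induction k with
    | zero => simp
    | succ k ih =>
      have h1 : g ^ (k + 1) * (x : Γ) * (g ^ (k + 1))⁻¹ = g * (g ^ k * (x : Γ) * (g ^ k)⁻¹) * g⁻¹ := by
        rw [pow_succ']
        group
      rw [h1, ih, ← conj_pow, hm, ← pow_mul, pow_succ, mul_comm]
  have h2 := hk (orderOf g)
  rw [pow_orderOf_eq_one] at h2
  have h3 : m ^ orderOf g ≡ 1 [MOD r] := by
    rw [← hgx, ← pow_eq_pow_iff_modEq]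
    simpa using h2.symm
  have hrm : ¬ r ∣ m := by
    intro h0
    have h4 : m ^ orderOf g ≡ 0 [MOD r] :=
      (Nat.modEq_zero_iff_dvd).2 (dvd_pow h0 (orderOf_pos g).ne')
    have h5 : (1 : ℕ) ≡ 0 [MOD r] := h3.symm.trans h4
    exact hr.one_lt.ne' (Nat.dvd_one.1 ((Nat.modEq_zero_iff_dvd).1 h5))
  have h6 : m ≡ 1 [MOD r] := by
    have hco : Nat.Coprime m r := ((Nat.Prime.coprime_iff_not_dvd hr).2 hrm).symm
    have h7 : m ^ (r - 1) ≡ 1 [MOD r] := by
      rw [← Nat.totient_prime hr]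
      exact Nat.ModEq.pow_totient hco
    let u : (ZMod r)ˣ := ZMod.unitOfCoprime m hco
    have hu1 : u ^ (orderOf g) = 1 := by
      apply Units.ext
      have := (ZMod.natCast_eq_natCast_iff _ _ _).2 h3
      simpa [u] using this
    have hu2 : u ^ (r - 1) = 1 := by
      apply Units.ext
      have := (ZMod.natCast_eq_natCast_iff _ _ _).2 h7
      simpa [u] using this
    have hog : orderOf g ∣ Nat.card Γ := orderOf_dvd_natCard g
    have hco2 : Nat.Coprime (r - 1) (orderOf g) := Nat.Coprime.coprime_dvd_right hog hc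
    have hu3 : orderOf u ∣ 1 := by
      rw [← hco2]
      exact Nat.dvd_gcd (orderOf_dvd_of_pow_eq_one hu2) (orderOf_dvd_of_pow_eq_one hu1)
    have hu4 : u = 1 := orderOf_eq_one_iff.1 (Nat.dvd_one.1 hu3)
    have h8 := congrArg Units.val hu4
    have h9 : ((m : ℕ) : ZMod r) = ((1 : ℕ) : ZMod r) := by simpa [u] using h8
    exact (ZMod.natCast_eq_natCast_iff _ _ _).1 h9
  have h10 : g * (x : Γ) = (x : Γ) * g := by
    have h11 : (x : Γ) ^ m = (x : Γ) ^ 1 := by
      rw [pow_eq_pow_iff_modEq, hgx]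
      exact h6
    rw [h11, pow_one] at hm
    exact mul_inv_eq_iff_eq_mul.1 hm
  rw [Subgroup.mem_centralizer_iff]
  intro y hy
  obtain ⟨j, hj⟩ := hpow y hy
  rw [hj]
  exact ((Commute.pow_right (show Commute g (x : Γ) from h10) j).eq).symm

end Pool.Agent.Work.MP_bc729a_al.LA
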