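import Pool.Agent.Work.MP_bc729a_al.Defs

/-! # Module GrpG (M): commuting elements from Burnside's theorem

PROOF. Let `P` be a Sylow `r`-subgroup, `K = (MonoidHom.transferSylow P (hN P)).ker`, normal, `K ⊓ P = ⊥`, `K P = Γ`
(`MonoidHom.ker_transferSylow_isComplement'`), `r ∤ |K|` (`not_dvd_card_ker_transferSylow`), `|Γ : K| = |P|` a power of `r`. Let `Q` be a
Sylow `s`-subgroup of `Γ`; `Q ≤ K` (the image of `Q` in `Γ ⧸ K` is an `s`-group and an `r`-group). All conjugates of `Q` are Sylow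
`s`-subgroups of `Γ` contained in `K`, hence Sylow in `K`, hence conjugate under `K`; so the number of Sylow `s`-subgroups of `Γ`, which
is the index of `N_Γ(Q)`, divides `|K|` and is prime to `r`. (Or: Frattini argument `Sylow.normalizer_sup_eq_top`: `N_Γ(Q) ⊔ K = ⊤`, so
`|Γ : N_Γ(Q)| = |K : K ⊓ N_Γ(Q)|`.) Since `r ∣ |Γ|`, `r ∣ |N_Γ(Q)|`: there is `x` of order `r` normalising `Q`. `x` acts on `Q` by
conjugation with `x ^ r = 1`, so the number of `y ∈ Q` with `x y = y x` is `≡ |Q|` modulo `r` (`Equiv.Perm.card_fixedPoints_modEq`), hence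
not `1` by `hQ`, and there is `y₀ ≠ 1` in `Q` commuting with `x`. Its order is `s ^ k`, `k ≥ 1`; `y = y₀ ^ (s ^ (k-1))`. -/

namespace Pool.Agent.Work.MP_bc729a_al.LA



universe u v

theorem exists_comm {Γ : Type u} [Group Γ] [Finite Γ] {r s : ℕ} [Fact r.Prime] [Fact s.Prime]
    (hrs : r ≠ s) (hr : r ∣ Nat.card Γ) (hs : s ∣ Nat.card Γ)
    (hN : ∀ P : Sylow r Γ, Subgroup.normalizer (P : Set Γ) ≤ Subgroup.centralizer (P : Set Γ))
    (hQ : ∀ Q : Sylow s Γ, ¬ Nat.card Q ≡ 1 [MOD r]) :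
    ∃ x y : Γ, orderOf x = r ∧ orderOf y = s ∧ x * y = y * x := by
  classical
  obtain ⟨P⟩ : Nonempty (Sylow r Γ) := inferInstance
  obtain ⟨Q⟩ : Nonempty (Sylow s Γ) := inferInstance
  set τ := MonoidHom.transferSylow P (hN P) with hτ
  have hcomp : Subgroup.IsComplement' τ.ker (P : Subgroup Γ) :=
    MonoidHom.ker_transferSylow_isComplement' P (hN P)
  have hidx : τ.ker.index = Nat.card P := hcomp.symm.index_eq_card
  have hrP : r ∣ Nat.card P := P.dvd_card_of_dvd_card hr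
  have hcop : Nat.Coprime r s := (Nat.coprime_primes Fact.out Fact.out).2 hrs
  -- `Q ≤ ker`
  have hQK : (Q : Subgroup Γ) ≤ τ.ker := by
    intro q hq
    rw [MonoidHom.mem_ker]
    obtain ⟨a, ha⟩ := (IsPGroup.iff_orderOf.1 P.isPGroup') (τ q)
    obtain ⟨b, hb⟩ := (IsPGroup.iff_orderOf.1 Q.isPGroup') ⟨q, hq⟩
    rw [Subgroup.orderOf_mk] at hb
    have h1 : orderOf (τ q) ∣ s ^ b := hb ▸ orderOf_map_dvd τ q
    have h2 : orderOf (τ q) ∣ r ^ a := ha ▸ dvd_rfl
    have h3 : orderOf (τ q) ∣ 1 := by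
      have := Nat.dvd_gcd h2 h1
      rwa [Nat.Coprime.gcd_eq_one (Nat.Coprime.pow a b hcop)] at this
    exact orderOf_eq_one_iff.1 (Nat.dvd_one.1 h3)
  have htop := Sylow.normalizer_sup_eq_top' Q hQK
  set N : Subgroup Γ := Subgroup.normalizer (Q : Set Γ) with hNdef
  have hrel : τ.ker.relIndex N = τ.ker.index := by
    rw [← Subgroup.relIndex_sup_right, htop, Subgroup.relIndex_top_right]
  have hrN : r ∣ Nat.card N := by
    refine (hrP.trans ?_)
    rw [← hidx, ← hrel]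
    exact Subgroup.relIndex_dvd_card _ _
  obtain ⟨x, hx⟩ := exists_prime_orderOf_dvd_card' r hrN
  set φ : MulAut (Q : Subgroup Γ) := (Q : Subgroup Γ).normalizerMonoidHom x with hφ
  have hφr : φ ^ r = 1 := by
    rw [hφ, ← map_pow, ← hx, pow_orderOf_eq_one, map_one]
  have hφx : ∀ y : (Q : Subgroup Γ), ((φ y : (Q : Subgroup Γ)) : Γ) = x * y * (x : Γ)⁻¹ := by
    intro y
    rfl
  set f : Function.End (Q : Subgroup Γ) := MulAction.toEndHom φ with hf
  have hfr : f ^ r ^ 1 = 1 := by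
    rw [hf, ← map_pow, pow_one, hφr, map_one]
  have : Fintype (Q : Subgroup Γ) := Fintype.ofFinite _
  have hcard := Equiv.Perm.card_fixedPoints_modEq hfr
  have hne : ∃ y₀ : (Q : Subgroup Γ), y₀ ≠ 1 ∧ φ y₀ = y₀ := by
    by_contra hcon
    push Not at hcon
    apply hQ Q
    have h1 : Fintype.card f.fixedPoints = 1 := by
      rw [Fintype.card_eq_one_iff]
      refine ⟨⟨1, ?_⟩, ?_⟩
      · show φ 1 = 1
        exact map_one φ
      · rintro ⟨y, hy⟩
        apply Subtype.ext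
        by_contra h
        exact hcon y h hy
    have h2 : Fintype.card (Q : Subgroup Γ) ≡ 1 [MOD r] := by
      refine hcard.trans ?_
      have h3 : ∀ (i₁ i₂ : Fintype f.fixedPoints), @Fintype.card _ i₁ = @Fintype.card _ i₂ :=
        fun i₁ i₂ => by rw [Subsingleton.elim i₁ i₂]
      rw [h3 _ _, h1]
    rwa [Nat.card_eq_fintype_card]
  obtain ⟨y₀, hy0, hy1⟩ := hne
  obtain ⟨k, hk⟩ := (IsPGroup.iff_orderOf.1 Q.isPGroup') y₀
  have hk0 : k ≠ 0 := by
    rintro rfl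
    exact hy0 (orderOf_eq_one_iff.1 (by simpa using hk))
  obtain ⟨j, rfl⟩ := Nat.exists_eq_succ_of_ne_zero hk0
  have hcomm : (x : Γ) * (y₀ : Γ) = y₀ * x := by
    have := hφx y₀
    rw [hy1] at this
    rw [eq_mul_inv_iff_mul_eq] at this
    exact this.symm
  refine ⟨x, (y₀ : Γ) ^ (s ^ j), ?_, ?_, ?_⟩
  · rw [Subgroup.orderOf_coe, hx]
  · have hord : orderOf (y₀ : Γ) = s ^ (j + 1) := by rw [Subgroup.orderOf_coe, hk]
    have hs0 : 0 < s := (Fact.out : s.Prime).pos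
    rw [orderOf_pow_of_dvd (pow_ne_zero _ hs0.ne') (by rw [hord]; exact pow_dvd_pow _ (by omega)), hord,
      pow_succ, Nat.mul_div_cancel_left _ (pow_pos hs0 _)]
  · exact (Commute.pow_right (show Commute (x : Γ) (y₀ : Γ) from hcomm) _)

end Pool.Agent.Work.MP_bc729a_al.LA
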