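import Pool.Agent.Work.MP_bc729a_al.LA.MinEx

/-! # Module NoCm (S): elements of two large prime orders do not commute

PROOF. `M = M_σ`, `M' = M_τ` (`exists_min`; `σ, τ ≠ 1`). `τ σ τ⁻¹ = σ`, so `τ M = M` (`min_conj`, `min_unique`), and `σ M' = M'`.
`M ⊓ M'` is invariant under both, and `≠ ⊥` since `er + es > n`. So it equals `M` and `M'`, so `er = es`. -/

namespace Pool.Agent.Work.MP_bc729a_al.LA

open Pool.Agent.Work.MP_bc729a_al.LN

universe u v

variable {n : ℕ} {F : Type u} [Field F]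

theorem no_comm [Finite F] {r er s es : ℕ} (h : Big (Nat.card F) n r er)
    (h' : Big (Nat.card F) n s es) (hne : er ≠ es) {σ τ : Col n F} (hσ : orderOf σ = r)
    (hτ : orderOf τ = s) (hc : σ * τ = τ * σ) : False := by
  have hσr : σ ^ r = 1 := hσ ▸ pow_orderOf_eq_one σ
  have hτs : τ ^ s = 1 := hτ ▸ pow_orderOf_eq_one τ
  have hσ1 : σ ≠ 1 := by
    rintro rfl
    rw [orderOf_one] at hσ
    exact h.prime.one_lt.ne hσ
  have hτ1 : τ ≠ 1 := by
    rintro rfl
    rw [orderOf_one] at hτ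
    exact h'.prime.one_lt.ne hτ
  obtain ⟨M, hM⟩ := exists_min h hσr hσ1
  obtain ⟨M', hM'⟩ := exists_min h' hτs hτ1
  have e1 : τ * σ * τ⁻¹ = σ := by rw [← hc, mul_assoc, mul_inv_cancel, mul_one]
  have e2 : σ * τ * σ⁻¹ = τ := by rw [hc, mul_assoc, mul_inv_cancel, mul_one]
  have hτM : τ M = M := by
    have h1 := min_conj hM τ
    rw [e1] at h1
    exact min_unique h.half h1 hM
  have hσM' : σ M' = M' := by
    have h1 := min_conj hM' σ
    rw [e2] at h1
    exact min_unique h'.half h1 hM'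
  have i1 : σ (M ⊓ M') = M ⊓ M' := by rw [map_inf, hM.inv, hσM']
  have i2 : τ (M ⊓ M') = M ⊓ M' := by rw [map_inf, hτM, hM'.inv]
  have hd := Submodule.finrank_sup_add_finrank_inf_eq M M'
  have hle : Module.finrank F (M ⊔ M' : Lat n F) ≤ n := by
    have h1 := Submodule.finrank_le (M ⊔ M' : Lat n F)
    rwa [Module.finrank_fin_fun] at h1
  have h2 := h.half
  have h3 := h'.half
  have hMd := hM.dim
  have hMd' := hM'.dim
  have hne0 : M ⊓ M' ≠ ⊥ := by
    intro h0
    rw [h0, finrank_bot] at hd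
    omega
  have j1 : M ⊓ M' = M := (hM.min _ inf_le_left i1).resolve_left hne0
  have j2 : M ⊓ M' = M' := (hM'.min _ inf_le_right i2).resolve_left hne0
  apply hne
  rw [← hMd, ← hMd', ← j1.symm.trans j2]

end Pool.Agent.Work.MP_bc729a_al.LA
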