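import Pool.Agent.Work.MP_bc729a_al.LA.Fre
import Pool.Agent.Work.MP_bc729a_al.LA.NoCm
import Pool.Agent.Work.MP_bc729a_al.LA.GrpG
import Pool.Agent.Work.MP_bc729a_al.LA.Cop

/-! # Module BThm (S-M): no group of collineations has order divisible by `r` and `s`

PROOF of `noT`. The group `Col n F` is finite (`lat_finite`). `r ≠ s` (if `r = s` then `er = es`: there is an element of order `r` in `T'`, and
`exists_min` for both; or directly: `gb q er 1` ... use: an element `σ ∈ T'` of order `r` has `M` of dimension `er` and `M'` of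
dimension `es`, both minimal, `M ⊓ M' ≠ ⊥`, so `M = M'`). Apply `exists_comm` to `Γ = T'`. `hQ`: a Sylow `s`-subgroup `Q` of `T'`,
mapped to `Col n F`, is an `s`-group, so `|Q|` divides `gb q es 1` (`card_dvd_points`), and `|Q| = s ^ v` with `v > 0` as `s ∣ |T'|`; use
`hs`. The commuting elements contradict `no_comm` (orders in the subgroup and in the group agree).
`noT_coprime`: a Sylow `r`-subgroup `P` has order `r ^ v`, `v ≥ 1`, dividing `gb q er 1`, so by `hr2` `v = 1`; then
`normalizer_le_of_coprime`.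
`card_sylow_eq`: this statement on `|P|`. -/

namespace Pool.Agent.Work.MP_bc729a_al.LA

open Pool.Agent.Work.MP_bc729a_al.LN

universe u v

variable {n : ℕ} {F : Type u} [Field F]

private theorem finite_col [Finite F] : Finite (Col n F) := by
  have hlat : Finite (Lat n F) := lat_finite
  exact Finite.of_injective (fun σ : Col n F => (σ : Lat n F → Lat n F)) DFunLike.coe_injective

private theorem card_pgroup_dvd [Finite F] (hn : 3 ≤ n) {r er : ℕ}
    (h : Big (Nat.card F) n r er) (T' : Subgroup (Col n F)) (P : Subgroup T')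
    (hP : IsPGroup r P) : Nat.card P ∣ gb (Nat.card F) er 1 := by
  have h1 : Nat.card (P.map T'.subtype) = Nat.card P :=
    Nat.card_congr (P.equivMapOfInjective T'.subtype T'.subtype_injective).symm.toEquiv
  rw [← h1]
  exact card_dvd_points h hn (P.map T'.subtype) (hP.map T'.subtype)

private theorem sylow_pow {Γ : Type*} [Group Γ] [Finite Γ] {r : ℕ} [hr : Fact r.Prime]
    (h : r ∣ Nat.card Γ) (P : Sylow r Γ) : ∃ v, 0 < v ∧ Nat.card P = r ^ v := by
  obtain ⟨v, hv⟩ := IsPGroup.iff_card.1 P.isPGroup'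
  refine ⟨v, Nat.pos_of_ne_zero ?_, hv⟩
  intro h0
  rw [h0, pow_zero] at hv
  have h1 := P.dvd_card_of_dvd_card h
  rw [hv] at h1
  exact hr.out.one_lt.ne' (Nat.dvd_one.1 h1)

theorem card_sylow_eq [Finite F] (hn : 3 ≤ n) {r er : ℕ} [Fact r.Prime]
    (h : Big (Nat.card F) n r er) (hr2 : ¬ r ^ 2 ∣ gb (Nat.card F) er 1)
    (T' : Subgroup (Col n F)) (hr : r ∣ Nat.card T') (P : Sylow r T') : Nat.card P = r := by
  have hfin : Finite (Col n F) := finite_col
  obtain ⟨v, hv, hv2⟩ := sylow_pow hr P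
  have h1 := card_pgroup_dvd hn h T' P P.isPGroup'
  have h2 : v = 1 := by
    by_contra h3
    apply hr2
    have h4 : r ^ 2 ∣ r ^ v := pow_dvd_pow r (by omega)
    have h5 : Nat.card (P : Subgroup T') = r ^ v := hv2
    rw [h5] at h1
    exact h4.trans h1
  rw [hv2, h2, pow_one]

theorem noT [Finite F] (hn : 3 ≤ n) {r er s es : ℕ} [Fact r.Prime] (h : Big (Nat.card F) n r er)
    (h' : Big (Nat.card F) n s es) (hne : er ≠ es)
    (hs : ∀ v, 0 < v → s ^ v ∣ gb (Nat.card F) es 1 → ¬ s ^ v ≡ 1 [MOD r])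
    (T' : Subgroup (Col n F)) (hr : r ∣ Nat.card T') (hs' : s ∣ Nat.card T')
    (hN : ∀ P : Sylow r T', Subgroup.normalizer (P : Set T') ≤ Subgroup.centralizer (P : Set T')) :
    False := by
  have hfin : Finite (Col n F) := finite_col
  have hsp : Fact s.Prime := ⟨h'.prime⟩
  have hrs : r ≠ s := by
    intro h0
    subst h0
    obtain ⟨σ, hσ⟩ := exists_prime_orderOf_dvd_card' (G := T') r hr
    have hσ' : orderOf (σ : Col n F) = r := by rw [Subgroup.orderOf_coe]; exact hσ
    exact no_comm h h' hne hσ' hσ' rfl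
  obtain ⟨x, y, hx, hy, hxy⟩ := exists_comm (Γ := T') hrs hr hs' hN (by
    intro Q
    obtain ⟨v, hv, hv2⟩ := sylow_pow hs' Q
    have h1 := card_pgroup_dvd hn h' T' Q Q.isPGroup'
    have h5 : Nat.card (Q : Subgroup T') = s ^ v := hv2
    rw [h5] at h1
    rw [hv2]
    exact hs v hv h1)
  exact no_comm h h' hne (σ := (x : Col n F)) (τ := (y : Col n F))
    (by rw [Subgroup.orderOf_coe]; exact hx) (by rw [Subgroup.orderOf_coe]; exact hy)
    (by exact_mod_cast congrArg (Subtype.val : T' → Col n F) hxy)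

theorem noT_coprime [Finite F] (hn : 3 ≤ n) {r er s es : ℕ} (h : Big (Nat.card F) n r er)
    (h' : Big (Nat.card F) n s es) (hne : er ≠ es) (hr2 : ¬ r ^ 2 ∣ gb (Nat.card F) er 1)
    (hs : ∀ v, 0 < v → s ^ v ∣ gb (Nat.card F) es 1 → ¬ s ^ v ≡ 1 [MOD r])
    (T' : Subgroup (Col n F)) (hr : r ∣ Nat.card T') (hs' : s ∣ Nat.card T')
    (hc : Nat.Coprime (r - 1) (Nat.card T')) : False := by
  have hfin : Finite (Col n F) := finite_col
  have hrp : Fact r.Prime := ⟨h.prime⟩
  exact noT hn h h' hne hs T' hr hs' (fun P =>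
    normalizer_le_of_coprime P (card_sylow_eq hn h hr2 T' hr P) hc)

end Pool.Agent.Work.MP_bc729a_al.LA
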