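import Pool.Agent.Work.MP_bc729a_al.LA.Gb

/-! # The numerical data of the leftover cases (definition only) -/

namespace Pool.Agent.Work.MP_bc729a_al.LA



universe u v

/-- the data of a leftover case: two primes `r, s > q + 1` which divide the number of `k`-subspaces -/
structure Data (q n k r er s es : ℕ) : Prop where
  big : Big q n r er
  big' : Big q n s es
  ne : er ≠ es
  sq : ¬ r ^ 2 ∣ gb q er 1
  sv : ∀ v, 0 < v → s ^ v ∣ gb q es 1 → ¬ s ^ v ≡ 1 [MOD r]
  dr : r ∣ gb q n k
  ds : s ∣ gb q n k

end Pool.Agent.Work.MP_bc729a_al.LA
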