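import Pool.Agent.Work.MP_bc729a_al.LA.Gb

/-! # Module Par (S): parities

`even_flag`: modulo `2`, `q ≡ 1`, so by `gb_modEq_choose` the product is `≡ C(n, 2) C(n-2, n-4) = C(n, 2) C(n-2, 2)`. This is even:
`4 C(n,2) C(n-2,2) = n (n-1) (n-2) (n-3)` is divisible by `24` (it is `24 C(n, 4)`), so `C(n,2) C(n-2,2) = 6 C(n,4)`.
`odd_two`: `gb_modEq_one` with `q = 2`. -/

namespace Pool.Agent.Work.MP_bc729a_al.LA



universe u v

theorem even_flag {q n : ℕ} (hq : Odd q) (hn : 5 ≤ n) :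
    2 ∣ gb q n 2 * gb q (n - 2) (n - 4) := by
  have hq2 : q ≡ 1 [MOD 2] := Nat.odd_iff.1 hq
  have h1 := (gb_modEq_choose hq2 n 2).mul (gb_modEq_choose hq2 (n - 2) (n - 4))
  have h2 : (n - 2).choose (n - 4) = (n - 2).choose 2 := by
    rw [show n - 4 = n - 2 - 2 by omega]
    exact Nat.choose_symm (by omega)
  rw [h2] at h1
  have h3 : n.choose 2 * (n - 2).choose 2 = n.choose 4 * 6 := by
    have := Nat.choose_mul (n := n) (k := 4) (s := 2) (by omega)
    rw [show (4 : ℕ).choose 2 = 6 by decide, show 4 - 2 = 2 by norm_num] at this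
    exact this.symm
  rw [h3] at h1
  exact (Nat.modEq_zero_iff_dvd).1 (h1.trans ((Nat.modEq_zero_iff_dvd).2 ⟨n.choose 4 * 3, by ring⟩))

theorem odd_two {n k : ℕ} (h : k ≤ n) : ¬ 2 ∣ gb 2 n k := by
  intro h0
  have h1 := gb_modEq_one (q := 2) h
  have h2 := (Nat.modEq_zero_iff_dvd).2 h0
  have h3 : (0 : ℕ) ≡ 1 [MOD 2] := h2.symm.trans h1
  exact absurd h3 (by decide)

end Pool.Agent.Work.MP_bc729a_al.LA
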