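import Pool.Agent.Work.MP_bc729a_al.LA.Red
import Pool.Agent.Work.MP_bc729a_al.LA.Over
import Pool.Agent.Work.MP_bc729a_al.LA.Idx
import Pool.Agent.Work.MP_bc729a_al.LA.ClsF
import Pool.Agent.Work.MP_bc729a_al.LA.Irr
import Pool.Agent.Work.MP_bc729a_al.LA.TIdx
import Pool.Agent.Work.MP_bc729a_al.LA.IndC
import Pool.Agent.Work.MP_bc729a_al.LA.BThm
import Pool.Agent.Work.MP_bc729a_al.LA.BigDef
import Pool.Agent.Work.MP_bc729a_al.LA.Par

/-! # Module FB (S-M): the leftover cases for `q = 2`

PROOF. `U₀ ≤ W₀` of dimensions `k`, `n - k`, `H = stab {U₀, W₀}`, class invariant (`class_flag`); `R`, `T` from `hX.main`. `R.index`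
divides `H.index = gb 2 n k * gb 2 (n-k) (n-2k)` (`index_flag`, `Subgroup.index_dvd_of_le`), odd by `odd_two`. So `|T|` is odd (a prime
divisor `2` would divide `R.index`), every `t ∈ T` is induced by a collineation (`exists_indP`, LN/Final), `|indT T| = |T|` (`card_indT`).
`gb 2 n k ∣ R.index` (`over_flag`, `index_one`, `gb_symm`) and `R.index ∣ |T|` (`index_dvd_card`), so `r, s ∣ |indT T|`.
`r - 1 = 2 ^ a` is coprime to the odd number `|indT T|`. `noT_coprime`. -/

namespace Pool.Agent.Work.MP_bc729a_al.LA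

open Pool.Agent.Work.MP_bc729a_al.LN

universe u v

open scoped Pointwise

variable {n : ℕ} {F : Type u} [Field F]

theorem flagB [Finite F] {X : Subgroup (MulAut (PSLn n F))} (hX : Red (PSLn n F) X) (hn : 3 ≤ n)
    (hq : Nat.card F = 2) {k r er s es a : ℕ} (hk : 0 < k) (hkn : 2 * k ≤ n)
    (hD : Data 2 n k r er s es) (ha : r - 1 = 2 ^ a) : False := by
  obtain ⟨U₀, W₀, hUW, hU, hW⟩ : ∃ U W : Lat n F, U ≤ W ∧ Module.finrank F U = k ∧
      Module.finrank F W = n - k := by
    obtain ⟨t, ht, hli⟩ := exists_finset_linearIndependent_of_le_finrank (R := F)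
      (M := Fin n → F) (n := n - k) (by rw [Module.finrank_fin_fun]; omega)
    obtain ⟨t', ht', hc'⟩ := Finset.exists_subset_card_eq (s := t) (n := k) (by omega)
    have hli' : LinearIndependent F ((↑) : t' → (Fin n → F)) :=
      hli.comp (Set.inclusion (Finset.coe_subset.2 ht')) (Set.inclusion_injective _)
    refine ⟨Submodule.span F (t' : Set (Fin n → F)), Submodule.span F (t : Set (Fin n → F)),
      Submodule.span_mono (Finset.coe_subset.2 ht'), ?_, ?_⟩
    · rw [finrank_span_finset_eq_card hli', hc']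
    · rw [finrank_span_finset_eq_card hli, ht]
  have hUb : U₀ ≠ ⊥ := by
    rintro rfl
    rw [finrank_bot] at hU
    omega
  have hUt : U₀ ≠ ⊤ := by
    rintro rfl
    rw [finrank_top, Module.finrank_fin_fun] at hU
    omega
  obtain ⟨R, T, hTX, hHR, hRt, hN, hcl, htr, hpr, -⟩ := hX.main (stab {U₀, W₀})
    (stab_ne_top (by omega) hUW hUb hUt) (stab_ne_bot (by omega) hUW hUb)
    (fun α _ => class_flag hn hUW (by omega) α)
  have hidxH : (stab {U₀, W₀}).index = gb 2 n k * gb 2 (n - k) (n - k - k) := by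
    rw [index_flag (by omega) hUW, hU, hW, hq]
  have hR2 : ¬ 2 ∣ R.index := by
    intro h
    have h1 : 2 ∣ gb 2 n k * gb 2 (n - k) (n - k - k) := by
      rw [← hidxH]
      exact h.trans (Subgroup.index_dvd_of_le hHR)
    rcases (Nat.Prime.dvd_mul Nat.prime_two).1 h1 with h2 | h2
    · exact odd_two (by omega) h2
    · exact odd_two (by omega) h2
  have hT2 : ¬ 2 ∣ Nat.card T := fun h => hR2 (hpr 2 Nat.prime_two h)
  have hcard : Nat.card (indT T) = Nat.card T :=
    card_indT hn (fun t ht => exists_indP hn hT2 ht)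
  have hdvd : R.index ∣ Nat.card T :=
    index_dvd_card hN (fun t ht => hcl t (hTX ht)) htr
  have hgb : gb 2 n k ∣ R.index := by
    rcases over_flag (by omega) hUW hUb hHR hRt with h | h
    · have h1 := Subgroup.index_dvd_of_le h
      rwa [index_one (by omega), hU, hq] at h1
    · have h1 := Subgroup.index_dvd_of_le h
      rwa [index_one (by omega), hW, hq, gb_symm (by omega)] at h1
  have hbig : Big (Nat.card F) n r er := by
    rw [hq]
    exact hD.big
  have hbig' : Big (Nat.card F) n s es := by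
    rw [hq]
    exact hD.big'
  refine noT_coprime hn hbig hbig' hD.ne (by rw [hq]; exact hD.sq) (by rw [hq]; exact hD.sv)
    (indT T) ?_ ?_ ?_
  · rw [hcard]
    exact (hD.dr.trans hgb).trans hdvd
  · rw [hcard]
    exact (hD.ds.trans hgb).trans hdvd
  · rw [hcard, ha]
    exact Nat.Coprime.pow_left a ((Nat.Prime.coprime_iff_not_dvd Nat.prime_two).2 hT2)

end Pool.Agent.Work.MP_bc729a_al.LA
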