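import Pool.Agent.Work.MP_bc729a_al.LA.Gb

/-! # Module GbMod (S): q-Lucas for the case needed

Let `q^e ≡ 1` and `gb q e k ≡ 0` for `0 < k < e` modulo `r`.

`gb_add`: for all `n` and `k`: `gb q (n+e) (k+e) ≡ gb q n (k+e) + gb q n k`, and `gb q (n+e) k ≡ gb q n k` if `k < e`.
Induction on `n`. `n = 0`: `gb q e m ≡ 1, 0, ..., 0, 1, 0, ...` for `m = 0, 1, ..., e - 1, e, e + 1, ...` (`gb_self`,
`gb_of_lt`). Step: use `gb_succ` for both sides (the case `m = 0` is trivial) and `q^(k+e) ≡ q^k`:
`gb q (n+1+e) (m+1) = gb q (n+e) m + q^(m+1) gb q (n+e) (m+1)`, insert the induction hypothesis for `m` and `m + 1`; for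
`m + 1 = k + e`: `gb q (n+1) (k+e) + gb q (n+1) k` expands to the same four terms (if `k = 0` the last term is
`gb q (n+1) 0 = 1 = gb q n 0` and in the sum one has `gb q (n+e) (e-1) ≡ gb q n (e-1)` and `q^e gb q n 0 ≡ 1`; for `e = 1` the
second statement is only about `k = 0`).

`gb_lucas`: strong induction on `n`. If `n < e`: `n / e = 0` and `gb q n (e j) = 0` for `j > 0`
(`gb_of_lt`), `= 1` for `j = 0`. If `n = m + e`: `n / e = m / e + 1` (`Nat.add_div_right`), `j = 0` trivial, and for `j = i + 1`: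
`gb q (m+e) (e i + e) ≡ gb q m (e i + e) + gb q m (e i) ≡ C(m/e, i+1) + C(m/e, i) = C(m/e + 1, i + 1)`. -/

namespace Pool.Agent.Work.MP_bc729a_al.LA

open Pool.Agent.Work.MP_bc729a_al.LN

universe u v

private theorem gb_add {q r e : ℕ} (he : 0 < e) (h1 : q ^ e ≡ 1 [MOD r])
    (h2 : ∀ k, 0 < k → k < e → r ∣ gb q e k) (n : ℕ) :
    (∀ k, (gb q (n + e) (k + e) : ZMod r) = gb q n (k + e) + gb q n k) ∧
      ∀ k, k < e → (gb q (n + e) k : ZMod r) = gb q n k := by
  have hq : (q : ZMod r) ^ e = 1 := by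
    have h := (ZMod.natCast_eq_natCast_iff _ _ _).2 h1
    push_cast at h
    exact h
  induction n with
  | zero =>
    refine ⟨fun k => ?_, fun k hk => ?_⟩
    · rcases Nat.eq_zero_or_pos k with rfl | hk
      · simp only [zero_add]
        rw [gb_self, gb_of_lt he, gb_zero]
        simp
      · rw [zero_add, gb_of_lt (show e < k + e by omega), gb_of_lt (show 0 < k + e by omega),
          gb_of_lt hk]
        simp
    · rcases Nat.eq_zero_or_pos k with rfl | hk0
      · rw [gb_zero, gb_zero]
      · rw [zero_add, gb_of_lt hk0, (ZMod.natCast_eq_zero_iff _ _).2 (h2 k hk0 hk)]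
        simp
  | succ n ih =>
    obtain ⟨ih1, ih2⟩ := ih
    refine ⟨fun k => ?_, fun k hk => ?_⟩
    · cases k with
      | zero =>
        obtain ⟨m, rfl⟩ : ∃ m, e = m + 1 := ⟨e - 1, by omega⟩
        have h3 : gb q (n + 1 + (m + 1)) (0 + (m + 1)) =
            gb q (n + (m + 1)) m + q ^ (m + 1) * gb q (n + (m + 1)) (m + 1) := by
          rw [show n + 1 + (m + 1) = (n + (m + 1)) + 1 by ring, zero_add, gb_succ]
        have h4 := ih1 0
        rw [zero_add, gb_zero] at h4
        rw [h3]
        push_cast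
        rw [ih2 m (by omega), hq, h4, zero_add, gb_succ, gb_zero]
        push_cast
        rw [hq]
        ring
      | succ j =>
        have h3 : gb q (n + 1 + e) (j + 1 + e) =
            gb q (n + e) (j + e) + q ^ (j + e + 1) * gb q (n + e) (j + 1 + e) := by
          rw [show n + 1 + e = (n + e) + 1 by ring, show j + 1 + e = (j + e) + 1 by ring, gb_succ]
        have h4 : gb q (n + 1) (j + 1 + e) =
            gb q n (j + e) + q ^ (j + e + 1) * gb q n (j + 1 + e) := by
          rw [show j + 1 + e = (j + e) + 1 by ring, gb_succ]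
        have h5 : (q : ZMod r) ^ (j + e + 1) = (q : ZMod r) ^ (j + 1) := by
          rw [show j + e + 1 = (j + 1) + e by ring, pow_add, hq, mul_one]
        rw [h3, h4, gb_succ]
        push_cast
        rw [ih1 j, ih1 (j + 1), h5]
        ring
    · cases k with
      | zero => rw [gb_zero, gb_zero]
      | succ m =>
        rw [show n + 1 + e = (n + e) + 1 by ring, gb_succ, gb_succ]
        push_cast
        rw [ih2 m (by omega), ih2 (m + 1) hk]

theorem gb_lucas {q r e : ℕ} (he : 0 < e) (h1 : q ^ e ≡ 1 [MOD r])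
    (h2 : ∀ k, 0 < k → k < e → r ∣ gb q e k) (n j : ℕ) :
    gb q n (e * j) ≡ (n / e).choose j [MOD r] := by
  rw [← ZMod.natCast_eq_natCast_iff]
  induction n using Nat.strong_induction_on generalizing j with
  | _ n ih =>
    by_cases hn : n < e
    · rw [Nat.div_eq_of_lt hn]
      rcases Nat.eq_zero_or_pos j with rfl | hj
      · rw [mul_zero, gb_zero, Nat.choose_zero_right]
      · rw [gb_of_lt (lt_of_lt_of_le hn (Nat.le_mul_of_pos_right e hj)),
          Nat.choose_eq_zero_of_lt hj]
    · obtain ⟨m, rfl⟩ : ∃ m, n = m + e := ⟨n - e, by omega⟩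
      rw [Nat.add_div_right m he]
      cases j with
      | zero => rw [mul_zero, gb_zero, Nat.choose_zero_right]
      | succ i =>
        have h3 := (gb_add he h1 h2 m).1 (e * i)
        have h4 := ih m (by omega) i
        have h5 := ih m (by omega) (i + 1)
        rw [show e * (i + 1) = e * i + e by ring] at h5 ⊢
        rw [h3, h4, h5, Nat.choose_succ_succ]
        push_cast
        ring

theorem gb_dvd {q r e : ℕ} (h : Good q r e) {n j : ℕ} (hj : r ∣ (n / e).choose j) :
    r ∣ gb q n (e * j) := by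
  obtain ⟨-, -, he, h1, h2, -⟩ := h
  exact (gb_lucas he h1 h2 n j).dvd_iff dvd_rfl |>.2 hj

end Pool.Agent.Work.MP_bc729a_al.LA
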