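import Pool.Agent.Work.MP_bc729a_al.LA.Defs

/-! # Module Msc (M): a lattice version of Maschke's theorem

`card_relcompl`. PROOF. Choose `W₀` with `U ⊓ W₀ = A`, `U ⊔ W₀ = B` (relative complements: take a complement `C₀` of `U` in `B`, i.e.
`C₀ ⊓ U = ⊥`, `C₀ ⊔ U = B` and put `W₀ = A ⊔ C₀`, modular law) and a complement `D` of `A` in `U` (`A ⊓ D = ⊥`, `A ⊔ D = U`). For a
linear map `φ : C₀ → D` let `W_φ = A ⊔ {c + φ c | c ∈ C₀}`. These are exactly the relative complements, `φ ↦ W_φ` is injective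
(`V ⊇ B = A ⊕ D ⊕ C₀`), so the number is `|Hom(C₀, D)| = q^(dim C₀ * dim D)`. Alternatively: pass to `B ⧸ A` and use
`Submodule.isComplEquivProj`, the projections form a coset of `Hom((B/A)/(U/A), U/A)`, whose cardinality is a power of `q`
(`Module.card_eq_pow_finrank`).
`maschke`. The set of relative complements is invariant under `σ` and its cardinality is a power of `|F|`, not divisible by the prime `r`:
`exists_fix`. -/

namespace Pool.Agent.Work.MP_bc729a_al.LA

open Pool.Agent.Work.MP_bc729a_al.LN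

universe u v

variable {n : ℕ} {F : Type u} [Field F]

private theorem ms_exists [Finite F] {A U B W : Lat n F} (hUB : U ≤ B)
    (h1 : U ⊓ W = A) (h2 : U ⊔ W = B) :
    ∃ f : B →ₗ[F] (U ⧸ A.comap U.subtype),
      (∀ u : U, f (Submodule.inclusion hUB u) = Submodule.Quotient.mk u) ∧
        ∀ b : B, f b = 0 ↔ (b : Fin n → F) ∈ W := by
  have key : ∀ x y : U, ((x : Fin n → F) - y) ∈ W →
      (Submodule.Quotient.mk x : U ⧸ A.comap U.subtype) = Submodule.Quotient.mk y := by
    intro x y hxy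
    refine (Submodule.Quotient.eq _).2 ?_
    change ((x : Fin n → F) - y) ∈ A
    rw [← h1]
    exact ⟨U.sub_mem x.2 y.2, hxy⟩
  have hAW : A ≤ W := h1 ▸ inf_le_right
  have hex : ∀ b : B, ∃ u : U, ((b : Fin n → F) - u) ∈ W := by
    intro b
    have hb : (b : Fin n → F) ∈ U ⊔ W := by
      rw [h2]
      exact b.2
    obtain ⟨u, hu, w, hw, h⟩ := Submodule.mem_sup.1 hb
    refine ⟨⟨u, hu⟩, ?_⟩
    change (b : Fin n → F) - u ∈ W
    rw [← h, add_sub_cancel_left]
    exact hw
  choose u hu using hex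
  refine ⟨{ toFun := fun b => Submodule.Quotient.mk (u b), map_add' := ?_, map_smul' := ?_ },
    ?_, ?_⟩
  · intro a b
    rw [← Submodule.Quotient.mk_add]
    apply key
    have h3 := W.sub_mem (W.add_mem (hu a) (hu b)) (hu (a + b))
    have h4 : ((u (a + b) : Fin n → F) - ((u a + u b : U) : Fin n → F)) =
        ((a : Fin n → F) - u a) + ((b : Fin n → F) - u b) -
          (((a + b : B) : Fin n → F) - u (a + b)) := by
      push_cast
      abel
    rw [h4]
    exact h3
  · intro c a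
    rw [RingHom.id_apply, ← Submodule.Quotient.mk_smul]
    apply key
    have h3 := W.sub_mem (W.smul_mem c (hu a)) (hu (c • a))
    have h4 : ((u (c • a) : Fin n → F) - ((c • u a : U) : Fin n → F)) =
        c • ((a : Fin n → F) - u a) - (((c • a : B) : Fin n → F) - u (c • a)) := by
      push_cast
      rw [smul_sub]
      abel
    rw [h4]
    exact h3
  · intro v
    change (Submodule.Quotient.mk (u (Submodule.inclusion hUB v)) : U ⧸ A.comap U.subtype) = _
    apply key
    have h3 := W.neg_mem (hu (Submodule.inclusion hUB v))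
    rw [neg_sub] at h3
    exact h3
  · intro b
    change (Submodule.Quotient.mk (u b) : U ⧸ A.comap U.subtype) = 0 ↔ _
    rw [Submodule.Quotient.mk_eq_zero]
    change (u b : Fin n → F) ∈ A ↔ _
    constructor
    · intro h
      have h3 := W.add_mem (hu b) (hAW h)
      rwa [sub_add_cancel] at h3
    · intro h
      rw [← h1]
      refine ⟨(u b).2, ?_⟩
      have h3 := W.sub_mem h (hu b)
      rwa [sub_sub_cancel] at h3

private theorem ms_wd [Finite F] {A U B : Lat n F} (hAU : A ≤ U) (hUB : U ≤ B)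
    (f : B →ₗ[F] (U ⧸ A.comap U.subtype))
    (hf : ∀ u : U, f (Submodule.inclusion hUB u) = Submodule.Quotient.mk u) :
    U ⊓ (LinearMap.ker f).map B.subtype = A ∧ U ⊔ (LinearMap.ker f).map B.subtype = B := by
  have hmem : ∀ v : Fin n → F, v ∈ (LinearMap.ker f).map B.subtype ↔
      ∃ hb : v ∈ B, f ⟨v, hb⟩ = 0 := by
    intro v
    constructor
    · rintro ⟨b, hb, rfl⟩
      exact ⟨b.2, hb⟩
    · rintro ⟨hb, h⟩
      exact ⟨⟨v, hb⟩, h, rfl⟩
  have hz : ∀ (v : Fin n → F) (hv : v ∈ U), f ⟨v, hUB hv⟩ = 0 ↔ v ∈ A := by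
    intro v hv
    have h1 := hf ⟨v, hv⟩
    have h2 : f ⟨v, hUB hv⟩ = Submodule.Quotient.mk ⟨v, hv⟩ := h1
    rw [h2, Submodule.Quotient.mk_eq_zero]
    rfl
  constructor
  · ext v
    rw [Submodule.mem_inf, hmem]
    constructor
    · rintro ⟨h1, h2, h3⟩
      exact (hz v h1).1 h3
    · intro h
      exact ⟨hAU h, hUB (hAU h), (hz v (hAU h)).2 h⟩
  · apply le_antisymm
    · refine sup_le hUB ?_
      intro v hv
      exact ((hmem v).1 hv).1
    · intro v hv
      obtain ⟨u, hu⟩ := Submodule.Quotient.mk_surjective _ (f ⟨v, hv⟩)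
      refine Submodule.mem_sup.2 ⟨u, u.2, v - u, ?_, by abel⟩
      rw [hmem]
      refine ⟨B.sub_mem hv (hUB u.2), ?_⟩
      have h1 : (⟨v - u, B.sub_mem hv (hUB u.2)⟩ : B) =
          ⟨v, hv⟩ - Submodule.inclusion hUB u := rfl
      rw [h1, map_sub, hf, hu, sub_self]

private theorem ms_card [Finite F] {A U B : Lat n F} (hUB : U ≤ B) :
    ∃ m, Nat.card {f : B →ₗ[F] (U ⧸ A.comap U.subtype) //
      ∀ u : U, f (Submodule.inclusion hUB u) = Submodule.Quotient.mk u} = Nat.card F ^ m := by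
  obtain ⟨g, hg⟩ := LinearMap.exists_extend (A.comap U.subtype).mkQ
  set f₀ : B →ₗ[F] (U ⧸ A.comap U.subtype) := g.comp B.subtype with hf₀
  have hf : ∀ u : U, f₀ (Submodule.inclusion hUB u) = Submodule.Quotient.mk u := by
    intro u
    exact LinearMap.congr_fun hg u
  let K : Submodule F (B →ₗ[F] (U ⧸ A.comap U.subtype)) :=
    { carrier := {f | ∀ u : U, f (Submodule.inclusion hUB u) = 0}
      add_mem' := by
        intro a b ha hb u
        rw [LinearMap.add_apply, ha u, hb u, add_zero]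
      zero_mem' := by
        intro u
        rfl
      smul_mem' := by
        intro c a ha u
        rw [LinearMap.smul_apply, ha u, smul_zero] }
  have hK := Module.natCard_eq_pow_finrank (K := F) (V := ↥K)
  refine ⟨_, Eq.trans ?_ hK⟩
  refine Nat.card_congr ⟨fun f => ⟨f.1 - f₀, ?_⟩, fun f => ⟨f.1 + f₀, ?_⟩, ?_, ?_⟩
  · intro u
    rw [LinearMap.sub_apply, f.2 u, hf u, sub_self]
  · intro u
    rw [LinearMap.add_apply, f.2 u, hf u, zero_add]
  · intro f
    apply Subtype.ext
    exact sub_add_cancel _ _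
  · intro f
    apply Subtype.ext
    exact add_sub_cancel_right _ _

theorem card_relcompl [Finite F] {A U B : Lat n F} (hAU : A ≤ U) (hUB : U ≤ B) :
    ∃ m, Nat.card {W : Lat n F // U ⊓ W = A ∧ U ⊔ W = B} = Nat.card F ^ m := by
  obtain ⟨m, hm⟩ := ms_card (A := A) hUB
  refine ⟨m, ?_⟩
  rw [← hm]
  symm
  refine Nat.card_congr (Equiv.ofBijective
    (fun f => ⟨(LinearMap.ker f.1).map B.subtype, ms_wd hAU hUB f.1 f.2⟩) ⟨?_, ?_⟩)
  · rintro ⟨f, hf⟩ ⟨g, hg⟩ h
    have h1 : (LinearMap.ker f).map B.subtype = (LinearMap.ker g).map B.subtype :=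
      congrArg Subtype.val h
    have h2 : LinearMap.ker f = LinearMap.ker g :=
      Submodule.map_injective_of_injective B.injective_subtype h1
    apply Subtype.ext
    apply LinearMap.ext
    intro b
    change f b = g b
    obtain ⟨u, hu⟩ := Submodule.Quotient.mk_surjective _ (f b)
    have h3 : b - Submodule.inclusion hUB u ∈ LinearMap.ker f := by
      rw [LinearMap.mem_ker, map_sub, hf, hu, sub_self]
    rw [h2, LinearMap.mem_ker, map_sub, hg, sub_eq_zero] at h3
    rw [h3, hu]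
  · rintro ⟨W, h1, h2⟩
    obtain ⟨f, hf, hf2⟩ := ms_exists hUB h1 h2
    refine ⟨⟨f, hf⟩, ?_⟩
    apply Subtype.ext
    ext v
    constructor
    · rintro ⟨b, hb, rfl⟩
      exact (hf2 b).1 hb
    · intro hv
      have hB : v ∈ B := h2 ▸ (le_sup_right : W ≤ U ⊔ W) hv
      exact ⟨⟨v, hB⟩, (hf2 ⟨v, hB⟩).2 hv, rfl⟩

theorem maschke [Finite F] {r : ℕ} (hr : r.Prime) (hrq : ¬ r ∣ Nat.card F) {σ : Col n F}
    (hσ : σ ^ r = 1) {A U B : Lat n F} (hAU : A ≤ U) (hUB : U ≤ B) (hA : σ A = A) (hU : σ U = U)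
    (hB : σ B = B) : ∃ W, σ W = W ∧ U ⊓ W = A ∧ U ⊔ W = B := by
  obtain ⟨m, hm⟩ := card_relcompl hAU hUB
  obtain ⟨W, hW, hW2⟩ := exists_fix hr σ hσ (fun W => U ⊓ W = A ∧ U ⊔ W = B) (by
    rintro W ⟨h1, h2⟩
    constructor
    · have h3 := congrArg σ h1
      rwa [map_inf, hU, hA] at h3
    · have h3 := congrArg σ h2
      rwa [map_sup, hU, hB] at h3) (by
    intro h
    rw [hm] at h
    exact hrq (hr.dvd_of_dvd_pow h))
  exact ⟨W, hW2, hW⟩

end Pool.Agent.Work.MP_bc729a_al.LA
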