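import Pool.Agent.Work.MP_bc729a_al.LA.Step
import Pool.Agent.Work.MP_bc729a_al.LA.Msc

/-! # Module Inv (M): invariant subspaces and flags of dimension `e j`

`exists_inv`. PROOF. Induction on `j`, for all `A`; `j = 0`: `C = A`. Let `j > 0`.
Case 1: there is an invariant `C₁` with `A < C₁ ≤ B`, `finrank C₁ = finrank A + e`: apply the induction hypothesis to `[C₁, B]` and
`j - 1`. Case 2: there is none. CLAIM: for each `m` with `finrank A + m ≤ finrank B` there is an invariant `C` with `A ≤ C ≤ B`,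
`finrank C = finrank A + m`. Induction on `m`: given `C_m`, `finrank C_m < finrank B`, so `C_m < B` and `exists_step` gives `D` with
`C_m < D ≤ B`; if `finrank D = finrank C_m + 1` take `D`. If `finrank D = finrank C_m + e`, apply `maschke` to `A ≤ C_m ≤ D`: an invariant
`W` with `C_m ⊓ W = A`, `C_m ⊔ W = D`, so `finrank W = finrank A + e` and `A < W ≤ B` (`e > 0`), excluded in case 2. Take `m = e j`.
`exists_flag`. `U` from `exists_inv` for `[⊥, ⊤]`; `K` from `exists_inv` for `[U, ⊤]` with `finrank K = finrank U + e j`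
(`e j ≤ n - e j`); `W` from `maschke` for `U ≤ K ≤ ⊤`: `K ⊓ W = U`, `K ⊔ W = ⊤`, so `finrank W = n + e j - 2 e j`. -/

namespace Pool.Agent.Work.MP_bc729a_al.LA

open Pool.Agent.Work.MP_bc729a_al.LN

universe u v

variable {n : ℕ} {F : Type u} [Field F]

theorem exists_inv [Finite F] {r e : ℕ} (hg : Good (Nat.card F) r e) {σ : Col n F}
    (hσ : σ ^ r = 1) {A B : Lat n F} (hA : σ A = A) (hB : σ B = B) (hAB : A ≤ B) (j : ℕ)
    (hj : Module.finrank F A + e * j ≤ Module.finrank F B) :
    ∃ C, σ C = C ∧ A ≤ C ∧ C ≤ B ∧ Module.finrank F C = Module.finrank F A + e * j := by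
  induction j generalizing A with
  | zero => exact ⟨A, hA, le_rfl, hAB, by simp⟩
  | succ j ih =>
    by_cases h1 : ∃ C₁, σ C₁ = C₁ ∧ A ≤ C₁ ∧ C₁ ≤ B ∧
        Module.finrank F C₁ = Module.finrank F A + e
    · obtain ⟨C₁, hC₁, hAC, hCB, hd⟩ := h1
      rw [Nat.mul_succ] at hj
      obtain ⟨C, hC, h2, h3, h4⟩ := ih hC₁ hCB (by omega)
      exact ⟨C, hC, hAC.trans h2, h3, by rw [h4, hd, Nat.mul_succ]; omega⟩
    · have key : ∀ m, Module.finrank F A + m ≤ Module.finrank F B →
          ∃ C, σ C = C ∧ A ≤ C ∧ C ≤ B ∧ Module.finrank F C = Module.finrank F A + m := by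
        intro m
        induction m with
        | zero => exact fun _ => ⟨A, hA, le_rfl, hAB, rfl⟩
        | succ m ihm =>
          intro hm
          obtain ⟨C, hC, hAC, hCB, hd⟩ := ihm (by omega)
          have hlt : C < B := lt_of_le_of_ne hCB (by rintro rfl; omega)
          obtain ⟨D, hD, hCD, hDB, h5⟩ := exists_step hg hσ hC hB hlt
          rcases h5 with h5 | h5
          · exact ⟨D, hD, hAC.trans hCD.le, hDB, by omega⟩
          · exfalso
            obtain ⟨W, hW, h6, h7⟩ := maschke hg.1 hg.2.1 hσ hAC hCD.le hA hC hD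
            have h8 := Submodule.finrank_sup_add_finrank_inf_eq C W
            rw [h6, h7] at h8
            have h9 : A ≤ W := h6 ▸ inf_le_right
            have h10 : W ≤ D := h7 ▸ le_sup_right
            exact h1 ⟨W, hW, h9, h10.trans hDB, by omega⟩
      exact key _ hj

theorem exists_flag [Finite F] {r e : ℕ} (hg : Good (Nat.card F) r e) {σ : Col n F}
    (hσ : σ ^ r = 1) (j : ℕ) (hj : 2 * (e * j) ≤ n) :
    ∃ U W : Lat n F, σ U = U ∧ σ W = W ∧ U ≤ W ∧ Module.finrank F U = e * j ∧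
      Module.finrank F W = n - e * j := by
  have h0 : σ (⊥ : Lat n F) = ⊥ := OrderIso.map_bot σ
  have h1 : σ (⊤ : Lat n F) = ⊤ := OrderIso.map_top σ
  have hb : Module.finrank F (⊥ : Lat n F) = 0 := finrank_bot F _
  have ht : Module.finrank F (⊤ : Lat n F) = n := by
    rw [finrank_top, Module.finrank_fin_fun]
  obtain ⟨U, hU, -, -, hUd⟩ := exists_inv hg hσ h0 h1 bot_le j (by omega)
  obtain ⟨K, hK, hUK, -, hKd⟩ := exists_inv hg hσ hU h1 le_top j (by omega)
  obtain ⟨W, hW, h6, h7⟩ := maschke hg.1 hg.2.1 hσ hUK le_top hU hK h1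
  have h8 := Submodule.finrank_sup_add_finrank_inf_eq K W
  rw [h6, h7] at h8
  have h9 : U ≤ W := h6 ▸ inf_le_right
  exact ⟨U, W, hU, hW, h9, by omega, by omega⟩

end Pool.Agent.Work.MP_bc729a_al.LA
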