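import Pool.Agent.Work.MP_bc729a_al.LA.Red
import Pool.Agent.Work.MP_bc729a_al.LA.Over
import Pool.Agent.Work.MP_bc729a_al.LA.Idx
import Pool.Agent.Work.MP_bc729a_al.LA.Inv
import Pool.Agent.Work.MP_bc729a_al.LA.ClsF
import Pool.Agent.Work.MP_bc729a_al.LA.GbMod
import Pool.Agent.Work.MP_bc729a_al.LA.Irr
import Pool.Agent.Work.MP_bc729a_al.LA.Pow

/-! # Module FCA (S-M): exclusion by a prime `r` if `X` consists of collineations

PROOF. `k = e j`, `U₀` of dimension `k`, `H = stab {U₀}` (`= stab {U₀, U₀}`), proper and nontrivial, class `X`-invariant by `class_one`.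
`hX.main` gives `R`, `R = H` by `over_one`, `R.index = gb q n k` (`index_one`), divisible by `r` (`gb_dvd`). So there is `α ∈ X`,
`α ^ r = 1`, fixing no conjugate of `H`. `hC` gives `σ`, `σ ^ r = 1` (`pow_of_indP`); `exists_inv` for `[⊥, ⊤]` gives an invariant
subspace of dimension `k`, and `fix_conj` (with `W = U`) a fixed conjugate. -/

namespace Pool.Agent.Work.MP_bc729a_al.LA

open Pool.Agent.Work.MP_bc729a_al.LN

universe u v

open scoped Pointwise

variable {n : ℕ} {F : Type u} [Field F]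

theorem caseCA [Finite F] {X : Subgroup (MulAut (PSLn n F))} (hX : Red (PSLn n F) X)
    (hC : ∀ α ∈ X, ∃ σ : Lat n F ≃o Lat n F, IndP α σ) (hn : 3 ≤ n)
    {r e j : ℕ} (hg : Good (Nat.card F) r e) (hj : 0 < j) (hle : 2 * (e * j) ≤ n)
    (hd : r ∣ (n / e).choose j) : False := by
  have he : 0 < e := hg.2.2.1
  have hej : 0 < e * j := Nat.mul_pos he hj
  have hdim : ∀ {σ : Col n F}, σ ^ r = 1 → ∃ C : Lat n F, σ C = C ∧
      Module.finrank F C = e * j := by
    intro σ hσ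
    obtain ⟨C, h1, -, -, h2⟩ := exists_inv hg hσ (A := ⊥) (B := ⊤) (map_bot σ) (map_top σ)
      bot_le j (by
        rw [finrank_bot, finrank_top, Module.finrank_fin_fun]
        omega)
    refine ⟨C, h1, ?_⟩
    rw [h2, finrank_bot, zero_add]
  obtain ⟨U₀, -, hU₀⟩ := hdim (σ := 1) (one_pow r)
  have hb : U₀ ≠ ⊥ := by
    rintro rfl
    rw [finrank_bot] at hU₀
    omega
  have ht : U₀ ≠ ⊤ := by
    rintro rfl
    rw [finrank_top, Module.finrank_fin_fun] at hU₀
    omega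
  have hp : ({U₀, U₀} : Set (Lat n F)) = {U₀} := Set.pair_eq_singleton U₀
  have hnt : stab {U₀} ≠ ⊤ := by
    rw [← hp]
    exact stab_ne_top (by omega) le_rfl hb ht
  have hnb : stab {U₀} ≠ ⊥ := by
    rw [← hp]
    exact stab_ne_bot (by omega) le_rfl hb
  obtain ⟨R, T, -, hHR, hRt, -, -, -, -, hR⟩ := hX.main (stab {U₀}) hnt hnb (by
    intro α hα
    obtain ⟨σ, hσ⟩ := hC α hα
    exact class_one (by omega) hσ U₀)
  have hRe : R = stab {U₀} := over_one (by omega) hb hHR hRt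
  have hidx : r ∣ R.index := by
    rw [hRe, index_one (by omega) U₀, hU₀]
    exact gb_dvd hg hd
  obtain ⟨α, hαX, hαr, hno⟩ := hR r hg.1 hidx
  obtain ⟨σ, hσ⟩ := hC α hαX
  obtain ⟨C, hσC, hCd⟩ := hdim (pow_of_indP (by omega) hσ hαr)
  obtain ⟨a, ha⟩ := fix_conj (by omega) hσ (U := C) (W := C) (U₀ := U₀) (W₀ := U₀) le_rfl le_rfl
    (hCd.trans hU₀.symm) (hCd.trans hU₀.symm) hσC hσC
  rw [hp] at ha
  exact hno a ha

end Pool.Agent.Work.MP_bc729a_al.LA
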