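import Pool.Agent.Work.MP_bc729a_al.LA.Red
import Pool.Agent.Work.MP_bc729a_al.LA.Over
import Pool.Agent.Work.MP_bc729a_al.LA.Idx
import Pool.Agent.Work.MP_bc729a_al.LA.ClsF
import Pool.Agent.Work.MP_bc729a_al.LA.Irr
import Pool.Agent.Work.MP_bc729a_al.LA.TIdx
import Pool.Agent.Work.MP_bc729a_al.LA.IndC
import Pool.Agent.Work.MP_bc729a_al.LA.BThm
import Pool.Agent.Work.MP_bc729a_al.LA.BigDef

/-! # Module FCB (S-M): the leftover cases if `X` consists of collineations

PROOF. `H = stab {U₀}`, `finrank U₀ = k`, `R = H` as in FCA, `R.index = gb q n k`. `T ≤ X`, so `|indT T| = |T|` (`card_indT`), and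
`R.index ∣ |T|` (`index_dvd_card`; the class of `R` is preserved by `T ≤ X`). So `r, s ∣ |indT T|` (`Data.dr`, `Data.ds`). `r - 1` is coprime
to `|T|`: a common prime divisor would divide `R.index`. Apply `noT_coprime` to `indT T`. -/

namespace Pool.Agent.Work.MP_bc729a_al.LA

open Pool.Agent.Work.MP_bc729a_al.LN

universe u v

open scoped Pointwise

variable {n : ℕ} {F : Type u} [Field F]

theorem caseCB [Finite F] {X : Subgroup (MulAut (PSLn n F))} (hX : Red (PSLn n F) X)
    (hC : ∀ α ∈ X, ∃ σ : Lat n F ≃o Lat n F, IndP α σ) (hn : 3 ≤ n)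
    {k r er s es : ℕ} (hk : 0 < k) (hkn : k < n) (hD : Data (Nat.card F) n k r er s es)
    (hc : Nat.Coprime (r - 1) (gb (Nat.card F) n k)) : False := by
  obtain ⟨U₀, hU₀⟩ : ∃ U : Lat n F, Module.finrank F U = k := by
    obtain ⟨s, hs, hli⟩ := exists_finset_linearIndependent_of_le_finrank (R := F)
      (M := Fin n → F) (n := k) (by rw [Module.finrank_fin_fun]; omega)
    refine ⟨Submodule.span F (s : Set (Fin n → F)), ?_⟩
    rw [finrank_span_finset_eq_card hli, hs]
  have hb : U₀ ≠ ⊥ := by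
    rintro rfl
    rw [finrank_bot] at hU₀
    omega
  have ht : U₀ ≠ ⊤ := by
    rintro rfl
    rw [finrank_top, Module.finrank_fin_fun] at hU₀
    omega
  have hp : ({U₀, U₀} : Set (Lat n F)) = {U₀} := Set.pair_eq_singleton U₀
  have hnt : stab {U₀} ≠ ⊤ := by
    rw [← hp]
    exact stab_ne_top (by omega) le_rfl hb ht
  have hnb : stab {U₀} ≠ ⊥ := by
    rw [← hp]
    exact stab_ne_bot (by omega) le_rfl hb
  obtain ⟨R, T, hTX, hHR, hRt, hN, hcl, htr, hpr, -⟩ := hX.main (stab {U₀}) hnt hnb (by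
    intro α hα
    obtain ⟨σ, hσ⟩ := hC α hα
    exact class_one (by omega) hσ U₀)
  have hRe : R = stab {U₀} := over_one (by omega) hb hHR hRt
  have hidx : R.index = gb (Nat.card F) n k := by
    rw [hRe, index_one (by omega) U₀, hU₀]
  have hdvd : R.index ∣ Nat.card T :=
    index_dvd_card hN (fun t ht => hcl t (hTX ht)) htr
  have hcard : Nat.card (indT T) = Nat.card T :=
    card_indT hn (fun t ht => hC t (hTX ht))
  rw [hidx] at hdvd
  apply noT_coprime hn hD.big hD.big' hD.ne hD.sq hD.sv (indT T)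
  · rw [hcard]
    exact hD.dr.trans hdvd
  · rw [hcard]
    exact hD.ds.trans hdvd
  · rw [hcard]
    rw [Nat.coprime_iff_gcd_eq_one]
    by_contra hne
    obtain ⟨p, hpp, hpd⟩ := Nat.exists_prime_and_dvd hne
    have h1 : p ∣ r - 1 := hpd.trans (Nat.gcd_dvd_left _ _)
    have h2 : p ∣ Nat.card T := hpd.trans (Nat.gcd_dvd_right _ _)
    have h3 := hpr p hpp h2
    rw [hidx] at h3
    have h4 := Nat.dvd_gcd h1 h3
    rw [hc] at h4
    exact hpp.one_lt.ne' (Nat.dvd_one.1 h4)

end Pool.Agent.Work.MP_bc729a_al.LA
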