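import Pool.Agent.Work.MP_bc729a_al.LA.Red
import Pool.Agent.Work.MP_bc729a_al.LA.Over
import Pool.Agent.Work.MP_bc729a_al.LA.Idx
import Pool.Agent.Work.MP_bc729a_al.LA.Inv
import Pool.Agent.Work.MP_bc729a_al.LA.ClsF
import Pool.Agent.Work.MP_bc729a_al.LA.Irr
import Pool.Agent.Work.MP_bc729a_al.LA.Pow
import Pool.Agent.Work.MP_bc729a_al.LA.Abs
import Pool.Agent.Work.MP_bc729a_al.LA.Par

/-! # Module FD (M): odd `q`, `n ≥ 5`, and `X` contains a correlation

PROOF. `U₀ ≤ W₀` of dimensions `2`, `n - 2`, `H = stab {U₀, W₀}`; `R` from `hX.main`. CLAIM: `R = H`. Let `R ≤ stab {U₀}` (`over_flag`).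
`R.map α = conj a • R` for some `a`. `R.map α ≤ (stab {U₀}).map α = stab {τ U₀}` (`map_stabD`), so
`R ≤ conj a⁻¹ • stab {τ U₀} = stab {W'}` with `W' = act a⁻¹ (τ U₀)` (`stab_act`), of dimension `n - 2` (`finrank_dual`, `finrank_orderIso`).
`W'` is invariant under `H ≤ R`, so `W' ∈ {⊥, U₀, W₀, ⊤}` (`inv_stab`), and by the dimension (`n - 2 ≥ 3`) `W' = W₀`. So
`R ≤ stab {U₀} ⊓ stab {W₀} ≤ H` (`mem_stab_pair`). If `R ≤ stab {W₀}` the same with `τ W₀`, of dimension `2`, which must be `U₀`.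
`R.index = gb q n 2 * gb q (n-2) (n-4)` (`index_flag`) is even (`even_flag`). So there is `β ∈ X`, `β ^ 2 = 1`, fixing no conjugate of
`H`. By `fund` `β` is induced by a collineation `σ`, `σ ^ 2 = 1` (`pow_of_indP`): `exists_flag` with `j = 1` (`2 * 2 ≤ n`) and `fix_conj`; or by a
correlation `τ'`, a polarity (`polarity`): `exists_isotropic` with `k = 2` and `fix_conjD`. Contradiction. -/

namespace Pool.Agent.Work.MP_bc729a_al.LA

open Pool.Agent.Work.MP_bc729a_al.LN

universe u v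

open scoped Pointwise

variable {n : ℕ} {F : Type u} [Field F]

/-- an element of `R` fixes the image of the fixed subspace -/
private theorem fix_image {R : Subgroup (PSLn n F)} {α : MulAut (PSLn n F)}
    {τ : Lat n F ≃o (Lat n F)ᵒᵈ} (hτ : IndD α τ) {a : PSLn n F}
    (ha : R.map α.toMonoidHom = MulAut.conj a • R) {A : Lat n F}
    (hA : ∀ s ∈ R, act n F s A = A) :
    ∀ s ∈ R, act n F s (act n F a⁻¹ (OrderDual.ofDual (τ A))) =
      act n F a⁻¹ (OrderDual.ofDual (τ A)) := by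
  intro s hs
  have h1 : MulAut.conj a • s ∈ MulAut.conj a • R := Subgroup.smul_mem_pointwise_smul _ _ _ hs
  rw [← ha, Subgroup.mem_map] at h1
  obtain ⟨t, ht, hts⟩ := h1
  have h2 : α t = a * s * a⁻¹ := hts
  have h3 := hτ t A
  rw [hA t ht, h2, map_mul, map_mul] at h3
  have h4 : OrderDual.ofDual (τ A) =
      act n F a (act n F s (act n F a⁻¹ (OrderDual.ofDual (τ A)))) := h3
  have h5 := congrArg (act n F a⁻¹) h4
  rw [map_inv] at h5 ⊢
  have h6 : ((act n F a)⁻¹ : Lat n F ≃o Lat n F) (act n F a (act n F s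
      (((act n F a)⁻¹ : Lat n F ≃o Lat n F) (OrderDual.ofDual (τ A))))) =
      act n F s (((act n F a)⁻¹ : Lat n F ≃o Lat n F) (OrderDual.ofDual (τ A))) :=
    (act n F a).symm_apply_apply _
  rw [h6] at h5
  exact h5.symm

theorem caseD [Finite F] {X : Subgroup (MulAut (PSLn n F))} (hX : Red (PSLn n F) X)
    {α : MulAut (PSLn n F)} (hα : α ∈ X) {τ : Lat n F ≃o (Lat n F)ᵒᵈ} (hτ : IndD α τ)
    (hq : Odd (Nat.card F)) (hg : Good (Nat.card F) 2 2) (hn : 5 ≤ n) : False := by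
  obtain ⟨U₀, W₀, -, -, h₀, hU₀, hW₀⟩ := exists_flag hg (σ := (1 : Col n F)) (one_pow 2) 1
    (by omega)
  rw [mul_one] at hU₀ hW₀
  have hUb : U₀ ≠ ⊥ := by
    rintro rfl
    rw [finrank_bot] at hU₀
    omega
  have hUt : U₀ ≠ ⊤ := by
    rintro rfl
    rw [finrank_top, Module.finrank_fin_fun] at hU₀
    omega
  have hWU : Module.finrank F W₀ + Module.finrank F U₀ = n := by omega
  obtain ⟨R, T, -, hHR, hRt, -, hRc, -, -, hp2⟩ := hX.main (stab {U₀, W₀})
    (stab_ne_top (by omega) h₀ hUb hUt) (stab_ne_bot (by omega) h₀ hUb)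
    (fun β _ => class_flag (by omega) h₀ hWU β)
  obtain ⟨a, ha⟩ := hRc α hα
  have hdim : ∀ A : Lat n F, Module.finrank F (act n F a⁻¹ (OrderDual.ofDual (τ A))) +
      Module.finrank F A = n := by
    intro A
    rw [finrank_orderIso]
    exact finrank_dual τ A
  have hinv : ∀ A : Lat n F, (∀ s ∈ R, act n F s A = A) →
      act n F a⁻¹ (OrderDual.ofDual (τ A)) = ⊥ ∨ act n F a⁻¹ (OrderDual.ofDual (τ A)) = U₀ ∨
        act n F a⁻¹ (OrderDual.ofDual (τ A)) = W₀ ∨ act n F a⁻¹ (OrderDual.ofDual (τ A)) = ⊤ :=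
    fun A hA => inv_stab h₀ fun s hs => fix_image hτ ha hA s (hHR hs)
  have hfix : ∀ {A : Lat n F}, R ≤ stab {A} → ∀ s ∈ R, act n F s A = A := by
    intro A h s hs
    have h1 := mem_stab.1 (h hs)
    rw [Set.image_singleton] at h1
    exact Set.singleton_injective h1
  -- `R` fixes both subspaces
  have hboth : ∀ s ∈ R, act n F s U₀ = U₀ ∧ act n F s W₀ = W₀ := by
    rcases over_flag (by omega) h₀ hUb hHR hRt with h | h
    · have h1 := hfix h
      have h2 := fix_image hτ ha h1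
      have h3 := hdim U₀
      have h4 : act n F a⁻¹ (OrderDual.ofDual (τ U₀)) = W₀ := by
        rcases hinv U₀ h1 with h5 | h5 | h5 | h5
        · rw [h5, finrank_bot] at h3
          omega
        · rw [h5] at h3
          omega
        · exact h5
        · rw [h5, finrank_top, Module.finrank_fin_fun] at h3
          omega
      rw [h4] at h2
      exact fun s hs => ⟨h1 s hs, h2 s hs⟩
    · have h1 := hfix h
      have h2 := fix_image hτ ha h1
      have h3 := hdim W₀
      have h4 : act n F a⁻¹ (OrderDual.ofDual (τ W₀)) = U₀ := by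
        rcases hinv W₀ h1 with h5 | h5 | h5 | h5
        · rw [h5, finrank_bot] at h3
          omega
        · exact h5
        · rw [h5] at h3
          omega
        · rw [h5, finrank_top, Module.finrank_fin_fun] at h3
          omega
      rw [h4] at h2
      exact fun s hs => ⟨h2 s hs, h1 s hs⟩
  obtain rfl : R = stab {U₀, W₀} :=
    le_antisymm (fun s hs => (mem_stab_pair h₀).2 (hboth s hs)) hHR
  have h2 : 2 ∣ (stab {U₀, W₀}).index := by
    rw [index_flag (by omega) h₀, hU₀, hW₀, show n - 2 - 2 = n - 4 by omega]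
    exact even_flag hq hn
  obtain ⟨β, -, hβ, hno⟩ := hp2 2 Nat.prime_two h2
  rcases fund (by omega) β with ⟨σ, hσ⟩ | ⟨τ', hτ'⟩
  · have hσ2 : σ ^ 2 = 1 := pow_of_indP (by omega) hσ hβ
    obtain ⟨U, W, hσU, hσW, hUW, hU, hW⟩ := exists_flag hg hσ2 1 (by omega)
    rw [mul_one] at hU hW
    obtain ⟨b, hb⟩ := fix_conj (by omega) hσ hUW h₀ (hU.trans hU₀.symm) (hW.trans hW₀.symm)
      hσU hσW
    exact hno b hb
  · have hpol := polarity (by omega) hτ' hβ
    obtain ⟨V, hV, hVτ⟩ := exists_isotropic τ' hpol 2 (by omega)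
    obtain ⟨b, hb⟩ := fix_conjD (by omega) hτ' hVτ (hpol V) h₀ (hV.trans hU₀.symm) hWU
    exact hno b hb

end Pool.Agent.Work.MP_bc729a_al.LA
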