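import Pool.Agent.Work.MP_bc729a_al.LA.T3C
import Pool.Agent.Work.MP_bc729a_al.LN.QofP

/-! # Module T3M (M): the monomial group of `SL_3(p)` is maximal

PROOF. Let `X ≥ monoSL`, `X ≠ ⊤`; write `φ_v` for a form with `IsHom g v φ_v`, `g ∈ X` (`v ∈ C`, `C` = `Cset X`; unique up to a factor).
(F) If `w ∈ C` has all coordinates nonzero then `φ_w` is a multiple of `(1/w_0, 1/w_1, 1/w_2)`, and `3 ≠ 0` in `F`. Proof: let
`φ = φ_w`. `φ_i ≠ 0`: otherwise `φ e_i = 0`, `cset_symm` (`v := w`, `w := e_i`, `vertex_hom`) gives `w_i = 0`. For `j ≠ k` let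
`u = φ_k e_j - φ_j e_k = φ_k (e_j + s e_k)`, `s = - φ_j / φ_k`; `φ u = 0`, so by `cset_symm` the form `e_j* + s⁻¹ e_k*` of `u` (`side_hom`,
`hom_smul`) vanishes at `w`: `w_j + s⁻¹ w_k = 0`, i.e. `φ_j w_j = φ_k w_k`. Let `t` be the common value; `φ w = 3 t ≠ 0`.
(K) If `x ∈ X` and `v = x e_i`, then every nonzero `w` with `φ_v w = 0` is in `C`: `φ_v` is a multiple of `e_i* x⁻¹` (`hom_conj` of
`vertex_hom`, `cset_unique`), so `(x⁻¹ w)_i = 0`, `x⁻¹ w ∈ C` (`cset_of_zero`), `w ∈ C` (`cset_mulVec`).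
Claim: for `x ∈ X` and each `i` the vector `v = x e_i` has only one nonzero coordinate (then `mono_of_cols`, LN/QofP). Suppose not.
Case 1: all coordinates of `v` are nonzero. By (F) `φ_v = (1/v_0, 1/v_1, 1/v_2)`. `d = (v_0, v_1, -2 v_2)` satisfies `φ_v d = 0`, so `d ∈ C` by
(K), all coordinates nonzero, by (F) `φ_d = (1/v_0, 1/v_1, -1/(2 v_2))`, by `cset_symm` `φ_d v = 0`: `1 + 1 - 1/2 = 3/2 = 0`, contradiction.
Case 2: exactly two are nonzero, `v = y (e_j + s e_k)`, `l` the third index. `φ_v = e_j* + s⁻¹ e_k*` (`side_hom`, `cset_unique`).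
`w₁ = e_l + e_j - s e_k` and `w₂ = -2 e_l + e_j - s e_k` satisfy `φ_v w = 1 - 1 = 0`, so `w₁, w₂ ∈ C` by (K), all coordinates nonzero. By (F)
`3 ≠ 0`, `φ_{w₁} = e_l* + e_j* - s⁻¹ e_k*`, `φ_{w₁} w₂ = -2 + 1 + 1 = 0`, so by `cset_symm` `φ_{w₂} w₁ = 0`, where
`φ_{w₂} = -(1/2) e_l* + e_j* - s⁻¹ e_k*`: `-1/2 + 1 + 1 = 3/2 = 0`, contradiction. -/

namespace Pool.Agent.Work.MP_bc729a_al.LA

open Pool.Agent.Work.MP_bc729a_al.LN

universe u v

open Matrix

variable {F : Type u} [Field F]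

set_option linter.unusedSimpArgs false

private theorem dot3 {j k l : Fin 3} (hjk : j ≠ k) (hjl : j ≠ l) (hkl : k ≠ l)
    (φ w : Fin 3 → F) : φ ⬝ᵥ w = φ j * w j + φ k * w k + φ l * w l := by
  have hu : (Finset.univ : Finset (Fin 3)) = {j, k, l} := by
    revert j k l
    decide
  rw [dotProduct, hu, Finset.sum_insert, Finset.sum_insert, Finset.sum_singleton, add_assoc]
  · rwa [Finset.mem_singleton]
  · rw [Finset.mem_insert, Finset.mem_singleton, not_or]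
    exact ⟨hjk, hjl⟩

private theorem base_cset {X : Subgroup (SLn 3 F)} {u : Fin 3 → F} (hu : IsBase u) :
    Cset X u := by
  refine ⟨1, X.one_mem, u, hu, 1, one_ne_zero, ?_⟩
  rw [one_smul]
  exact (Matrix.one_mulVec u).symm

private theorem coord_ne {X : Subgroup (SLn 3 F)} (h2 : (2 : F) ≠ 0)
    (hp : ∀ x : F, ∃ m : ℕ, (m : F) = x) (hX : monoSL 3 F ≤ X) (hXt : X ≠ ⊤)
    {w : Fin 3 → F} (hw : Cset X w) (hn : ∀ i, w i ≠ 0) {g : SLn 3 F} (hg : g ∈ X)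
    {φ : Fin 3 → F} (h : IsHom g w φ) (i : Fin 3) : φ i ≠ 0 := by
  intro h0
  obtain ⟨g', hg', h'⟩ := vertex_hom (F := F) i
  have h1 := cset_symm h2 hp hX hXt hw (base_cset (X := X) (Or.inl ⟨i, rfl⟩)) hg (hX hg') h h'
    (by rw [dotProduct_single, h0, zero_mul])
  rw [single_dotProduct, one_mul] at h1
  exact hn i h1

private theorem coord_eq {X : Subgroup (SLn 3 F)} (h2 : (2 : F) ≠ 0)
    (hp : ∀ x : F, ∃ m : ℕ, (m : F) = x) (hX : monoSL 3 F ≤ X) (hXt : X ≠ ⊤)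
    {w : Fin 3 → F} (hw : Cset X w) (hn : ∀ i, w i ≠ 0) {g : SLn 3 F} (hg : g ∈ X)
    {φ : Fin 3 → F} (h : IsHom g w φ) (j k : Fin 3) : φ j * w j = φ k * w k := by
  by_cases hjk : j = k
  · rw [hjk]
  have hj := coord_ne h2 hp hX hXt hw hn hg h j
  have hk := coord_ne h2 hp hX hXt hw hn hg h k
  have hs : -(φ j / φ k) ≠ 0 := neg_ne_zero.2 (div_ne_zero hj hk)
  obtain ⟨g', hg', h'⟩ := side_hom h2 hjk hs
  have h1 := cset_symm h2 hp hX hXt hw (base_cset (X := X) (Or.inr ⟨j, k, _, hjk, hs, rfl⟩)) hg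
    (hX hg') h h' (by
      rw [dotProduct_add, dotProduct_smul, dotProduct_single, dotProduct_single, smul_eq_mul]
      field_simp
      ring)
  rw [add_dotProduct, smul_dotProduct, single_dotProduct, single_dotProduct, smul_eq_mul] at h1
  have h3 : (-(φ j / φ k))⁻¹ = -(φ k / φ j) := by
    rw [inv_neg, inv_div]
  rw [h3] at h1
  field_simp at h1
  linear_combination h1

private theorem three_ne {X : Subgroup (SLn 3 F)} (h2 : (2 : F) ≠ 0)
    (hp : ∀ x : F, ∃ m : ℕ, (m : F) = x) (hX : monoSL 3 F ≤ X) (hXt : X ≠ ⊤)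
    {w : Fin 3 → F} (hw : Cset X w) (hn : ∀ i, w i ≠ 0) {g : SLn 3 F} (hg : g ∈ X)
    {φ : Fin 3 → F} (h : IsHom g w φ) (i : Fin 3) : 3 * (φ i * w i) ≠ 0 := by
  have h1 := h.1
  have e0 := coord_eq h2 hp hX hXt hw hn hg h 0 i
  have e1 := coord_eq h2 hp hX hXt hw hn hg h 1 i
  have e2 := coord_eq h2 hp hX hXt hw hn hg h 2 i
  rw [dot3 (j := 0) (k := 1) (l := 2) (by decide) (by decide) (by decide), e0, e1, e2] at h1
  intro h3
  apply h1
  linear_combination h3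

private theorem no_pair {X : Subgroup (SLn 3 F)} (h2 : (2 : F) ≠ 0)
    (hp : ∀ x : F, ∃ m : ℕ, (m : F) = x) (hX : monoSL 3 F ≤ X) (hXt : X ≠ ⊤)
    {w w' : Fin 3 → F} (hw : Cset X w) (hw' : Cset X w') (hn : ∀ i, w i ≠ 0) {j k l : Fin 3}
    (hjk : j ≠ k) (hjl : j ≠ l) (hkl : k ≠ l) (hj : w' j = w j) (hk : w' k = w k)
    (hl : w' l = -2 * w l) : False := by
  have hall : ∀ i : Fin 3, i = j ∨ i = k ∨ i = l := by
    clear hj hk hl
    revert j k l
    decide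
  have hn' : ∀ i, w' i ≠ 0 := by
    intro i
    rcases hall i with rfl | rfl | rfl
    · rw [hj]; exact hn _
    · rw [hk]; exact hn _
    · rw [hl]; exact mul_ne_zero (neg_ne_zero.2 h2) (hn _)
  obtain ⟨g, hg, φ, h⟩ := cset_hom h2 hX hw
  obtain ⟨g', hg', χ, h'⟩ := cset_hom h2 hX hw'
  have a1 := coord_eq h2 hp hX hXt hw hn hg h j l
  have a2 := coord_eq h2 hp hX hXt hw hn hg h k l
  have b1 := coord_eq h2 hp hX hXt hw' hn' hg' h' j l
  have b2 := coord_eq h2 hp hX hXt hw' hn' hg' h' k l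
  have hz : φ ⬝ᵥ w' = 0 := by
    rw [dot3 hjk hjl hkl, hj, hk, hl]
    linear_combination a1 + a2
  have h0 := cset_symm h2 hp hX hXt hw hw' hg hg' h h' hz
  have h3 := three_ne h2 hp hX hXt hw' hn' hg' h' l
  rw [dot3 hjk hjl hkl] at h0
  rw [hj, hl] at b1
  rw [hk, hl] at b2
  rw [hl] at h3
  apply h3
  linear_combination 2 * h0 - 2 * b1 - 2 * b2

private theorem cset_of_ker {X : Subgroup (SLn 3 F)} (h2 : (2 : F) ≠ 0)
    (hp : ∀ x : F, ∃ m : ℕ, (m : F) = x) (hX : monoSL 3 F ≤ X) (hXt : X ≠ ⊤)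
    {x : SLn 3 F} (hx : x ∈ X) (i : Fin 3) {g : SLn 3 F} (hg : g ∈ X) {φ : Fin 3 → F}
    (h : IsHom g (x.1 *ᵥ Pi.single i 1) φ) {w : Fin 3 → F} (hw : w ≠ 0) (h0 : φ ⬝ᵥ w = 0) :
    Cset X w := by
  obtain ⟨g', hg', h'⟩ := vertex_hom (F := F) i
  have h1 := hom_conj h' x
  have hv : Cset X (x.1 *ᵥ Pi.single i 1) :=
    cset_mulVec hx (base_cset (X := X) (Or.inl ⟨i, rfl⟩))
  obtain ⟨c, -, hc⟩ := cset_unique h2 hp hX hXt hv hg
    (X.mul_mem (X.mul_mem hx (hX hg')) (X.inv_mem hx)) h h1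
  have h3 : (Pi.single i (1 : F) ᵥ* (x⁻¹).1) ⬝ᵥ w = 0 := by
    rw [hc, smul_dotProduct, h0, smul_zero]
  rw [← dotProduct_mulVec, single_dotProduct, one_mul] at h3
  have h4 : x.1 *ᵥ ((x⁻¹).1 *ᵥ w) = w := by
    rw [mulVec_mulVec, sl_mul_inv, one_mulVec]
  have h5 : (x⁻¹).1 *ᵥ w ≠ 0 := by
    intro h6
    rw [h6, mulVec_zero] at h4
    exact hw h4.symm
  have h7 := cset_mulVec hx (cset_of_zero (X := X) h5 h3)
  rwa [h4] at h7

private theorem col_claim {X : Subgroup (SLn 3 F)} (h2 : (2 : F) ≠ 0)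
    (hp : ∀ x : F, ∃ m : ℕ, (m : F) = x) (hX : monoSL 3 F ≤ X) (hXt : X ≠ ⊤)
    {x : SLn 3 F} (hx : x ∈ X) (i : Fin 3) :
    ∃ a, ∀ b, b ≠ a → (x.1 *ᵥ Pi.single i 1) b = 0 := by
  have hv : Cset X (x.1 *ᵥ Pi.single i 1) :=
    cset_mulVec hx (base_cset (X := X) (Or.inl ⟨i, rfl⟩))
  have hker : ∀ {g : SLn 3 F}, g ∈ X → ∀ {φ : Fin 3 → F},
      IsHom g (x.1 *ᵥ Pi.single i 1) φ → ∀ {w : Fin 3 → F}, w ≠ 0 → φ ⬝ᵥ w = 0 → Cset X w :=
    fun {g} hg {φ} h {w} hw h0 => cset_of_ker h2 hp hX hXt hx i hg h hw h0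
  generalize x.1 *ᵥ Pi.single i 1 = v at hv hker
  by_contra H
  push Not at H
  by_cases hn : ∀ b, v b ≠ 0
  · -- all coordinates are nonzero
    obtain ⟨g, hg, φ, h⟩ := cset_hom h2 hX hv
    have e0 := coord_eq h2 hp hX hXt hv hn hg h 0 2
    have e1 := coord_eq h2 hp hX hXt hv hn hg h 1 2
    have hd0 : (![v 0, v 1, -2 * v 2] : Fin 3 → F) ≠ 0 := by
      intro h0
      have := congrFun h0 0
      exact hn 0 this
    have hd : Cset X ![v 0, v 1, -2 * v 2] := by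
      refine hker hg h hd0 ?_
      rw [dot3 (j := 0) (k := 1) (l := 2) (by decide) (by decide) (by decide)]
      change φ 0 * v 0 + φ 1 * v 1 + φ 2 * (-2 * v 2) = 0
      linear_combination e0 + e1
    exact no_pair (j := 0) (k := 1) (l := 2) h2 hp hX hXt hv hd hn (by decide) (by decide)
      (by decide) rfl rfl rfl
  · push Not at hn
    obtain ⟨l, hl⟩ := hn
    obtain ⟨j, hjl, hj⟩ := H l
    obtain ⟨k, hkj, hk⟩ := H j
    have hkl : k ≠ l := by
      rintro rfl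
      exact hk hl
    have hall : ∀ b : Fin 3, b = j ∨ b = k ∨ b = l := by
      clear hl hj hk
      revert j k l
      decide
    have hs : v k / v j ≠ 0 := div_ne_zero hk hj
    obtain ⟨g, hg, h⟩ := side_hom h2 hkj.symm hs
    have hvv : v j • (Pi.single j 1 + (v k / v j) • Pi.single k 1) = v := by
      ext b
      rcases hall b with rfl | rfl | rfl
      · simp [Pi.single_apply, hkj, Ne.symm hkj]
      · simp [Pi.single_apply, hkj, Ne.symm hkj]
        field_simp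
      · simp [Pi.single_apply, hjl, hkl, Ne.symm hjl, Ne.symm hkl, hl]
    have h' := hom_smul h hj one_ne_zero
    rw [hvv, one_smul] at h'
    have hmem : ∀ t : F, Cset X (t • Pi.single l 1 + (Pi.single j 1 - (v k / v j) • Pi.single k 1)) := by
      intro t
      refine hker (hX hg) h' ?_ ?_
      · intro h0
        have := congrFun h0 j
        simp [Pi.single_apply, hkj, hjl, Ne.symm hkj, Ne.symm hjl] at this
      · rw [dot3 hkj.symm hjl hkl]
        simp [Pi.single_apply, hkj, hjl, hkl, Ne.symm hkj, Ne.symm hjl, Ne.symm hkl]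
        field_simp
        ring
    refine no_pair (j := j) (k := k) (l := l) h2 hp hX hXt (hmem 1) (hmem (-2)) ?_ hkj.symm hjl
      hkl ?_ ?_ ?_
    · intro b
      rcases hall b with rfl | rfl | rfl
      · simp [Pi.single_apply, hkj, hjl, hkl, Ne.symm hkj, Ne.symm hjl, Ne.symm hkl]
      · simp [Pi.single_apply, hkj, hjl, hkl, Ne.symm hkj, Ne.symm hjl, Ne.symm hkl, hj, hk]
      · simp [Pi.single_apply, hkj, hjl, hkl, Ne.symm hkj, Ne.symm hjl, Ne.symm hkl]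
    · simp [Pi.single_apply, hkj, hjl, hkl, Ne.symm hkj, Ne.symm hjl, Ne.symm hkl]
    · simp [Pi.single_apply, hkj, hjl, hkl, Ne.symm hkj, Ne.symm hjl, Ne.symm hkl]
    · simp [Pi.single_apply, hkj, hjl, hkl, Ne.symm hkj, Ne.symm hjl, Ne.symm hkl]

theorem pprop3 (h2 : (2 : F) ≠ 0) (hp : ∀ x : F, ∃ m : ℕ, (m : F) = x) : PProp 3 F := by
  intro X hX
  by_cases hXt : X = ⊤
  · exact Or.inr hXt
  left
  refine le_antisymm (fun x hx => ?_) hX
  have hdet : IsUnit x.1.det := by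
    rw [x.2]
    exact isUnit_one
  refine mono_of_cols hdet fun j => ?_
  obtain ⟨a, ha⟩ := col_claim h2 hp hX hXt hx j
  refine ⟨a, fun i hi => ?_⟩
  have := ha i hi
  rwa [mulVec_single_one] at this

end Pool.Agent.Work.MP_bc729a_al.LA
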