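import Pool.Agent.Work.MP_bc729a_al.LA.FA
import Pool.Agent.Work.MP_bc729a_al.LA.FCA
import Pool.Agent.Work.MP_bc729a_al.LA.FCB
import Pool.Agent.Work.MP_bc729a_al.LA.FD
import Pool.Agent.Work.MP_bc729a_al.LA.FB
import Pool.Agent.Work.MP_bc729a_al.LA.F4
import Pool.Agent.Work.MP_bc729a_al.LA.F3
import Pool.Agent.Work.MP_bc729a_al.LA.T3M
import Pool.Agent.Work.MP_bc729a_al.LA.ArC
import Pool.Agent.Work.MP_bc729a_al.LA.BigEx
import Pool.Agent.Work.MP_bc729a_al.LN.Final

/-! # The theorem on `L_n(q)`, `n ≥ 3` -/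

namespace Pool.Agent.Work.MP_bc729a_al.LA

open Pool.Agent.Work.MP_bc729a_al.LN

universe u v

variable {n : ℕ} {F : Type v} [Field F]

/-- the characteristic of a field with a prime number of elements, and the elements are numbers -/
theorem prime_field [Finite F] {p : ℕ} (hp : p.Prime) (hF : Nat.card F = p) :
    ∀ x : F, ∃ m : ℕ, (m : F) = x := by
  classical
  have := Fintype.ofFinite F
  rw [Nat.card_eq_fintype_card] at hF
  have : Fact p.Prime := ⟨hp⟩
  obtain ⟨c, hc⟩ := CharP.exists F
  have hcF := FiniteField.card F c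
  obtain ⟨k, hcp, hk⟩ := hcF
  have hcp' : c = p := by
    rw [hF] at hk
    have h1 : c ∣ p := by
      rw [hk]
      exact dvd_pow_self c (PNat.ne_zero k)
    exact (Nat.prime_dvd_prime_iff_eq hcp hp).1 h1
  subst hcp'
  have hinj : Function.Injective (ZMod.castHom (dvd_refl c) F) := RingHom.injective _
  have hbij : Function.Bijective (ZMod.castHom (dvd_refl c) F) := by
    rw [Fintype.bijective_iff_injective_and_card]
    exact ⟨hinj, by rw [ZMod.card, hF]⟩
  intro x
  obtain ⟨y, hy⟩ := hbij.2 x
  refine ⟨y.val, ?_⟩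
  rw [← hy, ZMod.castHom_apply, ← ZMod.natCast_val]

theorem two_ne_zero_of_odd [Finite F] (h : Odd (Nat.card F)) : (2 : F) ≠ 0 := by
  classical
  have := Fintype.ofFinite F
  intro h2
  have h3 : CharP F 2 := by
    have h4 : ringChar F ∣ 2 := by
      apply ringChar.dvd
      exact_mod_cast h2
    rcases (Nat.dvd_prime Nat.prime_two).1 h4 with h5 | h5
    · exact absurd h5 (CharP.ringChar_ne_one)
    · rw [← h5]
      exact ringChar.charP F
  obtain ⟨k, -, hk⟩ := FiniteField.card F 2
  rw [Nat.card_eq_fintype_card, hk] at h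
  have h6 : Even (2 ^ (k : ℕ)) := (Nat.even_pow.2 ⟨even_two, PNat.ne_zero k⟩)
  exact (Nat.not_even_iff_odd.2 h) h6

theorem odd_case [Finite F] {X : Subgroup (MulAut (PSLn n F))} (hX : Red (PSLn n F) X)
    (hn : 5 ≤ n) (hq : Odd (Nat.card F)) (hg : Good (Nat.card F) 2 2)
    (hC : (∀ α ∈ X, ∃ σ : Lat n F ≃o Lat n F, IndP α σ) → False) : False := by
  by_cases h : ∀ α ∈ X, ∃ σ : Lat n F ≃o Lat n F, IndP α σ
  · exact hC h
  · push Not at h
    obtain ⟨α, hα, h1⟩ := h
    rcases fund (by omega) α with ⟨σ, hσ⟩ | ⟨τ, hτ⟩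
    · exact h1 σ hσ
    · exact caseD hX hα hτ hq hg hn

theorem three_case [Finite F] {p : ℕ} (hp : p.Prime) (hp2 : p ≠ 2) (hF : Nat.card F = p)
    {X : Subgroup (MulAut (PSLn 3 F))} (hX : Red (PSLn 3 F) X) : False := by
  have hodd : Odd (Nat.card F) := by
    rw [hF]
    exact hp.odd_of_ne_two hp2
  have h3 : 3 ≤ Nat.card F := by
    rw [hF]
    have := hp.two_le
    omega
  exact three hX (pprop3 (two_ne_zero_of_odd hodd) (prime_field hp hF)) h3 hodd

theorem main (G : Type u) [Group G] [Finite G] (hG : MaxCompl G) (hn : 3 ≤ n) [Finite F]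
    (h : IsCompFactor (PSLn n F) G) : (n = 3 ∧ Nat.card F = 2) ∨ (n = 5 ∧ Nat.card F = 2) := by
  by_cases h8 : 8 ≤ Nat.card F
  · exact absurd h (LN.final G hG hn h8)
  have hfin : Finite (PSLn n F) := by
    have : Finite (SLn n F) := Finite.of_injective (fun g : SLn n F => g.1) Subtype.val_injective
    exact Finite.of_surjective _ (pr_surjective (n := n) (F := F))
  have hs : IsSimpleGroup (PSLn n F) := by
    obtain ⟨m, s, hs, i, hi, ⟨e⟩⟩ := h
    obtain ⟨-, hi', hsimp⟩ := hs.2.2 i
    have := hsimp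
    exact MulEquiv.isSimpleGroup e.symm
  obtain ⟨X, hX⟩ := exists_red (nonab hn) G hG h
  have hq : Nat.card F = 2 ∨ Nat.card F = 3 ∨ Nat.card F = 4 ∨ Nat.card F = 5 ∨
      Nat.card F = 7 := by
    classical
    have := Fintype.ofFinite F
    have h1 : 2 ≤ Nat.card F := Finite.one_lt_card
    have h6 : Nat.card F ≠ 6 := by
      intro h6
      have h7 := FiniteField.isPrimePow_card F
      rw [← Nat.card_eq_fintype_card, h6] at h7
      rw [isPrimePow_nat_iff] at h7
      obtain ⟨p, k, hp, hk, hpk⟩ := h7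
      have h2 : p ∣ 6 := by
        rw [← hpk]
        exact dvd_pow_self p (by omega)
      have h22 : (2 : ℕ) ∣ p ^ k := by rw [hpk]; norm_num
      have h33 : (3 : ℕ) ∣ p ^ k := by rw [hpk]; norm_num
      have e2 := (Nat.prime_dvd_prime_iff_eq Nat.prime_two hp).1 (Nat.prime_two.dvd_of_dvd_pow h22)
      have e3 := (Nat.prime_dvd_prime_iff_eq Nat.prime_three hp).1
        (Nat.prime_three.dvd_of_dvd_pow h33)
      omega
    omega
  rcases hq with hq | hq | hq | hq | hq
  · -- `q = 2`
    by_contra hcon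
    push Not at hcon
    have h3 : n ≠ 3 := fun h => hcon.1 h hq
    have h5 : n ≠ 5 := fun h => hcon.2 h hq
    by_cases e4 : n = 4
    · subst e4
      exact flagB (a := 2) hX hn hq (by norm_num) (by norm_num) data_2_4 (by norm_num)
    by_cases e10 : n = 10
    · subst e10
      exact flagB (a := 4) hX hn hq (by norm_num) (by norm_num) data_2_10 (by norm_num)
    by_cases e11 : n = 11
    · subst e11
      exact flagB (a := 4) hX hn hq (by norm_num) (by norm_num) data_2_11 (by norm_num)
    by_cases e16 : n = 16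
    · subst e16
      exact flagB (a := 8) hX hn hq (by norm_num) (by norm_num) data_2_16 (by norm_num)
    by_cases e17 : n = 17
    · subst e17
      exact flagB (a := 8) hX hn hq (by norm_num) (by norm_num) data_2_17 (by norm_num)
    obtain ⟨r, e, j, hre, hj, hle, hd⟩ := ar_two hn h3 e4 h5 e10 e11 e16 e17
    rcases hre with ⟨rfl, rfl⟩ | ⟨rfl, rfl⟩
    · exact flagA hX hn (by rw [hq]; exact good_2_3) (by norm_num) hj hle hd
    · exact flagA hX hn (by rw [hq]; exact good_2_7) (by norm_num) hj hle hd
  · -- `q = 3`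
    exfalso
    have hodd : Odd (Nat.card F) := by rw [hq]; decide
    by_cases e3 : n = 3
    · subst e3
      exact three_case Nat.prime_three (by norm_num) hq hX
    by_cases e4 : n = 4
    · subst e4
      exact four_three hX hq
    refine odd_case hX (by omega) hodd (by rw [hq]; exact good_3_2) fun hC => ?_
    by_cases e6 : n = 6
    · subst e6
      exact caseCB (k := 2) (r := 7) (er := 6) (s := 11) (es := 5) hX hC hn (by norm_num)
        (by norm_num) (by rw [hq]; exact data_3_6) (by rw [hq]; exact cop_3_6)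
    by_cases e7 : n = 7
    · subst e7
      exact caseCB (k := 3) (r := 7) (er := 6) (s := 11) (es := 5) hX hC hn (by norm_num)
        (by norm_num) (by rw [hq]; exact data_3_7) (by rw [hq]; exact cop_3_7)
    by_cases e14 : n = 14
    · subst e14
      exact caseCB (k := 2) (r := 547) (er := 14) (s := 797161) (es := 13) hX hC hn (by norm_num)
        (by norm_num) (by rw [hq]; exact data_3_14) (by rw [hq]; exact cop_3_14)
    by_cases e15 : n = 15
    · subst e15
      exact caseCB (k := 2) (r := 4561) (er := 15) (s := 547) (es := 14) hX hC hn (by norm_num)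
        (by norm_num) (by rw [hq]; exact data_3_15) (by rw [hq]; exact cop_3_15)
    obtain ⟨r, e, j, hre, hj, hle, hd⟩ := ar_three (by omega) e6 e7 e14 e15
    rcases hre with ⟨rfl, rfl⟩ | ⟨rfl, rfl⟩
    · exact caseCA hX hC hn (by rw [hq]; exact good_3_2) hj hle hd
    · exact caseCA hX hC hn (by rw [hq]; exact good_3_5) hj hle hd
  · -- `q = 4`
    exfalso
    have : CharP F 2 := by
      classical
      have := Fintype.ofFinite F
      obtain ⟨c, hc⟩ := CharP.exists F
      obtain ⟨k, hcp, hk⟩ := FiniteField.card F c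
      rw [← Nat.card_eq_fintype_card, hq] at hk
      have h1 : (2 : ℕ) ∣ c ^ (k : ℕ) := by rw [← hk]; norm_num
      have h2 := (Nat.prime_dvd_prime_iff_eq Nat.prime_two hcp).1
        (Nat.prime_two.dvd_of_dvd_pow h1)
      rw [h2]
      exact hc
    exact evenq hX hn (by omega)
  · -- `q = 5`
    exfalso
    have hodd : Odd (Nat.card F) := by rw [hq]; decide
    by_cases e3 : n = 3
    · subst e3
      exact three_case Nat.prime_five (by norm_num) hq hX
    by_cases e4 : n = 4
    · subst e4
      exact four_five hX hq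
    refine odd_case hX (by omega) hodd (by rw [hq]; exact good_5_2) fun hC => ?_
    obtain ⟨r, e, j, hre, hj, hle, hd⟩ := ar_five (n := n) (by omega)
    rcases hre with ⟨rfl, rfl⟩ | ⟨rfl, rfl⟩
    · exact caseCA hX hC hn (by rw [hq]; exact good_5_2) hj hle hd
    · exact caseCA hX hC hn (by rw [hq]; exact good_5_3) hj hle hd
  · -- `q = 7`
    exfalso
    have hodd : Odd (Nat.card F) := by rw [hq]; decide
    by_cases e3 : n = 3
    · subst e3
      exact three_case (by norm_num : Nat.Prime 7) (by norm_num) hq hX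
    by_cases e4 : n = 4
    · subst e4
      exact four_seven hX hq
    refine odd_case hX (by omega) hodd (by rw [hq]; exact good_7_2) fun hC => ?_
    by_cases e6 : n = 6
    · subst e6
      exact caseCB (k := 2) (r := 2801) (er := 5) (s := 43) (es := 6) hX hC hn (by norm_num)
        (by norm_num) (by rw [hq]; exact data_7_6) (by rw [hq]; exact cop_7_6)
    by_cases e7 : n = 7
    · subst e7
      exact caseCB (k := 2) (r := 29) (er := 7) (s := 43) (es := 6) hX hC hn (by norm_num)
        (by norm_num) (by rw [hq]; exact data_7_7) (by rw [hq]; exact cop_7_7)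
    by_cases e15 : n = 15
    · subst e15
      exact caseCB (k := 2) (r := 113) (er := 14) (s := 31) (es := 15) hX hC hn (by norm_num)
        (by norm_num) (by rw [hq]; exact data_7_15) (by rw [hq]; exact cop_7_15)
    obtain ⟨r, e, j, hre, hj, hle, hd⟩ := ar_seven (by omega) e6 e7 e15
    rcases hre with ⟨rfl, rfl⟩ | ⟨rfl, rfl⟩ | ⟨rfl, rfl⟩
    · exact caseCA hX hC hn (by rw [hq]; exact good_7_2) hj hle hd
    · exact caseCA hX hC hn (by rw [hq]; exact good_7_3) hj hle hd
    · exact caseCA hX hC hn (by rw [hq]; exact good_7_5) hj hle hd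

end Pool.Agent.Work.MP_bc729a_al.LA
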