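import Pool.Agent.Work.MP_bc729a_al.Defs

/-! # Module ArL (S): a binomial coefficient divisible by `r`

PROOF. Write `N + 1 = r ^ t * m` with `r ∤ m` (`Nat.exists_eq_pow_mul_and_not_dvd`). By hypothesis `m ≥ r`, so `m > r` (`r ∤ m`), `m - 1 ≥ r`. Put
`i = (m - 1) % r + 1`; `i ≤ r - 1` since `(m - 1) % r = r - 1` would give `r ∣ m`. `j₀ = r ^ t * i`, `0 < j₀ < N` because
`i < r ≤ m - 1` and `r^t (m-1) ≤ N`. `r ∣ C(N, j₀)`: Lucas, `Choose.choose_modEq_choose_mod_mul_choose_div_nat` applied `t` times (or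
induction on `t`: `N = r^t (m-1) + (r^t - 1)`, `C(N, r^t i) ≡ C(m-1, i)` modulo `r`), and `C(m-1, i) ≡ C((m-1) % r, i) * C((m-1) / r, 0) = 0`.
Finally `j = min j₀ (N - j₀)` (`Nat.choose_symm`). -/

namespace Pool.Agent.Work.MP_bc729a_al.LA



universe u v

private theorem lucas_pow {r : ℕ} (hr : r.Prime) (m i t : ℕ) :
    (r ^ t * m + (r ^ t - 1)).choose (r ^ t * i) ≡ m.choose i [MOD r] := by
  have : Fact r.Prime := ⟨hr⟩
  have hr0 : 0 < r := hr.pos
  induction t with
  | zero => simp [Nat.ModEq]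
  | succ t ih =>
    have hpt : 0 < r ^ t := pow_pos hr0 t
    have h1 := @Choose.choose_modEq_choose_mod_mul_choose_div_nat
      (r ^ (t + 1) * m + (r ^ (t + 1) - 1)) (r ^ (t + 1) * i) r _
    have e1 : r ^ (t + 1) * m + (r ^ (t + 1) - 1) =
        (r - 1) + r * (r ^ t * m + (r ^ t - 1)) := by
      have h2 : r ^ (t + 1) = r * r ^ t := by ring
      have h3 : r * (r ^ t - 1) = r * r ^ t - r := by rw [Nat.mul_sub, mul_one]
      have h4 : r ≤ r * r ^ t := Nat.le_mul_of_pos_right r hpt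
      rw [h2, mul_add, h3, mul_assoc]
      omega
    have e2 : r ^ (t + 1) * i = r * (r ^ t * i) := by ring
    rw [e1, e2, Nat.add_mul_mod_self_left, Nat.mod_eq_of_lt (Nat.sub_lt hr0 one_pos),
      Nat.mul_mod_right, Nat.choose_zero_right, one_mul, Nat.add_mul_div_left _ _ hr0,
      Nat.div_eq_of_lt (Nat.sub_lt hr0 one_pos), zero_add, Nat.mul_div_cancel_left _ hr0] at h1
    rw [e1, e2]
    exact h1.trans ih

theorem exists_choose_dvd {r N : ℕ} (hr : r.Prime) (hN : 1 ≤ N)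
    (h : ∀ a t, 0 < a → a < r → N + 1 ≠ a * r ^ t) :
    ∃ j, 0 < j ∧ 2 * j ≤ N ∧ r ∣ N.choose j := by
  have : Fact r.Prime := ⟨hr⟩
  have hr0 : 0 < r := hr.pos
  obtain ⟨t, m, hm, hNm⟩ := Nat.exists_eq_pow_mul_and_not_dvd (Nat.succ_ne_zero N) r hr.ne_one
  rw [Nat.succ_eq_add_one] at hNm
  have hm0 : 0 < m := by
    rcases Nat.eq_zero_or_pos m with h0 | h0
    · rw [h0] at hm
      exact absurd (dvd_zero r) hm
    · exact h0
  have hmr : r < m := by
    rcases lt_trichotomy m r with h1 | h1 | h1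
    · exact absurd (by rw [hNm, mul_comm]) (h m t hm0 h1)
    · rw [h1] at hm
      exact absurd dvd_rfl hm
    · exact h1
  have hpt : 0 < r ^ t := pow_pos hr0 t
  set i := (m - 1) % r + 1 with hi
  have hir : i < r := by
    have h1 : (m - 1) % r < r := Nat.mod_lt _ hr0
    rcases Nat.lt_or_ge i r with h2 | h2
    · exact h2
    · exfalso
      have h3 : (m - 1) % r = r - 1 := by omega
      apply hm
      have h4 := Nat.div_add_mod (m - 1) r
      refine ⟨(m - 1) / r + 1, ?_⟩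
      rw [mul_add, mul_one]
      omega
  have hi0 : 0 < i := Nat.succ_pos _
  have hN' : N = r ^ t * (m - 1) + (r ^ t - 1) := by
    have h1 : r ^ t * m = r ^ t * (m - 1) + r ^ t := by
      conv_lhs => rw [show m = (m - 1) + 1 by omega]
      rw [mul_add, mul_one]
    omega
  have hdvd : r ∣ N.choose (r ^ t * i) := by
    have h1 := lucas_pow hr (m - 1) i t
    rw [← hN'] at h1
    have h2 := @Choose.choose_modEq_choose_mod_mul_choose_div_nat (m - 1) i r _
    rw [Nat.mod_eq_of_lt hir, Nat.choose_eq_zero_of_lt (show (m - 1) % r < i by omega),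
      zero_mul] at h2
    exact (Nat.modEq_zero_iff_dvd.1 (h1.trans h2))
  have hj0 : 0 < r ^ t * i := Nat.mul_pos hpt hi0
  have hjN : r ^ t * i < N := by
    have h1 : i + 1 ≤ m - 1 := by omega
    have h2 : r ^ t * (i + 1) ≤ r ^ t * (m - 1) := Nat.mul_le_mul_left _ h1
    rw [mul_add, mul_one] at h2
    omega
  rcases Nat.lt_or_ge N (2 * (r ^ t * i)) with h1 | h1
  · refine ⟨N - r ^ t * i, by omega, by omega, ?_⟩
    rw [Nat.choose_symm hjN.le]
    exact hdvd
  · exact ⟨r ^ t * i, hj0, h1, hdvd⟩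

end Pool.Agent.Work.MP_bc729a_al.LA
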