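import Pool.Agent.Work.MP_bc729a_al.LA.BigDef

/-! # Module BigEx7 (S-M): the numerical data of the leftover cases for `q = 5, 7`

Finite checks, see BigEx. Always `v ≤ 1`. -/

namespace Pool.Agent.Work.MP_bc729a_al.LA



universe u v

private theorem bex7_mk {q n k r er s es : ℕ} (h1 : r.Prime) (h2 : s.Prime) (h3 : q + 1 < r)
    (h4 : q + 1 < s) (h5 : ∀ d : Fin (n + 1), 0 < d.1 → gb q d.1 1 % r = 0 → d.1 = er)
    (h6 : ∀ d : Fin (n + 1), 0 < d.1 → gb q d.1 1 % s = 0 → d.1 = es) (h7 : n < 2 * er)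
    (h8 : n < 2 * es) (h9 : er ≠ es) (h10 : gb q er 1 % (r ^ 2) ≠ 0)
    (h11 : gb q es 1 % (s ^ 2) ≠ 0) (h12 : s % r ≠ 1 % r) (h13 : gb q n k % r = 0)
    (h14 : gb q n k % s = 0) : Data q n k r er s es where
  big := ⟨h1, h3, fun d hd hdn h => h5 ⟨d, by omega⟩ hd (Nat.mod_eq_zero_of_dvd h), h7⟩
  big' := ⟨h2, h4, fun d hd hdn h => h6 ⟨d, by omega⟩ hd (Nat.mod_eq_zero_of_dvd h), h8⟩
  ne := h9
  sq := fun h => h10 (Nat.mod_eq_zero_of_dvd h)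
  sv := by
    intro v hv hdv hmod
    have hv1 : v = 1 := by
      by_contra hne
      have h2v : 2 ≤ v := by omega
      exact h11 (Nat.mod_eq_zero_of_dvd ((pow_dvd_pow s h2v).trans hdv))
    subst hv1
    rw [pow_one] at hmod
    exact h12 hmod
  dr := Nat.dvd_of_mod_eq_zero h13
  ds := Nat.dvd_of_mod_eq_zero h14

theorem data_5_4 : Data 5 4 2 31 3 13 4 := by
  refine bex7_mk (by norm_num) (by norm_num) ?_ ?_ ?_ ?_ ?_ ?_ ?_ ?_ ?_ ?_ ?_ ?_ <;> decide +kernel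

theorem data_7_6 : Data 7 6 2 2801 5 43 6 := by
  refine bex7_mk (by norm_num) (by norm_num) ?_ ?_ ?_ ?_ ?_ ?_ ?_ ?_ ?_ ?_ ?_ ?_ <;> decide +kernel

theorem cop_7_6 : Nat.Coprime (2801 - 1) (gb 7 6 2) := by
  decide +kernel

theorem data_7_7 : Data 7 7 2 29 7 43 6 := by
  refine bex7_mk (by norm_num) (by norm_num) ?_ ?_ ?_ ?_ ?_ ?_ ?_ ?_ ?_ ?_ ?_ ?_ <;> decide +kernel

theorem cop_7_7 : Nat.Coprime (29 - 1) (gb 7 7 2) := by
  decide +kernel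

theorem data_7_15 : Data 7 15 2 113 14 31 15 := by
  refine bex7_mk (by norm_num) (by norm_num) ?_ ?_ ?_ ?_ ?_ ?_ ?_ ?_ ?_ ?_ ?_ ?_ <;> decide +kernel

theorem cop_7_15 : Nat.Coprime (113 - 1) (gb 7 15 2) := by
  decide +kernel

end Pool.Agent.Work.MP_bc729a_al.LA
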