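import Pool.Agent.Work.MP_bc729a_al.LA.Gb

/-! # Module Cnt (M): the number of `k`-dimensional subspaces is the Gaussian binomial

PROOF. Let `q = |F|`, `m = finrank F V`. (1) Identity: `gb q m k * ∏ i : Fin k, (q^k - q^i) = ∏ i : Fin k, (q^m - q^i)` for
all `m, k` with `k ≤ m` (work in `ℤ`, then it holds for all `m, k`): with `P m k = ∏ i < k, (q^m - q^i)` one has
`P (m+1) (k+1) = (q^(m+1) - 1) q^k P m k` (take out the factor `i = 0`, and `q` from each other factor) and
`P m (k+1) = P m k (q^m - q^k)`. Induction on `m`: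
`gb (m+1) (k+1) P (k+1) (k+1) = (gb m k + q^(k+1) gb m (k+1)) P (k+1) (k+1)`
`= (q^(k+1) - 1) q^k P m k + q^(k+1) P m (k+1) = q^k P m k ((q^(k+1) - 1) + q (q^m - q^k)) = q^k P m k (q^(m+1) - 1)`.
(2) `card_linearIndependent` (Mathlib): the number of linearly independent `k`-tuples in `V` is `∏ i : Fin k, (q^m - q^i)` for
`k ≤ m`. Map a tuple to its span, a subspace of dimension `k` (`finrank_span_eq_card`); the fibre over `U` is the set of
linearly independent `k`-tuples in `U`, of cardinality `∏ (q^k - q^i)` (`card_linearIndependent` for `U`; an independent `k`-tuple in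
`U` spans `U`). So `N * ∏ (q^k - q^i) = ∏ (q^m - q^i)`, and the factor is positive (`q ≥ 2`). (3) If `k > m` both sides are `0`
(`gb_of_lt`). Any other proof (e.g. by the recursion, quotient by a point) is welcome. -/

namespace Pool.Agent.Work.MP_bc729a_al.LA

open Pool.Agent.Work.MP_bc729a_al.LN

universe u v

private noncomputable def PP (q : ℤ) (m k : ℕ) : ℤ := ∏ i ∈ Finset.range k, (q ^ m - q ^ i)

private theorem PP_succ (q : ℤ) (m k : ℕ) : PP q m (k + 1) = PP q m k * (q ^ m - q ^ k) := by
  unfold PP
  rw [Finset.prod_range_succ]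

private theorem PP_succ' (q : ℤ) (m k : ℕ) :
    PP q (m + 1) (k + 1) = (q ^ (m + 1) - 1) * q ^ k * PP q m k := by
  unfold PP
  rw [Finset.prod_range_succ']
  have h1 : ∀ i ∈ Finset.range k, q ^ (m + 1) - q ^ (i + 1) = q * (q ^ m - q ^ i) := by
    intro i _
    ring
  rw [Finset.prod_congr rfl h1, Finset.prod_mul_distrib, Finset.prod_const, Finset.card_range,
    pow_zero]
  ring

private theorem PP_zero (q : ℤ) (k : ℕ) : PP q 0 (k + 1) = 0 := by
  unfold PP
  rw [Finset.prod_range_succ']
  simp

private theorem gb_PP (q : ℕ) (m : ℕ) : ∀ k : ℕ, (gb q m k : ℤ) * PP q k k = PP q m k := by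
  induction m with
  | zero =>
    intro k
    rcases k with _ | k
    · simp [gb, PP]
    · rw [PP_zero]
      simp [gb]
  | succ m ih =>
    intro k
    rcases k with _ | k
    · simp [gb, PP]
    · have h1 := ih k
      have h2 := ih (k + 1)
      have h3 : (gb q (m + 1) (k + 1) : ℤ) = gb q m k + (q : ℤ) ^ (k + 1) * gb q m (k + 1) := by
        rw [gb_succ]
        push_cast
        ring
      rw [PP_succ q m k] at h2
      rw [h3, add_mul, mul_assoc ((q : ℤ) ^ (k + 1)), h2, PP_succ' q m k, PP_succ' q k k, ← h1]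
      ring

private theorem cast_prod {q m k : ℕ} (hq : 1 ≤ q) (hk : k ≤ m) :
    ((∏ i : Fin k, (q ^ m - q ^ (i : ℕ)) : ℕ) : ℤ) = PP q m k := by
  unfold PP
  rw [← Fin.prod_univ_eq_prod_range (fun i => (q : ℤ) ^ m - (q : ℤ) ^ i) k]
  push_cast
  refine Finset.prod_congr rfl fun i _ => ?_
  rw [Nat.cast_sub (Nat.pow_le_pow_right hq (by omega))]
  push_cast
  rfl

private theorem span_eq_of {F : Type u} [Field F] {V : Type v} [AddCommGroup V] [Module F V]
    [Finite V] {k : ℕ} {U : Submodule F V} (hU : Module.finrank F U = k) {t : Fin k → U}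
    (ht : LinearIndependent F t) : U = Submodule.span F (Set.range fun i => (t i : V)) := by
  have h1 : LinearIndependent F (fun i => (t i : V)) :=
    ht.map' U.subtype (Submodule.ker_subtype U)
  have h2 : Submodule.span F (Set.range fun i => (t i : V)) ≤ U := by
    rw [Submodule.span_le]
    rintro _ ⟨i, rfl⟩
    exact (t i).2
  refine (Submodule.eq_of_le_of_finrank_eq h2 ?_).symm
  rw [finrank_span_eq_card h1, Fintype.card_fin, hU]

private theorem card_mul {F : Type u} [Field F] [Fintype F] {V : Type v} [AddCommGroup V]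
    [Module F V] [Finite V] {k : ℕ} (hk : k ≤ Module.finrank F V) :
    Nat.card {U : Submodule F V // Module.finrank F U = k} *
      (∏ i : Fin k, (Fintype.card F ^ k - Fintype.card F ^ (i : ℕ))) =
      ∏ i : Fin k, (Fintype.card F ^ Module.finrank F V - Fintype.card F ^ (i : ℕ)) := by
  classical
  have hfin : Finite (Submodule F V) :=
    Finite.of_injective (fun U : Submodule F V => (U : Set V)) SetLike.coe_injective
  have : Fintype {U : Submodule F V // Module.finrank F U = k} := Fintype.ofFinite _
  rw [← card_linearIndependent hk]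
  let f : (Σ U : {U : Submodule F V // Module.finrank F U = k},
      {t : Fin k → U.1 // LinearIndependent F t}) → {s : Fin k → V // LinearIndependent F s} :=
    fun p => ⟨fun i => (p.2.1 i : V), p.2.2.map' p.1.1.subtype (Submodule.ker_subtype p.1.1)⟩
  have hf : Function.Bijective f := by
    constructor
    · rintro ⟨⟨U, hU⟩, ⟨t, ht⟩⟩ ⟨⟨U', hU'⟩, ⟨t', ht'⟩⟩ h
      have h1 : (fun i => (t i : V)) = fun i => (t' i : V) := congrArg Subtype.val h
      have h2 : U = U' := by
        rw [span_eq_of hU ht, span_eq_of hU' ht', h1]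
      subst h2
      have h3 : t = t' := by
        funext i
        exact Subtype.ext (congrFun h1 i)
      subst h3
      rfl
    · rintro ⟨s, hs⟩
      refine ⟨⟨⟨Submodule.span F (Set.range s), ?_⟩, ⟨fun i => ⟨s i, Submodule.subset_span
        (Set.mem_range_self i)⟩, linearIndependent_span hs⟩⟩, rfl⟩
      rw [finrank_span_eq_card hs, Fintype.card_fin]
  rw [← Nat.card_congr (Equiv.ofBijective f hf), Nat.card_sigma]
  have h1 : ∀ U : {U : Submodule F V // Module.finrank F U = k},
      Nat.card {t : Fin k → U.1 // LinearIndependent F t} =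
        ∏ i : Fin k, (Fintype.card F ^ k - Fintype.card F ^ (i : ℕ)) := by
    intro U
    rw [card_linearIndependent U.2.ge, U.2]
  rw [Finset.sum_congr rfl fun U _ => h1 U, Finset.sum_const, Finset.card_univ, smul_eq_mul,
    Nat.card_eq_fintype_card]

theorem card_grass (F : Type u) [Field F] [Finite F] (V : Type v) [AddCommGroup V] [Module F V]
    [Finite V] (k : ℕ) :
    Nat.card {U : Submodule F V // Module.finrank F U = k} =
      gb (Nat.card F) (Module.finrank F V) k := by
  have : Fintype F := Fintype.ofFinite F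
  have hq : 1 < Fintype.card F := Fintype.one_lt_card
  rw [Nat.card_eq_fintype_card (α := F)]
  rcases le_or_gt k (Module.finrank F V) with hk | hk
  · have h1 := card_mul (F := F) (V := V) hk
    have h2 := gb_PP (Fintype.card F) (Module.finrank F V) k
    rw [← cast_prod hq.le hk, ← cast_prod hq.le le_rfl] at h2
    have h3 : gb (Fintype.card F) (Module.finrank F V) k *
        (∏ i : Fin k, (Fintype.card F ^ k - Fintype.card F ^ (i : ℕ))) =
        ∏ i : Fin k, (Fintype.card F ^ Module.finrank F V - Fintype.card F ^ (i : ℕ)) := by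
      exact_mod_cast h2
    have h4 : 0 < ∏ i : Fin k, (Fintype.card F ^ k - Fintype.card F ^ (i : ℕ)) := by
      refine Finset.prod_pos fun i _ => ?_
      exact Nat.sub_pos_of_lt (Nat.pow_lt_pow_right hq i.2)
    exact Nat.eq_of_mul_eq_mul_right h4 (h1.trans h3.symm)
  · rw [gb_of_lt hk]
    have h1 : IsEmpty {U : Submodule F V // Module.finrank F U = k} := by
      refine ⟨fun U => ?_⟩
      have h2 := Submodule.finrank_le U.1
      rw [U.2] at h2
      omega
    exact Nat.card_of_isEmpty

end Pool.Agent.Work.MP_bc729a_al.LA
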