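import Pool.Agent.Work.MP_bc729a_al.LA.Red
import Pool.Agent.Work.MP_bc729a_al.LA.Over
import Pool.Agent.Work.MP_bc729a_al.LA.Idx
import Pool.Agent.Work.MP_bc729a_al.LA.Inv
import Pool.Agent.Work.MP_bc729a_al.LA.ClsF
import Pool.Agent.Work.MP_bc729a_al.LA.GbMod
import Pool.Agent.Work.MP_bc729a_al.LA.Irr
import Pool.Agent.Work.MP_bc729a_al.LA.Pow

/-! # Module FA (S-M): exclusion by an odd prime `r`, flags of dimensions `(e j, n - e j)`

PROOF. `k = e j`, `0 < k`, `2 k ≤ n`. Choose `U₀ ≤ W₀` of dimensions `k`, `n - k` (e.g. spans of initial segments of the standard basis, or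
`exists_flag` for `σ = 1`). `H = stab {U₀, W₀}`, proper and nontrivial (`stab_ne_top`, `stab_ne_bot`), its class is invariant
(`class_flag`). `hX.main` gives `R`. By `over_flag` `R ≤ stab {U₀}` or `R ≤ stab {W₀}`, so `R.index` is divisible by `gb q n k`
or `gb q n (n - k)` (`index_one`, `Subgroup.index_dvd_of_le`), equal by `gb_symm`, and divisible by `r` (`gb_dvd`). So there is `α` with
`α ^ r = 1` fixing no conjugate of `H`. `r` is odd: `exists_indP_pow` gives `σ`, `σ ^ r = 1`; `exists_flag` and `fix_conj`. -/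

namespace Pool.Agent.Work.MP_bc729a_al.LA

open Pool.Agent.Work.MP_bc729a_al.LN

universe u v

open scoped Pointwise

variable {n : ℕ} {F : Type u} [Field F]

theorem flagA [Finite F] {X : Subgroup (MulAut (PSLn n F))} (hX : Red (PSLn n F) X) (hn : 3 ≤ n)
    {r e j : ℕ} (hg : Good (Nat.card F) r e) (hr2 : r ≠ 2) (hj : 0 < j) (hle : 2 * (e * j) ≤ n)
    (hd : r ∣ (n / e).choose j) : False := by
  have he : 0 < e := hg.2.2.1
  have hk : 0 < e * j := Nat.mul_pos he hj
  obtain ⟨U₀, W₀, -, -, hUW, hU, hW⟩ := exists_flag (n := n) (F := F) hg (σ := 1) (one_pow r) j hle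
  have hUb : U₀ ≠ ⊥ := by
    intro h
    rw [h, finrank_bot] at hU
    omega
  have hUt : U₀ ≠ ⊤ := by
    intro h
    rw [h, finrank_top, Module.finrank_fin_fun] at hU
    omega
  obtain ⟨R, T, -, hHR, hRt, -, -, -, -, hpr⟩ := hX.main (stab {U₀, W₀})
    (stab_ne_top (by omega) hUW hUb hUt) (stab_ne_bot (by omega) hUW hUb)
    (fun α _ => class_flag hn hUW (by omega) α)
  have hdiv : r ∣ R.index := by
    have hgb := gb_dvd hg hd
    rcases over_flag (by omega) hUW hUb hHR hRt with h | h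
    · have h1 := Subgroup.index_dvd_of_le h
      rw [index_one (by omega), hU] at h1
      exact hgb.trans h1
    · have h1 := Subgroup.index_dvd_of_le h
      rw [index_one (by omega), hW, gb_symm (by omega)] at h1
      exact hgb.trans h1
  obtain ⟨α, -, hα, hno⟩ := hpr r hg.1 hdiv
  obtain ⟨σ, hσi, hσ⟩ := exists_indP_pow hn (hg.1.odd_of_ne_two hr2) hα
  obtain ⟨U, W, hσU, hσW, hUW', hU', hW'⟩ := exists_flag hg hσ j hle
  obtain ⟨a, ha⟩ := fix_conj (by omega) hσi hUW' hUW (by rw [hU', hU]) (by rw [hW', hW]) hσU hσW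
  exact hno a ha

end Pool.Agent.Work.MP_bc729a_al.LA
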