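import Pool.Agent.Work.MP_bc729a_al.LA.MinEx

/-! # Module Fre (M): `r`-groups of collineations act freely on the points of a minimal subspace

PROOF. `2 ≤ e` as `3 ≤ n < 2 e`. `P` is a nontrivial finite `r`-group, so its centre contains `σ` of order `r`
(`IsPGroup.center_nontrivial`, Cauchy). `M = M_σ` (`exists_min`). For `τ ∈ P` `τ σ τ⁻¹ = σ`, so `τ M = M` (`min_conj`, `min_unique`). So
`P` acts on the set `Ω` of atoms `≤ M`, `|Ω| = gb q e 1` (`card_points`). CLAIM: if `1 ≠ τ ∈ P` then `τ` fixes no element of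
`Ω`. Otherwise a power of `τ` of order `r` fixes one, so let `τ` have order `r`. Let `M' = M_τ` (`exists_min`). `M ⊓ M'` is `τ`-invariant,
`≠ ⊥` by dimensions, so `M ⊓ M' = M'` by minimality of `M'`, `M' ≤ M`, `M' = M` (same dimension). But `τ` fixes no atom of `M'`
(`min_no_atom`). So all orbits have length `|P|` (stabilisers trivial, orbit-stabiliser), and `|P|` divides `|Ω|`. -/

namespace Pool.Agent.Work.MP_bc729a_al.LA

open Pool.Agent.Work.MP_bc729a_al.LN

universe u v

variable {n : ℕ} {F : Type u} [Field F]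

private theorem exists_pow_order {G : Type*} [Group G] {r : ℕ} (hG : IsPGroup r G)
    {g : G} (hg : g ≠ 1) : ∃ j : ℕ, g ^ (r ^ j) ≠ 1 ∧ (g ^ (r ^ j)) ^ r = 1 := by
  classical
  have hex : ∃ k, g ^ (r ^ k) = 1 := hG g
  have hk : Nat.find hex ≠ 0 := by
    intro h0
    have := Nat.find_spec hex
    rw [h0, pow_zero, pow_one] at this
    exact hg this
  obtain ⟨j, hj⟩ := Nat.exists_eq_succ_of_ne_zero hk
  refine ⟨j, Nat.find_min hex (by omega), ?_⟩
  have := Nat.find_spec hex
  rw [hj, Nat.succ_eq_add_one, pow_succ, pow_mul] at this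
  exact this

private theorem inf_ne_bot {M M' : Lat n F} {e : ℕ} (hM : Module.finrank F M = e)
    (hM' : Module.finrank F M' = e) (h : n < 2 * e) : M ⊓ M' ≠ ⊥ := by
  intro h0
  have h1 := Submodule.finrank_sup_add_finrank_inf_eq M M'
  have h2 : Module.finrank F ((M ⊔ M' : Lat n F)) ≤ n := by
    have := Submodule.finrank_le (M ⊔ M' : Lat n F)
    rwa [Module.finrank_fin_fun] at this
  have h3 : Module.finrank F ((M ⊓ M' : Lat n F)) = 0 := by
    rw [h0]
    exact finrank_bot F (Fin n → F)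
  omega

theorem card_dvd_points [Finite F] {r e : ℕ} (h : Big (Nat.card F) n r e) (hn : 3 ≤ n)
    (P : Subgroup (Col n F)) (hP : IsPGroup r P) : Nat.card P ∣ gb (Nat.card F) e 1 := by
  classical
  have hr : Fact r.Prime := ⟨h.prime⟩
  have hlat : Finite (Lat n F) := lat_finite
  have hcol : Finite (Col n F) := Finite.of_injective (fun σ : Col n F => (σ : Lat n F → Lat n F))
    DFunLike.coe_injective
  have he : 2 ≤ e := by
    have := h.half
    omega
  rcases subsingleton_or_nontrivial P with hs | hs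
  · rw [Nat.card_unique]
    exact one_dvd _
  have hc := hP.center_nontrivial
  obtain ⟨c, hc1⟩ := exists_ne (1 : Subgroup.center P)
  have hc2 : (c : P) ≠ 1 := fun h0 => hc1 (Subtype.ext h0)
  obtain ⟨j, hj1, hj2⟩ := exists_pow_order hP hc2
  -- the central element of order `r`
  have hcomm : ∀ τ : P, τ * (c : P) ^ (r ^ j) * τ⁻¹ = (c : P) ^ (r ^ j) := by
    intro τ
    have h1 : τ * (c : P) = (c : P) * τ := (Subgroup.mem_center_iff.1 c.2 τ)
    have h2 : Commute τ ((c : P) ^ (r ^ j)) := Commute.pow_right h1 _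
    rw [h2.eq, mul_inv_cancel_right]
  set σ : Col n F := (((c : P) ^ (r ^ j) : P) : Col n F) with hσ
  have hσ1 : σ ≠ 1 := fun h0 => hj1 (Subtype.ext h0)
  have hσr : σ ^ r = 1 := by
    rw [hσ, ← Subgroup.coe_pow, hj2, Subgroup.coe_one]
  obtain ⟨M, hM⟩ := exists_min h hσr hσ1
  have hinv : ∀ τ : P, (τ : Col n F) M = M := by
    intro τ
    have h1 := min_conj hM (τ : Col n F)
    have h2 : (τ : Col n F) * σ * (τ : Col n F)⁻¹ = σ := by
      have := congrArg (Subtype.val : P → Col n F) (hcomm τ)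
      simpa [hσ] using this
    rw [h2] at h1
    exact min_unique h.half h1 hM
  -- the action on the points of `M`
  let act : MulAction P {p : Lat n F // IsAtom p ∧ p ≤ M} :=
    { smul := fun τ p => ⟨(τ : Col n F) p.1,
        ⟨(OrderIso.isAtom_iff (τ : Col n F) p.1).2 p.2.1, by
          have := (τ : Col n F).monotone p.2.2
          rwa [hinv τ] at this⟩⟩
      one_smul := fun p => rfl
      mul_smul := fun a b p => rfl }
  have hstab : ∀ p : {p : Lat n F // IsAtom p ∧ p ≤ M}, MulAction.stabilizer P p = ⊥ := by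
    intro p
    rw [eq_bot_iff]
    intro τ hτ
    rw [Subgroup.mem_bot]
    by_contra hτ1
    have hτp : (τ : Col n F) p.1 = p.1 := congrArg Subtype.val (MulAction.mem_stabilizer_iff.1 hτ)
    obtain ⟨i, hi1, hi2⟩ := exists_pow_order hP hτ1
    have hρ1 : ((τ ^ (r ^ i) : P) : Col n F) ≠ 1 := fun h0 => hi1 (Subtype.ext h0)
    have hρr : ((τ ^ (r ^ i) : P) : Col n F) ^ r = 1 := by
      rw [← Subgroup.coe_pow, hi2, Subgroup.coe_one]
    obtain ⟨M', hM'⟩ := exists_min h hρr hρ1
    have hfix : ((τ ^ (r ^ i) : P) : Col n F) p.1 = p.1 := by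
      rw [Subgroup.coe_pow]
      exact col_pow_fix hτp _
    have h1 : ((τ ^ (r ^ i) : P) : Col n F) (M ⊓ M') = M ⊓ M' := by
      rw [OrderIso.map_inf, hinv, hM'.inv]
    have h2 := hM'.min (M ⊓ M') inf_le_right h1
    have h3 : M' ≤ M := by
      rcases h2 with h2 | h2
      · exact absurd h2 (inf_ne_bot hM.dim hM'.dim h.half)
      · rw [← h2]
        exact inf_le_left
    have h4 : M' = M := Submodule.eq_of_le_of_finrank_eq h3 (by rw [hM.dim, hM'.dim])
    exact min_no_atom he hM' p.2.1 (by rw [h4]; exact p.2.2) hfix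
  have hcard := Nat.card_congr (MulAction.selfEquivOrbitsQuotientProd hstab)
  rw [card_points, hM.dim, Nat.card_prod] at hcard
  exact ⟨_, by rw [hcard, mul_comm]⟩

end Pool.Agent.Work.MP_bc729a_al.LA
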