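import Pool.Agent.Work.MP_bc729a_al.LA.Defs

/-! # Module Gb (S): Gaussian binomials

`gb q 0 (k+1) = 0`, `gb q n 0 = 1`, `gb q (n+1) (k+1) = gb q n k + q^(k+1) gb q n (k+1)`.

* `gb_of_lt`, `gb_self`: induction on `n`.
* `gb_one`: `gb q (n+1) 1 = 1 + q * gb q n 1`, so `(q - 1) gb q (n+1) 1 + 1 = q (1 + (q-1) gb q n 1) = q^(n+1)`.
* `gb_dual` (the second recursion): for `k ≤ n`, `gb q (n+1) (k+1) = q^(n-k) gb q n k + gb q n (k+1)`. Induction on
  `n`. `n = 0`: `k = 0`, both sides `1`. Step, for `gb q (n+2) (k+1) = gb q (n+1) k + q^(k+1) gb q (n+1) (k+1)`: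
  `k = 0`: `gb q (n+1) 1 = q^n + gb q n 1` by induction, so the left side is `1 + q^(n+1) + q gb q n 1`, the right side
  is `q^(n+1) + gb q (n+1) 1` and `gb q (n+1) 1 = 1 + q gb q n 1` by definition. `0 < k ≤ n`: insert
  `gb q (n+1) k = q^(n-k+1) gb q n (k-1) + gb q n k` and `gb q (n+1) (k+1) = q^(n-k) gb q n k + gb q n (k+1)`; the left side
  is `q^(n+1-k) gb q n (k-1) + gb q n k + q^(n+1) gb q n k + q^(k+1) gb q n (k+1)`, the right side
  `q^(n+1-k) gb q (n+1) k + gb q (n+1) (k+1)` with the defining recursion for both terms is the same.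
  `k = n + 1`: both sides are `1` (`gb_self`, `gb_of_lt`).
* `gb_symm`: induction on `n`; `k = 0`, `k = n + 1` trivial; for `0 < k ≤ n`,
  `gb q (n+1) (n-k+1) = gb q n (n-k) + q^(n-k+1) gb q n (n-k+1) = gb q n k + q^(n-k+1) gb q n (k-1)`, which is
  `gb q (n+1) k` by `gb_dual`.
* `gb_modEq_choose`: same recursion as Pascal (`Nat.choose_succ_succ`) since `q^(k+1) ≡ 1`.
* `gb_modEq_one`: modulo `q` the recursion is `gb q (n+1) (k+1) ≡ gb q n k`.
* `gb_pos`: from `gb_self` and the recursion, or by induction. -/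

namespace Pool.Agent.Work.MP_bc729a_al.LA

open Pool.Agent.Work.MP_bc729a_al.LN

universe u v

theorem gb_zero (q n : ℕ) : gb q n 0 = 1 := by
  cases n <;> rfl

theorem gb_succ (q n k : ℕ) : gb q (n + 1) (k + 1) = gb q n k + q ^ (k + 1) * gb q n (k + 1) := rfl

theorem gb_of_lt {q n k : ℕ} (h : n < k) : gb q n k = 0 := by
  induction n generalizing k with
  | zero =>
    obtain ⟨k, rfl⟩ : ∃ j, k = j + 1 := ⟨k - 1, by omega⟩
    rfl
  | succ n ih =>
    obtain ⟨k, rfl⟩ : ∃ j, k = j + 1 := ⟨k - 1, by omega⟩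
    rw [gb_succ, ih (by omega), ih (by omega), mul_zero, add_zero]

theorem gb_self (q n : ℕ) : gb q n n = 1 := by
  induction n with
  | zero => rfl
  | succ n ih => rw [gb_succ, ih, gb_of_lt (Nat.lt_succ_self n), mul_zero, add_zero]

theorem gb_one {q : ℕ} (hq : 1 ≤ q) (n : ℕ) : (q - 1) * gb q n 1 + 1 = q ^ n := by
  obtain ⟨p, rfl⟩ : ∃ p, q = p + 1 := ⟨q - 1, by omega⟩
  rw [Nat.add_sub_cancel]
  induction n with
  | zero => rw [gb_of_lt Nat.zero_lt_one, mul_zero, pow_zero, zero_add]
  | succ n ih =>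
    have h1 : gb (p + 1) (n + 1) 1 = gb (p + 1) n 0 + (p + 1) ^ (0 + 1) * gb (p + 1) n 1 := rfl
    rw [h1, gb_zero, zero_add, pow_one, pow_succ, ← ih]
    ring

theorem gb_dual {q n k : ℕ} (h : k ≤ n) :
    gb q (n + 1) (k + 1) = q ^ (n - k) * gb q n k + gb q n (k + 1) := by
  induction n generalizing k with
  | zero =>
    obtain rfl : k = 0 := by omega
    rfl
  | succ n ih =>
    rcases Nat.lt_or_ge n k with hk | hk
    · obtain rfl : k = n + 1 := by omega
      rw [gb_self, gb_self, gb_of_lt (Nat.lt_succ_self _), Nat.sub_self]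
      rfl
    · rcases k with _ | k
      · rw [gb_succ q (n + 1) 0, ih (Nat.zero_le n)]
        have h1 : gb q (n + 1) 1 = gb q n 0 + q ^ (0 + 1) * gb q n 1 := rfl
        have h2 : q ^ (n + 1 - 0) = q ^ (n - 0) * q := by
          rw [Nat.sub_zero, Nat.sub_zero, pow_succ]
        have h3 := ih (Nat.zero_le n)
        rw [h2]
        simp only [gb_zero, Nat.sub_zero, zero_add, pow_one, mul_one] at *
        rw [← h3, h1, mul_add, ← mul_assoc]
        have h4 : q * (1 + q * gb q n 1) = q * (q ^ n + gb q n 1) := by rw [← h3, h1]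
        have h5 : q * (q ^ n + gb q n 1) = q ^ n * q + q * gb q n 1 := by ring
        have h6 : q * (1 + q * gb q n 1) = q * 1 + q * q * gb q n 1 := by ring
        omega
      · have h2 := ih (k := k) (by omega)
        have h3 := ih (k := k + 1) hk
        rw [gb_succ q (n + 1) (k + 1), h3]
        have h4 := gb_succ q n k
        have h5 := gb_succ q n (k + 1)
        have e1 : n - k = n - (k + 1) + 1 := by omega
        have e2 : n + 1 - (k + 1) = n - (k + 1) + 1 := by omega
        have e3 : q ^ (k + 1 + 1) * q ^ (n - (k + 1)) = q ^ (n - (k + 1) + 1) * q ^ (k + 1) := by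
          rw [← pow_add, ← pow_add]
          congr 1
          omega
        have h6 : q ^ (k + 1 + 1) * (q ^ (n - (k + 1)) * gb q n (k + 1) + gb q n (k + 1 + 1)) =
            q ^ (n - (k + 1) + 1) * (q ^ (k + 1) * gb q n (k + 1)) +
            q ^ (k + 1 + 1) * gb q n (k + 1 + 1) := by
          rw [mul_add, ← mul_assoc, e3, mul_assoc]
        have h7 : q ^ (n - (k + 1) + 1) * (gb q n k + q ^ (k + 1) * gb q n (k + 1)) =
            q ^ (n - (k + 1) + 1) * gb q n k +
            q ^ (n - (k + 1) + 1) * (q ^ (k + 1) * gb q n (k + 1)) := mul_add _ _ _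
        rw [e1] at h2
        have h8 : q ^ (n - (k + 1)) * gb q n (k + 1) + gb q n (k + 1 + 1) =
            gb q n (k + 1) + q ^ (k + 1 + 1) * gb q n (k + 1 + 1) := by rw [← h3, h5]
        rw [h6, h2, e2]
        have h9 : q ^ (n - (k + 1) + 1) * gb q (n + 1) (k + 1) =
            q ^ (n - (k + 1) + 1) * (gb q n k + q ^ (k + 1) * gb q n (k + 1)) := by rw [h4]
        rw [h2] at h9
        omega

theorem gb_symm {q n k : ℕ} (h : k ≤ n) : gb q n (n - k) = gb q n k := by
  induction n generalizing k with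
  | zero =>
    obtain rfl : k = 0 := by omega
    rfl
  | succ n ih =>
    rcases Nat.lt_or_ge n k with hk | hk
    · obtain rfl : k = n + 1 := by omega
      rw [Nat.sub_self, gb_self, gb_zero]
    · rcases k with _ | k
      · rw [Nat.sub_zero, gb_self, gb_zero]
      · have e1 : n + 1 - (k + 1) = (n - (k + 1)) + 1 := by omega
        have e2 : n - (k + 1) + 1 = n - k := by omega
        rw [e1, gb_succ, e2, ih hk, ih (by omega), gb_dual (by omega)]
        ring

theorem gb_modEq_choose {q r : ℕ} (h : q ≡ 1 [MOD r]) (n k : ℕ) : gb q n k ≡ n.choose k [MOD r] := by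
  induction n generalizing k with
  | zero =>
    rcases k with _ | k
    · rfl
    · rw [gb_of_lt (Nat.succ_pos k), Nat.choose_zero_succ]
  | succ n ih =>
    rcases k with _ | k
    · rw [gb_zero, Nat.choose_zero_right]
    · rw [gb_succ, Nat.choose_succ_succ]
      refine (ih k).add ?_
      have h1 : q ^ (k + 1) ≡ 1 [MOD r] := by
        have := h.pow (k + 1)
        rwa [one_pow] at this
      have h2 := h1.mul (ih (k + 1))
      rwa [one_mul] at h2

theorem gb_modEq_one {q n k : ℕ} (h : k ≤ n) : gb q n k ≡ 1 [MOD q] := by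
  induction n generalizing k with
  | zero =>
    obtain rfl : k = 0 := by omega
    rfl
  | succ n ih =>
    rcases k with _ | k
    · rw [gb_zero]
    · rw [gb_succ]
      have h1 : q ^ (k + 1) * gb q n (k + 1) ≡ 0 [MOD q] := by
        rw [Nat.modEq_zero_iff_dvd]
        exact Dvd.dvd.mul_right (dvd_pow_self q (Nat.succ_ne_zero k)) _
      have h2 := (ih (k := k) (by omega)).add h1
      rwa [add_zero] at h2

theorem gb_pos {q n k : ℕ} (h : k ≤ n) : 0 < gb q n k := by
  induction n generalizing k with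
  | zero =>
    obtain rfl : k = 0 := by omega
    exact Nat.one_pos
  | succ n ih =>
    rcases k with _ | k
    · rw [gb_zero]; exact Nat.one_pos
    · rw [gb_succ]
      have := ih (k := k) (by omega)
      omega

end Pool.Agent.Work.MP_bc729a_al.LA
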