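import Pool.Agent.Work.MP_bc729a_al.LA.CntI
import Pool.Agent.Work.MP_bc729a_al.LA.Msc
import Pool.Agent.Work.MP_bc729a_al.LN.TypeP

/-! # Module MinEx (M): the minimal invariant subspace of a collineation of large prime order

`fix_line`. `σ` acts on the atoms `≤ x ⊔ y`; there are `|F| + 1 < r` of them (`card_line`), and the orbit of an atom under `⟨σ⟩` has
`1` or `r` elements (`σ ^ r = 1`, `r` prime), so it has one element (if `σ z ≠ z` then `z, σ z, ..., σ^(r-1) z` are distinct).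
`exists_min`. `r` does not divide `|F|` (`|F| < r`). Let `S` be the join of all atoms fixed by `σ`. Every atom `≤ S` is fixed: the set of
vectors `v` with `v = 0` or `σ (pt v) = pt v` is a submodule by `fix_line`. If `S = ⊤` all atoms are fixed and `σ = 1` (`lat_atoms`,
`OrderIso.map_sSup`). So `S ≠ ⊤`; `σ S = S`; `maschke` for `⊥ ≤ S ≤ ⊤` gives `C` invariant, `S ⊓ C = ⊥`, `S ⊔ C = ⊤`, `C ≠ ⊥`, and `C`
contains no fixed atom. Let `M ≤ C` be invariant, `M ≠ ⊥`, of the least dimension `d`. `σ` acts without fixed points on the atoms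
`≤ M`, so `r ∣ gb q d 1` (`exists_fix`, `card_points`), so `d = e` by `Big.dim`. Minimality gives the last clause.
`min_unique`. `M ⊓ M'` is invariant and `≠ ⊥` as `2 e > n`, so it is `M` and `M'`.
`min_conj`: direct; `min_inv`: `σ⁻¹`-invariant = `σ`-invariant. `min_no_atom`: a fixed atom `p ≤ M` is `⊥` or `M`, but
`finrank M = e ≥ 2`. -/

namespace Pool.Agent.Work.MP_bc729a_al.LA

open Pool.Agent.Work.MP_bc729a_al.LN

universe u v

variable {n : ℕ} {F : Type u} [Field F]

private theorem me_fix_of_small [Finite F] {r : ℕ} (hr : r.Prime) {σ : Col n F} (hσ : σ ^ r = 1)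
    (s : Set (Lat n F)) (hs : ∀ z ∈ s, σ z ∈ s) (hc : s.ncard < r) {z : Lat n F} (hz : z ∈ s) :
    σ z = z := by
  have hfin : Finite (Lat n F) := lat_finite
  have hit : ∀ k : ℕ, (σ : Lat n F → Lat n F)^[k] z = (σ ^ k) z := by
    intro k
    induction k with
    | zero => rfl
    | succ k ih =>
      rw [Function.iterate_succ_apply', ih, pow_succ']
      rfl
  have hper : Function.IsPeriodicPt (σ : Lat n F → Lat n F) r z := by
    change (σ : Lat n F → Lat n F)^[r] z = z
    rw [hit, hσ]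
    rfl
  have hdvd := hper.minimalPeriod_dvd
  rcases (Nat.dvd_prime hr).1 hdvd with h1 | h1
  · exact Function.minimalPeriod_eq_one_iff_isFixedPt.1 h1
  · exfalso
    have hinj := Function.iterate_injOn_Iio_minimalPeriod (f := (σ : Lat n F → Lat n F)) (x := z)
    rw [h1] at hinj
    have hmem : ∀ k : ℕ, (σ : Lat n F → Lat n F)^[k] z ∈ s := by
      intro k
      induction k with
      | zero => exact hz
      | succ k ih =>
        rw [Function.iterate_succ_apply']
        exact hs _ ih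
    have h2 : (Set.Iio r).ncard ≤ s.ncard :=
      Set.ncard_le_ncard_of_injOn (fun k => (σ : Lat n F → Lat n F)^[k] z) (fun k _ => hmem k) hinj
        (Set.toFinite s)
    have h3 : (Set.Iio r).ncard = r := by
      rw [Set.ncard_eq_toFinset_card', Set.toFinset_Iio, Nat.card_Iio]
    omega

theorem fix_line [Finite F] {r : ℕ} (hr : r.Prime) (hq : Nat.card F + 1 < r) {σ : Col n F}
    (hσ : σ ^ r = 1) {x y z : Lat n F} (hx : IsAtom x) (hy : IsAtom y) (hxy : x ≠ y)
    (hσx : σ x = x) (hσy : σ y = y) (hz : IsAtom z) (hzxy : z ≤ x ⊔ y) : σ z = z := by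
  refine me_fix_of_small hr hσ {z : Lat n F | IsAtom z ∧ z ≤ x ⊔ y} ?_ ?_ ⟨hz, hzxy⟩
  · rintro w ⟨hw, hwxy⟩
    refine ⟨(OrderIso.isAtom_iff σ w).2 hw, ?_⟩
    have h1 : σ w ≤ σ (x ⊔ y) := σ.monotone hwxy
    rwa [σ.map_sup, hσx, hσy] at h1
  · rw [card_line hx hy hxy]
    exact hq

/-- the fixed vectors -/
private def meS [Finite F] {r : ℕ} (hr : r.Prime) (hq : Nat.card F + 1 < r) {σ : Col n F}
    (hσ : σ ^ r = 1) : Lat n F where
  carrier := {v | v = 0 ∨ σ (pt v) = pt v}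
  zero_mem' := Or.inl rfl
  smul_mem' := by
    intro c v hv
    by_cases hc : c = 0
    · left
      rw [hc, zero_smul]
    · rcases hv with hv | hv
      · left
        rw [hv, smul_zero]
      · right
        rw [pt_smul hc]
        exact hv
  add_mem' := by
    intro v w hv hw
    by_cases hv0 : v = 0
    · rw [hv0, zero_add]
      exact hw
    by_cases hw0 : w = 0
    · rw [hw0, add_zero]
      exact hv
    by_cases hvw : v + w = 0
    · exact Or.inl hvw
    right
    have hv1 := hv.resolve_left hv0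
    have hw1 := hw.resolve_left hw0
    have av : IsAtom (pt v) := atom_iff.2 ⟨v, hv0, rfl⟩
    have aw : IsAtom (pt w) := atom_iff.2 ⟨w, hw0, rfl⟩
    have avw : IsAtom (pt (v + w)) := atom_iff.2 ⟨v + w, hvw, rfl⟩
    by_cases hpt : pt v = pt w
    · have h1 : pt (v + w) ≤ pt v := by
        rw [pt_le_iff]
        refine Submodule.add_mem _ (pt_le_iff.1 le_rfl) ?_
        rw [hpt]
        exact pt_le_iff.1 le_rfl
      have h2 : pt (v + w) = pt v := (av.le_iff_eq avw.1).1 h1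
      rw [h2]
      exact hv1
    · refine fix_line hr hq hσ av aw hpt hv1 hw1 avw ?_
      rw [pt_le_iff]
      exact Submodule.add_mem_sup (pt_le_iff.1 le_rfl) (pt_le_iff.1 le_rfl)

private theorem me_le_S [Finite F] {r : ℕ} (hr : r.Prime) (hq : Nat.card F + 1 < r) {σ : Col n F}
    (hσ : σ ^ r = 1) {p : Lat n F} (hp : IsAtom p) : p ≤ meS hr hq hσ ↔ σ p = p := by
  obtain ⟨v, hv, rfl⟩ := atom_iff.1 hp
  rw [pt_le_iff]
  exact ⟨fun h => h.resolve_left hv, fun h => Or.inr h⟩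

private theorem me_fix_of_atoms {σ : Col n F} {U : Lat n F}
    (h : ∀ p, IsAtom p → p ≤ U → σ p = p) : σ U = U := by
  have h1 : sSup (σ '' {x | IsAtom x ∧ x ≤ U}) = σ U := by
    conv_rhs => rw [lat_atoms U, σ.map_sSup]
    rw [sSup_image]
  rw [← h1]
  conv_rhs => rw [lat_atoms U]
  congr 1
  ext x
  constructor
  · rintro ⟨y, hy, rfl⟩
    rw [h y hy.1 hy.2]
    exact hy
  · intro hx
    exact ⟨x, hx, h x hx.1 hx.2⟩

theorem exists_min [Finite F] {r e : ℕ} (h : Big (Nat.card F) n r e) {σ : Col n F}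
    (hσ : σ ^ r = 1) (h1 : σ ≠ 1) : ∃ M, IsMin σ e M := by
  have hr := h.prime
  have hq := h.lt
  have hfin : Finite (Lat n F) := lat_finite
  have hrq : ¬ r ∣ Nat.card F := fun hd => by
    have := Nat.le_of_dvd Nat.card_pos hd
    omega
  set S := meS hr hq hσ with hS
  have hσS : σ S = S := me_fix_of_atoms fun p hp hpS => (me_le_S hr hq hσ hp).1 hpS
  have hSt : S ≠ ⊤ := by
    intro ht
    apply h1
    apply OrderIso.ext
    funext U
    refine me_fix_of_atoms fun p hp _ => (me_le_S hr hq hσ hp).1 ?_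
    rw [← hS, ht]
    exact le_top
  obtain ⟨C, hσC, hSC, hSC'⟩ := maschke hr hrq hσ (A := ⊥) (U := S) (B := ⊤) bot_le le_top
    σ.map_bot hσS σ.map_top
  have hC0 : C ≠ ⊥ := by
    rintro rfl
    rw [sup_bot_eq] at hSC'
    exact hSt hSC'
  have hCa : ∀ p, IsAtom p → p ≤ C → σ p ≠ p := by
    intro p hp hpC hσp
    have h2 : p ≤ S := (me_le_S hr hq hσ hp).2 hσp
    have h3 : p ≤ S ⊓ C := le_inf h2 hpC
    rw [hSC] at h3
    exact hp.1 (le_bot_iff.1 h3)
  obtain ⟨M, ⟨hMC, hσM, hM0⟩, hmin⟩ := (Set.toFinite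
    {M : Lat n F | M ≤ C ∧ σ M = M ∧ M ≠ ⊥}).exists_minimal ⟨C, le_rfl, hσC, hC0⟩
  have hpos : 0 < Module.finrank F M := by
    rw [Module.finrank_pos_iff_exists_ne_zero]
    obtain ⟨x, hx, hx0⟩ := Submodule.exists_mem_ne_zero_of_ne_bot hM0
    exact ⟨⟨x, hx⟩, fun h0 => hx0 (congrArg Subtype.val h0)⟩
  have hle : Module.finrank F M ≤ n := by
    have := Submodule.finrank_le M
    rwa [Module.finrank_fin_fun] at this
  refine ⟨M, h.dim _ hpos hle ?_, hσM, ?_⟩
  · by_contra hd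
    rw [← card_points M] at hd
    obtain ⟨p, ⟨hp, hpM⟩, hσp⟩ := exists_fix hr σ hσ (fun p => IsAtom p ∧ p ≤ M)
      (fun p hp => ⟨(OrderIso.isAtom_iff σ p).2 hp.1, by
        have := σ.monotone hp.2
        rwa [hσM] at this⟩) hd
    exact hCa p hp (hpM.trans hMC) hσp
  · intro X hXM hσX
    by_cases hX : X = ⊥
    · exact Or.inl hX
    · right
      exact le_antisymm hXM (hmin ⟨hXM.trans hMC, hσX, hX⟩ hXM)

theorem min_unique {e : ℕ} (hn : n < 2 * e) {σ : Col n F} {M M' : Lat n F} (h : IsMin σ e M)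
    (h' : IsMin σ e M') : M = M' := by
  have hinv : σ (M ⊓ M') = M ⊓ M' := by rw [σ.map_inf, h.inv, h'.inv]
  have hne : M ⊓ M' ≠ ⊥ := by
    intro h0
    have h1 := Submodule.finrank_sup_add_finrank_inf_eq M M'
    rw [h0, finrank_bot, h.dim, h'.dim] at h1
    have h2 := Submodule.finrank_le (M ⊔ M')
    rw [Module.finrank_fin_fun] at h2
    omega
  have h1 := (h.min _ inf_le_left hinv).resolve_left hne
  have h2 := (h'.min _ inf_le_right hinv).resolve_left hne
  rw [← h1, h2]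

theorem min_conj {e : ℕ} {σ : Col n F} {M : Lat n F} (h : IsMin σ e M) (τ : Col n F) :
    IsMin (τ * σ * τ⁻¹) e (τ M) := by
  have hinv : ∀ X : Lat n F, τ⁻¹ (τ X) = X := fun X => τ.symm_apply_apply X
  have hinv' : ∀ X : Lat n F, τ (τ⁻¹ X) = X := fun X => τ.apply_symm_apply X
  refine ⟨?_, ?_, ?_⟩
  · rw [finrank_orderIso, h.dim]
  · change τ (σ (τ⁻¹ (τ M))) = τ M
    rw [hinv, h.inv]
  · intro X hX hσX
    have h1 : τ⁻¹ X ≤ M := by
      have := (τ⁻¹ : Col n F).monotone hX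
      rwa [hinv] at this
    have h2 : σ (τ⁻¹ X) = τ⁻¹ X := by
      have h3 : τ (σ (τ⁻¹ X)) = X := hσX
      have h4 : τ⁻¹ (τ (σ (τ⁻¹ X))) = τ⁻¹ X := by rw [h3]
      rwa [hinv] at h4
    rcases h.min _ h1 h2 with h3 | h3
    · left
      rw [← hinv' X, h3, τ.map_bot]
    · right
      rw [← hinv' X, h3]

theorem min_inv {e : ℕ} {σ : Col n F} {M : Lat n F} (h : IsMin σ e M) : IsMin σ⁻¹ e M := by
  have hinv : ∀ X : Lat n F, σ⁻¹ (σ X) = X := fun X => σ.symm_apply_apply X
  have hinv' : ∀ X : Lat n F, σ (σ⁻¹ X) = X := fun X => σ.apply_symm_apply X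
  refine ⟨h.dim, ?_, ?_⟩
  · conv_lhs => rw [← h.inv]
    exact hinv M
  · intro X hX hσX
    refine h.min X hX ?_
    conv_lhs => rw [← hσX]
    exact hinv' X

theorem min_no_atom {e : ℕ} (he : 2 ≤ e) {σ : Col n F} {M : Lat n F} (h : IsMin σ e M)
    {p : Lat n F} (hp : IsAtom p) (hpM : p ≤ M) : σ p ≠ p := by
  intro hσp
  have h1 := Invol_finrank_atom hp
  rcases h.min p hpM hσp with h2 | h2
  · exact hp.1 h2
  · rw [h2, h.dim] at h1
    omega

end Pool.Agent.Work.MP_bc729a_al.LA
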