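import Pool.Agent.Work.MP_bc729a_al.Reduct

/-! A necessary condition for a simple group `S` to be a composition factor of a finite group with
complemented maximal subgroups: there is a group `X` of automorphisms of `S` (containing the inner
ones) such that for each proper nontrivial subgroup `H` whose class is `X`-invariant there are
`R ≥ H` and `T ≤ X` as in `Reduct.main`; the automorphism of order `p` belongs to `X` and
normalises no conjugate of `H`. -/

open scoped Pointwise

namespace Pool.Agent.Work.MP_bc729a_al.LA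

universe u v

/-- the necessary condition, for the group `X` of automorphisms -/
structure Red (S : Type v) [Group S] (X : Subgroup (MulAut S)) : Prop where
  inner : ∀ a : S, MulAut.conj a ∈ X
  main : ∀ H : Subgroup S, H ≠ ⊤ → H ≠ ⊥ →
    (∀ α ∈ X, ∃ a : S, H.map α.toMonoidHom = MulAut.conj a • H) →
    ∃ (R : Subgroup S) (T : Subgroup (MulAut S)), T ≤ X ∧ H ≤ R ∧ R ≠ ⊤ ∧
      Subgroup.normalizer (R : Set S) = R ∧
      (∀ α ∈ X, ∃ a : S, R.map α.toMonoidHom = MulAut.conj a • R) ∧
      (∀ a : S, ∃ t ∈ T, R.map t.toMonoidHom = MulAut.conj a • R) ∧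
      (∀ p : ℕ, p.Prime → p ∣ Nat.card T → p ∣ R.index) ∧
      (∀ p : ℕ, p.Prime → p ∣ R.index → ∃ α ∈ X, α ^ p = 1 ∧
        ∀ a : S, (MulAut.conj a • H).map α.toMonoidHom ≠ MulAut.conj a • H)

open EY in
/-- `exists_max` with the additional information that elements of the normaliser of `A` and `H`
normalise the trace of `M` -/
theorem exists_max' {G : Type u} [Group G] [Finite G] (A H : Subgroup G) (hA : ConjComm A)
    (hHA : H ≤ A) (hnn : ∃ a ∈ A, MulAut.conj a • H ≠ H)
    (hinv : ∀ g : G, MulAut.conj g • A = A → ∃ a ∈ A, MulAut.conj g • H = MulAut.conj a • H) :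
    ∃ M : Subgroup G, IsCoatom M ∧ ¬ A ≤ M ∧ H ≤ M ∧
      ∀ y : G, MulAut.conj y • A = A → MulAut.conj y • H = H →
        MulAut.conj y • (M ⊓ A) = M ⊓ A := by
  classical
  let φ : Subgroup G → Subgroup G := fun B =>
    if B = A then H else if h : IsC A B then cj h.choose H else ⊥
  have hφ : ∀ B, IsC A B → ∃ g : G, cj g A = B ∧ φ B = cj g H := by
    intro B hB
    by_cases hBA : B = A
    · exact ⟨1, by rw [cj_one, hBA], by simp [φ, hBA, cj]⟩
    · refine ⟨hB.choose, hB.choose_spec, ?_⟩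
      simp only [φ, if_neg hBA, dif_pos hB]
  have hφA : φ A = H := by simp [φ]
  have hφle : ∀ B, IsC A B → φ B ≤ B := by
    intro B hB
    obtain ⟨g, hg, e⟩ := hφ B hB
    rw [e, ← hg]
    exact cj_mono hHA
  have hcon : ∀ B, IsC A B → ∀ g : G, cj g A = B → ∃ b ∈ B, cj b (φ B) = cj g H := by
    intro B hB g hg
    obtain ⟨g₀, hg₀, e⟩ := hφ B hB
    have h1 : cj (g₀⁻¹ * g) A = A := by
      rw [cj_mul, hg, ← hg₀, cj_inv_cj]
    obtain ⟨a, ha, ea⟩ := hinv _ h1
    refine ⟨g₀ * a * g₀⁻¹, ?_, ?_⟩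
    · rw [← hg₀]
      exact conj_mem_cj ha
    · have ea' : cj (g₀⁻¹ * g) H = cj a H := ea
      rw [e, ← cj_mul]
      have : g₀ * a * g₀⁻¹ * g₀ = g₀ * a := by group
      rw [this, cj_mul, ← ea', ← cj_mul]
      congr 1
      group
  let M₀ : Subgroup G :=
    { carrier := {g | ∀ B, IsC A B → cj g (φ B) = φ (cj g B)}
      mul_mem' := by
        intro g h hg hh B hB
        rw [cj_mul, hh B hB, hg _ (hB.cj h), ← cj_mul]
      one_mem' := by
        intro B _
        rw [cj_one, cj_one]
      inv_mem' := by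
        intro g hg B hB
        have := hg (cj g⁻¹ B) (hB.cj g⁻¹)
        rw [cj_cj_inv] at this
        rw [← this, cj_inv_cj] }
  have hM₀ : ∀ g, g ∈ M₀ ↔ ∀ B, IsC A B → cj g (φ B) = φ (cj g B) := fun g => Iff.rfl
  have hfac : ∀ g : G, ∃ l ∈ Subgroup.normalClosure (A : Set G), l⁻¹ * g ∈ M₀ := by
    intro g
    obtain ⟨l, hl, e⟩ := transport hA φ (fun B => cj g (φ (cj g⁻¹ B))) (by
      intro B hB
      refine ⟨hφle B hB, ?_⟩
      obtain ⟨k, hk, ek⟩ := hφ (cj g⁻¹ B) (hB.cj g⁻¹)
      have h1 : cj (g * k) A = B := by rw [cj_mul, hk, cj_cj_inv]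
      obtain ⟨b, hb, eb⟩ := hcon B hB (g * k) h1
      refine ⟨b, hb, ?_⟩
      rw [eb, cj_mul, ek])
    refine ⟨l, hl, ?_⟩
    rw [hM₀]
    intro B hB
    have h1 := e (cj g B) (hB.cj g)
    simp only [cj_inv_cj] at h1
    rw [cj_mul, ← h1, cj_inv_cj, cj_mul,
      inn_fix (Subgroup.inv_mem _ (closure_le_inn hA hl)) (hB.cj g)]
  -- elements of `A` normalising `H` are in `M₀`
  have hnorm : ∀ b ∈ A, cj b H = H → b ∈ M₀ := by
    intro h hh hhH
    rw [hM₀]
    intro B hB
    have hin : h ∈ inn A := le_inn hA hh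
    rw [inn_fix hin hB]
    by_cases hBA : A = B
    · subst hBA
      rw [hφA, hhH]
    · apply cj_eq_of_comm
      intro x hx
      exact comm_of_ne hA (isC_self A) hB hBA h hh x (hφle B hB hx)
  have hne : M₀ ≠ ⊤ := by
    intro htop
    obtain ⟨a, ha, hna⟩ := hnn
    have : a ∈ M₀ := htop ▸ Subgroup.mem_top a
    have := (hM₀ a).1 this A (isC_self A)
    rw [cj_of_mem ha, hφA] at this
    exact hna this
  obtain ⟨M, hM, hle⟩ := (eq_top_or_exists_le_coatom M₀).resolve_left hne
  have hAM : ¬ A ≤ M := by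
    intro hAM
    have hconj : ∀ g : G, cj g A ≤ M := by
      intro g
      obtain ⟨l, hl, hm⟩ := hfac g
      have h1 : cj (l⁻¹ * g) A ≤ M := by
        have := cj_mono (g := l⁻¹ * g) hAM
        rwa [cj_of_mem (hle hm)] at this
      rw [cj_mul, inn_fix (Subgroup.inv_mem _ (closure_le_inn hA hl)) ((isC_self A).cj g)] at h1
      exact h1
    have hL : Subgroup.normalClosure (A : Set G) ≤ M := by
      rw [Subgroup.normalClosure, Subgroup.closure_le]
      intro x hx
      obtain ⟨a, ha, hc⟩ := Group.mem_conjugatesOfSet_iff.1 hx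
      obtain ⟨g, hg⟩ := isConj_iff.1 hc
      have := conj_mem_cj (g := g) (B := A) ha
      rw [hg] at this
      exact hconj g this
    apply hM.1
    rw [Subgroup.eq_top_iff']
    intro g
    obtain ⟨l, hl, hm⟩ := hfac g
    have := M.mul_mem (hL hl) (hle hm)
    simpa using this
  refine ⟨M, hM, hAM, fun h hh => hle (hnorm h (hHA hh) (cj_of_mem hh)), ?_⟩
  intro y hyA hyH
  obtain ⟨l, hl, e⟩ := transport hA φ (fun B => cj y (φ (cj y⁻¹ B))) (by
    intro B hB
    refine ⟨hφle B hB, ?_⟩
    obtain ⟨k, hk, ek⟩ := hφ (cj y⁻¹ B) (hB.cj y⁻¹)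
    have h1 : cj (y * k) A = B := by rw [cj_mul, hk, cj_cj_inv]
    obtain ⟨b, hb, eb⟩ := hcon B hB (y * k) h1
    refine ⟨b, hb, ?_⟩
    rw [eb, cj_mul, ek])
  have hlm : l⁻¹ * y ∈ M₀ := by
    rw [hM₀]
    intro B hB
    have h1 := e (cj y B) (hB.cj y)
    simp only [cj_inv_cj] at h1
    rw [cj_mul, ← h1, cj_inv_cj, cj_mul,
      inn_fix (Subgroup.inv_mem _ (closure_le_inn hA hl)) (hB.cj y)]
  -- on `A` the element `l` acts as `b ∈ A` normalising `H`
  obtain ⟨b, hb, hbe⟩ := inn_cj (closure_le_inn hA hl) (isC_self A)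
  have hyA' : cj y⁻¹ A = A := by
    have h2 : cj y A = A := hyA
    conv_lhs => rw [← h2]
    exact cj_inv_cj y A
  have h3 : cj l H = H := by
    have h4 := e A (isC_self A)
    simp only [hyA', hφA] at h4
    rw [h4]
    exact hyH
  have hbH : cj b H = H := by
    rw [← hbe H hHA, h3]
  have hbM : b ∈ M := hle (hnorm b hb hbH)
  have h5 : cj y (M ⊓ A) = cj l (cj (l⁻¹ * y) (M ⊓ A)) := by
    rw [← cj_mul]
    congr 1
    group
  have h6 : cj (l⁻¹ * y) A = A := by
    rw [cj_mul, show cj y A = A from hyA,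
      inn_fix (Subgroup.inv_mem _ (closure_le_inn hA hl)) (isC_self A)]
  have h7 : cj (l⁻¹ * y) (M ⊓ A) = M ⊓ A := by
    rw [cj_inf, cj_of_mem (hle hlm), h6]
  change cj y (M ⊓ A) = M ⊓ A
  rw [h5, h7, hbe (M ⊓ A) inf_le_right, cj_inf, cj_of_mem hbM, cj_of_mem hb]

/-- the reduction -/
theorem exists_red {S : Type v} [Group S] [Finite S] [IsSimpleGroup S]
    (hS : ∃ x y : S, x * y ≠ y * x) (G : Type u) [Group G] [Finite G] (hG : MaxCompl G)
    (hSG : IsCompFactor S G) : ∃ X : Subgroup (MulAut S), Red S X := by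
  obtain ⟨K₀, hK₀, f, hf⟩ := compFactor_subnormal hSG
  obtain ⟨Q, _, _, hQ, A, ⟨e⟩, hA⟩ := reduction S hS G hG K₀ hK₀ f hf
  have key : ∀ c : S, (e ⟨((e.symm c : A) : Q), (e.symm c).2⟩) = c := by
    intro c; simp
  have hnormal : ∀ B : Subgroup S, B ≠ ⊤ → B ≠ ⊥ → ∃ a : S, MulAut.conj a • B ≠ B := by
    intro B hBt hBb
    by_contra hcon
    push Not at hcon
    have hN : B.Normal := by
      constructor
      intro x hx g
      have h1 := hcon g
      rw [← h1, mem_conj_smul]
      simpa [mul_assoc] using hx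
    rcases hN.eq_bot_or_eq_top with h | h
    · exact hBb h
    · exact hBt h
  refine ⟨Reduct.indA e ⊤, ?_, ?_⟩
  · intro a
    refine ⟨((e.symm a : A) : Q), Subgroup.mem_top _, conj_mem_smul (e.symm a).2, fun x x' hx => ?_⟩
    have h1 : x' = e.symm a * x * (e.symm a)⁻¹ := Subtype.ext (by simpa using hx)
    rw [h1, map_mul, map_mul, map_inv, MulEquiv.apply_symm_apply]
    rfl
  · intro H hH hH0 hinv
    have hnn := hnormal H hH hH0
    obtain ⟨M, hM, hAM, hHM, hfixM⟩ := exists_max' A (lift e H) hA (lift_le e _)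
      (L2.lift_conj_ne e hnn) (by
        intro g hg
        obtain ⟨a, ha⟩ := hinv (autOf e g hg) ⟨g, Subgroup.mem_top _, Reduct.relA_autOf e g hg⟩
        refine ⟨e.symm a, (e.symm a).2, ?_⟩
        rw [conj_smul_lift e g hg]
        change lift e (H.map (autOf e g hg).toMonoidHom) = _
        rw [conj_smul_lift_mem e (e.symm a).2, key]
        exact congrArg (lift e) ha)
    obtain ⟨R, hMR⟩ := exists_lift e (M ⊓ A) inf_le_right
    have hHR : H ≤ R := by
      rw [← lift_mono e, ← hMR]
      exact le_inf hHM (lift_le e _)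
    have hR : R ≠ ⊤ := by
      rintro rfl
      apply hAM
      rw [lift_top] at hMR
      rw [← hMR]
      exact inf_le_left
    obtain ⟨K, hK⟩ := hQ M hM
    have hR0 : R ≠ ⊥ := by
      rintro rfl
      exact hH0 (le_bot_iff.1 hHR)
    have hnnR := hnormal R hR hR0
    have hnnM : ∃ a ∈ A, MulAut.conj a • (M ⊓ A) ≠ M ⊓ A := by
      rw [hMR]
      exact L2.lift_conj_ne e hnnR
    -- elements of `Q` normalising `A` preserve the class of `R`
    have hclass : ∀ (y : Q) (σ : MulAut S), Reduct.RelA e y σ →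
        ∃ a : S, R.map σ.toMonoidHom = MulAut.conj a • R := by
      intro y σ hy
      obtain ⟨c, hc, h1⟩ := EY.image_trace hA hM hAM y (EY.isC_self A)
      have hyA : EY.cj y A = A := hy.1
      rw [hyA] at hc h1
      refine ⟨e ⟨c, hc⟩, ?_⟩
      have h2 : MulAut.conj y • (M ⊓ A) = MulAut.conj c • (M ⊓ A) := h1
      rw [hMR, Reduct.conj_smul_lift_relA e hy, conj_smul_lift_mem e hc] at h2
      exact lift_injective e h2
    refine ⟨R, Reduct.indA e K, ?_, hHR, hR, ?_, ?_, ?_, ?_, ?_⟩
    · rintro t ⟨y, hy, hr⟩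
      exact ⟨y, Subgroup.mem_top _, hr⟩
    · apply le_antisymm _ Subgroup.le_normalizer
      intro a ha
      have h1 : MulAut.conj a • R = R := by
        ext x
        rw [mem_conj_smul]
        have h2 := (Subgroup.mem_normalizer_iff.1 (inv_mem ha)) x
        rw [inv_inv] at h2
        exact h2.symm
      have h9 := normalizer_inf A hA M hM hAM hnnM (e.symm a) (e.symm a).2 (by
        rw [hMR, conj_smul_lift_mem e (e.symm a).2, key, h1])
      have h10 : ((e.symm a : A) : Q) ∈ M ⊓ A := ⟨h9, (e.symm a).2⟩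
      rw [hMR, mem_lift] at h10
      obtain ⟨_, h11⟩ := h10
      rwa [key] at h11
    · rintro t ⟨y, -, hr⟩
      exact hclass y t hr
    · intro a
      obtain ⟨y, hy, hyA, hyM⟩ := compl_transitive A hA M K hM hAM hnnM hK
        (e.symm a) (e.symm a).2
      refine ⟨autOf e y hyA, ⟨y, hy, Reduct.relA_autOf e y hyA⟩, ?_⟩
      rw [hMR, conj_smul_lift e y hyA, conj_smul_lift_mem e (e.symm a).2, key] at hyM
      exact lift_injective e hyM
    · intro p hp h
      have h4 := Reduct.prime_dvd_indA e K p hp h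
      have h5 := prime_dvd A hA M K hM hAM hnnM hK p hp h4
      rwa [L2.relIndex_MR e hMR] at h5
    · intro p hp h
      have hpf : Fact p.Prime := ⟨hp⟩
      by_contra hcon
      push Not at hcon
      have hd : p ∣ Nat.card K := by
        refine dvd_trans ?_ (relIndex_dvd_card A hA M K hM hAM hnnM hK)
        rw [L2.relIndex_MR e hMR]
        exact h
      refine no_prime_card A hA M K hM hAM hnnM hK p ?_ hd
      intro x hx hxA
      have hrel := Reduct.relA_autOf e x hxA
      have hpow : (autOf e x hxA : MulAut S) ^ p = 1 := by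
        have h1 := Reduct.relA_pow e hrel p
        rw [hx] at h1
        exact Reduct.relA_unique e h1 (Reduct.relA_one e)
      obtain ⟨a, ha⟩ := hcon (autOf e x hxA) ⟨x, Subgroup.mem_top _, hrel⟩ hpow
      refine ⟨e.symm a, (e.symm a).2, ?_⟩
      set a' : Q := ((e.symm a : A) : Q) with ha'
      have haA : MulAut.conj a' • A = A := conj_mem_smul (e.symm a).2
      -- `x` fixes `cj a' (lift H)`
      have h1 : MulAut.conj x • (MulAut.conj a' • lift e H) = MulAut.conj a' • lift e H := by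
        rw [conj_smul_lift_mem e (e.symm a).2, key, Reduct.conj_smul_lift_relA e hrel, ha]
      have h2 : MulAut.conj (a'⁻¹ * x * a') • lift e H = lift e H := by
        rw [map_mul, map_mul, map_inv, mul_smul, mul_smul, h1, inv_smul_smul]
      have h3 : MulAut.conj (a'⁻¹ * x * a') • A = A := by
        rw [map_mul, map_mul, map_inv, mul_smul, mul_smul, haA, hxA, inv_smul_eq_iff, haA]
      have h4 := hfixM _ h3 h2
      rw [map_mul, map_mul, map_inv, mul_smul, mul_smul, inv_smul_eq_iff] at h4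
      rw [map_mul, mul_smul]
      exact h4

end Pool.Agent.Work.MP_bc729a_al.LA
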