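import Pool.Agent.Work.MP_bc729a_al.LA.CntI

/-! # Module Step (M): small invariant subspaces

PROOF of `exists_step`. Choose `X` with `A ≤ X ≤ B`, `finrank X = finrank A + 1` and let `J = ⨆ i : Fin r, (σ ^ i) X`; by
`exists_span_orbit` `σ J = J`, and `A ≤ J ≤ B` (`σ^i A = A`, `σ^i B = B`: `col_pow_fix`), `finrank J ≤ finrank A + r`: adding one
`(σ^i) X` (which contains `A` and has dimension `finrank A + 1`, `finrank_orderIso`) to a subspace containing `A` raises the
dimension by at most one (`Submodule.finrank_sup_add_finrank_inf_eq`). Let `C` be invariant with `A < C ≤ J` of the least dimension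
(`J` is a candidate, `J ≠ A` as `X ≤ J`); `d = finrank C - finrank A`, `1 ≤ d ≤ r`. If `d = 1` done. Otherwise for each `k` with
`0 < k < d` the set `{U | A ≤ U ≤ C, finrank U = finrank A + k}` is `σ`-invariant and contains no fixed element (it would be an
invariant subspace strictly between), so by `exists_fix` `r` divides its cardinality `gb q d k` (`card_between`). By the last clause of
`Good`, `d = e`. -/

namespace Pool.Agent.Work.MP_bc729a_al.LA

open Pool.Agent.Work.MP_bc729a_al.LN

universe u v

variable {n : ℕ} {F : Type u} [Field F]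

private theorem exists_one_above {A B : Lat n F} (hAB : A < B) :
    ∃ X : Lat n F, A ≤ X ∧ X ≤ B ∧ Module.finrank F X = Module.finrank F A + 1 := by
  obtain ⟨b, hbB, hbA⟩ := SetLike.exists_of_lt hAB
  refine ⟨A ⊔ Submodule.span F {b}, le_sup_left, sup_le hAB.le ?_, ?_⟩
  · rw [Submodule.span_le]
    rintro x rfl
    exact hbB
  · have h1 : A < A ⊔ Submodule.span F {b} := by
      refine lt_of_le_of_ne le_sup_left ?_
      intro h
      apply hbA
      rw [h]
      exact (le_sup_right : Submodule.span F {b} ≤ A ⊔ Submodule.span F {b})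
        (Submodule.mem_span_singleton_self b)
    have h2 := Submodule.finrank_lt_finrank_of_lt h1
    have h3 := Submodule.finrank_add_le_finrank_add_finrank A (Submodule.span F {b})
    have h4 : Module.finrank F (Submodule.span F {b}) ≤ 1 := by
      have := finrank_span_le_card (R := F) ({b} : Set (Fin n → F))
      simpa using this
    omega

private theorem finrank_sup_le (A : Lat n F) {ι : Type} [DecidableEq ι] (Y : ι → Lat n F)
    (hY : ∀ i, A ≤ Y i) (hd : ∀ i, Module.finrank F (Y i) = Module.finrank F A + 1)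
    (s : Finset ι) : Module.finrank F ↥(A ⊔ s.sup Y) ≤ Module.finrank F A + s.card := by
  induction s using Finset.induction_on with
  | empty => rw [Finset.sup_empty, sup_bot_eq, Finset.card_empty, add_zero]
  | insert i s hi ih =>
    rw [Finset.sup_insert, Finset.card_insert_of_notMem hi, sup_left_comm]
    have h1 := Submodule.finrank_sup_add_finrank_inf_eq (Y i) (A ⊔ s.sup Y)
    have h2 : Module.finrank F A ≤ Module.finrank F ↥(Y i ⊓ (A ⊔ s.sup Y)) :=
      Submodule.finrank_mono (le_inf (hY i) le_sup_left)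
    have h3 := hd i
    omega

theorem exists_step [Finite F] {r e : ℕ} (hg : Good (Nat.card F) r e) {σ : Col n F}
    (hσ : σ ^ r = 1) {A B : Lat n F} (hA : σ A = A) (hB : σ B = B) (hAB : A < B) :
    ∃ C, σ C = C ∧ A < C ∧ C ≤ B ∧
      (Module.finrank F C = Module.finrank F A + 1 ∨
        Module.finrank F C = Module.finrank F A + e) := by
  classical
  obtain ⟨hrp, _, _, _, _, hlast⟩ := hg
  have hr := hrp.pos
  obtain ⟨X, hAX, hXB, hXd⟩ := exists_one_above hAB
  have hmono : ∀ (k : ℕ) {U V : Lat n F}, U ≤ V → (σ ^ k) U ≤ (σ ^ k) V := fun k U V h =>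
    (σ ^ k).monotone h
  let Y : Fin r → Lat n F := fun i => (σ ^ (i : ℕ)) X
  have hAY : ∀ i, A ≤ Y i := fun i => by
    have := hmono (i : ℕ) hAX
    rwa [col_pow_fix hA] at this
  have hYB : ∀ i, Y i ≤ B := fun i => by
    have := hmono (i : ℕ) hXB
    rwa [col_pow_fix hB] at this
  have hYd : ∀ i, Module.finrank F (Y i) = Module.finrank F A + 1 := fun i => by
    rw [← hXd]
    exact finrank_orderIso (σ ^ (i : ℕ)) X
  have hJ0 : (⨆ i : Fin r, (σ ^ (i : ℕ)) X) = A ⊔ (Finset.univ : Finset (Fin r)).sup Y := by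
    rw [Finset.sup_univ_eq_iSup]
    refine (sup_eq_right.2 ?_).symm
    exact (hAY ⟨0, hr⟩).trans (le_iSup Y ⟨0, hr⟩)
  set J : Lat n F := ⨆ i : Fin r, (σ ^ (i : ℕ)) X with hJ
  have hσJ : σ J = J := exists_span_orbit σ hσ hr X
  have hJB : J ≤ B := iSup_le hYB
  have hJd : Module.finrank F J ≤ Module.finrank F A + r := by
    have := finrank_sup_le A Y hAY hYd Finset.univ
    rw [hJ0]
    simpa using this
  have hXJ : X ≤ J := by
    have := le_iSup Y ⟨0, hr⟩
    simpa [Y] using this
  have hAJ : A < J := by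
    refine lt_of_le_of_ne (hAX.trans hXJ) ?_
    intro h
    have := Submodule.finrank_mono hXJ
    rw [← h] at this
    omega
  have hex : ∃ m : ℕ, ∃ C : Lat n F, (σ C = C ∧ A < C ∧ C ≤ J) ∧ Module.finrank F C = m :=
    ⟨_, J, ⟨hσJ, hAJ, le_rfl⟩, rfl⟩
  obtain ⟨C, ⟨hσC, hAC, hCJ⟩, hCm⟩ := Nat.find_spec hex
  have hmin : ∀ C' : Lat n F, σ C' = C' → A < C' → C' ≤ J →
      Module.finrank F C ≤ Module.finrank F C' := by
    intro C' h1 h2 h3
    rw [hCm]
    exact Nat.find_min' hex ⟨C', ⟨h1, h2, h3⟩, rfl⟩
  refine ⟨C, hσC, hAC, hCJ.trans hJB, ?_⟩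
  have hlt := Submodule.finrank_lt_finrank_of_lt hAC
  have hle := Submodule.finrank_mono hCJ
  by_cases hd1 : Module.finrank F C = Module.finrank F A + 1
  · exact Or.inl hd1
  · right
    have h5 : Module.finrank F C - Module.finrank F A = e := by
      refine hlast _ (by omega) (by omega) fun k hk0 hkd => ?_
      by_contra hnd
      rw [← card_between hAC.le k] at hnd
      obtain ⟨U, ⟨hU1, hU2, hU3⟩, hU⟩ := exists_fix hrp σ hσ
        (fun U => A ≤ U ∧ U ≤ C ∧ Module.finrank F U = Module.finrank F A + k)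
        (fun U hU => ⟨by
          have := σ.monotone hU.1
          rwa [hA] at this, by
          have := σ.monotone hU.2.1
          rwa [hσC] at this, by
          rw [finrank_orderIso]
          exact hU.2.2⟩) hnd
      have hAU : A < U := by
        refine lt_of_le_of_ne hU1 ?_
        rintro rfl
        omega
      have := hmin U hU hAU (hU2.trans hCJ)
      omega
    omega

end Pool.Agent.Work.MP_bc729a_al.LA
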