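import Pool.Agent.Work.MP_bc729a_al.LN.Gen

/-! # Module T3T (M): transvections with a special centre

Notation: `e_i` column vectors, `e_i*` row vectors, `k` the third index, `T(c, ψ) = 1 + c ⊗ ψ = 1 + vecMulVec c ψ` for `ψ ⬝ᵥ c = 0`. Facts:
`T(c, ψ) T(c, ψ') = T(c, ψ + ψ')`, `T(c, ψ) T(c', ψ) = T(c + c', ψ)` (if `ψ c' = 0`), `T(c, ψ)⁻¹ = T(c, -ψ)`,
`x T(c, ψ) x⁻¹ = T(x c, ψ x⁻¹)`, `T(c, ψ)^m = T(c, m ψ)`. `T(e_i, t e_j*)` is the elementary transvection
`SpecialLinearGroup.transvection hij t`, and if it is in `X` for one `t ≠ 0` then `X = ⊤` by `top_of_transvection`. The diagonal matrices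
with two entries `-1` and one entry `1` are in `monoSL 3 F ≤ X`.
`top_vertex`. `ψ = ψ_j e_j* + ψ_k e_k*`. Conjugate `g` by `diag(-1 at i, -1 at j)`: `T(-e_i, -ψ_j e_j* + ψ_k e_k*) = T(e_i, ψ_j e_j* - ψ_k e_k*)`;
the product with `g` is `T(e_i, 2 ψ_j e_j*)`. If `ψ_j ≠ 0` done, otherwise `g = T(e_i, ψ_k e_k*)` with `ψ_k ≠ 0`.
`top_side`. `c = e_i + s e_j`, `ψ_i + s ψ_j = 0`. (a) `ψ_k ≠ 0`: conjugating by `diag(-1 at i, -1 at j)` gives
`T(-c, -ψ_i e_i* - ψ_j e_j* + ψ_k e_k*) = T(c, ψ_i e_i* + ψ_j e_j* - ψ_k e_k*)`; `g` times its inverse is `t₁ = T(c, 2 ψ_k e_k*)`. Conjugating `t₁`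
by `diag(-1 at i, -1 at k)`: `T(-e_i + s e_j, -2 ψ_k e_k*) = T(e_i - s e_j, 2 ψ_k e_k*)`; the product with `t₁` is
`T(2 e_i, 2 ψ_k e_k*) = T(e_i, 4 ψ_k e_k*)`, done.
(b) `ψ_k = 0`: `ψ = l (s e_i* - e_j*)` with `l = - ψ_j ≠ 0`. Conjugating `g` by `diag(-1 at j, -1 at k)`: `g' = T(c', l (s e_i* + e_j*)) ∈ X`,
`c' = e_i - s e_j`. By `hp` there is `m` with `m l = 1 / (2 s)`; `t = g^m = T(c, (1/(2s)) (s e_i* - e_j*)) ∈ X` and
`t c' = c' + (1/(2s)) (s + s) c = c' + c = 2 e_i`. So `t g' t⁻¹ = T(2 e_i, l (s e_i* + e_j*) t⁻¹)` and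
`(s e_i* + e_j*) t⁻¹ = (s e_i* + e_j*) - (1/(2s)) ((s e_i* + e_j*) c) (s e_i* - e_j*) = (s e_i* + e_j*) - (s e_i* - e_j*) = 2 e_j*`, since
`(s e_i* + e_j*) c = 2 s`. So it is `T(e_i, 4 l e_j*)`, done. (`4 ≠ 0`.) -/

namespace Pool.Agent.Work.MP_bc729a_al.LA

open Pool.Agent.Work.MP_bc729a_al.LN

universe u v

open Matrix

variable {F : Type u} [Field F]

private lemma fin3_cases (i j k : Fin 3) (hij : i ≠ j) (hik : i ≠ k) (hjk : j ≠ k) (a : Fin 3) :
    a = i ∨ a = j ∨ a = k := by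
  decide +revert

private lemma sum3 {i j k : Fin 3} (hij : i ≠ j) (hik : i ≠ k) (hjk : j ≠ k) (f : Fin 3 → F) :
    ∑ a, f a = f i + f j + f k := by
  have h : (Finset.univ : Finset (Fin 3)) = {i, j, k} := by
    ext a
    simpa using fin3_cases i j k hij hik hjk a
  rw [h, Finset.sum_insert (by simp [hij, hik]), Finset.sum_insert (by simp [hjk]),
    Finset.sum_singleton]
  ring

private def eps (k : Fin 3) : Fin 3 → F := fun a => if a = k then 1 else -1

private lemma eps_self (k : Fin 3) : eps (F := F) k k = 1 := if_pos rfl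

private lemma eps_ne {k a : Fin 3} (h : a ≠ k) : eps (F := F) k a = -1 := if_neg h

private lemma eps_sq (k a : Fin 3) : eps (F := F) k a * eps k a = 1 := by
  unfold eps
  split_ifs <;> ring

private def dg (k : Fin 3) : SLn 3 F := ⟨Matrix.diagonal (eps k), by
  rw [Matrix.det_diagonal, Fin.prod_univ_three]
  fin_cases k <;> simp [eps]⟩

private lemma dg_mem (k : Fin 3) : dg (F := F) k ∈ monoSL 3 F := by
  refine ⟨1, fun a b h => ?_⟩
  by_contra hab
  exact h (Matrix.diagonal_apply_ne (eps (F := F) k) hab)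

private lemma conj_dg {X : Subgroup (SLn 3 F)} (hX : monoSL 3 F ≤ X) {g : SLn 3 F} (hg : g ∈ X)
    {c ψ : Fin 3 → F} (h : g.1 = 1 + vecMulVec c ψ) (k : Fin 3) :
    ∃ g' ∈ X, g'.1 = 1 + vecMulVec (fun a => eps k a * c a) (fun a => eps k a * ψ a) := by
  refine ⟨dg k * g * dg k, X.mul_mem (X.mul_mem (hX (dg_mem k)) hg) (hX (dg_mem k)), ?_⟩
  rw [sl_mul, sl_mul, h]
  change Matrix.diagonal (eps k) * (1 + vecMulVec c ψ) * Matrix.diagonal (eps k) = _
  ext a b
  rw [Matrix.mul_diagonal, Matrix.diagonal_mul, Matrix.add_apply, Matrix.add_apply,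
    Matrix.vecMulVec_apply, Matrix.vecMulVec_apply]
  by_cases hab : a = b
  · subst hab
    rw [Matrix.one_apply_eq]
    linear_combination eps_sq (F := F) k a
  · rw [Matrix.one_apply_ne hab]
    ring

private lemma mul_form {c ψ c' ψ' : Fin 3 → F} :
    (1 + vecMulVec c ψ) * (1 + vecMulVec c' ψ')
      = 1 + (vecMulVec c ψ + vecMulVec c' ψ' + (ψ ⬝ᵥ c') • vecMulVec c ψ') := by
  ext a b
  have h : (vecMulVec c ψ * vecMulVec c' ψ') a b = (ψ ⬝ᵥ c') * (c a * ψ' b) := by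
    rw [Matrix.mul_apply, dotProduct, Finset.sum_mul]
    refine Finset.sum_congr rfl fun x _ => ?_
    rw [Matrix.vecMulVec_apply, Matrix.vecMulVec_apply]
    ring
  rw [mul_add, add_mul (1 : Matrix (Fin 3) (Fin 3) F) (vecMulVec c ψ) (vecMulVec c' ψ'), mul_one,
    one_mul, Matrix.add_apply, Matrix.add_apply, Matrix.add_apply, h,
    Matrix.add_apply, Matrix.add_apply, Matrix.add_apply, Matrix.smul_apply, Matrix.vecMulVec_apply,
    Matrix.vecMulVec_apply, Matrix.vecMulVec_apply, smul_eq_mul]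
  ring

private lemma inv_form {g : SLn 3 F} {c ψ : Fin 3 → F} (h : g.1 = 1 + vecMulVec c ψ)
    (h0 : ψ ⬝ᵥ c = 0) : (g⁻¹).1 = 1 + vecMulVec c (-ψ) := by
  have h1 : g.1 * (1 + vecMulVec c (-ψ)) = 1 := by
    rw [h, mul_form, h0, zero_smul, add_zero]
    ext a b
    rw [Matrix.add_apply, Matrix.add_apply, Matrix.vecMulVec_apply, Matrix.vecMulVec_apply,
      Pi.neg_apply]
    ring
  calc (g⁻¹).1 = (g⁻¹).1 * (g.1 * (1 + vecMulVec c (-ψ))) := by rw [h1, mul_one]
    _ = ((g⁻¹).1 * g.1) * (1 + vecMulVec c (-ψ)) := by rw [mul_assoc]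
    _ = _ := by rw [sl_inv_mul, one_mul]

private lemma pow_form {g : SLn 3 F} {c ψ : Fin 3 → F} (h : g.1 = 1 + vecMulVec c ψ)
    (h0 : ψ ⬝ᵥ c = 0) (m : ℕ) : (g ^ m).1 = 1 + vecMulVec c ((m : F) • ψ) := by
  induction m with
  | zero =>
    ext a b
    simp
  | succ m ih =>
    rw [pow_succ, sl_mul, ih, h, mul_form]
    have h1 : ((m : F) • ψ) ⬝ᵥ c = 0 := by rw [smul_dotProduct, h0, smul_zero]
    rw [h1, zero_smul, add_zero]
    ext a b
    rw [Matrix.add_apply, Matrix.add_apply, Matrix.add_apply, Matrix.vecMulVec_apply,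
      Matrix.vecMulVec_apply, Matrix.vecMulVec_apply, Pi.smul_apply, Pi.smul_apply, smul_eq_mul,
      smul_eq_mul]
    push_cast
    ring

private lemma finish {X : Subgroup (SLn 3 F)} (hX : monoSL 3 F ≤ X) {g : SLn 3 F} (hg : g ∈ X)
    {i j : Fin 3} (hij : i ≠ j) {y : F} (hy : y ≠ 0)
    (h : ∀ a b, g.1 a b = (1 : Matrix (Fin 3) (Fin 3) F) a b + if a = i then
      (if b = j then y else 0) else 0) : X = ⊤ := by
  refine top_of_transvection (le_refl 3) hX hij hy ?_
  have : SpecialLinearGroup.transvection hij y = g := by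
    apply Subtype.ext
    ext a b
    rw [h a b]
    change (1 + Matrix.single i j y) a b = _
    rw [Matrix.add_apply]
    congr 1
    by_cases ha : a = i
    · subst ha
      by_cases hb : b = j
      · subst hb
        simp
      · rw [if_pos rfl, if_neg hb]
        exact Matrix.single_apply_of_col_ne _ _ (Ne.symm hb) _
    · rw [if_neg ha]
      exact Matrix.single_apply_of_row_ne (Ne.symm ha) _ _ _
  rw [this]
  exact hg

theorem top_vertex (h2 : (2 : F) ≠ 0) {X : Subgroup (SLn 3 F)} (hX : monoSL 3 F ≤ X)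
    {g : SLn 3 F} (hg : g ∈ X) {i : Fin 3} {ψ : Fin 3 → F} (hψ : ψ ≠ 0) (hψi : ψ i = 0)
    (h : g.1 = 1 + vecMulVec (Pi.single i 1) ψ) : X = ⊤ := by
  obtain ⟨j, hj⟩ : ∃ j, ψ j ≠ 0 := by
    by_contra hc
    push Not at hc
    exact hψ (funext hc)
  have hij : i ≠ j := by
    rintro rfl
    exact hj hψi
  obtain ⟨k, hki, hkj⟩ := exists_third (le_refl 3) i j
  obtain ⟨g', hg', h'⟩ := conj_dg hX hg h k
  have hdot : ψ ⬝ᵥ (fun a => eps k a * (Pi.single i (1 : F) : Fin 3 → F) a) = 0 := by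
    rw [dotProduct]
    refine Finset.sum_eq_zero fun a _ => ?_
    by_cases ha : a = i
    · subst ha
      rw [hψi, zero_mul]
    · rw [Pi.single_eq_of_ne ha]
      ring
  refine finish hX (X.mul_mem hg hg') hij (y := 2 * ψ j) (mul_ne_zero h2 hj) ?_
  intro a b
  rw [sl_mul, h, h', mul_form, hdot, zero_smul, add_zero, Matrix.add_apply, Matrix.add_apply,
    Matrix.vecMulVec_apply, Matrix.vecMulVec_apply]
  congr 1
  by_cases ha : a = i
  · subst ha
    rw [Pi.single_eq_same, if_pos rfl, eps_ne (Ne.symm hki)]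
    rcases fin3_cases a j k hij (Ne.symm hki) (Ne.symm hkj) b with rfl | rfl | rfl
    · rw [hψi, if_neg hij]
      ring
    · rw [if_pos rfl, eps_ne (Ne.symm hkj)]
      ring
    · rw [if_neg hkj, eps_self]
      ring
  · rw [Pi.single_eq_of_ne ha, if_neg ha]
    ring

theorem top_side (h2 : (2 : F) ≠ 0) (hp : ∀ x : F, ∃ m : ℕ, (m : F) = x)
    {X : Subgroup (SLn 3 F)} (hX : monoSL 3 F ≤ X)
    {g : SLn 3 F} (hg : g ∈ X) {i j : Fin 3} (hij : i ≠ j) {s : F} (hs : s ≠ 0)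
    {ψ : Fin 3 → F} (hψ : ψ ≠ 0) (hψi : ψ i + s * ψ j = 0)
    (h : g.1 = 1 + vecMulVec (Pi.single i 1 + s • Pi.single j 1) ψ) : X = ⊤ := by
  obtain ⟨k, hki, hkj⟩ := exists_third (le_refl 3) i j
  have hik := Ne.symm hki
  have hjk := Ne.symm hkj
  have h4 : (4 : F) ≠ 0 := by
    have : (4 : F) = 2 * 2 := by norm_num
    rw [this]
    exact mul_ne_zero h2 h2
  obtain ⟨c, hc⟩ : ∃ c : Fin 3 → F, c = Pi.single i 1 + s • Pi.single j 1 := ⟨_, rfl⟩
  rw [← hc] at h
  have hci : c i = 1 := by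
    rw [hc, Pi.add_apply, Pi.single_eq_same, Pi.smul_apply, Pi.single_eq_of_ne hij]
    simp
  have hcj : c j = s := by
    rw [hc, Pi.add_apply, Pi.single_eq_of_ne (Ne.symm hij), Pi.smul_apply, Pi.single_eq_same]
    simp
  have hck : c k = 0 := by
    rw [hc, Pi.add_apply, Pi.single_eq_of_ne hki, Pi.smul_apply, Pi.single_eq_of_ne hkj]
    simp
  have hψc : ψ ⬝ᵥ c = 0 := by
    rw [dotProduct, sum3 hij hik hjk, hci, hcj, hck]
    linear_combination hψi
  have cases3 := fin3_cases i j k hij hik hjk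
  by_cases hk : ψ k = 0
  · -- case (b)
    have hψj : ψ j ≠ 0 := by
      intro hj
      apply hψ
      funext a
      rcases cases3 a with rfl | rfl | rfl
      · rw [hj, mul_zero, add_zero] at hψi
        exact hψi
      · exact hj
      · exact hk
    obtain ⟨g', hg', h'⟩ := conj_dg hX hg h i
    obtain ⟨m, hm⟩ := hp (-(1 / (2 * s * ψ j)))
    have ht := pow_form h hψc m
    have hmψ : ((m : F) • ψ) ⬝ᵥ c = 0 := by rw [smul_dotProduct, hψc, smul_zero]
    have hti := inv_form ht hmψ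
    have hmj : (m : F) * ψ j = -(1 / (2 * s)) := by
      rw [hm]
      field_simp
    have hmi : (m : F) * ψ i = 1 / 2 := by
      have : ψ i = -(s * ψ j) := by linear_combination hψi
      rw [this]
      have h3 : (m : F) * -(s * ψ j) = -(s * (m * ψ j)) := by ring
      rw [h3, hmj]
      field_simp
    refine finish hX (X.mul_mem (X.mul_mem (X.pow_mem hg m) hg') (X.inv_mem (X.pow_mem hg m))) hij
      (y := -(4 * ψ j)) (neg_ne_zero.2 (mul_ne_zero h4 hψj)) ?_
    obtain ⟨μ, hμ⟩ : ∃ μ : Fin 3 → F, μ = (m : F) • ψ := ⟨_, rfl⟩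
    rw [← hμ] at ht hti hmψ
    have hμi : μ i = 1 / 2 := by rw [hμ, Pi.smul_apply, smul_eq_mul, hmi]
    have hμj : μ j = -(1 / (2 * s)) := by rw [hμ, Pi.smul_apply, smul_eq_mul, hmj]
    have hμk : μ k = 0 := by rw [hμ, Pi.smul_apply, smul_eq_mul, hk, mul_zero]
    obtain ⟨c', hc'⟩ : ∃ c' : Fin 3 → F, c' = fun a => eps i a * c a := ⟨_, rfl⟩
    obtain ⟨ψ', hψ'⟩ : ∃ ψ' : Fin 3 → F, ψ' = fun a => eps i a * ψ a := ⟨_, rfl⟩
    rw [← hc', ← hψ'] at h'
    have hc'i : c' i = 1 := by rw [hc']; simp [eps_self, hci]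
    have hc'j : c' j = -s := by rw [hc']; simp [eps_ne (Ne.symm hij), hcj]
    have hc'k : c' k = 0 := by rw [hc']; simp [hck]
    have hψ'i : ψ' i = ψ i := by rw [hψ']; simp [eps_self]
    have hψ'j : ψ' j = -ψ j := by rw [hψ']; simp [eps_ne (Ne.symm hij)]
    have hψ'k : ψ' k = 0 := by rw [hψ']; simp [hk]
    have hd1 : μ ⬝ᵥ c' = 1 := by
      rw [dotProduct, sum3 hij hik hjk, hμi, hμj, hμk, hc'i, hc'j, hc'k]
      field_simp
      ring
    have hd2 : ψ' ⬝ᵥ c = ψ i - s * ψ j := by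
      rw [dotProduct, sum3 hij hik hjk, hψ'i, hψ'j, hψ'k, hci, hcj, hck]
      ring
    have hprod : (g ^ m * g' * (g ^ m)⁻¹).1
        = 1 + vecMulVec (c + c') (ψ' - (ψ i - s * ψ j) • μ) := by
      have e1 : (g ^ m * g').1 = (1 + vecMulVec c μ) + vecMulVec (c + c') ψ' := by
        rw [sl_mul, ht, h', mul_form, hd1, one_smul]
        ext a b
        simp only [Matrix.add_apply, Matrix.vecMulVec_apply, Pi.add_apply]
        ring
      rw [sl_mul, e1, hti, add_mul]
      have e2 : (1 + vecMulVec c μ) * (1 + vecMulVec c (-μ)) = 1 := by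
        rw [mul_form, hmψ, zero_smul, add_zero]
        ext a b
        rw [Matrix.add_apply, Matrix.add_apply, Matrix.vecMulVec_apply, Matrix.vecMulVec_apply,
          Pi.neg_apply]
        ring
      rw [e2]
      congr 1
      have e3 : vecMulVec (c + c') ψ' * vecMulVec c (-μ)
          = (ψ' ⬝ᵥ c) • vecMulVec (c + c') (-μ) := by
        ext a b
        rw [Matrix.mul_apply, Matrix.smul_apply, Matrix.vecMulVec_apply, dotProduct, smul_eq_mul,
          Finset.sum_mul]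
        refine Finset.sum_congr rfl fun x _ => ?_
        rw [Matrix.vecMulVec_apply, Matrix.vecMulVec_apply]
        ring
      rw [mul_add, mul_one, e3, hd2]
      ext a b
      rw [Matrix.add_apply, Matrix.smul_apply, Matrix.vecMulVec_apply, Matrix.vecMulVec_apply,
        Matrix.vecMulVec_apply, Pi.neg_apply, Pi.sub_apply, Pi.smul_apply, smul_eq_mul, smul_eq_mul]
      ring
    intro a b
    rw [hprod, Matrix.add_apply, Matrix.vecMulVec_apply, Pi.add_apply, Pi.sub_apply, Pi.smul_apply,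
      smul_eq_mul]
    congr 1
    have hψi' : ψ i = -(s * ψ j) := by linear_combination hψi
    rcases cases3 a with rfl | rfl | rfl
    · rw [if_pos rfl, hci, hc'i]
      rcases cases3 b with rfl | rfl | rfl
      · rw [if_neg hij, hψ'i, hμi, hψi']
        field_simp
        ring
      · rw [if_pos rfl, hψ'j, hμj, hψi']
        field_simp
        ring
      · rw [if_neg hkj, hψ'k, hμk]
        ring
    · rw [if_neg (Ne.symm hij), hcj, hc'j]
      ring
    · rw [if_neg hki, hck, hc'k]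
      ring
  · -- case (a)
    obtain ⟨g', hg', h'⟩ := conj_dg hX hg h k
    have hg'2 : g'.1 = 1 + vecMulVec c (fun a => -(eps k a * ψ a)) := by
      rw [h']
      congr 1
      ext a b
      rw [Matrix.vecMulVec_apply, Matrix.vecMulVec_apply]
      rcases cases3 a with rfl | rfl | rfl
      · rw [eps_ne hik]; ring
      · rw [eps_ne hjk]; ring
      · rw [hck]; ring
    have hd : (fun a => -(eps k a * ψ a)) ⬝ᵥ c = 0 := by
      rw [dotProduct, sum3 hij hik hjk, hci, hcj, hck, eps_ne hik, eps_ne hjk]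
      linear_combination hψi
    have hinv := inv_form hg'2 hd
    have ht1 : (g * g'⁻¹).1 = 1 + vecMulVec c (Pi.single k (2 * ψ k)) := by
      rw [sl_mul, h, hinv, mul_form, hψc, zero_smul, add_zero]
      congr 1
      ext a b
      rw [Matrix.add_apply, Matrix.vecMulVec_apply, Matrix.vecMulVec_apply, Matrix.vecMulVec_apply,
        Pi.neg_apply]
      rcases cases3 b with rfl | rfl | rfl
      · rw [eps_ne hik, Pi.single_eq_of_ne hik]; ring
      · rw [eps_ne hjk, Pi.single_eq_of_ne hjk]; ring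
      · rw [eps_self, Pi.single_eq_same]; ring
    have hm1 : g * g'⁻¹ ∈ X := X.mul_mem hg (X.inv_mem hg')
    obtain ⟨t2, ht2X, ht2⟩ := conj_dg hX hm1 ht1 j
    have hd2 : (Pi.single k (2 * ψ k) : Fin 3 → F) ⬝ᵥ (fun a => eps j a * c a) = 0 := by
      rw [dotProduct, sum3 hij hik hjk, Pi.single_eq_of_ne hik, Pi.single_eq_of_ne hjk, hck]
      ring
    refine finish hX (X.mul_mem hm1 ht2X) hik (y := 4 * ψ k) (mul_ne_zero h4 hk) ?_
    intro a b
    rw [sl_mul, ht1, ht2, mul_form, hd2, zero_smul, add_zero, Matrix.add_apply, Matrix.add_apply,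
      Matrix.vecMulVec_apply, Matrix.vecMulVec_apply]
    congr 1
    rcases cases3 b with rfl | rfl | rfl
    · rw [Pi.single_eq_of_ne hik, if_neg hik]
      simp
    · rw [Pi.single_eq_of_ne hjk, if_neg hjk]
      simp
    · rw [Pi.single_eq_same, if_pos rfl, eps_ne hkj]
      rcases cases3 a with rfl | rfl | rfl
      · rw [if_pos rfl, hci, eps_ne hij]; ring
      · rw [if_neg (Ne.symm hij), hcj, eps_self]; ring
      · rw [if_neg hki, hck]; ring

end Pool.Agent.Work.MP_bc729a_al.LA
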