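import Pool.Agent.Work.MP_bc729a_al.LA.T3H
import Pool.Agent.Work.MP_bc729a_al.LA.T3T

/-! # Module T3C (M): centres of involutions in an overgroup of the monomial group

`cset_hom`: `vertex_hom` or `side_hom` for the base vector, then `hom_conj` and `hom_smul`.
`cset_unique`. `v = c (x u)`. By `hom_prod` `(g g').1 = 1 + vecMulVec v ψ` with `ψ = (2/(φ' v)) φ' - (2/(φ v)) φ`, `ψ v = 2 - 2 = 0`. If `ψ = 0`
then `φ' = ((φ' v)/(φ v)) φ`. If `ψ ≠ 0` conjugate by `x⁻¹ ∈ X`: `x⁻¹ (g g') x = 1 + vecMulVec (x⁻¹ v) (ψ x) = 1 + vecMulVec u (c ψ x) ∈ X`,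
`c ψ x ≠ 0`, orthogonal to `u`; `top_vertex` or `top_side` gives `X = ⊤`, contradiction.
`cset_symm`. `g.1 w = - w` (`hom_mulVec`, `φ w = 0`). `g g' g⁻¹` is `IsHom` with centre `-w` (so with centre `w`) and axis form `χ g⁻¹`
(`hom_conj`, `hom_smul`), it is in `X`, so by `cset_unique` `χ g⁻¹ = c χ`, i.e. `χ = c (χ g)` for some `c ≠ 0`. Evaluate at `w`:
`χ w = c (χ (g w)) = - c χ w`, `χ w ≠ 0`, so `c = -1`, `χ (g y) = - χ y` for all `y`. For `y = v`, `g v = v` (`hom_mulVec`):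
`χ v = - χ v`, so `χ v = 0` as `2 ≠ 0`.
`cset_of_zero`: a nonzero vector with a zero coordinate is a multiple of `e_i` or of `e_i + s e_j`, take `x = 1`.
`cset_mulVec`: clear. -/

namespace Pool.Agent.Work.MP_bc729a_al.LA

open Pool.Agent.Work.MP_bc729a_al.LN

universe u v

open Matrix

variable {F : Type u} [Field F]

/-- the vertices and the points on the sides of the coordinate triangle -/
def IsBase (u : Fin 3 → F) : Prop :=
  (∃ i, u = Pi.single i 1) ∨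
    ∃ (i j : Fin 3) (s : F), i ≠ j ∧ s ≠ 0 ∧ u = Pi.single i 1 + s • Pi.single j 1

/-- images of base points under `X` -/
def Cset (X : Subgroup (SLn 3 F)) (v : Fin 3 → F) : Prop :=
  ∃ x ∈ X, ∃ u, IsBase u ∧ ∃ c : F, c ≠ 0 ∧ v = c • (x.1 *ᵥ u)

theorem cset_hom (h2 : (2 : F) ≠ 0) {X : Subgroup (SLn 3 F)} (hX : monoSL 3 F ≤ X)
    {v : Fin 3 → F} (hv : Cset X v) : ∃ g ∈ X, ∃ φ, IsHom g v φ := by
  obtain ⟨x, hx, u, hu, c, hc, rfl⟩ := hv
  obtain ⟨g, hg, φ, h⟩ : ∃ g ∈ X, ∃ φ, IsHom g u φ := by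
    rcases hu with ⟨i, rfl⟩ | ⟨i, j, s, hij, hs, rfl⟩
    · obtain ⟨g, hg, h⟩ := vertex_hom (F := F) i
      exact ⟨g, hX hg, _, h⟩
    · obtain ⟨g, hg, h⟩ := side_hom h2 hij hs
      exact ⟨g, hX hg, _, h⟩
  refine ⟨x * g * x⁻¹, X.mul_mem (X.mul_mem hx hg) (X.inv_mem hx), φ ᵥ* (x⁻¹).1, ?_⟩
  have h3 := hom_smul (hom_conj h x) hc one_ne_zero
  rwa [one_smul] at h3

theorem cset_unique (h2 : (2 : F) ≠ 0) (hp : ∀ x : F, ∃ m : ℕ, (m : F) = x)
    {X : Subgroup (SLn 3 F)} (hX : monoSL 3 F ≤ X) (hXt : X ≠ ⊤) {v : Fin 3 → F}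
    (hv : Cset X v) {g g' : SLn 3 F} (hg : g ∈ X) (hg' : g' ∈ X) {φ φ' : Fin 3 → F}
    (h : IsHom g v φ) (h' : IsHom g' v φ') : ∃ c : F, c ≠ 0 ∧ φ' = c • φ := by
  obtain ⟨x, hx, u, hu, c, hc, hv⟩ := hv
  obtain ⟨ψ, hψ⟩ : ∃ ψ : Fin 3 → F, ψ = (2 / (φ' ⬝ᵥ v)) • φ' - (2 / (φ ⬝ᵥ v)) • φ := ⟨_, rfl⟩
  have hprod := hom_prod h h'
  rw [← hψ] at hprod
  have h3 := h.1
  have h3' := h'.1
  by_cases h0 : ψ = 0
  · refine ⟨(φ' ⬝ᵥ v) / (φ ⬝ᵥ v), div_ne_zero h3' h3, ?_⟩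
    rw [h0] at hψ
    have h4 : (2 / (φ' ⬝ᵥ v)) • φ' = (2 / (φ ⬝ᵥ v)) • φ := sub_eq_zero.1 hψ.symm
    have key : ∀ p q a b : F, p ≠ 0 → q ≠ 0 → 2 / q * a = 2 / p * b → a = q / p * b := by
      intro p q a b hp hq hab
      calc a = q / 2 * (2 / q * a) := by field_simp
        _ = q / 2 * (2 / p * b) := by rw [hab]
        _ = q / p * b := by field_simp
    ext a
    exact key _ _ _ _ h3 h3' (congrFun h4 a)
  · exfalso
    apply hXt
    have hψv : ψ ⬝ᵥ v = 0 := by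
      rw [hψ, sub_dotProduct, smul_dotProduct, smul_dotProduct, smul_eq_mul, smul_eq_mul,
        div_mul_cancel₀ _ h3, div_mul_cancel₀ _ h3', sub_self]
    have hy : x⁻¹ * (g * g') * x ∈ X :=
      X.mul_mem (X.mul_mem (X.inv_mem hx) (X.mul_mem hg hg')) hx
    have hxv : (x⁻¹).1 *ᵥ v = c • u := by
      rw [hv, mulVec_smul, mulVec_mulVec, sl_inv_mul, one_mulVec]
    have hyv : (x⁻¹ * (g * g') * x).1 = 1 + vecMulVec u (c • (ψ ᵥ* x.1)) := by
      rw [sl_mul, sl_mul, hprod, Matrix.mul_add, Matrix.add_mul, mul_one, sl_inv_mul,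
        mul_vecMulVec, vecMulVec_mul, hxv]
      congr 1
      ext a b
      simp only [vecMulVec_apply, Pi.smul_apply, smul_eq_mul]
      ring
    have hne : c • (ψ ᵥ* x.1) ≠ 0 := by
      intro h6
      apply h0
      have h7 : ψ ᵥ* x.1 = 0 := (smul_eq_zero.1 h6).resolve_left hc
      calc ψ = (ψ ᵥ* x.1) ᵥ* (x⁻¹).1 := by rw [vecMul_vecMul, sl_mul_inv, vecMul_one]
        _ = 0 := by rw [h7, zero_vecMul]
    have hort : (c • (ψ ᵥ* x.1)) ⬝ᵥ u = 0 := by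
      have h8 : ψ ⬝ᵥ v = c * (ψ ⬝ᵥ (x.1 *ᵥ u)) := by rw [hv, dotProduct_smul, smul_eq_mul]
      rw [smul_dotProduct, ← dotProduct_mulVec, smul_eq_mul, ← h8, hψv]
    rcases hu with ⟨i, hi⟩ | ⟨i, j, s, hij, hs, hu⟩
    · refine top_vertex h2 hX hy hne ?_ (by rw [hyv, hi])
      rw [hi, dotProduct_single, mul_one] at hort
      exact hort
    · refine top_side h2 hp hX hy hij hs hne ?_ (by rw [hyv, hu])
      rw [hu, dotProduct_add, dotProduct_smul, dotProduct_single, dotProduct_single, mul_one,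
        mul_one, smul_eq_mul] at hort
      exact hort

theorem cset_symm (h2 : (2 : F) ≠ 0) (hp : ∀ x : F, ∃ m : ℕ, (m : F) = x)
    {X : Subgroup (SLn 3 F)} (hX : monoSL 3 F ≤ X) (hXt : X ≠ ⊤) {v w : Fin 3 → F}
    (hv : Cset X v) (hw : Cset X w) {g g' : SLn 3 F} (hg : g ∈ X) (hg' : g' ∈ X)
    {φ χ : Fin 3 → F} (h : IsHom g v φ) (h' : IsHom g' w χ) (h0 : φ ⬝ᵥ w = 0) : χ ⬝ᵥ v = 0 := by
  have hg1 : g.1 *ᵥ w = -w := by rw [hom_mulVec h, h0, mul_zero, zero_smul, zero_sub]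
  have hgv : g.1 *ᵥ v = v := by
    rw [hom_mulVec h, div_mul_cancel₀ _ h.1, two_smul, add_sub_cancel_right]
  have h3 := hom_conj h' g
  rw [hg1] at h3
  have h4 := hom_smul h3 (a := -1) (b := 1) (neg_ne_zero.2 one_ne_zero) one_ne_zero
  rw [neg_smul, one_smul, neg_neg, one_smul] at h4
  obtain ⟨c, hc, h5⟩ := cset_unique h2 hp hX hXt hw hg'
    (X.mul_mem (X.mul_mem hg hg') (X.inv_mem hg)) h' h4
  have h6 : χ = c • (χ ᵥ* g.1) := by
    calc χ = (χ ᵥ* (g⁻¹).1) ᵥ* g.1 := by rw [vecMul_vecMul, sl_inv_mul, vecMul_one]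
      _ = c • (χ ᵥ* g.1) := by rw [h5, smul_vecMul]
  have h7 : ∀ y, χ ⬝ᵥ y = c * (χ ⬝ᵥ (g.1 *ᵥ y)) := fun y => by
    calc χ ⬝ᵥ y = (c • (χ ᵥ* g.1)) ⬝ᵥ y := by rw [← h6]
      _ = c * (χ ⬝ᵥ (g.1 *ᵥ y)) := by rw [smul_dotProduct, ← dotProduct_mulVec, smul_eq_mul]
  have h8 := h7 w
  rw [hg1, dotProduct_neg] at h8
  have h9 : (1 + c) * (χ ⬝ᵥ w) = 0 := by linear_combination h8
  have h10 : 1 + c = 0 := (mul_eq_zero.1 h9).resolve_right h'.1
  have h11 := h7 v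
  rw [hgv] at h11
  have h12 : 2 * (χ ⬝ᵥ v) = 0 := by linear_combination h11 + (χ ⬝ᵥ v) * h10
  exact (mul_eq_zero.1 h12).resolve_left h2

theorem cset_of_zero {X : Subgroup (SLn 3 F)} {w : Fin 3 → F} (hw : w ≠ 0) {i : Fin 3}
    (hi : w i = 0) : Cset X w := by
  have hdec : ∀ i : Fin 3, ∃ j k : Fin 3, j ≠ k ∧ ∀ a : Fin 3, a = i ∨ a = j ∨ a = k := by
    decide
  obtain ⟨j, k, hjk, hall⟩ := hdec i
  have hone : (1 : SLn 3 F).1 = 1 := rfl
  refine ⟨1, X.one_mem, ?_⟩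
  by_cases hj : w j = 0
  · have hk : w k ≠ 0 := by
      intro hk
      apply hw
      ext a
      rcases hall a with h | h | h <;> rw [h] <;> assumption
    refine ⟨Pi.single k 1, Or.inl ⟨k, rfl⟩, w k, hk, ?_⟩
    rw [hone, one_mulVec]
    ext a
    rw [Pi.smul_apply, Pi.single_apply, smul_eq_mul]
    by_cases hak : a = k
    · rw [if_pos hak, hak, mul_one]
    · rw [if_neg hak, mul_zero]
      rcases hall a with h | h | h
      · rw [h, hi]
      · rw [h, hj]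
      · exact absurd h hak
  · by_cases hk : w k = 0
    · refine ⟨Pi.single j 1, Or.inl ⟨j, rfl⟩, w j, hj, ?_⟩
      rw [hone, one_mulVec]
      ext a
      rw [Pi.smul_apply, Pi.single_apply, smul_eq_mul]
      by_cases haj : a = j
      · rw [if_pos haj, haj, mul_one]
      · rw [if_neg haj, mul_zero]
        rcases hall a with h | h | h
        · rw [h, hi]
        · exact absurd h haj
        · rw [h, hk]
    · refine ⟨Pi.single j 1 + (w k / w j) • Pi.single k 1,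
        Or.inr ⟨j, k, w k / w j, hjk, div_ne_zero hk hj, rfl⟩, w j, hj, ?_⟩
      rw [hone, one_mulVec]
      ext a
      rw [Pi.smul_apply, Pi.add_apply, Pi.smul_apply, Pi.single_apply, Pi.single_apply,
        smul_eq_mul, smul_eq_mul]
      by_cases haj : a = j
      · have hak : ¬ a = k := fun h => hjk (haj.symm.trans h)
        rw [if_pos haj, if_neg hak, haj]
        ring
      · by_cases hak : a = k
        · rw [if_neg haj, if_pos hak, hak]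
          field_simp
          ring
        · rw [if_neg haj, if_neg hak]
          rcases hall a with h | h | h
          · rw [h, hi]
            ring
          · exact absurd h haj
          · exact absurd h hak

theorem cset_mulVec {X : Subgroup (SLn 3 F)} {x : SLn 3 F} (hx : x ∈ X) {v : Fin 3 → F}
    (hv : Cset X v) : Cset X (x.1 *ᵥ v) := by
  obtain ⟨y, hy, u, hu, c, hc, rfl⟩ := hv
  refine ⟨x * y, X.mul_mem hx hy, u, hu, c, hc, ?_⟩
  rw [sl_mul, mulVec_smul, mulVec_mulVec]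

end Pool.Agent.Work.MP_bc729a_al.LA
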