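import Pool.Agent.Work.MP_bc729a_al.LN.Final

/-! # Module T3H (S-M): the involutions of `SL_3(F)` with a given centre and axis

Direct matrix computations. With `a = 2 / (φ ⬝ᵥ v)` and `E = vecMulVec v φ`: `g.1 = a E - 1`.
`hom_conj`: `x E x⁻¹ = vecMulVec (x v) (φ x⁻¹)`, `(φ x⁻¹) ⬝ᵥ (x v) = φ ⬝ᵥ v`.
`hom_prod`: `E E' = (φ ⬝ᵥ v) E'`, so `(a E - 1) (a' E' - 1) = 2 a' E' - a E - a' E' + 1`.
`vertex_hom`, `side_hom`: the matrix `a E - 1` has determinant `1`: for a `3 × 3` matrix `det (a E - 1) = - det (1 - a E) = -(1 - 2)`, or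
compute the determinant of the explicit matrix (`Matrix.det_fin_three`, `fin_cases` on `i, j`). It is monomial: for the vertex it is
`diag` with `1` in place `i` and `-1` elsewhere; for the side, with `k` the third index, the entries `(i,i)`, `(j,j)` are `0`, `(i,j)` is
`s⁻¹`, `(j,i)` is `s`, `(k,k)` is `-1`, the permutation is `swap i j`. -/

namespace Pool.Agent.Work.MP_bc729a_al.LA

open Pool.Agent.Work.MP_bc729a_al.LN

universe u v

open Matrix

variable {F : Type u} [Field F]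

/-- `g` is the involution with centre `v` and axis `ker φ` -/
def IsHom (g : SLn 3 F) (v φ : Fin 3 → F) : Prop :=
  φ ⬝ᵥ v ≠ 0 ∧ g.1 = (2 / (φ ⬝ᵥ v)) • vecMulVec v φ - 1

theorem hom_mulVec {g : SLn 3 F} {v φ : Fin 3 → F} (h : IsHom g v φ) (w : Fin 3 → F) :
    g.1 *ᵥ w = (2 / (φ ⬝ᵥ v) * (φ ⬝ᵥ w)) • v - w := by
  have h1 : vecMulVec v φ *ᵥ w = (φ ⬝ᵥ w) • v := by
    ext i
    simp only [mulVec, dotProduct, vecMulVec_apply, Pi.smul_apply, smul_eq_mul, Finset.sum_mul]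
    exact Finset.sum_congr rfl fun j _ => by ring
  rw [h.2, sub_mulVec, one_mulVec, smul_mulVec, h1, smul_smul]

theorem hom_conj {g : SLn 3 F} {v φ : Fin 3 → F} (h : IsHom g v φ) (x : SLn 3 F) :
    IsHom (x * g * x⁻¹) (x.1 *ᵥ v) (φ ᵥ* (x⁻¹).1) := by
  have h1 : (φ ᵥ* (x⁻¹).1) ⬝ᵥ (x.1 *ᵥ v) = φ ⬝ᵥ v := by
    rw [← dotProduct_mulVec, mulVec_mulVec, sl_inv_mul, one_mulVec]
  refine ⟨by rw [h1]; exact h.1, ?_⟩
  rw [h1, sl_mul, sl_mul, h.2, Matrix.mul_sub, Matrix.sub_mul, mul_one, sl_mul_inv,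
    Matrix.mul_smul, Matrix.smul_mul, mul_vecMulVec, vecMulVec_mul]

theorem hom_smul {g : SLn 3 F} {v φ : Fin 3 → F} (h : IsHom g v φ) {a b : F} (ha : a ≠ 0)
    (hb : b ≠ 0) : IsHom g (a • v) (b • φ) := by
  have h1 : (b • φ) ⬝ᵥ (a • v) = b * a * (φ ⬝ᵥ v) := by
    rw [smul_dotProduct, dotProduct_smul, smul_eq_mul, smul_eq_mul, mul_assoc]
  have h3 := h.1
  refine ⟨by rw [h1]; exact mul_ne_zero (mul_ne_zero hb ha) h3, ?_⟩
  have h2 : vecMulVec (a • v) (b • φ) = (a * b) • vecMulVec v φ := by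
    ext i j
    simp only [vecMulVec_apply, Pi.smul_apply, smul_eq_mul, Matrix.smul_apply]
    ring
  have h4 : 2 / (b * a * (φ ⬝ᵥ v)) * (a * b) = 2 / (φ ⬝ᵥ v) := by
    field_simp
  rw [h.2, h1, h2, smul_smul, h4]

theorem hom_prod {g g' : SLn 3 F} {v φ φ' : Fin 3 → F} (h : IsHom g v φ) (h' : IsHom g' v φ') :
    (g * g').1 = 1 + vecMulVec v ((2 / (φ' ⬝ᵥ v)) • φ' - (2 / (φ ⬝ᵥ v)) • φ) := by
  have hE : vecMulVec v φ * vecMulVec v φ' = (φ ⬝ᵥ v) • vecMulVec v φ' := by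
    ext i j
    simp only [Matrix.mul_apply, vecMulVec_apply, Matrix.smul_apply, smul_eq_mul, dotProduct,
      Finset.sum_mul]
    exact Finset.sum_congr rfl fun k _ => by ring
  have h3 := h.1
  have ha : 2 / (φ ⬝ᵥ v) * (φ ⬝ᵥ v) = 2 := div_mul_cancel₀ _ h3
  have hR : vecMulVec v ((2 / (φ' ⬝ᵥ v)) • φ' - (2 / (φ ⬝ᵥ v)) • φ) =
      (2 / (φ' ⬝ᵥ v)) • vecMulVec v φ' - (2 / (φ ⬝ᵥ v)) • vecMulVec v φ := by
    ext i j
    simp only [vecMulVec_apply, Matrix.sub_apply, Matrix.smul_apply, smul_eq_mul, Pi.sub_apply,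
      Pi.smul_apply]
    ring
  rw [hR, sl_mul, h.2, h'.2, Matrix.sub_mul, Matrix.mul_sub, mul_one, one_mul, Matrix.smul_mul,
    Matrix.mul_smul, hE, smul_smul, smul_smul]
  have h5 : 2 / (φ ⬝ᵥ v) * (2 / (φ' ⬝ᵥ v)) * (φ ⬝ᵥ v) = 2 * (2 / (φ' ⬝ᵥ v)) := by
    linear_combination (2 / (φ' ⬝ᵥ v)) * ha
  rw [h5]
  module

theorem vertex_hom (i : Fin 3) :
    ∃ g ∈ monoSL 3 F, IsHom g (Pi.single i 1) (Pi.single i 1) := by
  obtain ⟨d, hd⟩ : ∃ d : Fin 3 → F, d = fun a => if a = i then 1 else -1 := ⟨_, rfl⟩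
  have hdet : (diagonal d).det = 1 := by
    rw [det_diagonal, Fin.prod_univ_three, hd]
    fin_cases i <;> simp
  have h1 : (Pi.single i 1 : Fin 3 → F) ⬝ᵥ Pi.single i 1 = 1 := by simp
  refine ⟨⟨diagonal d, hdet⟩, ⟨1, fun a b h => ?_⟩, ?_, ?_⟩
  · by_contra hab
    exact h (diagonal_apply_ne _ hab)
  · rw [h1]
    exact one_ne_zero
  · rw [h1]
    ext a b
    change diagonal d a b = _
    rw [Matrix.sub_apply, Matrix.smul_apply, vecMulVec_apply, Pi.single_apply, Pi.single_apply,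
      Matrix.one_apply, diagonal_apply, hd]
    by_cases hab : a = b
    · subst hab
      by_cases hai : a = i
      · simp only [hai, if_true]
        norm_num
      · simp [hai]
    · rw [if_neg hab, if_neg hab]
      by_cases hai : a = i
      · have hbi : ¬ b = i := fun h => hab (hai.trans h.symm)
        simp [hbi]
      · simp [hai]

theorem side_hom (h2 : (2 : F) ≠ 0) {i j : Fin 3} (hij : i ≠ j) {s : F} (hs : s ≠ 0) :
    ∃ g ∈ monoSL 3 F, IsHom g (Pi.single i 1 + s • Pi.single j 1)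
      (Pi.single i 1 + s⁻¹ • Pi.single j 1) := by
  obtain ⟨v, hv⟩ : ∃ v : Fin 3 → F, v = Pi.single i 1 + s • Pi.single j 1 := ⟨_, rfl⟩
  obtain ⟨φ, hφ⟩ : ∃ φ : Fin 3 → F, φ = Pi.single i 1 + s⁻¹ • Pi.single j 1 := ⟨_, rfl⟩
  have hva : ∀ a, v a = (if a = i then 1 else 0) + s * (if a = j then 1 else 0) := fun a => by
    rw [hv, Pi.add_apply, Pi.smul_apply, Pi.single_apply, Pi.single_apply, smul_eq_mul]
  have hφa : ∀ a, φ a = (if a = i then 1 else 0) + s⁻¹ * (if a = j then 1 else 0) := fun a => by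
    rw [hφ, Pi.add_apply, Pi.smul_apply, Pi.single_apply, Pi.single_apply, smul_eq_mul]
  have hji : j ≠ i := hij.symm
  have hdot : φ ⬝ᵥ v = 2 := by
    rw [dotProduct, Fin.sum_univ_three]
    simp only [hva, hφa]
    fin_cases i <;> fin_cases j <;>
      first
        | exact absurd rfl hij
        | (simp [hs]; norm_num)
  have hdet : (vecMulVec v φ - 1).det = 1 := by
    rw [det_fin_three]
    simp only [Matrix.sub_apply, vecMulVec_apply, hva, hφa, Matrix.one_apply]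
    fin_cases i <;> fin_cases j <;>
      first
        | exact absurd rfl hij
        | simp [hs]
  rw [← hv, ← hφ]
  refine ⟨⟨vecMulVec v φ - 1, hdet⟩, ⟨Equiv.swap i j, fun a b h => ?_⟩, ?_, ?_⟩
  · by_contra hab
    apply h
    change v a * φ b - (1 : Matrix (Fin 3) (Fin 3) F) a b = 0
    rw [hva, hφa, Matrix.one_apply]
    by_cases hbi : b = i
    · subst hbi
      rw [Equiv.swap_apply_left] at hab
      by_cases hai : a = b
      · simp [hai, hij]
      · simp [hai, hab]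
    · by_cases hbj : b = j
      · subst hbj
        rw [Equiv.swap_apply_right] at hab
        by_cases hai : a = b
        · simp [hai, hji, hs]
        · simp [hai, hab]
      · rw [Equiv.swap_apply_of_ne_of_ne hbi hbj] at hab
        simp [hbi, hbj, hab]
  · rw [hdot]
    exact h2
  · rw [hdot, div_self h2, one_smul]

end Pool.Agent.Work.MP_bc729a_al.LA
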