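import Pool.Agent.Work.MP_bc729a_al.LN.StabStd

/-! # Module TrK (M): transitivity of `PSL_n` on flags

PROOF. Choose a basis `b` of `F^n` adapted to `U ≤ W` (the first `finrank U` vectors form a basis of `U`, the first `finrank W` a basis
of `W`) and `b'` adapted to `U' ≤ W'`. The linear map `g` with `g b_i = b'_i` maps `U` to `U'` and `W` to `W'`; multiply `b'_0` by
`(det g)⁻¹` (`n ≥ 1`; this does not change the spans) to get `det g = 1`. Then `s = pr g`. (Other ways are welcome, e.g. complements: linear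
equivalences `U ≃ U'`, `C ≃ C'`, `D ≃ D'` with `U ⊕ C = W`, `W ⊕ D = ⊤`, glued, and the determinant corrected by composing with a
linear automorphism of determinant `(det g)⁻¹` fixing `U'` and `W'`.)
`trans_one` is the case `W = U`. -/

namespace Pool.Agent.Work.MP_bc729a_al.LA

open Pool.Agent.Work.MP_bc729a_al.LN

universe u v

variable {n : ℕ} {F : Type u} [Field F]

open Matrix

private lemma TrK_ext {A V1 V2 : Type*} [AddCommGroup A] [Module F A] [AddCommGroup V1]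
    [Module F V1] [AddCommGroup V2] [Module F V2] [FiniteDimensional F V1]
    [FiniteDimensional F V2] (h : Module.finrank F V1 = Module.finrank F V2)
    (i1 : A →ₗ[F] V1) (i2 : A →ₗ[F] V2) (h1 : Function.Injective i1)
    (h2 : Function.Injective i2) : ∃ ψ : V1 ≃ₗ[F] V2, ∀ a, ψ (i1 a) = i2 a := by
  obtain ⟨C1, hC1⟩ := (LinearMap.range i1).exists_isCompl
  obtain ⟨C2, hC2⟩ := (LinearMap.range i2).exists_isCompl
  have e1 := Submodule.finrank_add_eq_of_isCompl hC1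
  have e2 := Submodule.finrank_add_eq_of_isCompl hC2
  rw [LinearMap.finrank_range_of_inj h1] at e1
  rw [LinearMap.finrank_range_of_inj h2] at e2
  have hC : Module.finrank F C1 = Module.finrank F C2 := by omega
  let e : C1 ≃ₗ[F] C2 := LinearEquiv.ofFinrankEq _ _ hC
  let φ : LinearMap.range i1 ≃ₗ[F] LinearMap.range i2 :=
    (LinearEquiv.ofInjective i1 h1).symm ≪≫ₗ LinearEquiv.ofInjective i2 h2
  refine ⟨(Submodule.prodEquivOfIsCompl _ _ hC1).symm ≪≫ₗ (φ.prodCongr e) ≪≫ₗ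
    Submodule.prodEquivOfIsCompl _ _ hC2, fun a => ?_⟩
  have h3 : (Submodule.prodEquivOfIsCompl _ _ hC1).symm (i1 a) =
      (⟨i1 a, LinearMap.mem_range_self i1 a⟩, 0) :=
    Submodule.prodEquivOfIsCompl_symm_apply_left _ _ hC1 ⟨i1 a, LinearMap.mem_range_self i1 a⟩
  have h4 : φ ⟨i1 a, LinearMap.mem_range_self i1 a⟩ = ⟨i2 a, LinearMap.mem_range_self i2 a⟩ := by
    have h5 : (LinearEquiv.ofInjective i1 h1).symm ⟨i1 a, LinearMap.mem_range_self i1 a⟩ = a := by
      rw [LinearEquiv.symm_apply_eq]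
      rfl
    change LinearEquiv.ofInjective i2 h2 ((LinearEquiv.ofInjective i1 h1).symm _) = _
    rw [h5]
    rfl
  rw [LinearEquiv.trans_apply, LinearEquiv.trans_apply, h3, LinearEquiv.prodCongr_apply]
  simp only [map_zero]
  rw [h4, Submodule.coe_prodEquivOfIsCompl']
  simp

private lemma TrK_equiv {U W U' W' : Lat n F} (h : U ≤ W) (h' : U' ≤ W')
    (hU : Module.finrank F U = Module.finrank F U')
    (hW : Module.finrank F W = Module.finrank F W') :
    ∃ ψ : (Fin n → F) ≃ₗ[F] (Fin n → F), (∀ x ∈ U, ψ x ∈ U') ∧ ∀ x ∈ W, ψ x ∈ W' := by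
  let φ : U ≃ₗ[F] U' := LinearEquiv.ofFinrankEq _ _ hU
  obtain ⟨ψ1, h1⟩ := TrK_ext hW (Submodule.inclusion h)
    ((Submodule.inclusion h').comp φ.toLinearMap) (Submodule.inclusion_injective h)
    ((Submodule.inclusion_injective h').comp φ.injective)
  obtain ⟨ψ, h2⟩ := TrK_ext rfl W.subtype (W'.subtype.comp ψ1.toLinearMap)
    W.subtype_injective (W'.subtype_injective.comp ψ1.injective)
  refine ⟨ψ, fun x hx => ?_, fun x hx => ?_⟩
  · have h3 := h2 ⟨x, h hx⟩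
    have h4 := h1 ⟨x, hx⟩
    change ψ x = (ψ1 ⟨x, h hx⟩ : Fin n → F) at h3
    change ψ1 ⟨x, h hx⟩ = Submodule.inclusion h' (φ ⟨x, hx⟩) at h4
    rw [h3, h4]
    exact (φ ⟨x, hx⟩).2
  · have h3 := h2 ⟨x, hx⟩
    change ψ x = (ψ1 ⟨x, hx⟩ : Fin n → F) at h3
    rw [h3]
    exact (ψ1 ⟨x, hx⟩).2

private lemma TrK_vec (hn : 1 ≤ n) {U W : Lat n F} (h : U ≤ W) :
    ∃ v : Fin n → F, v ≠ 0 ∧ (U = ⊥ ∨ v ∈ U) ∧ (W = ⊥ ∨ v ∈ W) := by
  by_cases hU : U = ⊥
  · by_cases hW : W = ⊥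
    · exact ⟨Pi.single ⟨0, hn⟩ 1, by simp, Or.inl hU, Or.inl hW⟩
    · obtain ⟨v, hv, hv0⟩ := (Submodule.ne_bot_iff W).1 hW
      exact ⟨v, hv0, Or.inl hU, Or.inr hv⟩
  · obtain ⟨v, hv, hv0⟩ := (Submodule.ne_bot_iff U).1 hU
    exact ⟨v, hv0, Or.inr hv, Or.inr (h hv)⟩

/-- a matrix of determinant `c` which preserves `U` and `W` -/
private lemma TrK_scale (hn : 1 ≤ n) {U W : Lat n F} (h : U ≤ W) (c : F) :
    ∃ T : Matrix (Fin n) (Fin n) F, T.det = c ∧ (∀ x ∈ U, T *ᵥ x ∈ U) ∧ ∀ x ∈ W, T *ᵥ x ∈ W := by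
  classical
  obtain ⟨v, hv0, hU, hW⟩ := TrK_vec hn h
  obtain ⟨i, hi⟩ := Function.ne_iff.1 hv0
  change v i ≠ 0 at hi
  let φ : Fin n → F := Pi.single i ((v i)⁻¹ * (c - 1))
  have hφ : φ ⬝ᵥ v = c - 1 := by
    rw [single_dotProduct, mul_comm (v i)⁻¹, mul_assoc, inv_mul_cancel₀ hi, mul_one]
  have key : ∀ x, (1 + Matrix.vecMulVec v φ) *ᵥ x = x + (φ ⬝ᵥ x) • v := by
    intro x
    rw [Matrix.add_mulVec, Matrix.one_mulVec, Matrix.vecMulVec_mulVec, op_smul_eq_smul]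
  have hmem : ∀ S : Lat n F, (S = ⊥ ∨ v ∈ S) → ∀ x ∈ S, (1 + Matrix.vecMulVec v φ) *ᵥ x ∈ S := by
    intro S hS x hx
    rcases hS with rfl | hS
    · rw [Submodule.mem_bot] at hx
      rw [hx, Matrix.mulVec_zero]
      exact Submodule.zero_mem _
    · rw [key]
      exact S.add_mem hx (S.smul_mem _ hS)
  refine ⟨1 + Matrix.vecMulVec v φ, ?_, hmem U hU, hmem W hW⟩
  rw [Matrix.vecMulVec_eq Unit, Matrix.det_one_add_replicateCol_mul_replicateRow, hφ]
  ring

theorem trans_chain (hn : 1 ≤ n) {U W U' W' : Lat n F} (h : U ≤ W) (h' : U' ≤ W')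
    (hU : Module.finrank F U = Module.finrank F U')
    (hW : Module.finrank F W = Module.finrank F W') :
    ∃ s : PSLn n F, act n F s U = U' ∧ act n F s W = W' := by
  classical
  obtain ⟨ψ, h1, h2⟩ := TrK_equiv h h' hU hW
  have hdet : (LinearMap.toMatrix' ψ.toLinearMap).det ≠ 0 := by
    rw [LinearMap.det_toMatrix']
    exact (LinearEquiv.isUnit_det' ψ).ne_zero
  obtain ⟨T, hT, h3, h4⟩ := TrK_scale hn h' ((LinearMap.toMatrix' ψ.toLinearMap).det)⁻¹
  let g : SLn n F := ⟨T * LinearMap.toMatrix' ψ.toLinearMap, by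
    rw [Matrix.det_mul, hT, inv_mul_cancel₀ hdet]⟩
  have hg : ∀ x, g.1 *ᵥ x = T *ᵥ (ψ x) := by
    intro x
    change (T * LinearMap.toMatrix' ψ.toLinearMap) *ᵥ x = _
    rw [← Matrix.mulVec_mulVec, LinearMap.toMatrix'_mulVec]
    rfl
  have hS : ∀ S S' : Lat n F, Module.finrank F S = Module.finrank F S' →
      (∀ x ∈ S, g.1 *ᵥ x ∈ S') → actSL n F g S = S' := by
    intro S S' hf hm
    have hle : actSL n F g S ≤ S' := by
      intro y hy
      obtain ⟨x, hx, rfl⟩ := mem_actSL.1 hy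
      exact hm x hx
    refine Submodule.eq_of_le_of_finrank_eq hle ?_
    rw [← hf]
    exact LinearEquiv.finrank_map_eq (Matrix.SpecialLinearGroup.toLin' g) S
  refine ⟨pr n F g, ?_, ?_⟩
  · rw [act_pr]
    exact hS U U' hU fun x hx => by
      rw [hg]
      exact h3 _ (h1 x hx)
  · rw [act_pr]
    exact hS W W' hW fun x hx => by
      rw [hg]
      exact h4 _ (h2 x hx)

theorem trans_one (hn : 1 ≤ n) {U U' : Lat n F}
    (hU : Module.finrank F U = Module.finrank F U') : ∃ s : PSLn n F, act n F s U = U' := by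
  obtain ⟨s, hs, -⟩ := trans_chain hn (le_refl U) (le_refl U') hU hU
  exact ⟨s, hs⟩

end Pool.Agent.Work.MP_bc729a_al.LA
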