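import Pool.Agent.Work.MP_bc729a_al.LN.XTchar
import Pool.Agent.Work.MP_bc729a_al.LN.GraphT
import Pool.Agent.Work.MP_bc729a_al.LN.TypeP

/-! # Module TvInv (S-M): subspaces invariant under transvections

PROOF. Let `a = F u`. Let `c ≤ C` be an atom with `¬ a ≤ B ⊔ c`. Then `c ≤ A`: by `graphT_sep` there is `φ` vanishing on `B ⊔ c` with
`φ u = 1`; `c = F v`, `φ v = 0`, `f` = the flag `(F v, hyp φ)` (`exists_flag`) has `f.p ≤ C`, `B ≤ f.h`; `g = 1 + v ⊗ φ`
(`exists_XT` with `c = 1`, `mem_XT_iff`) maps `u ∈ A` to `u + v ∈ A` (as `actSL g A = A`), so `v ∈ A`.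
Now (1) each atom `c ≤ B` satisfies `¬ a ≤ B ⊔ c = B`, so `c ≤ A`: `B ≤ A` (`lat_atoms`). (2) An atom `c ≤ C` with `¬ c ≤ B ⊔ a` satisfies
`¬ a ≤ B ⊔ c` (exchange: if `a ≤ B ⊔ c`, `u = b + t v` with `t ≠ 0` as `u ∉ B`, so `v ∈ B ⊔ a`), so `c ≤ A`. (3) An atom
`c ≤ B ⊔ a` is `≤ A` by (1) and `haA`. So `C ≤ A` (`lat_atoms`). -/

namespace Pool.Agent.Work.MP_bc729a_al.LA

open Pool.Agent.Work.MP_bc729a_al.LN
open Matrix

universe u v

variable {n : ℕ} {F : Type u} [Field F]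

theorem le_of_transvections {A B C : Lat n F} (hBC : B ≤ C) {a : Lat n F} (ha : IsAtom a)
    (haC : a ≤ C) (haB : ¬ a ≤ B) (haA : a ≤ A)
    (h : ∀ f : Flag n F, f.p ≤ C → B ≤ f.h → ∀ g ∈ XT f.p f.h, actSL n F g A = A) : C ≤ A := by
  obtain ⟨u, hu, rfl⟩ := atom_iff.1 ha
  have huC : u ∈ C := haC (Submodule.mem_span_singleton_self u)
  have huA : u ∈ A := haA (Submodule.mem_span_singleton_self u)
  have huB : u ∉ B := fun h1 => haB ((Submodule.span_singleton_le_iff_mem _ _).2 h1)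
  have key : ∀ v ∈ C, u ∉ B ⊔ pt v → v ∈ A := by
    intro v hv hvu
    by_cases hv0 : v = 0
    · rw [hv0]
      exact Submodule.zero_mem _
    obtain ⟨φ, h1, h2⟩ := graphT_sep hvu
    have hφ0 : φ ≠ 0 := by
      rintro rfl
      rw [zero_dotProduct] at h2
      exact zero_ne_one h2
    have h3 : φ ⬝ᵥ v = 0 := h1 v (Submodule.mem_sup_right (Submodule.mem_span_singleton_self v))
    obtain ⟨f, hfp, hfh⟩ := exists_flag hv0 hφ0 h3
    obtain ⟨g, hg⟩ := exists_XT h3 1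
    have hgX : g ∈ XT f.p f.h := by
      rw [hfp, hfh]
      exact (mem_XT_iff hv0 hφ0).2 ⟨1, hg⟩
    have h4 := h f (by rw [hfp]; exact (Submodule.span_singleton_le_iff_mem _ _).2 hv)
      (by
        rw [hfh]
        intro w hw
        exact h1 w (Submodule.mem_sup_left hw)) g hgX
    have h5 : g.1 *ᵥ u ∈ A := by
      rw [← h4]
      exact mem_actSL.2 ⟨u, huA, rfl⟩
    rw [hg, xt_mulVec, one_mul, h2, one_smul] at h5
    have h6 := A.sub_mem h5 huA
    rwa [add_sub_cancel_left] at h6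
  have hBA : B ≤ A := by
    intro v hv
    refine key v (hBC hv) ?_
    have : B ⊔ pt v = B := sup_eq_left.2 ((Submodule.span_singleton_le_iff_mem _ _).2 hv)
    rw [this]
    exact huB
  intro v hv
  by_cases hvu : v ∈ B ⊔ pt u
  · exact (sup_le hBA haA) hvu
  · refine key v hv fun hcon => hvu ?_
    obtain ⟨b, hb, x, hx, hbx⟩ := Submodule.mem_sup.1 hcon
    obtain ⟨t, rfl⟩ := Submodule.mem_span_singleton.1 hx
    have ht : t ≠ 0 := by
      rintro rfl
      rw [zero_smul, add_zero] at hbx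
      exact huB (hbx ▸ hb)
    have h1 : v = t⁻¹ • (u - b) := by
      rw [← hbx, add_sub_cancel_left, smul_smul, inv_mul_cancel₀ ht, one_smul]
    rw [h1]
    exact Submodule.smul_mem _ _ (Submodule.sub_mem _
      (Submodule.mem_sup_right (Submodule.mem_span_singleton_self u)) (Submodule.mem_sup_left hb))

end Pool.Agent.Work.MP_bc729a_al.LA
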